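import Pool.Agent.Lib.MP_3a4792_mp.Base

open MeasureTheory Set InnerProductSpace FourierTransform
open scoped ContDiff InnerProductSpace SchwartzMap ENNReal

noncomputable section

namespace MP3a4792

namespace HalfLine

/-- `L²(ℝ)` -/
abbrev L2R := Lp ℂ 2 (volume : Measure ℝ)

/-- `L²(0,∞)` -/
abbrev L2P := Lp ℂ 2 (volume.restrict (Ioi (0 : ℝ)))

/-- restriction to `(0,Λ)` -/
def res (Λ : ℝ) : L2R →L[ℂ] KK Λ := LpToLpRestrictCLM ℝ ℂ ℂ volume 2 (Ioo 0 Λ)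

/-- restriction to `(0,∞)` -/
def resP : L2R →L[ℂ] L2P := LpToLpRestrictCLM ℝ ℂ ℂ volume 2 (Ioi 0)

lemma res_coeFn (Λ : ℝ) (f : L2R) : (res Λ f : ℝ → ℂ) =ᵐ[volume.restrict (Ioo 0 Λ)] f :=
  LpToLpRestrictCLM_coeFn ℂ (Ioo 0 Λ) f

lemma resP_coeFn (f : L2R) : (resP f : ℝ → ℂ) =ᵐ[volume.restrict (Ioi 0)] f :=
  LpToLpRestrictCLM_coeFn ℂ (Ioi 0) f

lemma norm_res_le (Λ : ℝ) : ‖res Λ‖ ≤ 1 := by
  refine ContinuousLinearMap.opNorm_le_bound _ zero_le_one fun f => ?_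
  rw [one_mul]
  exact norm_Lp_toLp_restrict_le (Ioo 0 Λ) f

lemma norm_resP_le : ‖resP‖ ≤ 1 := by
  refine ContinuousLinearMap.opNorm_le_bound _ zero_le_one fun f => ?_
  rw [one_mul]
  exact norm_Lp_toLp_restrict_le (Ioi 0) f

/-- the Fourier transform on `L²(ℝ)` -/
def FT : L2R →L[ℂ] L2R :=
  ((Lp.fourierTransformₗᵢ ℝ ℂ).toLinearIsometry).toContinuousLinearMap

lemma FT_apply (f : L2R) : FT f = 𝓕 f := rfl

lemma norm_FT_le : ‖FT‖ ≤ 1 := by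
  refine ContinuousLinearMap.opNorm_le_bound _ zero_le_one fun f => ?_
  rw [one_mul, FT_apply, Lp.norm_fourier_eq]

/-- `f ↦ (F f)|_{(0,∞)}` on `L²(0,Λ)` -/
def SS (Λ : ℝ) : KK Λ →L[ℂ] L2P := resP ∘L FT ∘L (ContinuousLinearMap.adjoint (res Λ))

/-- the positive part form -/
def PP (Λ : ℝ) : KK Λ →L[ℂ] KK Λ := (ContinuousLinearMap.adjoint (SS Λ)) ∘L (SS Λ)

lemma norm_SS_le (Λ : ℝ) : ‖SS Λ‖ ≤ 1 := by
  have h1 : ‖ContinuousLinearMap.adjoint (res Λ)‖ ≤ 1 := by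
    rw [LinearIsometryEquiv.norm_map]
    exact norm_res_le Λ
  refine (ContinuousLinearMap.opNorm_comp_le _ _).trans ?_
  refine mul_le_one₀ norm_resP_le (norm_nonneg _) ?_
  refine (ContinuousLinearMap.opNorm_comp_le _ _).trans ?_
  exact mul_le_one₀ norm_FT_le (norm_nonneg _) h1

lemma norm_PP_le (Λ : ℝ) : ‖PP Λ‖ ≤ 1 := by
  refine (ContinuousLinearMap.opNorm_comp_le _ _).trans ?_
  rw [LinearIsometryEquiv.norm_map]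
  exact mul_le_one₀ (norm_SS_le Λ) (norm_nonneg _) (norm_SS_le Λ)

lemma PP_inner (Λ : ℝ) (a b : KK Λ) : ⟪a, PP Λ b⟫_ℂ = ⟪SS Λ a, SS Λ b⟫_ℂ := by
  rw [PP, ContinuousLinearMap.comp_apply, ContinuousLinearMap.adjoint_inner_right]

lemma PP_symm (Λ : ℝ) (a b : KK Λ) : ⟪PP Λ a, b⟫_ℂ = ⟪a, PP Λ b⟫_ℂ := by
  rw [PP_inner, PP, ContinuousLinearMap.comp_apply, ContinuousLinearMap.adjoint_inner_left]

/-- the function `E ↦ E` as a bounded function on `(0,Λ)` -/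
lemma memLp_id (Λ : ℝ) : MemLp (fun E : ℝ => (E : ℂ)) ∞ (volume.restrict (Ioo 0 Λ)) := by
  refine memLp_top_of_bound (by fun_prop) Λ ?_
  refine (ae_restrict_iff' measurableSet_Ioo).2 (Filter.Eventually.of_forall fun x hx => ?_)
  rw [Complex.norm_real, Real.norm_eq_abs, abs_of_pos hx.1]
  exact hx.2.le

/-- multiplication by the energy -/
def MM (Λ : ℝ) : KK Λ →L[ℂ] KK Λ :=
  ((ContinuousLinearMap.mul ℂ ℂ).holderL (volume.restrict (Ioo (0 : ℝ) Λ)) ∞ 2 2)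
    ((memLp_id Λ).toLp _)

lemma MM_coeFn (Λ : ℝ) (g : KK Λ) :
    (MM Λ g : ℝ → ℂ) =ᵐ[volume.restrict (Ioo (0 : ℝ) Λ)] fun E => (E : ℂ) * g E := by
  have h1 := ContinuousLinearMap.coeFn_holder (r := 2) (ContinuousLinearMap.mul ℂ ℂ)
    ((memLp_id Λ).toLp _) g
  have h2 := (memLp_id Λ).coeFn_toLp
  filter_upwards [h1, h2] with x hx1 hx2
  rw [MM]
  refine hx1.trans ?_
  simp only [ContinuousLinearMap.mul_apply']
  rw [hx2]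

lemma norm_MM_le (Λ : ℝ) (hΛ : 0 ≤ Λ) : ‖MM Λ‖ ≤ Λ := by
  refine ContinuousLinearMap.opNorm_le_bound _ hΛ fun g => ?_
  refine Lp.norm_le_mul_norm_of_ae_le_mul ?_
  have h3 : ∀ᵐ x ∂(volume.restrict (Ioo (0 : ℝ) Λ)), x ∈ Ioo (0 : ℝ) Λ :=
    ae_restrict_mem measurableSet_Ioo
  filter_upwards [MM_coeFn Λ g, h3] with x hx hx3
  rw [hx, norm_mul, Complex.norm_real, Real.norm_eq_abs, abs_of_pos hx3.1]
  gcongr
  exact hx3.2.le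

lemma inner_KK (Λ : ℝ) (a b : KK Λ) :
    ⟪a, b⟫_ℂ = ∫ x in Ioo (0 : ℝ) Λ, starRingEnd ℂ (a x) * b x := by
  rw [L2.inner_def]
  refine integral_congr_ae (Filter.Eventually.of_forall fun x => ?_)
  simp [mul_comm]

lemma MM_symm (Λ : ℝ) (a b : KK Λ) : ⟪MM Λ a, b⟫_ℂ = ⟪a, MM Λ b⟫_ℂ := by
  rw [inner_KK, inner_KK]
  refine integral_congr_ae ?_
  filter_upwards [MM_coeFn Λ a, MM_coeFn Λ b] with x hx hx'
  rw [hx, hx']
  simp only [map_mul, Complex.conj_ofReal]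
  ring

/-- the constant function `1` -/
def one1 (Λ : ℝ) : KK Λ := (memLp_const (1 : ℂ)).toLp (fun _ => (1 : ℂ))

lemma one1_coeFn (Λ : ℝ) : (one1 Λ : ℝ → ℂ) =ᵐ[volume.restrict (Ioo (0 : ℝ) Λ)] fun _ => 1 :=
  (memLp_const (1 : ℂ)).coeFn_toLp

/-- integration -/
def EV (Λ : ℝ) : KK Λ →L[ℂ] ℂ := innerSL ℂ (one1 Λ)

lemma EV_apply (Λ : ℝ) (g : KK Λ) : EV Λ g = ∫ E in Ioo (0 : ℝ) Λ, g E := by
  rw [EV, innerSL_apply_apply, inner_KK]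
  refine integral_congr_ae ?_
  filter_upwards [one1_coeFn Λ] with x hx
  rw [hx]
  simp

/-- test functions in `(0,Λ)` -/
def Gen (Λ : ℝ) : Set (KK Λ) :=
  {v | ∃ g : ℝ → ℝ, ContDiff ℝ ∞ g ∧ HasCompactSupport g ∧ tsupport g ⊆ Ioo 0 Λ ∧
    (v : ℝ → ℂ) =ᵐ[volume.restrict (Ioo (0 : ℝ) Λ)] fun x => (g x : ℂ)}

lemma ofReal_hasCompactSupport {g : ℝ → ℝ} (hgc : HasCompactSupport g) :
    HasCompactSupport (fun x => (g x : ℂ)) :=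
  hgc.comp_left (g := fun y : ℝ => (y : ℂ)) (by simp)

lemma ofReal_contDiff {g : ℝ → ℝ} (hg : ContDiff ℝ ∞ g) :
    ContDiff ℝ ∞ (fun x => (g x : ℂ)) :=
  Complex.ofRealCLM.contDiff.comp hg

lemma dense_span_Gen (Λ : ℝ) : Dense (Submodule.span ℂ (Gen Λ) : Set (KK Λ)) := by
  rw [Submodule.dense_iff_topologicalClosure_eq_top, Submodule.topologicalClosure_eq_top_iff,
    Submodule.eq_bot_iff]
  intro w hw
  have hint : LocallyIntegrableOn (w : ℝ → ℂ) (Ioo 0 Λ) volume := by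
    have h1 : IntegrableOn (w : ℝ → ℂ) (Ioo 0 Λ) volume :=
      (Lp.memLp w).integrable (by norm_num)
    exact h1.locallyIntegrableOn
  have h0 : ∀ᵐ x ∂(volume : Measure ℝ), x ∈ Ioo 0 Λ → (w : ℝ → ℂ) x = 0 := by
    refine isOpen_Ioo.ae_eq_zero_of_integral_contDiff_smul_eq_zero hint ?_
    intro g hg hgc hgs
    have hmem : MemLp (fun x => (g x : ℂ)) 2 (volume.restrict (Ioo 0 Λ)) :=
      (ofReal_contDiff hg).continuous.memLp_of_hasCompactSupport (ofReal_hasCompactSupport hgc)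
    have hv : (hmem.toLp _ : KK Λ) ∈ Gen Λ := ⟨g, hg, hgc, hgs, hmem.coeFn_toLp⟩
    have h2 := (Submodule.mem_orthogonal _ _).1 hw _ (Submodule.subset_span hv)
    rw [inner_KK] at h2
    have h3 : ∫ x, g x • (w : ℝ → ℂ) x = ∫ x in Ioo 0 Λ, g x • (w : ℝ → ℂ) x := by
      rw [setIntegral_eq_integral_of_forall_compl_eq_zero]
      intro x hx
      have : g x = 0 := by
        by_contra hne
        exact hx (hgs (subset_tsupport _ hne))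
      rw [this, zero_smul]
    rw [h3, ← h2]
    refine integral_congr_ae ?_
    filter_upwards [hmem.coeFn_toLp] with x hx
    rw [hx]
    simp
  refine Lp.ext ?_
  have h4 : ∀ᵐ x ∂(volume.restrict (Ioo (0 : ℝ) Λ)), (w : ℝ → ℂ) x = 0 :=
    (ae_restrict_iff' measurableSet_Ioo).2 h0
  filter_upwards [h4, Lp.coeFn_zero ℂ 2 (volume.restrict (Ioo (0 : ℝ) Λ))] with x hx hx'
  rw [hx, hx']
  rfl

lemma adj_res_eq (Λ : ℝ) (v : KK Λ) (φ : 𝓢(ℝ, ℂ)) (h0 : ∀ x, x ∉ Ioo 0 Λ → φ x = 0)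
    (hv : (v : ℝ → ℂ) =ᵐ[volume.restrict (Ioo (0 : ℝ) Λ)] φ) :
    ContinuousLinearMap.adjoint (res Λ) v = φ.toLp 2 := by
  refine ext_inner_right ℂ fun h => ?_
  rw [ContinuousLinearMap.adjoint_inner_left, inner_KK, L2.inner_def]
  have h3 : ∫ x, ⟪(φ.toLp 2 : ℝ → ℂ) x, (h : ℝ → ℂ) x⟫_ℂ
      = ∫ x, starRingEnd ℂ (φ x) * (h : ℝ → ℂ) x := by
    refine integral_congr_ae ?_
    filter_upwards [φ.coeFn_toLp 2] with x hx
    rw [hx]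
    simp [mul_comm]
  have h4 : ∫ x in Ioo 0 Λ, starRingEnd ℂ (φ x) * (h : ℝ → ℂ) x
      = ∫ x, starRingEnd ℂ (φ x) * (h : ℝ → ℂ) x := by
    refine setIntegral_eq_integral_of_forall_compl_eq_zero fun x hx => ?_
    rw [h0 x hx]
    simp
  rw [h3, ← h4]
  refine integral_congr_ae ?_
  filter_upwards [hv, res_coeFn Λ h] with x hx hx'
  rw [hx, hx']

lemma SS_coeFn (Λ : ℝ) (v : KK Λ) (φ : 𝓢(ℝ, ℂ)) (h0 : ∀ x, x ∉ Ioo 0 Λ → φ x = 0)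
    (hv : (v : ℝ → ℂ) =ᵐ[volume.restrict (Ioo (0 : ℝ) Λ)] φ) :
    (SS Λ v : ℝ → ℂ) =ᵐ[volume.restrict (Ioi (0 : ℝ))] (𝓕 φ : 𝓢(ℝ, ℂ)) := by
  have h1 : SS Λ v = resP ((𝓕 φ : 𝓢(ℝ, ℂ)).toLp 2) := by
    rw [SS, ContinuousLinearMap.comp_apply, ContinuousLinearMap.comp_apply,
      adj_res_eq Λ v φ h0 hv, FT_apply, SchwartzMap.toLp_fourier_eq]
  rw [h1]
  exact (resP_coeFn _).trans (ae_restrict_of_ae ((𝓕 φ : 𝓢(ℝ, ℂ)).coeFn_toLp 2 volume))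

lemma hasDerivAt_fourier_sch (φ ψ : 𝓢(ℝ, ℂ)) (h : ∀ x, ψ x = (x : ℂ) * φ x) (t : ℝ) :
    HasDerivAt (𝓕 φ : 𝓢(ℝ, ℂ)) (-(2 * Real.pi * Complex.I) * (𝓕 ψ : 𝓢(ℝ, ℂ)) t) t := by
  have h1 : Integrable (fun x : ℝ => x • φ x) := by
    have h2 : (fun x : ℝ => x • φ x) = ψ := by
      ext x
      rw [h x]
      simp
    rw [h2]
    exact ψ.integrable
  have h3 := Real.hasDerivAt_fourier φ.integrable h1 t
  have h4 : 𝓕 (fun x : ℝ ↦ (-2 * (Real.pi : ℂ) * Complex.I * x) • φ x) t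
      = -(2 * Real.pi * Complex.I) * (𝓕 ψ : 𝓢(ℝ, ℂ)) t := by
    rw [SchwartzMap.fourier_coe, Real.fourier_real_eq, Real.fourier_real_eq,
      ← integral_const_mul]
    refine integral_congr_ae (Filter.Eventually.of_forall fun x => ?_)
    simp only [h x, smul_eq_mul, Circle.smul_def]
    ring
  rw [h4] at h3
  exact h3

lemma integrable_conj_mul (A B : 𝓢(ℝ, ℂ)) :
    Integrable (fun t : ℝ => starRingEnd ℂ (A t) * B t) := by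
  have h1 : MemLp (star (A : ℝ → ℂ)) 2 (volume : Measure ℝ) := (A.memLp 2 volume).star
  have h2 := h1.integrable_mul (B.memLp 2 volume)
  exact h2

lemma key_integral (φ₁ φ₂ ψ₁ ψ₂ : 𝓢(ℝ, ℂ)) (h1 : ∀ x, ψ₁ x = (x : ℂ) * φ₁ x)
    (h2 : ∀ x, ψ₂ x = (x : ℂ) * φ₂ x) :
    (∫ t in Ioi (0 : ℝ), starRingEnd ℂ ((𝓕 ψ₁ : 𝓢(ℝ, ℂ)) t) * (𝓕 φ₂ : 𝓢(ℝ, ℂ)) t)
      - (∫ t in Ioi (0 : ℝ), starRingEnd ℂ ((𝓕 φ₁ : 𝓢(ℝ, ℂ)) t) * (𝓕 ψ₂ : 𝓢(ℝ, ℂ)) t)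
      = Complex.I * ((1 / (2 * Real.pi) : ℝ) : ℂ) *
        (starRingEnd ℂ (∫ x, φ₁ x) * (∫ x, φ₂ x)) := by
  have hpi : (Real.pi : ℂ) ≠ 0 := by exact_mod_cast Real.pi_ne_zero
  rw [← integral_sub (integrable_conj_mul _ _).integrableOn (integrable_conj_mul _ _).integrableOn]
  have hder : ∀ t ∈ Ici (0 : ℝ), HasDerivAt
      (fun t => -(Complex.I * ((1 / (2 * Real.pi) : ℝ) : ℂ)) *
        (starRingEnd ℂ ((𝓕 φ₁ : 𝓢(ℝ, ℂ)) t) * (𝓕 φ₂ : 𝓢(ℝ, ℂ)) t))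
      (starRingEnd ℂ ((𝓕 ψ₁ : 𝓢(ℝ, ℂ)) t) * (𝓕 φ₂ : 𝓢(ℝ, ℂ)) t
        - starRingEnd ℂ ((𝓕 φ₁ : 𝓢(ℝ, ℂ)) t) * (𝓕 ψ₂ : 𝓢(ℝ, ℂ)) t) t := by
    intro t _
    have h3 := hasDerivAt_fourier_sch φ₁ ψ₁ h1 t
    have h4 := hasDerivAt_fourier_sch φ₂ ψ₂ h2 t
    have h5 : HasDerivAt (fun t => starRingEnd ℂ ((𝓕 φ₁ : 𝓢(ℝ, ℂ)) t))
        (starRingEnd ℂ (-(2 * Real.pi * Complex.I) * (𝓕 ψ₁ : 𝓢(ℝ, ℂ)) t)) t := h3.star
    have h6 := (h5.mul h4).const_mul (-(Complex.I * ((1 / (2 * Real.pi) : ℝ) : ℂ)))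
    refine HasDerivAt.congr_deriv h6 ?_
    simp only [map_mul, map_neg, Complex.conj_I, Complex.conj_ofReal, map_ofNat]
    push_cast
    field_simp
    ring_nf
    simp only [Complex.I_sq]
    ring
  have hint : IntegrableOn (fun t => starRingEnd ℂ ((𝓕 ψ₁ : 𝓢(ℝ, ℂ)) t) * (𝓕 φ₂ : 𝓢(ℝ, ℂ)) t
        - starRingEnd ℂ ((𝓕 φ₁ : 𝓢(ℝ, ℂ)) t) * (𝓕 ψ₂ : 𝓢(ℝ, ℂ)) t) (Ioi (0 : ℝ)) volume :=
    ((integrable_conj_mul _ _).sub (integrable_conj_mul _ _)).integrableOn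
  have hlim : Filter.Tendsto (fun t => -(Complex.I * ((1 / (2 * Real.pi) : ℝ) : ℂ)) *
        (starRingEnd ℂ ((𝓕 φ₁ : 𝓢(ℝ, ℂ)) t) * (𝓕 φ₂ : 𝓢(ℝ, ℂ)) t)) Filter.atTop (nhds 0) := by
    have h7 : Filter.Tendsto (fun t => (𝓕 φ₁ : 𝓢(ℝ, ℂ)) t) Filter.atTop (nhds 0) :=
      ((𝓕 φ₁ : 𝓢(ℝ, ℂ)).tendsto_cocompact).mono_left _root_.atTop_le_cocompact
    have h8 : Filter.Tendsto (fun t => (𝓕 φ₂ : 𝓢(ℝ, ℂ)) t) Filter.atTop (nhds 0) :=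
      ((𝓕 φ₂ : 𝓢(ℝ, ℂ)).tendsto_cocompact).mono_left _root_.atTop_le_cocompact
    have h9 : Filter.Tendsto (fun t => starRingEnd ℂ ((𝓕 φ₁ : 𝓢(ℝ, ℂ)) t)) Filter.atTop (nhds 0) := by
      have h12 := (Complex.continuous_conj.tendsto 0).comp h7
      rw [map_zero] at h12
      exact h12
    have h10 := (h9.mul h8).const_mul (-(Complex.I * ((1 / (2 * Real.pi) : ℝ) : ℂ)))
    simpa using h10
  rw [integral_Ioi_of_hasDerivAt_of_tendsto' hder hint hlim]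
  have h11 : ∀ φ : 𝓢(ℝ, ℂ), (𝓕 φ : 𝓢(ℝ, ℂ)) 0 = ∫ x, φ x := by
    intro φ
    rw [SchwartzMap.fourier_coe, Real.fourier_real_eq]
    simp
  rw [h11, h11]
  ring

lemma inner_L2P (f g : L2P) :
    ⟪f, g⟫_ℂ = ∫ t in Ioi (0 : ℝ), starRingEnd ℂ (f t) * g t := by
  rw [L2.inner_def]
  refine integral_congr_ae (Filter.Eventually.of_forall fun x => ?_)
  simp [mul_comm]

lemma gen_identity (Λ : ℝ) (a b : KK Λ) (ha : a ∈ Gen Λ) (hb : b ∈ Gen Λ) :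
    ⟪MM Λ a, PP Λ b⟫_ℂ - ⟪a, PP Λ (MM Λ b)⟫_ℂ
      = Complex.I * ((1 / (2 * Real.pi) : ℝ) : ℂ) * (starRingEnd ℂ (EV Λ a) * EV Λ b) := by
  have hgen : ∀ v : KK Λ, v ∈ Gen Λ → ∃ φ ψ : 𝓢(ℝ, ℂ), (∀ x, x ∉ Ioo 0 Λ → φ x = 0) ∧
      (∀ x, ψ x = (x : ℂ) * φ x) ∧ ((v : ℝ → ℂ) =ᵐ[volume.restrict (Ioo (0 : ℝ) Λ)] φ) := by
    rintro v ⟨g, hg, hgc, hgs, hv⟩
    have hψc : HasCompactSupport (fun x : ℝ => (x : ℂ) * (g x : ℂ)) :=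
      (ofReal_hasCompactSupport hgc).mul_left
    have hψd : ContDiff ℝ ∞ (fun x : ℝ => (x : ℂ) * (g x : ℂ)) :=
      Complex.ofRealCLM.contDiff.mul (ofReal_contDiff hg)
    refine ⟨(ofReal_hasCompactSupport hgc).toSchwartzMap (ofReal_contDiff hg),
      hψc.toSchwartzMap hψd, ?_, ?_, ?_⟩
    · intro x hx
      have h1 : g x = 0 := by
        by_contra hne
        exact hx (hgs (subset_tsupport _ hne))
      simp [h1]
    · intro x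
      rfl
    · exact hv
  obtain ⟨φ₁, ψ₁, h1, h1', hv1⟩ := hgen a ha
  obtain ⟨φ₂, ψ₂, h2, h2', hv2⟩ := hgen b hb
  have hM1 : (MM Λ a : ℝ → ℂ) =ᵐ[volume.restrict (Ioo (0 : ℝ) Λ)] ψ₁ := by
    filter_upwards [MM_coeFn Λ a, hv1] with x hx hx'
    rw [hx, hx', h1']
  have hM2 : (MM Λ b : ℝ → ℂ) =ᵐ[volume.restrict (Ioo (0 : ℝ) Λ)] ψ₂ := by
    filter_upwards [MM_coeFn Λ b, hv2] with x hx hx'
    rw [hx, hx', h2']
  have hz1 : ∀ x, x ∉ Ioo 0 Λ → ψ₁ x = 0 := fun x hx => by rw [h1', h1 x hx, mul_zero]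
  have hz2 : ∀ x, x ∉ Ioo 0 Λ → ψ₂ x = 0 := fun x hx => by rw [h2', h2 x hx, mul_zero]
  have hE : ∀ (v : KK Λ) (φ : 𝓢(ℝ, ℂ)), (∀ x, x ∉ Ioo 0 Λ → φ x = 0) →
      ((v : ℝ → ℂ) =ᵐ[volume.restrict (Ioo (0 : ℝ) Λ)] φ) → EV Λ v = ∫ x, φ x := by
    intro v φ hφ hv
    rw [EV_apply, integral_congr_ae hv]
    exact setIntegral_eq_integral_of_forall_compl_eq_zero hφ
  rw [PP_inner, PP_inner, inner_L2P, inner_L2P, hE a φ₁ h1 hv1, hE b φ₂ h2 hv2,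
    ← key_integral φ₁ φ₂ ψ₁ ψ₂ h1' h2']
  congr 1
  · refine integral_congr_ae ?_
    filter_upwards [SS_coeFn Λ _ ψ₁ hz1 hM1, SS_coeFn Λ _ φ₂ h2 hv2] with t ht ht'
    rw [ht, ht']
  · refine integral_congr_ae ?_
    filter_upwards [SS_coeFn Λ _ φ₁ h1 hv1, SS_coeFn Λ _ ψ₂ hz2 hM2] with t ht ht'
    rw [ht, ht']

/-- the identity, as a predicate -/
def Ident (Λ : ℝ) (a b : KK Λ) : Prop :=
  ⟪MM Λ a, PP Λ b⟫_ℂ - ⟪a, PP Λ (MM Λ b)⟫_ℂ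
      = Complex.I * ((1 / (2 * Real.pi) : ℝ) : ℂ) * (starRingEnd ℂ (EV Λ a) * EV Λ b)

lemma ident_left (Λ : ℝ) (b : KK Λ) (h : ∀ a ∈ Gen Λ, Ident Λ a b) (a : KK Λ) :
    Ident Λ a b := by
  have hspan : ∀ a ∈ (Submodule.span ℂ (Gen Λ) : Set (KK Λ)), Ident Λ a b := by
    intro a ha
    refine Submodule.span_induction (p := fun a _ => Ident Λ a b) h ?_ ?_ ?_ ha
    · simp [Ident]
    · intro x y _ _ hx hy
      simp only [Ident, map_add, inner_add_left, add_mul] at hx hy ⊢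
      rw [mul_add, ← hx, ← hy]
      ring
    · intro c x _ hx
      simp only [Ident, map_smul, inner_smul_left, smul_eq_mul, map_mul] at hx ⊢
      rw [← mul_sub, hx]
      ring
  have hcl : IsClosed {a : KK Λ | Ident Λ a b} := by
    refine isClosed_eq ?_ ?_
    · exact ((MM Λ).continuous.inner continuous_const).sub (continuous_id.inner continuous_const)
    · exact continuous_const.mul
        ((Complex.continuous_conj.comp (EV Λ).continuous).mul continuous_const)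
  have h1 : closure (Submodule.span ℂ (Gen Λ) : Set (KK Λ)) ⊆ {a : KK Λ | Ident Λ a b} :=
    hcl.closure_subset_iff.2 hspan
  rw [(dense_span_Gen Λ).closure_eq] at h1
  exact h1 (mem_univ a)

lemma ident_all (Λ : ℝ) (a b : KK Λ) : Ident Λ a b := by
  have hspan : ∀ b ∈ (Submodule.span ℂ (Gen Λ) : Set (KK Λ)), Ident Λ a b := by
    intro b hb
    refine Submodule.span_induction (p := fun b _ => Ident Λ a b) ?_ ?_ ?_ ?_ hb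
    · intro b hb
      exact ident_left Λ b (fun a ha => gen_identity Λ a b ha hb) a
    · simp [Ident]
    · intro x y _ _ hx hy
      simp only [Ident, map_add, inner_add_right, mul_add] at hx hy ⊢
      rw [← hx, ← hy]
      ring
    · intro c x _ hx
      simp only [Ident, map_smul, inner_smul_right, smul_eq_mul] at hx ⊢
      rw [← mul_sub, hx]
      ring
  have hcl : IsClosed {b : KK Λ | Ident Λ a b} := by
    refine isClosed_eq ?_ ?_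
    · exact (continuous_const.inner (PP Λ).continuous).sub
        (continuous_const.inner ((PP Λ).continuous.comp (MM Λ).continuous))
    · exact continuous_const.mul (continuous_const.mul (EV Λ).continuous)
  have h1 : closure (Submodule.span ℂ (Gen Λ) : Set (KK Λ)) ⊆ {b : KK Λ | Ident Λ a b} :=
    hcl.closure_subset_iff.2 hspan
  rw [(dense_span_Gen Λ).closure_eq] at h1
  exact h1 (mem_univ b)

end HalfLine

theorem exists_halfLine_form (Λ : ℝ) (hΛ : 0 < Λ) :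
    ∃ (M P : KK Λ →L[ℂ] KK Λ) (ev : KK Λ →L[ℂ] ℂ) (c : ℝ), 0 < c ∧
      (∀ g : KK Λ, (M g : ℝ → ℂ) =ᵐ[volume.restrict (Ioo (0 : ℝ) Λ)] fun E => (E : ℂ) * g E) ∧
      (∀ g : KK Λ, ev g = ∫ E in Ioo (0 : ℝ) Λ, g E) ∧
      (‖M‖ ≤ Λ) ∧ (‖P‖ ≤ 1) ∧
      (∀ a b : KK Λ, ⟪M a, b⟫_ℂ = ⟪a, M b⟫_ℂ) ∧ (∀ a b : KK Λ, ⟪P a, b⟫_ℂ = ⟪a, P b⟫_ℂ) ∧
      (∀ a b : KK Λ, ⟪M a, P b⟫_ℂ - ⟪a, P (M b)⟫_ℂ
        = Complex.I * (c : ℂ) * (starRingEnd ℂ (ev a) * ev b)) :=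
  ⟨HalfLine.MM Λ, HalfLine.PP Λ, HalfLine.EV Λ, 1 / (2 * Real.pi), by positivity,
    HalfLine.MM_coeFn Λ, HalfLine.EV_apply Λ, HalfLine.norm_MM_le Λ hΛ.le, HalfLine.norm_PP_le Λ,
    HalfLine.MM_symm Λ, HalfLine.PP_symm Λ, HalfLine.ident_all Λ⟩

end MP3a4792

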