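import Pool.Agent.Lib.MP_3a4792_mp.Base

/-! Sobolev and trace inequalities for test functions on the plane. -/

open MeasureTheory Set InnerProductSpace
open scoped ContDiff Laplacian InnerProductSpace FourierTransform LineDeriv SchwartzMap

noncomputable section

namespace MP3a4792

namespace Sob

/-- a test function as a Schwartz function -/
def sch (u : TF) : 𝓢(E2, ℂ) := (TF.hasCompactSupport u).toSchwartzMap (TF.contDiff u)

@[simp] lemma sch_apply (u : TF) (x : E2) : sch u x = u.1 x := rfl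

lemma sch_coe (u : TF) : (sch u : E2 → ℂ) = u.1 := rfl

lemma norm_sq_toL2 (u : TF) : ‖toL2 u‖ ^ 2 = ∫ x, ‖u.1 x‖ ^ 2 := by
  have h := L2.inner_def (𝕜 := ℂ) (toL2 u) (toL2 u)
  rw [inner_self_eq_norm_sq_to_K] at h
  have h2 : ∫ x, ⟪toL2 u x, toL2 u x⟫_ℂ = ((∫ x, ‖u.1 x‖ ^ 2 : ℝ) : ℂ) := by
    rw [← integral_complex_ofReal]
    apply integral_congr_ae
    filter_upwards [coeFn_toL2 u] with x hx
    rw [hx, inner_self_eq_norm_sq_to_K]
    push_cast
    rfl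
  rw [h2] at h
  apply Complex.ofReal_injective
  rw [← h]
  push_cast
  rfl

lemma N2_nonneg (u : TF) : 0 ≤ N2 u := add_nonneg (norm_nonneg _) (norm_nonneg _)

/-- the weight `1 + (2π)²‖v‖²` -/
def wt (v : E2) : ℝ := 1 + (2 * Real.pi) ^ 2 * ‖v‖ ^ 2

lemma wt_pos (v : E2) : 0 < wt v := by unfold wt; positivity

lemma fourier_lap (u : TF) (v : E2) :
    𝓕 (sch (lap u)) v = -((2 * Real.pi) ^ 2 * ‖v‖ ^ 2 : ℝ) * 𝓕 (sch u) v := by
  have h1 : sch (lap u) = Δ (sch u) := by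
    ext x
    rw [SchwartzMap.laplacian_apply]
    rfl
  rw [h1, SchwartzMap.laplacian_eq_fourierMultiplierCLM, SchwartzMap.fourierMultiplierCLM_apply]
  have h2 : 𝓕 (-(2 * Real.pi) ^ 2 • 𝓕⁻ (SchwartzMap.smulLeftCLM ℂ (fun x : E2 => ‖x‖ ^ 2) (𝓕 (sch u)))) =
      -(2 * Real.pi) ^ 2 • (SchwartzMap.smulLeftCLM ℂ (fun x : E2 => ‖x‖ ^ 2) (𝓕 (sch u))) := by
    rw [FourierTransform.fourier_smul, FourierTransform.fourier_fourierInv_eq]
  rw [h2, _root_.smul_apply, SchwartzMap.smulLeftCLM_apply_apply (by fun_prop)]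
  simp
  ring

lemma fourier_helm (u : TF) (v : E2) :
    𝓕 (sch (u - lap u)) v = (wt v : ℂ) * 𝓕 (sch u) v := by
  have h1 : sch (u - lap u) = sch u - sch (lap u) := by
    ext x
    rfl
  have h2 : 𝓕 (sch u - sch (lap u)) = 𝓕 (sch u) - 𝓕 (sch (lap u)) := by
    rw [sub_eq_add_neg, FourierTransform.fourier_add, FourierTransform.fourier_neg, sub_eq_add_neg]
  rw [h1, h2, _root_.sub_apply, fourier_lap, wt]
  push_cast
  ring

/-- the basic weighted bound -/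
lemma weighted (u : TF) : ∫ v : E2, (wt v * ‖𝓕 (sch u) v‖) ^ 2 ≤ N2 u ^ 2 := by
  have h1 : ∀ v : E2, (wt v * ‖𝓕 (sch u) v‖) ^ 2 = ‖𝓕 (sch (u - lap u)) v‖ ^ 2 := by
    intro v
    rw [fourier_helm, norm_mul, Complex.norm_real, Real.norm_eq_abs, abs_of_pos (wt_pos v)]
  simp_rw [h1]
  rw [SchwartzMap.integral_norm_sq_fourier]
  have h2 := norm_sq_toL2 (u - lap u)
  have h3 : ∫ x, ‖(sch (u - lap u)) x‖ ^ 2 = ‖toL2 (u - lap u)‖ ^ 2 := h2.symm
  rw [h3, map_sub]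
  exact pow_le_pow_left₀ (norm_nonneg _) (norm_sub_le _ _) 2

lemma one_add_sq_le_wt (v : E2) : 1 + ‖v‖ ^ 2 ≤ wt v := by
  unfold wt
  have h1 : 1 ≤ (2 * Real.pi) ^ 2 := by
    have := Real.pi_gt_three
    nlinarith
  nlinarith [sq_nonneg ‖v‖]

lemma continuous_wt : Continuous wt := by unfold wt; fun_prop

lemma int_wt {r : ℝ} (hr : 2 < r) : Integrable (fun v : E2 => ((1 : ℝ) + ‖v‖ ^ 2) ^ (-r / 2)) :=
  integrable_rpow_neg_one_add_norm_sq (by simpa using hr)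

lemma int_one : Integrable (fun v : E2 => (1 / wt v) ^ 2) := by
  refine (int_wt (r := 4) (by norm_num)).mono' ?_ (Filter.Eventually.of_forall fun v => ?_)
  · exact ((continuous_const.div continuous_wt fun v => (wt_pos v).ne').pow 2).aestronglyMeasurable
  · rw [Real.norm_eq_abs, abs_of_nonneg (by positivity)]
    have h0 : 0 < 1 + ‖v‖ ^ 2 := by positivity
    rw [show (-(4:ℝ) / 2) = -((2 : ℕ) : ℝ) by norm_num, Real.rpow_neg h0.le, Real.rpow_natCast,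
      div_pow, one_pow, one_div]
    apply inv_anti₀ (by positivity)
    exact pow_le_pow_left₀ h0.le (one_add_sq_le_wt v) 2

lemma int_sqrt : Integrable (fun v : E2 => (Real.sqrt ‖v‖ / wt v) ^ 2) := by
  refine (int_wt (r := 3) (by norm_num)).mono' ?_ (Filter.Eventually.of_forall fun v => ?_)
  · exact (((Real.continuous_sqrt.comp continuous_norm).div continuous_wt
      fun v => (wt_pos v).ne').pow 2).aestronglyMeasurable
  · rw [Real.norm_eq_abs, abs_of_nonneg (by positivity), div_pow, Real.sq_sqrt (norm_nonneg _)]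
    have h0 : 0 < 1 + ‖v‖ ^ 2 := by positivity
    have h1 : ‖v‖ ≤ Real.sqrt (1 + ‖v‖ ^ 2) := Real.le_sqrt_of_sq_le (by linarith)
    have h2 : (1 + ‖v‖ ^ 2) ^ 2 ≤ wt v ^ 2 := pow_le_pow_left₀ h0.le (one_add_sq_le_wt v) 2
    calc ‖v‖ / wt v ^ 2 ≤ Real.sqrt (1 + ‖v‖ ^ 2) / (1 + ‖v‖ ^ 2) ^ 2 :=
          div_le_div₀ (Real.sqrt_nonneg _) h1 (by positivity) h2
      _ = (1 + ‖v‖ ^ 2) ^ (-(3:ℝ) / 2) := by
          rw [Real.sqrt_eq_rpow, ← Real.rpow_natCast (1 + ‖v‖ ^ 2) 2, ← Real.rpow_sub h0]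
          norm_num

lemma memLp_F (u : TF) : MemLp (fun v : E2 => wt v * ‖𝓕 (sch u) v‖) 2 := by
  have h1 : (fun v : E2 => wt v * ‖𝓕 (sch u) v‖) = fun v => ‖𝓕 (sch (u - lap u)) v‖ := by
    funext v
    rw [fourier_helm, norm_mul, Complex.norm_real, Real.norm_eq_abs, abs_of_pos (wt_pos v)]
  rw [h1]
  exact ((𝓕 (sch (u - lap u))).memLp 2).norm

/-- weighted Cauchy-Schwarz -/
lemma cs (u : TF) {h : E2 → ℝ} (hc : Continuous h) (h0 : ∀ v, 0 ≤ h v)
    (hi : Integrable (fun v => (h v / wt v) ^ 2)) :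
    ∫ v, h v * ‖𝓕 (sch u) v‖ ≤ Real.sqrt (∫ v, (h v / wt v) ^ 2) * N2 u := by
  have h1 : MemLp (fun v => h v / wt v) (ENNReal.ofReal 2) := by
    rw [ENNReal.ofReal_ofNat]
    exact (memLp_two_iff_integrable_sq
      (hc.div continuous_wt fun v => (wt_pos v).ne').aestronglyMeasurable).mpr hi
  have h2 : MemLp (fun v => wt v * ‖𝓕 (sch u) v‖) (ENNReal.ofReal 2) := by
    rw [ENNReal.ofReal_ofNat]
    exact memLp_F u
  have key := integral_mul_le_Lp_mul_Lq_of_nonneg (μ := (volume : Measure E2))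
    Real.HolderConjugate.two_two
    (Filter.Eventually.of_forall fun v => div_nonneg (h0 v) (wt_pos v).le)
    (Filter.Eventually.of_forall fun v => mul_nonneg (wt_pos v).le (norm_nonneg _)) h1 h2
  have h3 : ∀ v, h v / wt v * (wt v * ‖𝓕 (sch u) v‖) = h v * ‖𝓕 (sch u) v‖ := by
    intro v
    have := (wt_pos v).ne'
    field_simp
  simp only [h3] at key
  refine key.trans ?_
  simp only [Real.rpow_two]
  rw [← Real.sqrt_eq_rpow, ← Real.sqrt_eq_rpow]
  apply mul_le_mul_of_nonneg_left _ (Real.sqrt_nonneg _)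
  exact (Real.sqrt_le_sqrt (weighted u)).trans (le_of_eq (Real.sqrt_sq (N2_nonneg u)))

lemma inversion (u : TF) (x : E2) :
    u.1 x = ∫ v : E2, Complex.exp ((2 * Real.pi * ⟪v, x⟫_ℝ : ℝ) * Complex.I) * 𝓕 (sch u) v := by
  have h1 : sch u = 𝓕⁻ (𝓕 (sch u)) := (FourierTransform.fourierInv_fourier_eq _).symm
  calc u.1 x = (𝓕⁻ (𝓕 (sch u))) x := by rw [← h1]; rfl
    _ = _ := by
      rw [SchwartzMap.fourierInv_coe, Real.fourierInv_eq']
      rfl

lemma sup_bound (u : TF) (x : E2) :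
    ‖u.1 x‖ ≤ Real.sqrt (∫ v : E2, (1 / wt v) ^ 2) * N2 u := by
  rw [inversion u x]
  refine (norm_integral_le_integral_norm _).trans ?_
  refine le_trans (le_of_eq ?_) (cs u (h := fun _ => 1) continuous_const (fun _ => zero_le_one) int_one)
  congr 1
  funext v
  rw [norm_mul, Complex.norm_exp_ofReal_mul_I]

lemma exp_diff (a b : ℝ) : ‖Complex.exp (a * Complex.I) - Complex.exp (b * Complex.I)‖ ≤
    Real.sqrt (2 * |a - b|) := by
  apply Real.le_sqrt_of_sq_le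
  have h1 : ‖Complex.exp (a * Complex.I) - Complex.exp (b * Complex.I)‖ ≤ 2 := by
    refine (norm_sub_le _ _).trans ?_
    rw [Complex.norm_exp_ofReal_mul_I, Complex.norm_exp_ofReal_mul_I]
    norm_num
  have h2 : ‖Complex.exp (a * Complex.I) - Complex.exp (b * Complex.I)‖ ≤ |a - b| := by
    have e : Complex.exp (a * Complex.I) - Complex.exp (b * Complex.I) =
        Complex.exp (b * Complex.I) * (Complex.exp (Complex.I * ((a - b : ℝ) : ℂ)) - 1) := by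
      rw [mul_sub, ← Complex.exp_add, mul_one]
      congr 2
      push_cast
      ring
    rw [e, norm_mul, Complex.norm_exp_ofReal_mul_I, one_mul]
    exact Real.norm_exp_I_mul_ofReal_sub_one_le
  nlinarith [norm_nonneg (Complex.exp (a * Complex.I) - Complex.exp (b * Complex.I))]

lemma hoelder_bound (u : TF) (x y : E2) :
    ‖u.1 x - u.1 y‖ ≤ Real.sqrt (4 * Real.pi) * Real.sqrt (∫ v : E2, (Real.sqrt ‖v‖ / wt v) ^ 2) *
      Real.sqrt ‖x - y‖ * N2 u := by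
  have hF : Integrable (fun v : E2 => (𝓕 (sch u) : 𝓢(E2, ℂ)) v) :=
    (𝓕 (sch u) : 𝓢(E2, ℂ)).integrable
  have hi : ∀ z : E2, Integrable (fun v : E2 =>
      Complex.exp ((2 * Real.pi * ⟪v, z⟫_ℝ : ℝ) * Complex.I) * 𝓕 (sch u) v) := by
    intro z
    refine hF.mono ?_ (Filter.Eventually.of_forall fun v => ?_)
    · apply Continuous.aestronglyMeasurable
      have := (𝓕 (sch u)).continuous
      fun_prop
    · rw [norm_mul, Complex.norm_exp_ofReal_mul_I, one_mul]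
  rw [inversion u x, inversion u y, ← integral_sub (hi x) (hi y)]
  refine (norm_integral_le_integral_norm _).trans ?_
  have hc := cs u (h := fun v => Real.sqrt ‖v‖) (Real.continuous_sqrt.comp continuous_norm)
    (fun _ => Real.sqrt_nonneg _) int_sqrt
  have hpt : ∀ v : E2, ‖Complex.exp ((2 * Real.pi * ⟪v, x⟫_ℝ : ℝ) * Complex.I) * 𝓕 (sch u) v -
      Complex.exp ((2 * Real.pi * ⟪v, y⟫_ℝ : ℝ) * Complex.I) * 𝓕 (sch u) v‖ ≤
      Real.sqrt (4 * Real.pi) * Real.sqrt ‖x - y‖ * (Real.sqrt ‖v‖ * ‖𝓕 (sch u) v‖) := by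
    intro v
    rw [← sub_mul, norm_mul, ← mul_assoc]
    apply mul_le_mul_of_nonneg_right _ (norm_nonneg _)
    refine (exp_diff _ _).trans ?_
    rw [← Real.sqrt_mul (by positivity), ← Real.sqrt_mul (by positivity)]
    apply Real.sqrt_le_sqrt
    have h1 : 2 * Real.pi * ⟪v, x⟫_ℝ - 2 * Real.pi * ⟪v, y⟫_ℝ = 2 * Real.pi * ⟪v, x - y⟫_ℝ := by
      rw [inner_sub_right]; ring
    rw [h1, abs_mul, abs_of_pos (by positivity)]
    have h2 := abs_real_inner_le_norm v (x - y)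
    have := Real.pi_pos
    calc 2 * (2 * Real.pi * |⟪v, x - y⟫_ℝ|) ≤ 2 * (2 * Real.pi * (‖v‖ * ‖x - y‖)) := by gcongr
      _ = _ := by ring
  have hsi : Integrable (fun v : E2 => Real.sqrt ‖v‖ * ‖𝓕 (sch u) v‖) := by
    have h1 : MemLp (fun v : E2 => Real.sqrt ‖v‖ / wt v) 2 := by
      rw [memLp_two_iff_integrable_sq]
      · exact int_sqrt
      · exact ((Real.continuous_sqrt.comp continuous_norm).div continuous_wt
          fun v => (wt_pos v).ne').aestronglyMeasurable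
    have h2 := h1.integrable_mul (memLp_F u)
    refine h2.congr (Filter.Eventually.of_forall fun v => ?_)
    show Real.sqrt ‖v‖ / wt v * (wt v * ‖𝓕 (sch u) v‖) = _
    have := (wt_pos v).ne'
    field_simp
  calc _ ≤ ∫ v, Real.sqrt (4 * Real.pi) * Real.sqrt ‖x - y‖ * (Real.sqrt ‖v‖ * ‖𝓕 (sch u) v‖) :=
        integral_mono ((hi x).sub (hi y)).norm (hsi.const_mul _) hpt
    _ = Real.sqrt (4 * Real.pi) * Real.sqrt ‖x - y‖ * ∫ v, (Real.sqrt ‖v‖ * ‖𝓕 (sch u) v‖) :=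
        integral_const_mul _ _
    _ ≤ Real.sqrt (4 * Real.pi) * Real.sqrt ‖x - y‖ *
        (Real.sqrt (∫ v : E2, (Real.sqrt ‖v‖ / wt v) ^ 2) * N2 u) :=
        mul_le_mul_of_nonneg_left hc (by positivity)
    _ = _ := by ring

/-- derivatives of test functions -/
def dd (m : E2) (u : TF) : TF := ⟨fun x => fderiv ℝ u.1 x m, by
  constructor
  · exact (((TF.contDiff u).fderiv_right (m := ∞) (by norm_cast)).clm_apply contDiff_const)
  · exact (TF.hasCompactSupport u).fderiv_apply (𝕜 := ℝ) m⟩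

lemma fourier_dd (m : E2) (u : TF) (v : E2) :
    𝓕 (sch (dd m u)) v = (2 * Real.pi * Complex.I) * (⟪v, m⟫_ℝ : ℝ) * 𝓕 (sch u) v := by
  have h1 : sch (dd m u) = ∂_{m} (sch u) := by
    ext x
    rfl
  rw [h1, SchwartzMap.fourier_lineDerivOp_eq, _root_.smul_apply,
    SchwartzMap.smulLeftCLM_apply_apply (by fun_prop)]
  simp
  ring

lemma norm_le_of_fourier (u w : TF) (h : ∀ v, ‖𝓕 (sch w) v‖ ≤ wt v * ‖𝓕 (sch u) v‖) :
    ∫ x, ‖w.1 x‖ ^ 2 ≤ N2 u ^ 2 := by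
  have h1 : ∫ x, ‖w.1 x‖ ^ 2 = ∫ v, ‖𝓕 (sch w) v‖ ^ 2 :=
    (SchwartzMap.integral_norm_sq_fourier (sch w)).symm
  rw [h1]
  refine le_trans ?_ (weighted u)
  apply integral_mono
  · exact (memLp_two_iff_integrable_sq_norm ((𝓕 (sch w)).memLp 2).1).mp ((𝓕 (sch w)).memLp 2)
  · exact (memLp_two_iff_integrable_sq (memLp_F u).1).mp (memLp_F u)
  · intro v
    exact pow_le_pow_left₀ (norm_nonneg _) (h v) 2

lemma norm_u (u : TF) : ∫ x, ‖u.1 x‖ ^ 2 ≤ N2 u ^ 2 := by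
  apply norm_le_of_fourier u u
  intro v
  have := one_add_sq_le_wt v
  nlinarith [norm_nonneg (𝓕 (sch u) v), sq_nonneg ‖v‖]

lemma norm_dd (u : TF) {m : E2} (hm : ‖m‖ = 1) : ∫ x, ‖(dd m u).1 x‖ ^ 2 ≤ N2 u ^ 2 := by
  apply norm_le_of_fourier u (dd m u)
  intro v
  rw [fourier_dd, norm_mul]
  apply mul_le_mul_of_nonneg_right _ (norm_nonneg _)
  have h1 := abs_real_inner_le_norm v m
  rw [hm, mul_one] at h1
  have hpi := Real.pi_pos
  rw [norm_mul, norm_mul, norm_mul, Complex.norm_I, Complex.norm_real, Complex.norm_real,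
    Real.norm_eq_abs, Real.norm_eq_abs, abs_of_pos hpi, Complex.norm_ofNat, mul_one]
  have h2 : 2 * Real.pi * |⟪v, m⟫_ℝ| ≤ 2 * Real.pi * ‖v‖ := by gcongr
  refine h2.trans ?_
  unfold wt
  nlinarith [sq_nonneg (2 * Real.pi * ‖v‖ - 1)]

lemma norm_ddd (u : TF) {m n : E2} (hm : ‖m‖ = 1) (hn : ‖n‖ = 1) :
    ∫ x, ‖(dd n (dd m u)).1 x‖ ^ 2 ≤ N2 u ^ 2 := by
  apply norm_le_of_fourier u (dd n (dd m u))
  intro v
  rw [fourier_dd, fourier_dd, norm_mul, norm_mul _ (𝓕 (sch u) v), ← mul_assoc]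
  apply mul_le_mul_of_nonneg_right _ (norm_nonneg _)
  have h1 := abs_real_inner_le_norm v m
  have h2 := abs_real_inner_le_norm v n
  rw [hm, mul_one] at h1
  rw [hn, mul_one] at h2
  have hpi := Real.pi_pos
  simp only [norm_mul, Complex.norm_I, Complex.norm_real,
    Real.norm_eq_abs, abs_of_pos hpi, Complex.norm_ofNat, mul_one]
  have h3 : 2 * Real.pi * |⟪v, m⟫_ℝ| ≤ 2 * Real.pi * ‖v‖ := by gcongr
  have h4 : 2 * Real.pi * |⟪v, n⟫_ℝ| ≤ 2 * Real.pi * ‖v‖ := by gcongr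
  calc 2 * Real.pi * |⟪v, n⟫_ℝ| * (2 * Real.pi * |⟪v, m⟫_ℝ|) ≤
      (2 * Real.pi * ‖v‖) * (2 * Real.pi * ‖v‖) := by gcongr
    _ ≤ wt v := by unfold wt; nlinarith

/-! ### polar coordinates -/

lemma pol_apply_zero (r θ : ℝ) : pol r θ 0 = r * Real.cos θ := rfl
lemma pol_apply_one (r θ : ℝ) : pol r θ 1 = r * Real.sin θ := rfl

lemma pol_eq_smul (r θ : ℝ) : pol r θ = r • pol 1 θ := by
  ext i
  fin_cases i <;> simp [pol]

lemma norm_pol_one (θ : ℝ) : ‖pol 1 θ‖ = 1 := by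
  rw [EuclideanSpace.norm_eq, Fin.sum_univ_two]
  simp [pol]

lemma norm_pol (r θ : ℝ) : ‖pol r θ‖ = |r| := by
  rw [pol_eq_smul, norm_smul, norm_pol_one, mul_one, Real.norm_eq_abs]

lemma continuous_pol : Continuous fun p : ℝ × ℝ => pol p.1 p.2 := by
  have h1 : Continuous fun p : ℝ × ℝ => ![p.1 * Real.cos p.2, p.1 * Real.sin p.2] := by
    apply continuous_pi
    intro i
    fin_cases i
    · show Continuous fun p : ℝ × ℝ => p.1 * Real.cos p.2
      fun_prop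
    · show Continuous fun p : ℝ × ℝ => p.1 * Real.sin p.2
      fun_prop
  exact (PiLp.continuous_toLp 2 _).comp h1

lemma pol_periodic (r : ℝ) : Function.Periodic (pol r) (2 * Real.pi) := by
  intro θ
  simp [pol, Real.cos_add_two_pi, Real.sin_add_two_pi]

lemma hasDerivAt_pol (s θ : ℝ) : HasDerivAt (fun s => pol s θ) (pol 1 θ) s := by
  have h1 : (fun s => pol s θ) = fun s => s • pol 1 θ := funext fun s => pol_eq_smul s θ
  rw [h1]
  simpa using (hasDerivAt_id s).smul_const (pol 1 θ)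

lemma integral_E2 (f : E2 → ℝ) : ∫ x, f x = ∫ p : ℝ × ℝ, f (!₂[p.1, p.2]) := by
  rw [← (PiLp.volume_preserving_toLp (Fin 2)).integral_comp
    (MeasurableEquiv.toLp 2 (Fin 2 → ℝ)).measurableEmbedding,
    ← ((volume_preserving_finTwoArrow ℝ).symm _).integral_comp
    (MeasurableEquiv.finTwoArrow (α := ℝ)).symm.measurableEmbedding]
  rfl

lemma polar_integral (f : E2 → ℝ) :
    ∫ x, f x = ∫ p in Ioi (0:ℝ) ×ˢ Ioo (-Real.pi) Real.pi, p.1 * f (pol p.1 p.2) := by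
  rw [integral_E2, ← integral_comp_polarCoord_symm]
  rfl

lemma polar_le {f : E2 → ℝ} (hf : Continuous f) (hc : HasCompactSupport f) (h0 : ∀ x, 0 ≤ f x)
    {r₁ r₂ : ℝ} (h₁ : 0 ≤ r₁) (h₂ : r₁ ≤ r₂) :
    ∫ r in r₁..r₂, (r * ∫ θ in (0:ℝ)..(2 * Real.pi), f (pol r θ)) ≤ ∫ x, f x := by
  have hpi := Real.pi_pos
  set g : ℝ × ℝ → ℝ := fun p => p.1 * f (pol p.1 p.2) with hg
  have hgc : Continuous g := by
    have := hf.comp continuous_pol
    exact continuous_fst.mul this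
  -- support
  obtain ⟨R, hR⟩ := hc.isCompact.isBounded.exists_norm_le
  have hzero : ∀ p : ℝ × ℝ, R < p.1 → g p = 0 := by
    intro p hp
    have : f (pol p.1 p.2) = 0 := by
      by_contra hne
      have h1 := hR _ (subset_tsupport f hne)
      rw [norm_pol] at h1
      linarith [le_abs_self p.1]
    simp [hg, this]
  have hint : IntegrableOn g (Ioi (0:ℝ) ×ˢ Ioo (-Real.pi) Real.pi) := by
    have h1 : IntegrableOn g (Icc (0:ℝ) R ×ˢ Icc (-Real.pi) Real.pi) :=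
      hgc.continuousOn.integrableOn_compact (isCompact_Icc.prod isCompact_Icc)
    have h2 : IntegrableOn g ((Ioi (0:ℝ) ×ˢ Ioo (-Real.pi) Real.pi) \ (Icc (0:ℝ) R ×ˢ Icc (-Real.pi) Real.pi)) := by
      refine IntegrableOn.congr_fun (f := fun _ => (0:ℝ)) integrableOn_zero ?_
        ((measurableSet_Ioi.prod measurableSet_Ioo).diff (measurableSet_Icc.prod measurableSet_Icc))
      rintro ⟨a, b⟩ ⟨⟨ha, hb⟩, hn⟩
      symm
      apply hzero
      by_contra hcon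
      push Not at hcon
      exact hn ⟨⟨le_of_lt ha, hcon⟩, ⟨hb.1.le, hb.2.le⟩⟩
    exact (h1.union h2).mono_set (by
      intro p hp
      by_cases h : p ∈ Icc (0:ℝ) R ×ˢ Icc (-Real.pi) Real.pi
      · exact Or.inl h
      · exact Or.inr ⟨hp, h⟩)
  have hsub : Ioc r₁ r₂ ×ˢ Ioo (-Real.pi) Real.pi ⊆ Ioi (0:ℝ) ×ˢ Ioo (-Real.pi) Real.pi := by
    rintro ⟨a, b⟩ ⟨ha, hb⟩
    exact ⟨lt_of_le_of_lt h₁ ha.1, hb⟩
  rw [polar_integral]
  have h3 : ∫ p in Ioc r₁ r₂ ×ˢ Ioo (-Real.pi) Real.pi, g p ≤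
      ∫ p in Ioi (0:ℝ) ×ˢ Ioo (-Real.pi) Real.pi, g p := by
    apply setIntegral_mono_set hint _ hsub.eventuallyLE
    filter_upwards [ae_restrict_mem (measurableSet_Ioi.prod measurableSet_Ioo)] with p hp
    exact mul_nonneg (le_of_lt hp.1) (h0 _)
  refine le_trans (le_of_eq ?_) h3
  rw [Measure.volume_eq_prod, setIntegral_prod _ (by
    rw [← Measure.volume_eq_prod]
    exact hint.mono_set hsub), intervalIntegral.integral_of_le h₂]
  apply setIntegral_congr_fun measurableSet_Ioc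
  intro r hr
  simp only [hg]
  rw [integral_const_mul, ← integral_Ioc_eq_integral_Ioo, ← intervalIntegral.integral_of_le (by linarith)]
  congr 1
  have hper : Function.Periodic (fun θ => f (pol r θ)) (2 * Real.pi) := by
    intro θ
    simp only [pol_periodic r θ]
  have := hper.intervalIntegral_add_eq 0 (-Real.pi)
  rw [zero_add] at this
  rw [this]
  congr 1
  ring

lemma trace {w : E2 → ℂ} (hw : ContDiff ℝ 1 w) (hc : HasCompactSupport w) {r : ℝ} (hr : 0 < r) :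
    r * ∫ θ in (0:ℝ)..(2 * Real.pi), ‖w (pol r θ)‖ ^ 2 ≤ ∫ x, (‖w x‖ ^ 2 + ‖fderiv ℝ w x‖ ^ 2) := by
  have hpi := Real.pi_pos
  set f : E2 → ℝ := fun x => ‖w x‖ ^ 2 + ‖fderiv ℝ w x‖ ^ 2 with hf
  have hwc : Continuous w := hw.continuous
  have hdc : Continuous (fderiv ℝ w) := hw.continuous_fderiv (by norm_num)
  have hfc : Continuous f := (hwc.norm.pow 2).add (hdc.norm.pow 2)
  have hfs : HasCompactSupport f := by
    have h1 : HasCompactSupport (fderiv ℝ w) := hc.fderiv (𝕜 := ℝ)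
    have h2 : HasCompactSupport (fun x => ‖w x‖ ^ 2) := hc.comp_left (g := fun z => ‖z‖ ^ 2) (by simp)
    have h3 : HasCompactSupport (fun x => ‖fderiv ℝ w x‖ ^ 2) :=
      h1.comp_left (g := fun z => ‖z‖ ^ 2) (by simp)
    exact h2.add h3
  have hf0 : ∀ x, 0 ≤ f x := fun x => by positivity
  obtain ⟨R₀, hR₀⟩ := hc.isCompact.isBounded.exists_norm_le
  set R : ℝ := max r (R₀ + 1) with hR
  have hrR : r ≤ R := le_max_left _ _
  have hR1 : R₀ < R := lt_of_lt_of_le (by linarith) (le_max_right _ _)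
  have hwR : ∀ θ, w (pol R θ) = 0 := by
    intro θ
    by_contra hne
    have h1 := hR₀ _ (subset_tsupport w hne)
    rw [norm_pol] at h1
    linarith [le_abs_self R]
  -- radial inequality
  have hcont_s : ∀ θ, Continuous fun s : ℝ => pol s θ := fun θ =>
    continuous_pol.comp (by fun_prop : Continuous fun s : ℝ => (s, θ))
  have hrad : ∀ θ, r * ‖w (pol r θ)‖ ^ 2 ≤ ∫ s in r..R, s * f (pol s θ) := by
    intro θ
    have hder : ∀ s : ℝ, HasDerivAt (fun s => s * ‖w (pol s θ)‖ ^ 2)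
        (1 * ‖w (pol s θ)‖ ^ 2 + s * (2 * ⟪w (pol s θ), fderiv ℝ w (pol s θ) (pol 1 θ)⟫_ℝ)) s := by
      intro s
      have h1 : HasDerivAt (fun s => w (pol s θ)) (fderiv ℝ w (pol s θ) (pol 1 θ)) s :=
        ((hw.differentiable (by norm_num)) (pol s θ)).hasFDerivAt.comp_hasDerivAt s (hasDerivAt_pol s θ)
      exact (hasDerivAt_id s).mul h1.norm_sq
    have hcd : Continuous fun s : ℝ => 1 * ‖w (pol s θ)‖ ^ 2 +
        s * (2 * ⟪w (pol s θ), fderiv ℝ w (pol s θ) (pol 1 θ)⟫_ℝ) := by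
      have h1 : Continuous fun s : ℝ => w (pol s θ) := hwc.comp (hcont_s θ)
      have h2 : Continuous fun s : ℝ => fderiv ℝ w (pol s θ) (pol 1 θ) :=
        (hdc.comp (hcont_s θ)).clm_apply continuous_const
      exact (continuous_const.mul (h1.norm.pow 2)).add
        (continuous_id.mul (continuous_const.mul (h1.inner h2)))
    have hftc := intervalIntegral.integral_eq_sub_of_hasDerivAt (a := r) (b := R)
      (fun s _ => hder s) (hcd.intervalIntegrable _ _)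
    rw [hwR θ] at hftc
    simp only [norm_zero] at hftc
    have h3 : r * ‖w (pol r θ)‖ ^ 2 = ∫ s in r..R, -(1 * ‖w (pol s θ)‖ ^ 2 +
        s * (2 * ⟪w (pol s θ), fderiv ℝ w (pol s θ) (pol 1 θ)⟫_ℝ)) := by
      rw [intervalIntegral.integral_neg, hftc]
      ring
    rw [h3]
    apply intervalIntegral.integral_mono_on hrR (hcd.neg.intervalIntegrable _ _)
    · exact (continuous_id.mul (hfc.comp (hcont_s θ))).intervalIntegrable _ _
    · intro s hs
      have hs0 : 0 < s := lt_of_lt_of_le hr hs.1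
      have h4 : |⟪w (pol s θ), fderiv ℝ w (pol s θ) (pol 1 θ)⟫_ℝ| ≤
          ‖w (pol s θ)‖ * ‖fderiv ℝ w (pol s θ)‖ := by
        refine (abs_real_inner_le_norm _ _).trans ?_
        apply mul_le_mul_of_nonneg_left _ (norm_nonneg _)
        refine (ContinuousLinearMap.le_opNorm _ _).trans ?_
        rw [norm_pol_one, mul_one]
      have h5 := neg_abs_le (⟪w (pol s θ), fderiv ℝ w (pol s θ) (pol 1 θ)⟫_ℝ)
      have h6 : 2 * (‖w (pol s θ)‖ * ‖fderiv ℝ w (pol s θ)‖) ≤ f (pol s θ) := by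
        simp only [hf]
        nlinarith [sq_nonneg (‖w (pol s θ)‖ - ‖fderiv ℝ w (pol s θ)‖)]
      have h7 : -(2 * ⟪w (pol s θ), fderiv ℝ w (pol s θ) (pol 1 θ)⟫_ℝ) ≤ f (pol s θ) := by linarith
      have h8 : s * (-(2 * ⟪w (pol s θ), fderiv ℝ w (pol s θ) (pol 1 θ)⟫_ℝ)) ≤ s * f (pol s θ) :=
        mul_le_mul_of_nonneg_left h7 hs0.le
      have h9 : 0 ≤ ‖w (pol s θ)‖ ^ 2 := by positivity
      show -(1 * ‖w (pol s θ)‖ ^ 2 +
        s * (2 * ⟪w (pol s θ), fderiv ℝ w (pol s θ) (pol 1 θ)⟫_ℝ)) ≤ s * f (pol s θ)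
      linarith
  -- integrate in the angle
  have hgc : Continuous fun p : ℝ × ℝ => p.1 * f (pol p.1 p.2) :=
    continuous_fst.mul (hfc.comp continuous_pol)
  have hcont_θ : ∀ s, Continuous fun θ : ℝ => pol s θ := fun s =>
    continuous_pol.comp (by fun_prop : Continuous fun θ : ℝ => (s, θ))
  calc r * ∫ θ in (0:ℝ)..(2 * Real.pi), ‖w (pol r θ)‖ ^ 2
      = ∫ θ in (0:ℝ)..(2 * Real.pi), r * ‖w (pol r θ)‖ ^ 2 := by
        rw [intervalIntegral.integral_const_mul]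
    _ ≤ ∫ θ in (0:ℝ)..(2 * Real.pi), ∫ s in r..R, s * f (pol s θ) := by
        apply intervalIntegral.integral_mono_on (by positivity)
        · exact (continuous_const.mul ((hwc.comp (hcont_θ r)).norm.pow 2)).intervalIntegrable _ _
        · have : Continuous fun θ : ℝ => ∫ s in r..R, s * f (pol s θ) := by
            apply intervalIntegral.continuous_parametric_intervalIntegral_of_continuous'
            exact hgc.comp continuous_swap
          exact this.intervalIntegrable _ _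
        · intro θ _
          exact hrad θ
    _ = ∫ s in r..R, ∫ θ in (0:ℝ)..(2 * Real.pi), s * f (pol s θ) := by
        symm
        apply intervalIntegral_intervalIntegral_swap
        exact (hgc.continuousOn.integrableOn_compact (isCompact_uIcc.prod isCompact_uIcc)).mono_set
          (Set.prod_mono uIoc_subset_uIcc uIoc_subset_uIcc)
    _ = ∫ s in r..R, (s * ∫ θ in (0:ℝ)..(2 * Real.pi), f (pol s θ)) := by
        congr 1
        funext s
        rw [intervalIntegral.integral_const_mul]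
    _ ≤ ∫ x, f x := polar_le hfc hfs hf0 hr.le hrR


/-- unit vectors -/
def e (i : Fin 2) : E2 := EuclideanSpace.single i 1

lemma norm_e (i : Fin 2) : ‖e i‖ = 1 := by simp [e]

lemma eq_sum_e (v : E2) : v = v 0 • e 0 + v 1 • e 1 := by
  ext i
  fin_cases i <;> simp [e]

lemma opNorm_sq_le (L : E2 →L[ℝ] ℂ) : ‖L‖ ^ 2 ≤ ‖L (e 0)‖ ^ 2 + ‖L (e 1)‖ ^ 2 := by
  have h1 : ‖L‖ ≤ Real.sqrt (‖L (e 0)‖ ^ 2 + ‖L (e 1)‖ ^ 2) := by
    apply L.opNorm_le_bound (Real.sqrt_nonneg _)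
    intro v
    have h2 : ‖L v‖ ≤ |v 0| * ‖L (e 0)‖ + |v 1| * ‖L (e 1)‖ := by
      conv_lhs => rw [eq_sum_e v]
      rw [map_add, map_smul, map_smul]
      refine (norm_add_le _ _).trans ?_
      rw [norm_smul, norm_smul, Real.norm_eq_abs, Real.norm_eq_abs]
    refine h2.trans ?_
    rw [EuclideanSpace.norm_eq, Fin.sum_univ_two, ← Real.sqrt_mul (by positivity)]
    apply Real.le_sqrt_of_sq_le
    simp only [Real.norm_eq_abs]
    nlinarith [sq_nonneg (|v 0| * ‖L (e 1)‖ - |v 1| * ‖L (e 0)‖)]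
  calc ‖L‖ ^ 2 ≤ Real.sqrt (‖L (e 0)‖ ^ 2 + ‖L (e 1)‖ ^ 2) ^ 2 :=
        pow_le_pow_left₀ (norm_nonneg _) h1 2
    _ = _ := Real.sq_sqrt (by positivity)

lemma int_sq (u : TF) : Integrable (fun x => ‖u.1 x‖ ^ 2) :=
  (memLp_two_iff_integrable_sq_norm (TF.memLp u).1).mp (TF.memLp u)

/-- trace inequality for a test function whose first derivatives are controlled -/
lemma trace_TF (w : TF) {A : ℝ} (h0 : ∫ x, ‖w.1 x‖ ^ 2 ≤ A) (h1 : ∀ i, ∫ x, ‖(dd (e i) w).1 x‖ ^ 2 ≤ A)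
    {r : ℝ} (hr : 0 < r) :
    r * ∫ θ in (0:ℝ)..(2 * Real.pi), ‖w.1 (pol r θ)‖ ^ 2 ≤ 3 * A := by
  have hw1 : ContDiff ℝ 1 w.1 := (TF.contDiff w).of_le (by norm_cast)
  refine (trace hw1 (TF.hasCompactSupport w) hr).trans ?_
  have hpt : ∀ x, ‖w.1 x‖ ^ 2 + ‖fderiv ℝ w.1 x‖ ^ 2 ≤
      ‖w.1 x‖ ^ 2 + (‖(dd (e 0) w).1 x‖ ^ 2 + ‖(dd (e 1) w).1 x‖ ^ 2) := by
    intro x
    have := opNorm_sq_le (fderiv ℝ w.1 x)
    show _ ≤ ‖w.1 x‖ ^ 2 + (‖fderiv ℝ w.1 x (e 0)‖ ^ 2 + ‖fderiv ℝ w.1 x (e 1)‖ ^ 2)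
    linarith
  have i0 := int_sq w
  have i1 := int_sq (dd (e 0) w)
  have i2 := int_sq (dd (e 1) w)
  calc ∫ x, (‖w.1 x‖ ^ 2 + ‖fderiv ℝ w.1 x‖ ^ 2) ≤
        ∫ x, (‖w.1 x‖ ^ 2 + (‖(dd (e 0) w).1 x‖ ^ 2 + ‖(dd (e 1) w).1 x‖ ^ 2)) := by
        apply integral_mono_of_nonneg (Filter.Eventually.of_forall fun x => by positivity)
          (i0.add (i1.add i2)) (Filter.Eventually.of_forall hpt)
    _ = (∫ x, ‖w.1 x‖ ^ 2) + ((∫ x, ‖(dd (e 0) w).1 x‖ ^ 2) + ∫ x, ‖(dd (e 1) w).1 x‖ ^ 2) := by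
        have e1 := integral_add i1 i2
        have e2 := integral_add i0 (i1.add i2)
        rw [← e1]
        exact e2
    _ ≤ 3 * A := by linarith [h1 0, h1 1]

end Sob

open Sob

theorem polar_norm_le (u : TF) {r₁ r₂ : ℝ} (h₁ : 0 < r₁) (h₂ : r₁ ≤ r₂) :
    ∫ r in r₁..r₂, (r * ∫ θ in (0:ℝ)..(2 * Real.pi), ‖u.1 (pol r θ)‖ ^ 2) ≤ ‖toL2 u‖ ^ 2 := by
  rw [norm_sq_toL2]
  have hc : HasCompactSupport (fun x => ‖u.1 x‖ ^ 2) :=
    (TF.hasCompactSupport u).comp_left (g := fun z : ℂ => ‖z‖ ^ 2) (by simp)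
  exact polar_le (f := fun x => ‖u.1 x‖ ^ 2) ((TF.continuous u).norm.pow 2) hc
    (fun x => sq_nonneg _) h₁.le h₂

theorem exists_sobolev_const : ∃ C : ℝ, 0 < C ∧ ∀ u : TF,
    (∀ x : E2, ‖u.1 x‖ ≤ C * N2 u) ∧
    (∀ x y : E2, ‖u.1 x - u.1 y‖ ≤ C * Real.sqrt ‖x - y‖ * N2 u) ∧
    (∀ r : ℝ, 0 < r → r * ∫ θ in (0:ℝ)..(2 * Real.pi), ‖u.1 (pol r θ)‖ ^ 2 ≤ (C * N2 u) ^ 2) ∧
    (∀ r : ℝ, 0 < r →
      r * ∫ θ in (0:ℝ)..(2 * Real.pi), ‖fderiv ℝ u.1 (pol r θ) (pol 1 θ)‖ ^ 2 ≤ (C * N2 u) ^ 2) := by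
  set C₁ : ℝ := Real.sqrt (∫ v : E2, (1 / wt v) ^ 2) with hC₁
  set C₂ : ℝ := Real.sqrt (4 * Real.pi) * Real.sqrt (∫ v : E2, (Real.sqrt ‖v‖ / wt v) ^ 2) with hC₂
  have h1 : 0 ≤ C₁ := Real.sqrt_nonneg _
  have h2 : 0 ≤ C₂ := by positivity
  refine ⟨C₁ + C₂ + 3, by positivity, fun u => ?_⟩
  have hN := N2_nonneg u
  have hC9 : 9 ≤ (C₁ + C₂ + 3) ^ 2 := by nlinarith
  refine ⟨fun x => ?_, fun x y => ?_, fun r hr => ?_, fun r hr => ?_⟩
  · refine (sup_bound u x).trans ?_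
    rw [← hC₁]
    nlinarith
  · refine (hoelder_bound u x y).trans ?_
    rw [← hC₂]
    have h3 : 0 ≤ Real.sqrt ‖x - y‖ * N2 u := by positivity
    nlinarith
  · refine (trace_TF u (norm_u u) (fun i => norm_dd u (norm_e i)) hr).trans ?_
    rw [mul_pow]
    nlinarith [sq_nonneg (N2 u)]
  · have t0 := trace_TF (dd (e 0) u) (norm_dd u (norm_e 0)) (fun i => norm_ddd u (norm_e 0) (norm_e i)) hr
    have t1 := trace_TF (dd (e 1) u) (norm_dd u (norm_e 1)) (fun i => norm_ddd u (norm_e 1) (norm_e i)) hr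
    have hcont_θ : Continuous fun θ : ℝ => pol r θ :=
      continuous_pol.comp (by fun_prop : Continuous fun θ : ℝ => (r, θ))
    have hcont_1 : Continuous fun θ : ℝ => pol 1 θ :=
      continuous_pol.comp (by fun_prop : Continuous fun θ : ℝ => ((1:ℝ), θ))
    have hdc : Continuous (fderiv ℝ u.1) := (TF.contDiff u).continuous_fderiv (by norm_cast)
    have hle : ∫ θ in (0:ℝ)..(2 * Real.pi), ‖fderiv ℝ u.1 (pol r θ) (pol 1 θ)‖ ^ 2 ≤
        ∫ θ in (0:ℝ)..(2 * Real.pi),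
          (‖(dd (e 0) u).1 (pol r θ)‖ ^ 2 + ‖(dd (e 1) u).1 (pol r θ)‖ ^ 2) := by
      apply intervalIntegral.integral_mono_on (by have := Real.pi_pos; positivity)
      · exact (((hdc.comp hcont_θ).clm_apply hcont_1).norm.pow 2).intervalIntegrable _ _
      · exact ((((TF.continuous (dd (e 0) u)).comp hcont_θ).norm.pow 2).add
          (((TF.continuous (dd (e 1) u)).comp hcont_θ).norm.pow 2)).intervalIntegrable _ _
      · intro θ _
        have h3 := (fderiv ℝ u.1 (pol r θ)).le_opNorm (pol 1 θ)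
        rw [norm_pol_one, mul_one] at h3
        have h4 := opNorm_sq_le (fderiv ℝ u.1 (pol r θ))
        have h5 := pow_le_pow_left₀ (norm_nonneg _) h3 2
        exact h5.trans h4
    have hsplit : ∫ θ in (0:ℝ)..(2 * Real.pi),
          (‖(dd (e 0) u).1 (pol r θ)‖ ^ 2 + ‖(dd (e 1) u).1 (pol r θ)‖ ^ 2) =
        (∫ θ in (0:ℝ)..(2 * Real.pi), ‖(dd (e 0) u).1 (pol r θ)‖ ^ 2) +
        ∫ θ in (0:ℝ)..(2 * Real.pi), ‖(dd (e 1) u).1 (pol r θ)‖ ^ 2 := by
      apply intervalIntegral.integral_add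
      · exact (((TF.continuous (dd (e 0) u)).comp hcont_θ).norm.pow 2).intervalIntegrable _ _
      · exact (((TF.continuous (dd (e 1) u)).comp hcont_θ).norm.pow 2).intervalIntegrable _ _
    rw [hsplit] at hle
    have h6 := mul_le_mul_of_nonneg_left hle hr.le
    rw [mul_add] at h6
    rw [mul_pow]
    nlinarith [sq_nonneg (N2 u)]

end MP3a4792
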