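import Pool.Agent.Lib.MP_3a4792_mp.Inner
import Pool.Agent.Lib.MP_3a4792_mp.Sobolev
import Pool.Agent.Lib.MP_3a4792_mp.HalfLine

open MeasureTheory Set InnerProductSpace Filter Topology
open scoped ContDiff Laplacian InnerProductSpace

noncomputable section

namespace MP3a4792

/-- what a block does -/
def BlockProp (Λ h0 : ℝ) : Prop := ∀ ρ : ℝ, 1 ≤ ρ → ∀ ε : ℝ, 0 < ε →
  ∃ (Vb : E2 → ℝ) (ρ' δ R : ℝ) (d : AvgKer δ),
    ContDiff ℝ ∞ Vb ∧ (∀ x, |Vb x| ≤ h0) ∧ (∀ x, ‖x‖ ≤ ρ + 1 ∨ ρ' ≤ ‖x‖ → Vb x = 0) ∧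
    ρ + 2 ≤ ρ' ∧ 0 ≤ δ ∧ δ ≤ ε ∧ ρ ≤ R ∧
    Integrable (fun x => ‖x‖⁻¹ * Vb x ^ 2) ∧ (∫ x, ‖x‖⁻¹ * Vb x ^ 2) ≤ ε ∧
    ∀ V : E2 → ℝ, Continuous V → (∀ x, |V x| ≤ h0) →
      (∀ x, ρ ≤ ‖x‖ → ‖x‖ ≤ ρ' → V x = Vb x) →
      ∀ (K : Type) [NormedAddCommGroup K] [InnerProductSpace ℂ K] [CompleteSpace K]
        (k : Ker V Λ K), ∀ α, 0 < α → α ≤ R →
        k.c / 2 * ∫ r in α..R, (∫ s in (0:ℝ)..(2 * Real.pi), ‖k.ev (U0 k.κ r (d.tr2 s))‖ ^ 2)
          ≤ ε * k.C0 ^ 2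

/-- a sequence of blocks -/
structure Blocks (Λ h0 : ℝ) where
  ρ : ℕ → ℝ
  W : ℕ → E2 → ℝ
  δ : ℕ → ℝ
  R : ℕ → ℝ
  d : ∀ j, AvgKer (δ j)
  ρ_one : ∀ j, 1 ≤ ρ j
  ρ_succ : ∀ j, ρ j + 2 ≤ ρ (j + 1)
  W_smooth : ∀ j, ContDiff ℝ ∞ (W j)
  W_bd : ∀ j x, |W j x| ≤ h0
  W_zero : ∀ j x, ‖x‖ ≤ ρ j + 1 ∨ ρ (j + 1) ≤ ‖x‖ → W j x = 0
  δ_nonneg : ∀ j, 0 ≤ δ j
  δ_le : ∀ j, δ j ≤ (1 / 2) ^ j
  ρ_le_R : ∀ j, ρ j ≤ R j
  W_int : ∀ j, Integrable (fun x => ‖x‖⁻¹ * W j x ^ 2)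
  W_int_le : ∀ j, (∫ x, ‖x‖⁻¹ * W j x ^ 2) ≤ (1 / 2) ^ j
  main : ∀ j, ∀ V : E2 → ℝ, Continuous V → (∀ x, |V x| ≤ h0) →
      (∀ x, ρ j ≤ ‖x‖ → ‖x‖ ≤ ρ (j + 1) → V x = W j x) →
      ∀ (K : Type) [NormedAddCommGroup K] [InnerProductSpace ℂ K] [CompleteSpace K]
        (k : Ker V Λ K), ∀ α, 0 < α → α ≤ R j →
        k.c / 2 * ∫ r in α..(R j), (∫ s in (0:ℝ)..(2 * Real.pi), ‖k.ev (U0 k.κ r ((d j).tr2 s))‖ ^ 2)
          ≤ (1 / 2) ^ j * k.C0 ^ 2

theorem exists_blocks {Λ h0 : ℝ} (h : BlockProp Λ h0) : Nonempty (Blocks Λ h0) := by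
  unfold BlockProp at h
  choose Vb ρ' δ R d h1 h2 h3 h4 h5 h6 h7 h8 h9 h10 using h
  let a : ℕ → {ρ : ℝ // 1 ≤ ρ} := fun n => Nat.rec ⟨1, le_refl 1⟩
    (fun j p => ⟨ρ' p.1 p.2 ((1 / 2) ^ j) (by positivity),
      by have := h4 p.1 p.2 ((1 / 2) ^ j) (by positivity); have := p.2; linarith⟩) n
  have hε : ∀ j : ℕ, (0:ℝ) < (1 / 2) ^ j := fun j => by positivity
  exact ⟨{
    ρ := fun j => (a j).1
    W := fun j => Vb (a j).1 (a j).2 ((1 / 2) ^ j) (hε j)
    δ := fun j => δ (a j).1 (a j).2 ((1 / 2) ^ j) (hε j)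
    R := fun j => R (a j).1 (a j).2 ((1 / 2) ^ j) (hε j)
    d := fun j => d (a j).1 (a j).2 ((1 / 2) ^ j) (hε j)
    ρ_one := fun j => (a j).2
    ρ_succ := fun j => h4 (a j).1 (a j).2 ((1 / 2) ^ j) (hε j)
    W_smooth := fun j => h1 (a j).1 (a j).2 ((1 / 2) ^ j) (hε j)
    W_bd := fun j => h2 (a j).1 (a j).2 ((1 / 2) ^ j) (hε j)
    W_zero := fun j => h3 (a j).1 (a j).2 ((1 / 2) ^ j) (hε j)
    δ_nonneg := fun j => h5 (a j).1 (a j).2 ((1 / 2) ^ j) (hε j)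
    δ_le := fun j => h6 (a j).1 (a j).2 ((1 / 2) ^ j) (hε j)
    ρ_le_R := fun j => h7 (a j).1 (a j).2 ((1 / 2) ^ j) (hε j)
    W_int := fun j => h8 (a j).1 (a j).2 ((1 / 2) ^ j) (hε j)
    W_int_le := fun j => h9 (a j).1 (a j).2 ((1 / 2) ^ j) (hε j)
    main := fun j => h10 (a j).1 (a j).2 ((1 / 2) ^ j) (hε j) }⟩

namespace Blocks

variable {Λ h0 : ℝ} (B : Blocks Λ h0)

lemma ρ_ge (j : ℕ) : 2 * (j : ℝ) + 1 ≤ B.ρ j := by
  induction j with
  | zero => simpa using B.ρ_one 0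
  | succ n ih => have := B.ρ_succ n; push_cast; linarith

lemma ρ_mono : Monotone B.ρ := by
  apply monotone_nat_of_le_succ
  intro n
  have := B.ρ_succ n
  linarith

/-- the potential -/
def V (x : E2) : ℝ := ∑ j ∈ Finset.range (⌈‖x‖⌉₊ + 1), B.W j x

lemma W_zero_of_le {j : ℕ} {x : E2} (h : ‖x‖ ≤ j) : B.W j x = 0 := by
  apply B.W_zero
  left
  have := B.ρ_ge j
  have : (0:ℝ) ≤ j := by positivity
  linarith

lemma V_eq {N : ℕ} {x : E2} (h : ‖x‖ ≤ N) : B.V x = ∑ j ∈ Finset.range (N + 1), B.W j x := by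
  unfold V
  apply Finset.sum_subset
  · apply Finset.range_subset_range.2
    have := Nat.ceil_le.2 h
    omega
  · intro j _ hj
    apply B.W_zero_of_le
    rw [Finset.mem_range, not_lt] at hj
    calc ‖x‖ ≤ (⌈‖x‖⌉₊ : ℝ) := Nat.le_ceil _
      _ ≤ j := by exact_mod_cast (by omega : ⌈‖x‖⌉₊ ≤ j)

lemma V_contDiff : ContDiff ℝ ∞ B.V := by
  rw [contDiff_iff_contDiffAt]
  intro x0
  have h1 : B.V =ᶠ[𝓝 x0] fun x => ∑ j ∈ Finset.range (⌈‖x0‖ + 1⌉₊ + 1), B.W j x := by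
    have : ∀ᶠ x in 𝓝 x0, ‖x‖ < ‖x0‖ + 1 :=
      (continuous_norm.tendsto x0).eventually (eventually_lt_nhds (by linarith))
    filter_upwards [this] with x hx
    exact B.V_eq (hx.le.trans (Nat.le_ceil _))
  refine ContDiffAt.congr_of_eventuallyEq ?_ h1
  exact (ContDiff.sum fun j _ => B.W_smooth j).contDiffAt

lemma V_shell {j : ℕ} {x : E2} (h1 : B.ρ j ≤ ‖x‖) (h2 : ‖x‖ ≤ B.ρ (j + 1)) : B.V x = B.W j x := by
  have h3 : ‖x‖ ≤ ((max ⌈‖x‖⌉₊ j : ℕ) : ℝ) := (Nat.le_ceil _).trans (by exact_mod_cast le_max_left _ _)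
  rw [B.V_eq h3]
  apply Finset.sum_eq_single j
  · intro i _ hij
    apply B.W_zero
    rcases lt_or_gt_of_ne hij with h | h
    · right
      exact (B.ρ_mono (by omega : i + 1 ≤ j)).trans h1
    · left
      have := h2.trans (B.ρ_mono (by omega : j + 1 ≤ i))
      linarith
  · intro h
    exfalso
    apply h
    rw [Finset.mem_range]
    have := le_max_right ⌈‖x‖⌉₊ j
    omega

lemma exists_shell {x : E2} (h : B.ρ 0 ≤ ‖x‖) : ∃ j, B.ρ j ≤ ‖x‖ ∧ ‖x‖ ≤ B.ρ (j + 1) := by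
  classical
  have hex : ∃ j, ‖x‖ < B.ρ j := by
    obtain ⟨n, hn⟩ := exists_nat_gt ‖x‖
    refine ⟨n, hn.trans_le ?_⟩
    have := B.ρ_ge n
    have : (0:ℝ) ≤ n := by positivity
    linarith
  have h1 := Nat.find_spec hex
  rcases Nat.eq_zero_or_pos (Nat.find hex) with h0 | h0
  · rw [h0] at h1
    exact absurd h1 (not_lt.2 h)
  · refine ⟨Nat.find hex - 1, ?_, ?_⟩
    · exact not_lt.1 (Nat.find_min hex (by omega))
    · rw [Nat.sub_add_cancel h0]
      exact h1.le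

lemma V_inside {x : E2} (h : ‖x‖ ≤ B.ρ 0) : B.V x = 0 := by
  unfold V
  apply Finset.sum_eq_zero
  intro j _
  apply B.W_zero
  left
  have := B.ρ_mono (Nat.zero_le j)
  linarith

lemma W_inside {x : E2} (h : ‖x‖ ≤ B.ρ 0) (j : ℕ) : B.W j x = 0 := by
  apply B.W_zero
  left
  have := B.ρ_mono (Nat.zero_le j)
  linarith

lemma V_bd (x : E2) : |B.V x| ≤ h0 := by
  have hh : 0 ≤ h0 := (abs_nonneg _).trans (B.W_bd 0 0)
  rcases le_total ‖x‖ (B.ρ 0) with h | h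
  · rw [B.V_inside h, abs_zero]; exact hh
  · obtain ⟨j, h1, h2⟩ := B.exists_shell h
    rw [B.V_shell h1 h2]
    exact B.W_bd j x

lemma V_sq_le (x : E2) : ENNReal.ofReal (‖x‖⁻¹ * B.V x ^ 2) ≤
    ∑' j, ENNReal.ofReal (‖x‖⁻¹ * B.W j x ^ 2) := by
  rcases le_total ‖x‖ (B.ρ 0) with h | h
  · rw [B.V_inside h]
    simp
  · obtain ⟨j, h1, h2⟩ := B.exists_shell h
    rw [B.V_shell h1 h2]
    exact ENNReal.le_tsum j

lemma V_integrable : Integrable (fun x => ‖x‖⁻¹ * B.V x ^ 2) := by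
  have hc : Continuous B.V := B.V_contDiff.continuous
  refine ⟨?_, ?_⟩
  · exact (measurable_norm.inv.mul (hc.measurable.pow_const 2)).aestronglyMeasurable
  · rw [hasFiniteIntegral_iff_ofReal (Eventually.of_forall fun x => by positivity)]
    calc ∫⁻ x, ENNReal.ofReal (‖x‖⁻¹ * B.V x ^ 2)
        ≤ ∫⁻ x, ∑' j, ENNReal.ofReal (‖x‖⁻¹ * B.W j x ^ 2) := lintegral_mono B.V_sq_le
      _ = ∑' j, ∫⁻ x, ENNReal.ofReal (‖x‖⁻¹ * B.W j x ^ 2) := by
          apply lintegral_tsum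
          intro j
          exact (measurable_norm.inv.mul ((B.W_smooth j).continuous.measurable.pow_const 2)).ennreal_ofReal.aemeasurable
      _ ≤ ∑' j : ℕ, ENNReal.ofReal ((1 / 2) ^ j) := by
          apply ENNReal.tsum_le_tsum
          intro j
          rw [← ofReal_integral_eq_lintegral_ofReal (B.W_int j) (Eventually.of_forall fun x => by positivity)]
          exact ENNReal.ofReal_le_ofReal (B.W_int_le j)
      _ < ⊤ := by
          rw [← ENNReal.ofReal_tsum_of_nonneg (fun j => by positivity)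
            (summable_geometric_of_lt_one (by norm_num) (by norm_num))]
          exact ENNReal.ofReal_lt_top

end Blocks

section vanish

variable {K : Type*} [NormedAddCommGroup K] [InnerProductSpace ℂ K] [CompleteSpace K]
variable {V : E2 → ℝ} {Λ : ℝ} (k : Ker V Λ K) {δ : ℝ} (d : AvgKer δ)

lemma norm_U0_sub (hδ : 0 ≤ δ) {r : ℝ} (hr : 0 ≤ r) (s : ℝ) :
    ‖U0 k.κ r (d.tr2 s) - Real.sqrt r • k.κ (pol r s)‖
      ≤ Real.sqrt r * (k.C0 * Real.sqrt (r * δ)) := by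
  have hC := k.C0_nonneg
  have hκθ : Continuous fun θ : ℝ => k.κ (pol r θ) :=
    k.κcont.comp (pol_continuous.comp (by fun_prop : Continuous fun θ : ℝ => (r, θ)))
  have hDc : Continuous d.D := d.smooth.continuous
  have e1 : U0 k.κ r (d.tr2 s) - Real.sqrt r • k.κ (pol r s) =
      Real.sqrt r • ∫ θ' in (0:ℝ)..(2 * Real.pi), d.D (s - θ') • (k.κ (pol r θ') - k.κ (pol r s)) := by
    unfold U0
    simp only [smul_sub]
    rw [intervalIntegral.integral_sub, intervalIntegral.integral_smul_const, d.integral_tr s]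
    · simp only [AvgKer.tr2, smul_sub, one_smul]
    · exact ((hDc.comp (continuous_const.sub continuous_id)).smul hκθ).intervalIntegrable _ _
    · exact ((hDc.comp (continuous_const.sub continuous_id)).smul continuous_const).intervalIntegrable _ _
  rw [e1, norm_smul, Real.norm_eq_abs, abs_of_nonneg (Real.sqrt_nonneg _)]
  apply mul_le_mul_of_nonneg_left _ (Real.sqrt_nonneg _)
  have h3 : ‖∫ θ' in (0:ℝ)..(2 * Real.pi), d.D (s - θ') • (k.κ (pol r θ') - k.κ (pol r s))‖ ≤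
      ∫ θ' in (0:ℝ)..(2 * Real.pi), d.D (s - θ') * (k.C0 * Real.sqrt (r * δ)) := by
    apply intervalIntegral.norm_integral_le_of_norm_le (by positivity)
    · apply Filter.Eventually.of_forall
      intro θ' _
      rw [norm_smul, Real.norm_eq_abs, abs_of_nonneg (d.nonneg _)]
      by_cases hs' : d.D (s - θ') = 0
      · rw [hs']; simp
      apply mul_le_mul_of_nonneg_left _ (d.nonneg _)
      refine (k.κholder _ _).trans ?_
      apply mul_le_mul_of_nonneg_left _ hC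
      apply Real.sqrt_le_sqrt
      have a2 := d.dist_le hδ hr hs'
      rwa [norm_sub_rev]
    · apply Continuous.intervalIntegrable
      fun_prop
  rw [intervalIntegral.integral_mul_const, d.integral_tr s, one_mul] at h3
  exact h3

lemma ev_sq_le (hδ : 0 ≤ δ) {r : ℝ} (hr : 0 ≤ r) (s : ℝ) :
    r * ‖k.ev (k.κ (pol r s))‖ ^ 2 ≤
      2 * ‖k.ev (U0 k.κ r (d.tr2 s))‖ ^ 2 + 2 * ‖k.ev‖ ^ 2 * (r * (k.C0 ^ 2 * (r * δ))) := by
  have h1 := norm_U0_sub k d hδ hr s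
  have h2 : Real.sqrt r * ‖k.ev (k.κ (pol r s))‖ ≤ ‖k.ev (U0 k.κ r (d.tr2 s))‖
      + ‖k.ev‖ * (Real.sqrt r * (k.C0 * Real.sqrt (r * δ))) := by
    have e1 : Real.sqrt r * ‖k.ev (k.κ (pol r s))‖ = ‖k.ev (Real.sqrt r • k.κ (pol r s))‖ := by
      have : k.ev (Real.sqrt r • k.κ (pol r s)) = Real.sqrt r • k.ev (k.κ (pol r s)) :=
        k.ev.map_smul_of_tower _ _
      rw [this, norm_smul, Real.norm_eq_abs, abs_of_nonneg (Real.sqrt_nonneg _)]
    have e2 : k.ev (Real.sqrt r • k.κ (pol r s)) = k.ev (U0 k.κ r (d.tr2 s)) -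
        k.ev (U0 k.κ r (d.tr2 s) - Real.sqrt r • k.κ (pol r s)) := by
      rw [map_sub]; abel
    rw [e1, e2]
    refine (norm_sub_le _ _).trans ?_
    gcongr
    exact (k.ev.le_opNorm _).trans (by gcongr)
  have h3 : (Real.sqrt r * ‖k.ev (k.κ (pol r s))‖) ^ 2 ≤ (‖k.ev (U0 k.κ r (d.tr2 s))‖
      + ‖k.ev‖ * (Real.sqrt r * (k.C0 * Real.sqrt (r * δ)))) ^ 2 := by
    gcongr
  have h4 : (‖k.ev (U0 k.κ r (d.tr2 s))‖
      + ‖k.ev‖ * (Real.sqrt r * (k.C0 * Real.sqrt (r * δ)))) ^ 2 ≤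
      2 * ‖k.ev (U0 k.κ r (d.tr2 s))‖ ^ 2 +
        2 * (‖k.ev‖ * (Real.sqrt r * (k.C0 * Real.sqrt (r * δ)))) ^ 2 := by
    nlinarith [sq_nonneg (‖k.ev (U0 k.κ r (d.tr2 s))‖ -
      ‖k.ev‖ * (Real.sqrt r * (k.C0 * Real.sqrt (r * δ))))]
  have e3 : (‖k.ev‖ * (Real.sqrt r * (k.C0 * Real.sqrt (r * δ)))) ^ 2 =
      ‖k.ev‖ ^ 2 * (r * (k.C0 ^ 2 * (r * δ))) := by
    rw [mul_pow, mul_pow, mul_pow, Real.sq_sqrt hr, Real.sq_sqrt (by positivity)]
  rw [e3] at h4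
  rw [mul_pow, Real.sq_sqrt hr] at h3
  linarith

lemma cont_ev_κ : Continuous fun p : ℝ × ℝ => ‖k.ev (k.κ (pol p.1 p.2))‖ ^ 2 := by
  have := k.κcont
  have h2 := pol_continuous
  fun_prop

lemma cont_ev_U0 : Continuous fun p : ℝ × ℝ => ‖k.ev (U0 k.κ p.1 (d.tr2 p.2))‖ ^ 2 := by
  have hDc : Continuous d.D := d.smooth.continuous
  have h1 : Continuous fun p : ℝ × ℝ => U0 k.κ p.1 ((fun _ s => d.tr2 s) p.1 p.2) := by
    apply U0_continuous2 k.κcont (f := fun _ s θ => d.tr2 s θ)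
    simp only [AvgKer.tr2]
    fun_prop
  exact ((k.ev.continuous.comp h1).norm).pow 2

/-- the estimate from one block -/
lemma block_est (hδ : 0 ≤ δ) {α β R : ℝ} (hα : 0 < α) (hαβ : α ≤ β) (hβR : β ≤ R) {η : ℝ}
    (h : k.c / 2 * ∫ r in α..R, (∫ s in (0:ℝ)..(2 * Real.pi), ‖k.ev (U0 k.κ r (d.tr2 s))‖ ^ 2)
          ≤ η * k.C0 ^ 2) :
    α * ∫ r in α..β, (∫ s in (0:ℝ)..(2 * Real.pi), ‖k.ev (k.κ (pol r s))‖ ^ 2) ≤
      4 / k.c * (η * k.C0 ^ 2) + (2 * ‖k.ev‖ ^ 2 * (β * (k.C0 ^ 2 * β)) * (2 * Real.pi) * (β - α)) * δ := by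
  have hc := k.hc
  have hC := k.C0_nonneg
  set G : ℝ → ℝ := fun r => ∫ s in (0:ℝ)..(2 * Real.pi), ‖k.ev (U0 k.κ r (d.tr2 s))‖ ^ 2 with hG
  set g : ℝ → ℝ := fun r => ∫ s in (0:ℝ)..(2 * Real.pi), ‖k.ev (k.κ (pol r s))‖ ^ 2 with hg
  have hGc : Continuous G :=
    intervalIntegral.continuous_parametric_intervalIntegral_of_continuous' (cont_ev_U0 k d) _ _
  have hgc : Continuous g :=
    intervalIntegral.continuous_parametric_intervalIntegral_of_continuous' (cont_ev_κ k) _ _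
  have hG0 : ∀ r, 0 ≤ G r := fun r =>
    intervalIntegral.integral_nonneg (by positivity) fun s _ => by positivity
  have hg0 : ∀ r, 0 ≤ g r := fun r =>
    intervalIntegral.integral_nonneg (by positivity) fun s _ => by positivity
  set c1 : ℝ := 2 * ‖k.ev‖ ^ 2 * (β * (k.C0 ^ 2 * β)) * δ with hc1
  have h1 : ∀ r ∈ Icc α β, α * g r ≤ 2 * G r + c1 * (2 * Real.pi) := by
    intro r hr
    have hr0 : 0 ≤ r := hα.le.trans hr.1
    have e1 : 2 * G r + c1 * (2 * Real.pi) =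
        ∫ s in (0:ℝ)..(2 * Real.pi), (2 * ‖k.ev (U0 k.κ r (d.tr2 s))‖ ^ 2 + c1) := by
      rw [intervalIntegral.integral_add, intervalIntegral.integral_const_mul,
        intervalIntegral.integral_const, sub_zero, smul_eq_mul]
      · ring
      · apply Continuous.intervalIntegrable
        have := (cont_ev_U0 k d).comp (by fun_prop : Continuous fun s : ℝ => (r, s))
        exact continuous_const.mul this
      · exact intervalIntegrable_const
    rw [e1, hg]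
    simp only
    rw [← intervalIntegral.integral_const_mul]
    apply intervalIntegral.integral_mono_on (by positivity)
    · apply Continuous.intervalIntegrable
      have := (cont_ev_κ k).comp (by fun_prop : Continuous fun s : ℝ => (r, s))
      exact continuous_const.mul this
    · apply Continuous.intervalIntegrable
      have := (cont_ev_U0 k d).comp (by fun_prop : Continuous fun s : ℝ => (r, s))
      exact (continuous_const.mul this).add continuous_const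
    · intro s _
      have h2 := ev_sq_le k d hδ hr0 s
      have h3 : α * ‖k.ev (k.κ (pol r s))‖ ^ 2 ≤ r * ‖k.ev (k.κ (pol r s))‖ ^ 2 := by
        gcongr; exact hr.1
      have h4 : 2 * ‖k.ev‖ ^ 2 * (r * (k.C0 ^ 2 * (r * δ))) ≤ c1 := by
        rw [hc1]
        have : r * (k.C0 ^ 2 * (r * δ)) ≤ β * (k.C0 ^ 2 * β) * δ := by
          calc r * (k.C0 ^ 2 * (r * δ)) ≤ β * (k.C0 ^ 2 * (β * δ)) := by
                gcongr
                · exact hα.le.trans hαβ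
                · exact hr.2
                · exact hr.2
            _ = β * (k.C0 ^ 2 * β) * δ := by ring
        calc 2 * ‖k.ev‖ ^ 2 * (r * (k.C0 ^ 2 * (r * δ))) ≤ 2 * ‖k.ev‖ ^ 2 * (β * (k.C0 ^ 2 * β) * δ) := by
              gcongr
          _ = _ := by ring
      linarith
  have h2 : α * ∫ r in α..β, g r ≤ ∫ r in α..β, (2 * G r + c1 * (2 * Real.pi)) := by
    rw [← intervalIntegral.integral_const_mul]
    apply intervalIntegral.integral_mono_on hαβ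
    · exact (continuous_const.mul hgc).intervalIntegrable _ _
    · exact ((continuous_const.mul hGc).add continuous_const).intervalIntegrable _ _
    · exact h1
  have h3 : ∫ r in α..β, (2 * G r + c1 * (2 * Real.pi)) =
      2 * (∫ r in α..β, G r) + c1 * (2 * Real.pi) * (β - α) := by
    rw [intervalIntegral.integral_add, intervalIntegral.integral_const_mul,
      intervalIntegral.integral_const, smul_eq_mul]
    · ring
    · exact (continuous_const.mul hGc).intervalIntegrable _ _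
    · exact intervalIntegrable_const
  have h4 : ∫ r in α..β, G r ≤ ∫ r in α..R, G r := by
    apply intervalIntegral.integral_mono_interval le_rfl hαβ hβR
    · exact Eventually.of_forall fun r => hG0 r
    · exact hGc.intervalIntegrable _ _
  have h5 : ∫ r in α..R, G r ≤ 2 / k.c * (η * k.C0 ^ 2) := by
    have h6 : ∫ r in α..R, G r = 2 / k.c * (k.c / 2 * ∫ r in α..R, G r) := by
      field_simp
    rw [h6]
    gcongr
  calc α * ∫ r in α..β, g r ≤ 2 * (∫ r in α..β, G r) + c1 * (2 * Real.pi) * (β - α) := h2.trans h3.le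
    _ ≤ 2 * (2 / k.c * (η * k.C0 ^ 2)) + c1 * (2 * Real.pi) * (β - α) := by
        gcongr
        exact h4.trans h5
    _ = _ := by rw [hc1]; ring

end vanish

lemma exists_pol (x : E2) : ∃ r θ : ℝ, 0 ≤ r ∧ x = pol r θ := by
  refine ⟨‖(⟨x 0, x 1⟩ : ℂ)‖, Complex.arg ⟨x 0, x 1⟩, norm_nonneg _, ?_⟩
  ext i
  fin_cases i
  · simp only [pol]
    simp [Complex.norm_mul_cos_arg]
  · simp only [pol]
    simp [Complex.norm_mul_sin_arg]

lemma pol_per (r : ℝ) : Function.Periodic (fun θ => pol r θ) (2 * Real.pi) := by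
  intro θ
  simp only [pol, Real.cos_add_two_pi, Real.sin_add_two_pi]

theorem exists_potential {Λ h0 : ℝ} (h : BlockProp Λ h0) :
    ∃ V : E2 → ℝ, ContDiff ℝ ∞ V ∧ (∀ x, |V x| ≤ h0) ∧ Integrable (fun x => ‖x‖⁻¹ * V x ^ 2) ∧
      ∀ (K : Type) [NormedAddCommGroup K] [InnerProductSpace ℂ K] [CompleteSpace K]
        (k : Ker V Λ K), ∀ x, k.ev (k.κ x) = 0 := by
  obtain ⟨B⟩ := exists_blocks h
  refine ⟨B.V, B.V_contDiff, B.V_bd, B.V_integrable, ?_⟩
  intro K _ _ _ k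
  -- the double integral vanishes
  have key : ∀ α β : ℝ, 0 < α → α ≤ β →
      ∫ r in α..β, (∫ s in (0:ℝ)..(2 * Real.pi), ‖k.ev (k.κ (pol r s))‖ ^ 2) ≤ 0 := by
    intro α β hα hαβ
    set I := ∫ r in α..β, (∫ s in (0:ℝ)..(2 * Real.pi), ‖k.ev (k.κ (pol r s))‖ ^ 2) with hI
    set c1 := 4 / k.c * k.C0 ^ 2 + (2 * ‖k.ev‖ ^ 2 * (β * (k.C0 ^ 2 * β)) * (2 * Real.pi) * (β - α)) with hc1
    have h1 : ∀ᶠ j : ℕ in atTop, α * I ≤ c1 * (1 / 2) ^ j := by
      obtain ⟨n, hn⟩ := exists_nat_gt β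
      filter_upwards [eventually_ge_atTop n] with j hj
      have hβj : β ≤ B.R j := by
        have h2 := B.ρ_ge j
        have h3 := B.ρ_le_R j
        have h4 : (n:ℝ) ≤ j := by exact_mod_cast hj
        have h5 : (0:ℝ) ≤ j := by positivity
        linarith
      have h2 := B.main j B.V B.V_contDiff.continuous B.V_bd (fun x h1 h2 => B.V_shell h1 h2) K k α hα
        (hαβ.trans hβj)
      have h3 := block_est k (B.d j) (B.δ_nonneg j) hα hαβ hβj h2
      refine h3.trans ?_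
      have hc := k.hc
      have h4 : (2 * ‖k.ev‖ ^ 2 * (β * (k.C0 ^ 2 * β)) * (2 * Real.pi) * (β - α)) * B.δ j ≤
          (2 * ‖k.ev‖ ^ 2 * (β * (k.C0 ^ 2 * β)) * (2 * Real.pi) * (β - α)) * (1 / 2) ^ j := by
        apply mul_le_mul_of_nonneg_left (B.δ_le j)
        have : 0 ≤ β - α := by linarith
        have : 0 ≤ β := hα.le.trans hαβ
        positivity
      calc _ ≤ 4 / k.c * ((1 / 2) ^ j * k.C0 ^ 2) +
            (2 * ‖k.ev‖ ^ 2 * (β * (k.C0 ^ 2 * β)) * (2 * Real.pi) * (β - α)) * (1 / 2) ^ j := by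
            linarith
        _ = c1 * (1 / 2) ^ j := by rw [hc1]; ring
    have h2 : Tendsto (fun j : ℕ => c1 * (1 / 2 : ℝ) ^ j) atTop (𝓝 (c1 * 0)) :=
      (tendsto_pow_atTop_nhds_zero_of_lt_one (by norm_num) (by norm_num)).const_mul c1
    have h3 : α * I ≤ c1 * 0 := ge_of_tendsto h2 h1
    rw [mul_zero] at h3
    by_contra hneg
    rw [not_le] at hneg
    have := mul_pos hα hneg
    linarith
  have hcont : Continuous fun x => k.ev (k.κ x) := k.ev.continuous.comp k.κcont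
  have hpos : ∀ r s : ℝ, 0 < r → s ∈ Icc (0:ℝ) (2 * Real.pi) → k.ev (k.κ (pol r s)) = 0 := by
    intro r s hr hs
    by_contra hne
    have hp : 0 < ‖k.ev (k.κ (pol r s))‖ ^ 2 := by positivity
    have hI : 0 < ∫ s in (0:ℝ)..(2 * Real.pi), ‖k.ev (k.κ (pol r s))‖ ^ 2 := by
      apply intervalIntegral.integral_pos (by positivity)
      · exact ((cont_ev_κ k).comp (by fun_prop : Continuous fun s : ℝ => (r, s))).continuousOn
      · intro x _; positivity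
      · exact ⟨s, hs, hp⟩
    have h2 : 0 < ∫ r in (r / 2)..(2 * r), (∫ s in (0:ℝ)..(2 * Real.pi), ‖k.ev (k.κ (pol r s))‖ ^ 2) := by
      apply intervalIntegral.integral_pos (by linarith)
      · exact (intervalIntegral.continuous_parametric_intervalIntegral_of_continuous' (cont_ev_κ k) _ _).continuousOn
      · intro x _
        exact intervalIntegral.integral_nonneg (by positivity) fun s _ => by positivity
      · exact ⟨r, ⟨by linarith, by linarith⟩, hI⟩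
    have := key (r / 2) (2 * r) (by linarith) (by linarith)
    linarith
  have hall : ∀ x : E2, x ≠ 0 → k.ev (k.κ x) = 0 := by
    intro x hx
    obtain ⟨r, θ, hr, rfl⟩ := exists_pol x
    have hr' : 0 < r := by
      rcases hr.eq_or_lt with h | h
      · exfalso; apply hx
        rw [← h]
        ext i
        fin_cases i <;> simp [pol]
      · exact h
    obtain ⟨θ', hθ', he⟩ := (pol_per r).exists_mem_Ico₀ (by positivity) θ
    rw [he]
    exact hpos r θ' hr' (Ico_subset_Icc_self hθ')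
  intro x
  have h2 : (fun x => k.ev (k.κ x)) = fun _ => 0 := by
    apply Continuous.ext_on (dense_compl_singleton (0 : E2)) hcont continuous_const
    intro y hy
    exact hall y hy
  exact congrFun h2 x

end MP3a4792
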