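import Mathlib

open MeasureTheory Set InnerProductSpace
open scoped ContDiff Laplacian InnerProductSpace

noncomputable section

namespace MP3a4792

/-- the plane -/
abbrev E2 := EuclideanSpace ℝ (Fin 2)

/-- `L²(ℝ²;ℂ)` -/
abbrev L2E := Lp ℂ 2 (volume : Measure E2)

/-- polar coordinates -/
def pol (r θ : ℝ) : E2 := !₂[r * Real.cos θ, r * Real.sin θ]

/-- complex test functions `C_c^∞(ℝ²)` -/
def TF : Submodule ℂ (E2 → ℂ) where
  carrier := {u | ContDiff ℝ ∞ u ∧ HasCompactSupport u}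
  add_mem' := by
    rintro a b ⟨ha, ha'⟩ ⟨hb, hb'⟩
    exact ⟨ha.add hb, ha'.add hb'⟩
  zero_mem' := ⟨contDiff_const, HasCompactSupport.zero⟩
  smul_mem' := by
    rintro c u ⟨hu, hu'⟩
    refine ⟨contDiff_const.smul hu, ?_⟩
    exact hu'.smul_left (f := fun _ => c)

lemma TF.contDiff (u : TF) : ContDiff ℝ ∞ (u : E2 → ℂ) := u.2.1
lemma TF.hasCompactSupport (u : TF) : HasCompactSupport (u : E2 → ℂ) := u.2.2
lemma TF.continuous (u : TF) : Continuous (u : E2 → ℂ) := u.2.1.continuous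

lemma TF.memLp (u : TF) : MemLp (u : E2 → ℂ) 2 (volume : Measure E2) :=
  (TF.continuous u).memLp_of_hasCompactSupport (TF.hasCompactSupport u)

/-- class of a test function in `L²` -/
def toL2 : TF →ₗ[ℂ] L2E where
  toFun u := (TF.memLp u).toLp _
  map_add' u v := by
    rw [← MemLp.toLp_add]
    rfl
  map_smul' c u := by
    rw [RingHom.id_apply, ← MemLp.toLp_const_smul]
    rfl

lemma coeFn_toL2 (u : TF) : (toL2 u : E2 → ℂ) =ᵐ[volume] (u : E2 → ℂ) :=
  MemLp.coeFn_toLp (TF.memLp u)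

lemma laplacian_mem (u : TF) : (Δ (u : E2 → ℂ)) ∈ TF := by
  constructor
  · rw [laplacian_eq_iteratedFDeriv_orthonormalBasis (u : E2 → ℂ) (stdOrthonormalBasis ℝ E2)]
    apply ContDiff.sum
    intro i _
    have h2 : ContDiff ℝ ∞ (iteratedFDeriv ℝ 2 (u : E2 → ℂ)) :=
      (TF.contDiff u).iteratedFDeriv_right (le_of_eq (by rfl))
    exact (ContinuousMultilinearMap.apply ℝ (fun _ : Fin 2 => E2) ℂ _).contDiff.comp h2
  · have h1 : HasCompactSupport (iteratedFDeriv ℝ 2 (u : E2 → ℂ)) :=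
      (TF.hasCompactSupport u).iteratedFDeriv 2
    refine h1.mono' ?_
    intro x hx
    apply subset_tsupport
    rw [Function.mem_support] at hx ⊢
    intro h0
    apply hx
    rw [laplacian_eq_iteratedFDeriv_orthonormalBasis (u : E2 → ℂ) (stdOrthonormalBasis ℝ E2)]
    simp [h0]

lemma TF.contDiffAt_two (u : TF) (x : E2) : ContDiffAt ℝ 2 (u : E2 → ℂ) x :=
  ((TF.contDiff u).of_le (by norm_cast)).contDiffAt

/-- the Laplacian on test functions -/
def lap : TF →ₗ[ℂ] TF where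
  toFun u := ⟨Δ (u : E2 → ℂ), laplacian_mem u⟩
  map_add' u v := by
    ext x
    exact (TF.contDiffAt_two u x).laplacian_add (TF.contDiffAt_two v x)
  map_smul' c u := by
    ext x
    exact laplacian_smul c (TF.contDiffAt_two u x)

@[simp] lemma lap_apply (u : TF) (x : E2) : (lap u : E2 → ℂ) x = Δ (u : E2 → ℂ) x := rfl

/-- multiplication of a test function by a smooth real function -/
def mulTF (V : E2 → ℝ) (hV : ContDiff ℝ ∞ V) : TF →ₗ[ℂ] TF where
  toFun u := ⟨fun x => (V x : ℂ) * u.1 x, by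
    refine ⟨?_, ?_⟩
    · exact (Complex.ofRealCLM.contDiff.comp hV).mul (TF.contDiff u)
    · exact (TF.hasCompactSupport u).mul_left⟩
  map_add' u v := by
    ext x
    simp [mul_add]
  map_smul' c u := by
    ext x
    simp only [RingHom.id_apply, Submodule.coe_smul, Pi.smul_apply, smul_eq_mul]
    ring

/-- the Schrödinger operator `-Δ + V` on test functions, `V` smooth -/
def Hop (V : E2 → ℝ) (hV : ContDiff ℝ ∞ V) : TF →ₗ[ℂ] TF := mulTF V hV - lap

lemma Hop_apply (V : E2 → ℝ) (hV : ContDiff ℝ ∞ V) (u : TF) (x : E2) :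
    (Hop V hV u : E2 → ℂ) x = (V x : ℂ) * u.1 x - Δ (u : E2 → ℂ) x := rfl

/-- the graph-type norm `‖u‖ + ‖Δu‖` of a test function -/
def N2 (u : TF) : ℝ := ‖toL2 u‖ + ‖toL2 (lap u)‖

/-- the Hilbert space of the energy variable -/
abbrev KK (Λ : ℝ) := Lp ℂ 2 (volume.restrict (Ioo (0 : ℝ) Λ))

/-- the graph of `-Δ+V` on test functions -/
def graph0 (V : E2 → ℝ) (hV : ContDiff ℝ ∞ V) : Set (L2E × L2E) :=
  {p | ∃ u : TF, p = (toL2 u, toL2 (Hop V hV u))}

end MP3a4792
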