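import Pool.Agent.Lib.MP_3a4792_mp.Sobolev

/-! Potentials of a block: smooth functions of the radius and of the cosine of N times the angle. -/

open MeasureTheory Set InnerProductSpace Filter Topology
open scoped ContDiff Laplacian InnerProductSpace

noncomputable section

namespace MP3a4792

namespace BlockPot

/-- the complex coordinate -/
def zc (x : E2) : ℂ := (x 0 : ℂ) + (x 1 : ℂ) * Complex.I

/-- the cosine of `N` times the angle -/
def cN (N : ℕ) (x : E2) : ℝ := ((zc x) ^ N).re / ‖x‖ ^ N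

lemma norm_zc (x : E2) : ‖zc x‖ = ‖x‖ := by
  rw [EuclideanSpace.norm_eq, Fin.sum_univ_two, zc, Complex.norm_add_mul_I]
  simp [sq_abs]

lemma cN_mem (N : ℕ) (x : E2) : cN N x ∈ Icc (-1 : ℝ) 1 := by
  have h : |cN N x| ≤ 1 := by
    rw [cN, abs_div, abs_of_nonneg (by positivity : 0 ≤ ‖x‖ ^ N)]
    apply div_le_one_of_le₀ _ (by positivity)
    calc |((zc x) ^ N).re| ≤ ‖(zc x) ^ N‖ := Complex.abs_re_le_norm _
      _ = ‖x‖ ^ N := by rw [norm_pow, norm_zc]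
  exact abs_le.1 h

lemma zc_pol (r θ : ℝ) : zc (pol r θ) = r * Complex.exp (θ * Complex.I) := by
  rw [zc, Sob.pol_apply_zero, Sob.pol_apply_one, Complex.exp_mul_I]
  push_cast
  ring

lemma cN_pol (N : ℕ) {r : ℝ} (hr : 0 < r) (θ : ℝ) : cN N (pol r θ) = Real.cos (N * θ) := by
  rw [cN, zc_pol, Sob.norm_pol, abs_of_pos hr, mul_pow, ← Complex.exp_nat_mul]
  have h1 : (N : ℂ) * (θ * Complex.I) = ((N * θ : ℝ) : ℂ) * Complex.I := by
    push_cast; ring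
  rw [h1]
  have h2 : ((r : ℂ) ^ N * Complex.exp (((N * θ : ℝ) : ℂ) * Complex.I)).re =
      r ^ N * Real.cos (N * θ) := by
    rw [← Complex.ofReal_pow, Complex.re_ofReal_mul, Complex.exp_ofReal_mul_I_re]
  rw [h2]
  have : r ^ N ≠ 0 := pow_ne_zero _ hr.ne'
  field_simp

lemma contDiff_coord (i : Fin 2) : ContDiff ℝ ∞ fun x : E2 => x i :=
  (EuclideanSpace.proj (𝕜 := ℝ) i).contDiff

lemma contDiff_zc : ContDiff ℝ ∞ zc := by
  unfold zc
  have h0 : ContDiff ℝ ∞ fun x : E2 => ((x 0 : ℝ) : ℂ) :=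
    Complex.ofRealCLM.contDiff.comp (contDiff_coord 0)
  have h1 : ContDiff ℝ ∞ fun x : E2 => ((x 1 : ℝ) : ℂ) :=
    Complex.ofRealCLM.contDiff.comp (contDiff_coord 1)
  exact h0.add (h1.mul contDiff_const)

lemma contDiffAt_cN (N : ℕ) {x : E2} (hx : x ≠ 0) : ContDiffAt ℝ ∞ (cN N) x := by
  unfold cN
  have h1 : ContDiff ℝ ∞ fun x : E2 => ((zc x) ^ N).re :=
    Complex.reCLM.contDiff.comp (contDiff_zc.pow N)
  have h2 : ContDiffAt ℝ ∞ (fun x : E2 => ‖x‖ ^ N) x := (contDiffAt_norm ℝ hx).pow N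
  exact h1.contDiffAt.div h2 (pow_ne_zero _ (norm_ne_zero_iff.2 hx))

/-- the potential of a block -/
def VB (F : ℝ → ℝ → ℝ) (N : ℕ) (x : E2) : ℝ := F ‖x‖ (cN N x)

lemma contDiff_VB (F : ℝ → ℝ → ℝ) (N : ℕ) {r₁ r₂ : ℝ} (h1 : 0 < r₁)
    (hF : ∀ r c, 0 < r → c ∈ Icc (-1 : ℝ) 1 → ContDiffAt ℝ ∞ (fun p : ℝ × ℝ => F p.1 p.2) (r, c))
    (hF0 : ∀ r c, r ≤ r₁ ∨ r₂ ≤ r → F r c = 0) : ContDiff ℝ ∞ (VB F N) := by
  rw [contDiff_iff_contDiffAt]
  intro x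
  by_cases hx : x = 0
  · have h0 : VB F N =ᶠ[𝓝 x] fun _ => 0 := by
      have hb : Metric.ball (0 : E2) r₁ ∈ 𝓝 x := by
        rw [hx]; exact Metric.ball_mem_nhds _ h1
      filter_upwards [hb] with y hy
      apply hF0
      left
      rw [mem_ball_zero_iff] at hy
      exact hy.le
    exact contDiffAt_const.congr_of_eventuallyEq h0
  · have h2 : ContDiffAt ℝ ∞ (fun p : ℝ × ℝ => F p.1 p.2) (‖x‖, cN N x) :=
      hF _ _ (norm_pos_iff.2 hx) (cN_mem N x)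
    have h3 : ContDiffAt ℝ ∞ (fun y : E2 => (‖y‖, cN N y)) x :=
      (contDiffAt_norm ℝ hx).prodMk (contDiffAt_cN N hx)
    exact ContDiffAt.comp x (g := fun p : ℝ × ℝ => F p.1 p.2) (f := fun y : E2 => (‖y‖, cN N y)) h2 h3

lemma VB_zero (F : ℝ → ℝ → ℝ) (N : ℕ) {r₁ r₂ : ℝ}
    (hF0 : ∀ r c, r ≤ r₁ ∨ r₂ ≤ r → F r c = 0) (x : E2) (hx : ‖x‖ ≤ r₁ ∨ r₂ ≤ ‖x‖) :
    VB F N x = 0 := hF0 _ _ hx

lemma VB_pol (F : ℝ → ℝ → ℝ) (N : ℕ) {r : ℝ} (hr : 0 < r) (θ : ℝ) :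
    VB F N (pol r θ) = F r (Real.cos (N * θ)) := by
  rw [VB, Sob.norm_pol, abs_of_pos hr, cN_pol N hr]

lemma continuous_W {V : E2 → ℝ} (hV : Continuous V) {r₁ : ℝ} (h1 : 0 < r₁)
    (h0 : ∀ x, ‖x‖ ≤ r₁ → V x = 0) : Continuous fun x => ‖x‖⁻¹ * V x ^ 2 := by
  rw [continuous_iff_continuousAt]
  intro x
  by_cases hx : x = 0
  · have h0 : (fun x : E2 => ‖x‖⁻¹ * V x ^ 2) =ᶠ[𝓝 x] fun _ => 0 := by
      have hb : Metric.ball (0 : E2) r₁ ∈ 𝓝 x := by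
        rw [hx]; exact Metric.ball_mem_nhds _ h1
      filter_upwards [hb] with y hy
      rw [mem_ball_zero_iff] at hy
      rw [h0 y hy.le]
      ring
    exact continuousAt_const.congr h0.symm
  · have : ContinuousAt (fun x : E2 => ‖x‖⁻¹) x :=
      continuous_norm.continuousAt.inv₀ (norm_ne_zero_iff.2 hx)
    exact this.mul (hV.continuousAt.pow 2)

end BlockPot

open BlockPot in
theorem exists_blockPot (F : ℝ → ℝ → ℝ) (N : ℕ) {r₁ r₂ : ℝ} (h1 : 0 < r₁) (h12 : r₁ ≤ r₂)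
    (hF : ∀ r c, 0 < r → c ∈ Icc (-1 : ℝ) 1 → ContDiffAt ℝ ∞ (fun p : ℝ × ℝ => F p.1 p.2) (r, c))
    (hF0 : ∀ r c, r ≤ r₁ ∨ r₂ ≤ r → F r c = 0) :
    ∃ V : E2 → ℝ, ContDiff ℝ ∞ V ∧
      (∀ r θ, 0 < r → V (pol r θ) = F r (Real.cos (N * θ))) ∧
      (∀ x, ‖x‖ ≤ r₁ ∨ r₂ ≤ ‖x‖ → V x = 0) ∧
      (∀ h0 : ℝ, 0 ≤ h0 → (∀ r c, 0 < r → c ∈ Icc (-1 : ℝ) 1 → |F r c| ≤ h0) → ∀ x, |V x| ≤ h0) ∧
      Integrable (fun x => ‖x‖⁻¹ * V x ^ 2) ∧
      ∫ x, ‖x‖⁻¹ * V x ^ 2 =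
        ∫ r in r₁..r₂, (∫ θ in (0:ℝ)..(2 * Real.pi), F r (Real.cos (N * θ)) ^ 2) := by
  have hpi := Real.pi_pos
  have hV := contDiff_VB F N h1 hF hF0
  have hVz := VB_zero F N hF0
  have hWc : Continuous fun x : E2 => ‖x‖⁻¹ * VB F N x ^ 2 :=
    continuous_W hV.continuous h1 fun x hx => hVz x (Or.inl hx)
  refine ⟨VB F N, hV, fun r θ hr => VB_pol F N hr θ, hVz, ?_, ?_, ?_⟩
  · intro h0 hh0 hb x
    by_cases hx : x = 0
    · rw [hVz x (Or.inl (by rw [hx, norm_zero]; exact h1.le)), abs_zero]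
      exact hh0
    · exact hb _ _ (norm_pos_iff.2 hx) (cN_mem N x)
  · apply hWc.integrable_of_hasCompactSupport
    apply HasCompactSupport.of_support_subset_isCompact (isCompact_closedBall (0 : E2) r₂)
    intro x hx
    rw [Function.mem_support] at hx
    rw [mem_closedBall_zero_iff]
    by_contra hcon
    push Not at hcon
    apply hx
    rw [hVz x (Or.inr hcon.le)]
    ring
  · rw [Sob.polar_integral]
    set g : ℝ × ℝ → ℝ := fun p => p.1 * (‖pol p.1 p.2‖⁻¹ * VB F N (pol p.1 p.2) ^ 2) with hg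
    have hgc : Continuous g := by
      have := hWc.comp Sob.continuous_pol
      exact continuous_fst.mul this
    have hgz : ∀ p : ℝ × ℝ, 0 < p.1 → (p.1 ≤ r₁ ∨ r₂ ≤ p.1) → g p = 0 := by
      intro p hp hp'
      simp only [hg]
      rw [hVz (pol p.1 p.2) (by rw [Sob.norm_pol, abs_of_pos hp]; exact hp')]
      ring
    have hgv : ∀ p : ℝ × ℝ, 0 < p.1 → g p = F p.1 (Real.cos (N * p.2)) ^ 2 := by
      intro p hp
      simp only [hg]
      rw [VB_pol F N hp, Sob.norm_pol, abs_of_pos hp, ← mul_assoc, mul_inv_cancel₀ hp.ne', one_mul]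
    have hsub : Ioc r₁ r₂ ×ˢ Ioo (-Real.pi) Real.pi ⊆ Ioi (0:ℝ) ×ˢ Ioo (-Real.pi) Real.pi := by
      rintro ⟨a, b⟩ ⟨ha, hb⟩
      exact ⟨lt_trans h1 ha.1, hb⟩
    have hre : ∫ p in Ioi (0:ℝ) ×ˢ Ioo (-Real.pi) Real.pi, g p =
        ∫ p in Ioc r₁ r₂ ×ˢ Ioo (-Real.pi) Real.pi, g p := by
      apply setIntegral_eq_of_subset_of_forall_sdiff_eq_zero
        (measurableSet_Ioi.prod measurableSet_Ioo) hsub
      rintro ⟨a, b⟩ ⟨⟨ha, hb⟩, hn⟩
      apply hgz _ ha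
      by_contra hcon
      push Not at hcon
      exact hn ⟨⟨hcon.1, hcon.2.le⟩, hb⟩
    rw [hre]
    have hint : IntegrableOn g (Ioc r₁ r₂ ×ˢ Ioo (-Real.pi) Real.pi) := by
      have h2 : IntegrableOn g (Icc r₁ r₂ ×ˢ Icc (-Real.pi) Real.pi) :=
        hgc.continuousOn.integrableOn_compact (isCompact_Icc.prod isCompact_Icc)
      exact h2.mono_set (Set.prod_mono Ioc_subset_Icc_self Ioo_subset_Icc_self)
    rw [Measure.volume_eq_prod, setIntegral_prod _ (by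
      rw [← Measure.volume_eq_prod]
      exact hint), intervalIntegral.integral_of_le h12]
    apply setIntegral_congr_fun measurableSet_Ioc
    intro r hr
    have hr0 : 0 < r := lt_trans h1 hr.1
    have h3 : ∀ θ : ℝ, g (r, θ) = F r (Real.cos (N * θ)) ^ 2 := fun θ => hgv (r, θ) hr0
    simp only [h3]
    rw [← integral_Ioc_eq_integral_Ioo, ← intervalIntegral.integral_of_le (by linarith)]
    have hper : Function.Periodic (fun θ : ℝ => F r (Real.cos (N * θ)) ^ 2) (2 * Real.pi) := by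
      intro θ
      have : (N : ℝ) * (θ + 2 * Real.pi) = N * θ + N * (2 * Real.pi) := by ring
      simp only [this, Real.cos_add_nat_mul_two_pi]
    have := hper.intervalIntegral_add_eq 0 (-Real.pi)
    rw [zero_add] at this
    rw [this]
    congr 1
    ring

end MP3a4792
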