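import Pool.Agent.Lib.MP_3a4792_mp.ShellDefs

/-! Cost of a shell: bounds for the shell potential. -/

open MeasureTheory Set InnerProductSpace Filter Topology
open scoped ContDiff Laplacian InnerProductSpace

noncomputable section

namespace MP3a4792

theorem vc_cos (τf x y : ℝ) : vc τf x (Real.cos y) = vp τf x y := by
  unfold vc vp Wp
  rw [Real.sin_sq]

theorem chi_nonneg (w c : ℝ) : 0 ≤ chi w c := Real.smoothTransition.nonneg _

theorem chi_le_one (w c : ℝ) : chi w c ≤ 1 := Real.smoothTransition.le_one _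

theorem chi_eq_one {w c : ℝ} (hw : 0 < w) (hc : 1 - w ≤ c) : chi w c = 1 := by
  unfold chi
  apply Real.smoothTransition.one_of_one_le
  rw [le_div_iff₀ hw]
  linarith

theorem chi_eq_zero {w c : ℝ} (hw : 0 < w) (hc : c ≤ 1 - 2 * w) : chi w c = 0 := by
  unfold chi
  apply Real.smoothTransition.zero_of_nonpos
  apply div_nonpos_of_nonpos_of_nonneg _ hw.le
  linarith

lemma contDiff_chi (w : ℝ) : ContDiff ℝ ∞ (chi w) := by
  unfold chi
  exact (Real.smoothTransition.contDiff (n := ⊤)).comp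
    (((contDiff_id.sub contDiff_const).add contDiff_const).div_const w)

lemma continuous_chi (w : ℝ) : Continuous (chi w) := (contDiff_chi w).continuous

lemma cosh_sub_pos' (t : ℝ) {c : ℝ} (hc : c ∈ Icc (-1 : ℝ) 1) :
    0 < Real.cosh t - Real.sinh t * c := by
  have := cosh_sub_pos t (Real.arccos c)
  rwa [Real.cos_arccos hc.1 hc.2] at this

theorem FF_contDiffAt {h τf T R l w : ℝ} (N : ℕ) {r c : ℝ} (hr : 0 < r)
    (hc : c ∈ Icc (-1 : ℝ) 1) :
    ContDiffAt ℝ ∞ (fun p : ℝ × ℝ => FF h τf T R l w N p.1 p.2) (r, c) := by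
  have hst : ContDiff ℝ ∞ Real.smoothTransition := Real.smoothTransition.contDiff (n := ⊤)
  have hx : ContDiff ℝ ∞ (fun p : ℝ × ℝ => tauP τf ((p.1 - R) / T)) :=
    (tauP_contDiff τf).comp ((contDiff_fst.sub contDiff_const).div_const T)
  have hsinh : ContDiff ℝ ∞ (fun p : ℝ × ℝ => Real.sinh (tauP τf ((p.1 - R) / T))) :=
    Real.contDiff_sinh.comp hx
  have hcosh : ContDiff ℝ ∞ (fun p : ℝ × ℝ => Real.cosh (tauP τf ((p.1 - R) / T))) :=
    Real.contDiff_cosh.comp hx
  have hsnd : ContDiff ℝ ∞ (fun p : ℝ × ℝ => p.2) := contDiff_snd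
  have hW : ContDiff ℝ ∞ (fun p : ℝ × ℝ => Real.cosh (tauP τf ((p.1 - R) / T)) -
      Real.sinh (tauP τf ((p.1 - R) / T)) * p.2) := hcosh.sub (hsinh.mul hsnd)
  have hWne : Real.cosh (tauP τf ((r - R) / T)) - Real.sinh (tauP τf ((r - R) / T)) * c ≠ 0 :=
    (cosh_sub_pos' _ hc).ne'
  have h1 : ContDiffAt ℝ ∞ (fun p : ℝ × ℝ => vc τf ((p.1 - R) / T) p.2) (r, c) := by
    unfold vc
    refine ContDiffAt.sub (ContDiffAt.div ?_ (hW.contDiffAt.pow 2) (pow_ne_zero 2 hWne))
      (ContDiffAt.div ?_ hW.contDiffAt hWne)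
    · exact ((contDiff_const.mul (hsinh.pow 2)).mul
        (contDiff_const.sub (hsnd.pow 2))).contDiffAt
    · exact ((contDiff_const.mul hsinh).mul hsnd).contDiffAt
  have h2 : ContDiffAt ℝ ∞ (fun p : ℝ × ℝ => (N : ℝ) ^ 2 / p.1 ^ 2) (r, c) :=
    contDiffAt_const.div (contDiff_fst.contDiffAt.pow 2) (pow_ne_zero 2 hr.ne')
  have h3 : ContDiff ℝ ∞ (fun p : ℝ × ℝ => Real.smoothTransition (R + T + 1 + l + 1 - p.1)) :=
    hst.comp (contDiff_const.sub contDiff_fst)
  have h4 : ContDiff ℝ ∞ (fun p : ℝ × ℝ => Real.smoothTransition (p.1 - (R + T))) :=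
    hst.comp (contDiff_fst.sub contDiff_const)
  have h5 : ContDiff ℝ ∞ (fun p : ℝ × ℝ => chi w p.2) := (contDiff_chi w).comp contDiff_snd
  unfold FF
  exact h3.contDiffAt.mul ((h2.mul h1).add ((contDiff_const.mul h4).mul h5).contDiffAt)

lemma vc_of_nonpos {τf x c : ℝ} (hx : x ≤ 0) : vc τf x c = 0 := by
  simp [vc, tauP_of_nonpos hx]

theorem FF_zero {h τf T R l w : ℝ} (N : ℕ) (hT : 0 < T) {r c : ℝ}
    (hr : r ≤ R ∨ R + T + 1 + l + 1 ≤ r) : FF h τf T R l w N r c = 0 := by
  unfold FF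
  rcases hr with hr | hr
  · rw [vc_of_nonpos (div_nonpos_of_nonpos_of_nonneg (by linarith) hT.le),
      Real.smoothTransition.zero_of_nonpos (by linarith : r - (R + T) ≤ 0)]
    ring
  · rw [Real.smoothTransition.zero_of_nonpos (by linarith : R + T + 1 + l + 1 - r ≤ 0)]
    ring

theorem FF_eq {h τf T R l w : ℝ} (N : ℕ) {r θ : ℝ} (hr : r ≤ R + T + 1 + l) :
    FF h τf T R l w N r (Real.cos (N * θ)) = (N : ℝ) ^ 2 / r ^ 2 * lf T R N (vp τf) r θ
      + h * Real.smoothTransition (r - (R + T)) * chi w (Real.cos (N * θ)) := by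
  unfold FF
  rw [Real.smoothTransition.one_of_one_le (by linarith), one_mul, vc_cos]
  rfl

lemma exists_vc_bound (τf : ℝ) : ∃ C : ℝ, 0 ≤ C ∧ ∀ x c, c ∈ Icc (-1 : ℝ) 1 → |vc τf x c| ≤ C := by
  obtain ⟨C, hC0, hC⟩ := (vp_S2 τf).exists_bound
    (fun x y hx => by rw [vp_of_nonpos hx, vp_of_nonpos le_rfl])
    (fun x y hx => vp_of_one_le hx)
  refine ⟨C, hC0, fun x c hc => ?_⟩
  have := hC x (Real.arccos c)
  rwa [← vc_cos, Real.cos_arccos hc.1 hc.2] at this

/-- angular integral of a function of the cosine -/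
lemma integral_cos_mul {f : ℝ → ℝ} (hf : Continuous f) {N : ℕ} (hN : 1 ≤ N) :
    ∫ θ in (0:ℝ)..(2 * Real.pi), f (Real.cos (N * θ)) = ∫ y in (0:ℝ)..(2 * Real.pi), f (Real.cos y) := by
  have hN0 : (N : ℝ) ≠ 0 := by positivity
  have hc : Continuous fun y : ℝ => f (Real.cos y) := hf.comp Real.continuous_cos
  have hper : Function.Periodic (fun y : ℝ => f (Real.cos y)) (2 * Real.pi) := by
    intro y
    simp only [Real.cos_add_two_pi]
  rw [intervalIntegral.integral_comp_mul_left (fun y => f (Real.cos y)) hN0]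
  have h := hper.intervalIntegral_add_zsmul_eq (N : ℤ) 0 (fun a b => hc.intervalIntegrable a b)
  simp only [zero_add, zsmul_eq_mul, Int.cast_natCast] at h
  rw [mul_zero, h, smul_eq_mul, ← mul_assoc, inv_mul_cancel₀ hN0, one_mul]

theorem cost_le {h : ℝ} (hh : 0 ≤ h) (τf : ℝ) : ∃ Cv : ℝ, 0 ≤ Cv ∧
    ∀ q l w : ℝ, 0 < q → q ≤ 1 → 0 < l → 0 < w → ∀ N : ℕ, 1 ≤ N →
      (∀ r c, 0 < r → c ∈ Icc (-1 : ℝ) 1 →
        |FF h τf (q ^ 3)⁻¹ (N / q) l w N r c| ≤ q ^ 2 * Cv + h) ∧
      ∫ r in (N / q : ℝ)..(N / q + (q ^ 3)⁻¹ + 1 + l + 1),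
        (∫ θ in (0:ℝ)..(2 * Real.pi), FF h τf (q ^ 3)⁻¹ (N / q) l w N r (Real.cos (N * θ)) ^ 2)
        ≤ 4 * Real.pi * (q ^ 4 * Cv ^ 2) * ((q ^ 3)⁻¹ + l + 2)
          + 2 * h ^ 2 * (l + 2) * ∫ y in (0:ℝ)..(2 * Real.pi), chi w (Real.cos y) ^ 2 := by
  obtain ⟨Cv, hCv0, hCv⟩ := exists_vc_bound τf
  refine ⟨Cv, hCv0, ?_⟩
  intro q l w hq hq1 hl hw N hN
  have hpi := Real.pi_pos
  have hT : 0 < (q ^ 3)⁻¹ := by positivity
  set T := (q ^ 3)⁻¹ with hTdef
  set R := (N : ℝ) / q with hR
  have hNpos : (0 : ℝ) < N := by exact_mod_cast hN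
  have hRpos : 0 < R := by positivity
  -- the coefficient
  have hcoef : ∀ r, R ≤ r → (N : ℝ) ^ 2 / r ^ 2 ≤ q ^ 2 := by
    intro r hr
    have hr0 : 0 < r := lt_of_lt_of_le hRpos hr
    rw [div_le_iff₀ (by positivity)]
    have h1 : (N : ℝ) ≤ q * r := by
      rw [hR, div_le_iff₀ hq] at hr
      linarith
    calc (N : ℝ) ^ 2 ≤ (q * r) ^ 2 := by gcongr
      _ = q ^ 2 * r ^ 2 := by ring
  -- first part of the potential
  have hfirst : ∀ r c, R ≤ r → c ∈ Icc (-1 : ℝ) 1 →
      |(N : ℝ) ^ 2 / r ^ 2 * vc τf ((r - R) / T) c| ≤ q ^ 2 * Cv := by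
    intro r c hr hc
    rw [abs_mul, abs_of_nonneg (by positivity : (0:ℝ) ≤ (N : ℝ) ^ 2 / r ^ 2)]
    exact mul_le_mul (hcoef r hr) (hCv _ _ hc) (abs_nonneg _) (by positivity)
  refine ⟨?_, ?_⟩
  · intro r c hr hc
    rcases le_total r R with hrR | hrR
    · rw [FF_zero N hT (Or.inl hrR), abs_zero]
      positivity
    · unfold FF
      rw [abs_mul, abs_of_nonneg (Real.smoothTransition.nonneg _)]
      have h2 : |h * Real.smoothTransition (r - (R + T)) * chi w c| ≤ h := by
        rw [abs_of_nonneg (mul_nonneg (mul_nonneg hh (Real.smoothTransition.nonneg _))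
          (chi_nonneg w c))]
        calc h * Real.smoothTransition (r - (R + T)) * chi w c ≤ h * 1 * 1 := by
              gcongr
              · exact chi_nonneg w c
              · exact Real.smoothTransition.le_one _
              · exact chi_le_one w c
          _ = h := by ring
      calc Real.smoothTransition (R + T + 1 + l + 1 - r) *
            |(N : ℝ) ^ 2 / r ^ 2 * vc τf ((r - R) / T) c
              + h * Real.smoothTransition (r - (R + T)) * chi w c|
          ≤ 1 * (q ^ 2 * Cv + h) := by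
            apply mul_le_mul (Real.smoothTransition.le_one _) _ (abs_nonneg _) zero_le_one
            exact (abs_add_le _ _).trans (add_le_add (hfirst r c hrR hc) h2)
        _ = q ^ 2 * Cv + h := one_mul _
  · -- the integral
    set I := ∫ y in (0:ℝ)..(2 * Real.pi), chi w (Real.cos y) ^ 2 with hI
    have hI0 : 0 ≤ I := by
      apply intervalIntegral.integral_nonneg (by positivity)
      intro y _
      positivity
    set ψ : ℝ → ℝ := fun r => Real.smoothTransition (r - (R + T)) with hψ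
    have hψc : Continuous ψ :=
      Real.smoothTransition.continuous.comp (continuous_id.sub continuous_const)
    have hψ0 : ∀ r, 0 ≤ ψ r := fun r => Real.smoothTransition.nonneg _
    have hψ1 : ∀ r, ψ r ≤ 1 := fun r => Real.smoothTransition.le_one _
    -- pointwise bound
    have hpt : ∀ r θ, R ≤ r → FF h τf T R l w N r (Real.cos (N * θ)) ^ 2 ≤
        2 * (q ^ 2 * Cv) ^ 2 + 2 * (h * ψ r) ^ 2 * chi w (Real.cos (N * θ)) ^ 2 := by
      intro r θ hr
      have hc : Real.cos (N * θ) ∈ Icc (-1 : ℝ) 1 :=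
        ⟨Real.neg_one_le_cos _, Real.cos_le_one _⟩
      unfold FF
      set A := (N : ℝ) ^ 2 / r ^ 2 * vc τf ((r - R) / T) (Real.cos (N * θ)) with hA
      set B := h * Real.smoothTransition (r - (R + T)) * chi w (Real.cos (N * θ)) with hB
      have hA2 : A ^ 2 ≤ (q ^ 2 * Cv) ^ 2 := sq_le_sq' (by
        have := abs_le.1 (hfirst r _ hr hc); exact this.1) (abs_le.1 (hfirst r _ hr hc)).2
      have hs0 := Real.smoothTransition.nonneg (R + T + 1 + l + 1 - r)
      have hs1 := Real.smoothTransition.le_one (R + T + 1 + l + 1 - r)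
      have hs2 : Real.smoothTransition (R + T + 1 + l + 1 - r) ^ 2 ≤ 1 := by nlinarith
      have hAB : (A + B) ^ 2 ≤ 2 * A ^ 2 + 2 * B ^ 2 := by nlinarith [sq_nonneg (A - B)]
      calc (Real.smoothTransition (R + T + 1 + l + 1 - r) * (A + B)) ^ 2
          = Real.smoothTransition (R + T + 1 + l + 1 - r) ^ 2 * (A + B) ^ 2 := by ring
        _ ≤ 1 * (A + B) ^ 2 := by gcongr
        _ ≤ 2 * A ^ 2 + 2 * B ^ 2 := by linarith
        _ ≤ 2 * (q ^ 2 * Cv) ^ 2 + 2 * B ^ 2 := by linarith
        _ = _ := by rw [hB]; ring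
    -- angular integral
    have hang : ∀ r, R ≤ r →
        ∫ θ in (0:ℝ)..(2 * Real.pi), FF h τf T R l w N r (Real.cos (N * θ)) ^ 2 ≤
          4 * Real.pi * (q ^ 4 * Cv ^ 2) + 2 * h ^ 2 * I * ψ r ^ 2 := by
      intro r hr
      have hcont : Continuous fun θ : ℝ => 2 * (q ^ 2 * Cv) ^ 2 +
          2 * (h * ψ r) ^ 2 * chi w (Real.cos (N * θ)) ^ 2 := by
        have h1 : Continuous fun θ : ℝ => chi w (Real.cos (N * θ)) :=
          (continuous_chi w).comp (Real.continuous_cos.comp (continuous_const.mul continuous_id))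
        fun_prop
      have h1 : ∫ θ in (0:ℝ)..(2 * Real.pi), FF h τf T R l w N r (Real.cos (N * θ)) ^ 2 ≤
          ∫ θ in (0:ℝ)..(2 * Real.pi), (2 * (q ^ 2 * Cv) ^ 2 +
            2 * (h * ψ r) ^ 2 * chi w (Real.cos (N * θ)) ^ 2) := by
        rw [intervalIntegral.integral_of_le (by positivity),
          intervalIntegral.integral_of_le (by positivity)]
        apply integral_mono_of_nonneg
        · exact Eventually.of_forall fun θ => sq_nonneg _
        · exact (hcont.integrableOn_Icc (μ := volume)).mono_set Ioc_subset_Icc_self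
        · exact Eventually.of_forall fun θ => hpt r θ hr
      refine h1.trans (le_of_eq ?_)
      have hchi2 : Continuous fun θ : ℝ => chi w (Real.cos (N * θ)) ^ 2 := by
        have h1 : Continuous fun θ : ℝ => chi w (Real.cos (N * θ)) :=
          (continuous_chi w).comp (Real.continuous_cos.comp (continuous_const.mul continuous_id))
        fun_prop
      have hi0 : IntervalIntegrable (fun _ : ℝ => 2 * (q ^ 2 * Cv) ^ 2) volume 0 (2 * Real.pi) :=
        continuous_const.intervalIntegrable _ _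
      have hi1 : IntervalIntegrable (fun θ : ℝ => 2 * (h * ψ r) ^ 2 *
          chi w (Real.cos (N * θ)) ^ 2) volume 0 (2 * Real.pi) :=
        (continuous_const.mul hchi2).intervalIntegrable _ _
      rw [intervalIntegral.integral_add hi0 hi1, intervalIntegral.integral_const,
        intervalIntegral.integral_const_mul,
        integral_cos_mul (f := fun c => chi w c ^ 2) ((continuous_chi w).pow 2) hN, ← hI]
      simp only [smul_eq_mul]
      ring
    have hle : R ≤ R + T + 1 + l + 1 := by linarith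
    -- radial integral
    have hGc : Continuous fun r => 4 * Real.pi * (q ^ 4 * Cv ^ 2) + 2 * h ^ 2 * I * ψ r ^ 2 := by
      fun_prop
    have h2 : ∫ r in R..(R + T + 1 + l + 1),
        (∫ θ in (0:ℝ)..(2 * Real.pi), FF h τf T R l w N r (Real.cos (N * θ)) ^ 2) ≤
        ∫ r in R..(R + T + 1 + l + 1),
          (4 * Real.pi * (q ^ 4 * Cv ^ 2) + 2 * h ^ 2 * I * ψ r ^ 2) := by
      rw [intervalIntegral.integral_of_le hle, intervalIntegral.integral_of_le hle]
      apply integral_mono_of_nonneg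
      · exact Eventually.of_forall fun r =>
          intervalIntegral.integral_nonneg (by positivity) fun θ _ => sq_nonneg _
      · exact (hGc.integrableOn_Icc (μ := volume)).mono_set Ioc_subset_Icc_self
      · refine (ae_restrict_iff' measurableSet_Ioc).2 (Eventually.of_forall fun r hr => ?_)
        exact hang r hr.1.le
    refine h2.trans ?_
    have hψi : ∀ a b, IntervalIntegrable (fun r => ψ r ^ 2) volume a b := fun a b =>
      (hψc.pow 2).intervalIntegrable a b
    have h3 : ∫ r in R..(R + T + 1 + l + 1), ψ r ^ 2 ≤ l + 2 := by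
      rw [← intervalIntegral.integral_add_adjacent_intervals (hψi R (R + T)) (hψi (R + T) _)]
      have h4 : ∫ r in R..(R + T), ψ r ^ 2 = 0 := by
        rw [intervalIntegral.integral_congr (g := fun _ => (0:ℝ))]
        · simp
        · intro r hr
          rw [uIcc_of_le (by linarith)] at hr
          simp only [hψ]
          rw [Real.smoothTransition.zero_of_nonpos (by linarith [hr.2])]
          norm_num
      have h5 : ∫ r in (R + T)..(R + T + 1 + l + 1), ψ r ^ 2 ≤
          ∫ r in (R + T)..(R + T + 1 + l + 1), (1:ℝ) := by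
        apply intervalIntegral.integral_mono_on (by linarith) (hψi _ _) (by simp)
        intro r _
        have := hψ0 r
        have := hψ1 r
        nlinarith
      rw [h4]
      simp only [intervalIntegral.integral_const, smul_eq_mul] at h5
      linarith
    have hi0 : IntervalIntegrable (fun _ : ℝ => 4 * Real.pi * (q ^ 4 * Cv ^ 2)) volume R
        (R + T + 1 + l + 1) := continuous_const.intervalIntegrable _ _
    have hi1 : IntervalIntegrable (fun r : ℝ => 2 * h ^ 2 * I * ψ r ^ 2) volume R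
        (R + T + 1 + l + 1) := (continuous_const.mul (hψc.pow 2)).intervalIntegrable _ _
    rw [intervalIntegral.integral_add hi0 hi1, intervalIntegral.integral_const,
      intervalIntegral.integral_const_mul, smul_eq_mul]
    have h6 : 2 * h ^ 2 * I * ∫ r in R..(R + T + 1 + l + 1), ψ r ^ 2 ≤ 2 * h ^ 2 * I * (l + 2) := by
      gcongr
    calc (R + T + 1 + l + 1 - R) * (4 * Real.pi * (q ^ 4 * Cv ^ 2)) +
          2 * h ^ 2 * I * ∫ r in R..(R + T + 1 + l + 1), ψ r ^ 2
        ≤ (R + T + 1 + l + 1 - R) * (4 * Real.pi * (q ^ 4 * Cv ^ 2)) +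
          2 * h ^ 2 * I * (l + 2) := by linarith
      _ = 4 * Real.pi * (q ^ 4 * Cv ^ 2) * (T + l + 2) + 2 * h ^ 2 * (l + 2) * I := by ring

theorem chi_int_small {ε : ℝ} (hε : 0 < ε) : ∃ w : ℝ, 0 < w ∧ w ≤ 1 / 2 ∧
    ∫ y in (0:ℝ)..(2 * Real.pi), chi w (Real.cos y) ^ 2 ≤ ε := by
  have hpi := Real.pi_pos
  have hlim : Tendsto (fun n : ℕ => ∫ y in (0:ℝ)..(2 * Real.pi),
      chi (1 / ((n : ℝ) + 2)) (Real.cos y) ^ 2) atTop
      (𝓝 (∫ _y in (0:ℝ)..(2 * Real.pi), (0 : ℝ))) := by
    apply intervalIntegral.tendsto_integral_filter_of_dominated_convergence (fun _ => (1:ℝ))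
    · refine Eventually.of_forall fun n => ?_
      exact (((continuous_chi _).comp Real.continuous_cos).pow 2).aestronglyMeasurable
    · refine Eventually.of_forall fun n => Eventually.of_forall fun y _ => ?_
      rw [Real.norm_eq_abs, abs_of_nonneg (sq_nonneg _)]
      have h0 := chi_nonneg (1 / ((n : ℝ) + 2)) (Real.cos y)
      have h1 := chi_le_one (1 / ((n : ℝ) + 2)) (Real.cos y)
      nlinarith
    · simp
    · have hne : ∀ᵐ y : ℝ ∂volume, y ≠ 2 * Real.pi := by
        have : ({2 * Real.pi} : Set ℝ)ᶜ ∈ ae (volume : Measure ℝ) :=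
          compl_mem_ae_iff.2 (measure_singleton _)
        exact this
      filter_upwards [hne] with y hy hy2
      rw [uIoc_of_le (by positivity)] at hy2
      have hcos : Real.cos y < 1 := by
        rcases lt_or_eq_of_le (Real.cos_le_one y) with h | h
        · exact h
        · exfalso
          have h2 : y < 2 * Real.pi := lt_of_le_of_ne hy2.2 hy
          have := (Real.cos_eq_one_iff_of_lt_of_lt (by linarith [hy2.1]) h2).1 h
          linarith [hy2.1]
      have hev : ∀ᶠ n : ℕ in atTop, chi (1 / ((n : ℝ) + 2)) (Real.cos y) ^ 2 = 0 := by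
        obtain ⟨M, hM⟩ := exists_nat_gt (2 / (1 - Real.cos y))
        filter_upwards [eventually_ge_atTop M] with n hn
        have hn' : (M : ℝ) ≤ n := by exact_mod_cast hn
        have hpos : 0 < 1 - Real.cos y := by linarith
        rw [chi_eq_zero (by positivity)]
        · norm_num
        · have h3 : 2 / (1 - Real.cos y) < (n : ℝ) + 2 := by linarith
          rw [div_lt_iff₀ hpos] at h3
          have h4 : 2 * (1 / ((n : ℝ) + 2)) ≤ 1 - Real.cos y := by
            rw [mul_one_div, div_le_iff₀ (by positivity)]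
            linarith
          linarith
      exact (tendsto_congr' hev).2 tendsto_const_nhds
  rw [intervalIntegral.integral_zero] at hlim
  have h1 := hlim.eventually (gt_mem_nhds hε)
  obtain ⟨n, hn⟩ := h1.exists
  refine ⟨1 / ((n : ℝ) + 2), by positivity, ?_, hn.le⟩
  apply one_div_le_one_div_of_le (by norm_num)
  linarith [(Nat.cast_nonneg n : (0:ℝ) ≤ n)]

end MP3a4792
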