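import Pool.Agent.Lib.MP_3a4792_mp.Inner

open MeasureTheory Set InnerProductSpace Filter Topology
open scoped ContDiff Laplacian InnerProductSpace

noncomputable section

namespace MP3a4792

variable {K : Type*} [NormedAddCommGroup K] [InnerProductSpace ℂ K]

section core

variable [CompleteSpace K] {V : E2 → ℝ} {Λ : ℝ} (k : Ker V Λ K) {δ : ℝ} (d : AvgKer δ)

def FV (r s : ℝ) : ℝ :=
  (⟪U0 k.κ r (d.tr2 s), k.P (U0 k.κ r (fun θ => V (pol r θ) * d.tr2 s θ))⟫_ℂ).im
def FD (r s : ℝ) : ℝ := (⟪U0 k.κ r (d.tr2 s), k.P (U0 k.κ r (dr (dr d.tr2) s))⟫_ℂ).im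
def FE (r s : ℝ) : ℝ := ‖k.ev (U0 k.κ r (d.tr2 s))‖ ^ 2

lemma cU0 : Continuous fun p : ℝ × ℝ => U0 k.κ p.1 (d.tr2 p.2) :=
  U0_continuous2 k.κcont (f := fun _ s θ => d.tr2 s θ)
      (d.tr2_S2.continuous.comp (by fun_prop : Continuous fun p : (ℝ × ℝ) × ℝ => (p.1.2, p.2)))

lemma cFV (hV : Continuous V) : Continuous fun p : ℝ × ℝ => FV k d p.1 p.2 := by
  have cw : Continuous fun p : ℝ × ℝ => U0 k.κ p.1 (fun θ => V (pol p.1 θ) * d.tr2 p.2 θ) :=
    U0_continuous2 k.κcont (f := fun r s θ => V (pol r θ) * d.tr2 s θ)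
      ((hV.comp (pol_continuous.comp (by fun_prop : Continuous fun p : (ℝ × ℝ) × ℝ => (p.1.1, p.2)))).mul
      (d.tr2_S2.continuous.comp (by fun_prop : Continuous fun p : (ℝ × ℝ) × ℝ => (p.1.2, p.2))))
  exact Complex.continuous_im.comp ((cU0 k d).inner (k.P.continuous.comp cw))

lemma cFD : Continuous fun p : ℝ × ℝ => FD k d p.1 p.2 := by
  have cw : Continuous fun p : ℝ × ℝ => U0 k.κ p.1 (dr (dr d.tr2) p.2) :=
    U0_continuous2 k.κcont (f := fun _ s θ => dr (dr d.tr2) s θ)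
      (d.tr2_S2.dr.dr.continuous.comp (by fun_prop : Continuous fun p : (ℝ × ℝ) × ℝ => (p.1.2, p.2)))
  exact Complex.continuous_im.comp ((cU0 k d).inner (k.P.continuous.comp cw))

lemma cFE : Continuous fun p : ℝ × ℝ => FE k d p.1 p.2 := by
  have := cU0 k d
  unfold FE
  fun_prop

/-- the flux of the averaged kernel through a small circle is small -/
lemma flux_small {r : ℝ} (hr : 0 < r) {B : ℝ} (hB0 : 0 ≤ B) (hB : ∀ α, d.D α ≤ B) (s : ℝ) :
    |(⟪U0 k.κ r (d.tr2 s), k.P (k.U1 r (d.tr2 s))⟫_ℂ).im| ≤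
      Real.sqrt r * (k.C0 ^ 2 * (Real.sqrt (2 * Real.pi) * B)) := by
  have hC := k.C0_nonneg
  have hcl := d.tr2_S2.cls s
  have h1 : (⟪U0 k.κ r (d.tr2 s), k.P (k.U1 r (d.tr2 s))⟫_ℂ).im =
      (⟪U0 k.κ r (d.tr2 s), k.P (k.U1 r (d.tr2 s) - (1 / (2 * r)) • U0 k.κ r (d.tr2 s))⟫_ℂ).im := by
    rw [map_sub, inner_sub_right, Complex.sub_im]
    have e2 : k.P ((1 / (2 * r)) • U0 k.κ r (d.tr2 s)) =
        ((1 / (2 * r) : ℝ) : ℂ) • k.P (U0 k.κ r (d.tr2 s)) := by
      rw [← map_smul]; rfl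
    rw [e2, inner_smul_right, Complex.im_ofReal_mul, im_inner_self_P k.Psa]
    ring
  rw [h1]
  refine (im_inner_P_le k.P k.hP _ _).trans ?_
  have h2 := k.B1 _ hcl r hr
  have h3 := norm_U0_tr_le k d (r := r) s
  have h4 := d.nS_tr_le hB0 hB s
  have h5 : 0 ≤ nS (d.tr2 s) := Real.sqrt_nonneg _
  calc ‖U0 k.κ r (d.tr2 s)‖ * ‖k.U1 r (d.tr2 s) - (1 / (2 * r)) • U0 k.κ r (d.tr2 s)‖
      ≤ (Real.sqrt r * k.C0) * (k.C0 * (Real.sqrt (2 * Real.pi) * B)) := by
        apply mul_le_mul h3 (h2.trans _) (norm_nonneg _) (by positivity)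
        gcongr
    _ = _ := by ring

lemma dbl_le {G : ℝ → ℝ → ℝ} (hG : Continuous fun p : ℝ × ℝ => G p.1 p.2) {a b S' : ℝ} (hab : a ≤ b)
    (hs : ∀ s, ∫ r in a..b, G r s ≤ S') :
    ∫ r in a..b, (∫ s in (0:ℝ)..(2 * Real.pi), G r s) ≤ 2 * Real.pi * S' := by
  have hpi : (0:ℝ) ≤ 2 * Real.pi := by positivity
  have hG' : Continuous (Function.uncurry fun s r => G r s) :=
    hG.comp (by fun_prop : Continuous fun p : ℝ × ℝ => (p.2, p.1))
  have hGs : Continuous fun s => ∫ r in a..b, G r s :=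
    intervalIntegral.continuous_parametric_intervalIntegral_of_continuous' (μ := volume) hG' _ _
  have h2 : ∫ s in (0:ℝ)..(2 * Real.pi), (∫ r in a..b, G r s) ≤ 2 * Real.pi * S' := by
    have := intervalIntegral.integral_mono_on (μ := volume) hpi (hGs.intervalIntegrable _ _)
      (intervalIntegrable_const (c := S')) (fun s _ => hs s)
    rw [intervalIntegral.integral_const, smul_eq_mul, sub_zero] at this
    exact this
  refine le_trans (le_of_eq ?_) h2
  rw [intervalIntegral_intervalIntegral_swap]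
  rw [uIoc_of_le hpi, uIoc_of_le hab]
  apply IntegrableOn.mono_set _ (Set.prod_mono Ioc_subset_Icc_self Ioc_subset_Icc_self)
  exact hG.continuousOn.integrableOn_compact (isCompact_Icc.prod isCompact_Icc)

lemma inner_flux' (hV : Continuous V) {r₁ R : ℝ} (h0 : 0 < r₁) (h1 : r₁ ≤ R) (s : ℝ) :
    (⟪U0 k.κ R (d.tr2 s), k.P (k.U1 R (d.tr2 s))⟫_ℂ).im
      - (⟪U0 k.κ r₁ (d.tr2 s), k.P (k.U1 r₁ (d.tr2 s))⟫_ℂ).im =
    ∫ r in r₁..R, ((k.c / 2 * FE k d r s + FV k d r s) - (1 / r ^ 2) * FD k d r s) :=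
  inner_flux k d hV h0 h1 s

lemma inner_avg (hV : Continuous V) {r₁ R S' : ℝ} (h0 : 0 < r₁) (h1 : r₁ ≤ R)
    (hS : ∀ s, (⟪U0 k.κ R (d.tr2 s), k.P (k.U1 R (d.tr2 s))⟫_ℂ).im
      - (⟪U0 k.κ r₁ (d.tr2 s), k.P (k.U1 r₁ (d.tr2 s))⟫_ℂ).im ≤ S') :
    ∫ r in r₁..R, (k.c / 2 * (∫ s in (0:ℝ)..(2 * Real.pi), FE k d r s)
      + ∫ s in (0:ℝ)..(2 * Real.pi), FV k d r s) ≤ 2 * Real.pi * S' := by
  obtain ⟨w, hwc, hw⟩ : ∃ w : ℝ → ℝ, Continuous w ∧ ∀ r, r₁ ≤ r → w r = 1 / r ^ 2 := by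
    refine ⟨fun r => 1 / (max r r₁) ^ 2, ?_, ?_⟩
    · have : ∀ r, (max r r₁) ^ 2 ≠ 0 := by
        intro r
        have : 0 < max r r₁ := lt_of_lt_of_le h0 (le_max_right _ _)
        positivity
      exact Continuous.div continuous_const (by fun_prop) this
    · intro r hr
      simp only [max_eq_left hr]
  have hGc : Continuous fun p : ℝ × ℝ =>
      (k.c / 2 * FE k d p.1 p.2 + FV k d p.1 p.2) - w p.1 * FD k d p.1 p.2 := by
    have e1 := cFE k d
    have e2 := cFV k d hV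
    have e3 := cFD k d
    exact ((continuous_const.mul e1).add e2).sub ((hwc.comp continuous_fst).mul e3)
  have hs : ∀ s, ∫ r in r₁..R, ((k.c / 2 * FE k d r s + FV k d r s) - w r * FD k d r s) ≤ S' := by
    intro s
    refine le_trans (le_of_eq ?_) (hS s)
    rw [inner_flux' k d hV h0 h1 s]
    apply intervalIntegral.integral_congr
    intro r hr
    rw [uIcc_of_le h1] at hr
    simp only [hw r hr.1]
  refine le_trans (le_of_eq ?_) (dbl_le hGc h1 hs)
  apply intervalIntegral.integral_congr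
  intro r _
  have c1 : Continuous fun s => FE k d r s := (cFE k d).comp (by fun_prop : Continuous fun s : ℝ => (r, s))
  have c2 : Continuous fun s => FV k d r s := (cFV k d hV).comp (by fun_prop : Continuous fun s : ℝ => (r, s))
  have c3 : Continuous fun s => FD k d r s := (cFD k d).comp (by fun_prop : Continuous fun s : ℝ => (r, s))
  have e : ∫ s in (0:ℝ)..(2 * Real.pi), FD k d r s = 0 := ID_zero k d r
  have i1 := intervalIntegral.integral_sub (μ := volume) (a := 0) (b := 2 * Real.pi)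
    (f := fun s => k.c / 2 * FE k d r s + FV k d r s) (g := fun s => w r * FD k d r s)
    (((continuous_const.mul c1).add c2).intervalIntegrable _ _)
    ((continuous_const.mul c3).intervalIntegrable _ _)
  have i2 := intervalIntegral.integral_add (μ := volume) (a := 0) (b := 2 * Real.pi)
    (f := fun s => k.c / 2 * FE k d r s) (g := fun s => FV k d r s)
    ((continuous_const.mul c1).intervalIntegrable _ _) (c2.intervalIntegrable _ _)
  simp only
  rw [i1, i2, intervalIntegral.integral_const_mul, intervalIntegral.integral_const_mul, e,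
    mul_zero, sub_zero]

/-- if the flux through the circle of radius `R` is at most `S` for all centres, then the trace part
inside is small -/
lemma inner_main (hV : Continuous V) {h0 : ℝ} (hVb : ∀ x, |V x| ≤ h0) (hδ : 0 ≤ δ) {ρ R S : ℝ}
    (hρ : 0 < ρ) (hρR : ρ ≤ R) (hV0 : ∀ x, ρ ≤ ‖x‖ → ‖x‖ ≤ R → V x = 0)
    (hS : ∀ s, (⟪U0 k.κ R (d.tr2 s), k.P (k.U1 R (d.tr2 s))⟫_ℂ).im ≤ S)
    {α : ℝ} (hα : 0 < α) (hαR : α ≤ R) :
    k.c / 2 * ∫ r in α..R, (∫ s in (0:ℝ)..(2 * Real.pi), ‖k.ev (U0 k.κ r (d.tr2 s))‖ ^ 2)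
      ≤ 2 * Real.pi * S +
        ρ * (2 * Real.pi * (ρ * (h0 * (k.C0 ^ 2 * Real.sqrt (2 * (ρ * δ)))))) := by
  have hpi : (0:ℝ) ≤ 2 * Real.pi := by positivity
  have hh0 : 0 ≤ h0 := (abs_nonneg _).trans (hVb 0)
  have hC := k.C0_nonneg
  obtain ⟨B, hB0, hB⟩ := d.exists_bound
  set Z : ℝ := 2 * Real.pi * (ρ * (h0 * (k.C0 ^ 2 * Real.sqrt (2 * (ρ * δ))))) with hZ
  have hZ0 : 0 ≤ Z := by positivity
  have cE : Continuous fun r => ∫ s in (0:ℝ)..(2 * Real.pi), FE k d r s :=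
    intervalIntegral.continuous_parametric_intervalIntegral_of_continuous' (cFE k d) _ _
  have cV : Continuous fun r => ∫ s in (0:ℝ)..(2 * Real.pi), FV k d r s :=
    intervalIntegral.continuous_parametric_intervalIntegral_of_continuous' (cFV k d hV) _ _
  have hE0 : ∀ r, 0 ≤ ∫ s in (0:ℝ)..(2 * Real.pi), FE k d r s := by
    intro r
    apply intervalIntegral.integral_nonneg hpi
    intro s _
    exact sq_nonneg _
  have key : ∀ r₁ : ℝ, 0 < r₁ → r₁ ≤ min α ρ →
      k.c / 2 * ∫ r in α..R, (∫ s in (0:ℝ)..(2 * Real.pi), ‖k.ev (U0 k.κ r (d.tr2 s))‖ ^ 2)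
      ≤ 2 * Real.pi * (S + Real.sqrt r₁ * (k.C0 ^ 2 * (Real.sqrt (2 * Real.pi) * B))) + ρ * Z := by
    intro r₁ hr1 hr1m
    have h1α : r₁ ≤ α := hr1m.trans (min_le_left _ _)
    have h1ρ : r₁ ≤ ρ := hr1m.trans (min_le_right _ _)
    have h1R : r₁ ≤ R := h1α.trans hαR
    have h1 := inner_avg k d hV hr1 h1R
      (S' := S + Real.sqrt r₁ * (k.C0 ^ 2 * (Real.sqrt (2 * Real.pi) * B))) (by
        intro s
        have a1 := hS s
        have a2 := flux_small k d hr1 hB0 hB s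
        have a3 := (abs_le.1 a2).1
        linarith)
    have hadd := intervalIntegral.integral_add (μ := volume) (a := r₁) (b := R)
      (f := fun r => k.c / 2 * ∫ s in (0:ℝ)..(2 * Real.pi), FE k d r s)
      (g := fun r => ∫ s in (0:ℝ)..(2 * Real.pi), FV k d r s)
      ((continuous_const.mul cE).intervalIntegrable _ _) (cV.intervalIntegrable _ _)
    rw [hadd, intervalIntegral.integral_const_mul] at h1
    have h2 : |∫ r in r₁..R, (∫ s in (0:ℝ)..(2 * Real.pi), FV k d r s)| ≤ ρ * Z := by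
      rw [← intervalIntegral.integral_add_adjacent_intervals (b := ρ) (cV.intervalIntegrable _ _)
        (cV.intervalIntegrable _ _)]
      have h3 : ∫ r in ρ..R, (∫ s in (0:ℝ)..(2 * Real.pi), FV k d r s) = 0 := by
        rw [intervalIntegral.integral_congr (g := fun _ => (0:ℝ))]
        · simp
        · intro r hr
          rw [uIcc_of_le hρR] at hr
          have hr0 : 0 < r := lt_of_lt_of_le hρ hr.1
          have e1 : ∀ s, FV k d r s = 0 := by
            intro s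
            have e2 : (fun θ => V (pol r θ) * d.tr2 s θ) = fun _ => 0 := by
              ext θ
              rw [hV0 (pol r θ) (by rw [norm_pol, abs_of_pos hr0]; exact hr.1)
                (by rw [norm_pol, abs_of_pos hr0]; exact hr.2), zero_mul]
            simp only [FV, e2]
            simp [U0]
          simp [e1]
      rw [h3, add_zero]
      have h4 := intervalIntegral.norm_integral_le_of_norm_le_const (a := r₁) (b := ρ) (C := Z)
        (f := fun r => ∫ s in (0:ℝ)..(2 * Real.pi), FV k d r s) (by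
          intro r hr
          rw [uIoc_of_le h1ρ] at hr
          have hr0 : 0 < r := hr1.trans hr.1
          rw [Real.norm_eq_abs]
          refine (IV_le k d hδ hr0.le (v := fun θ => V (pol r θ))
            (hV.comp (ShellData.pol_cont_r r)) (fun θ => hVb _)).trans ?_
          rw [hZ]
          have := hr.2
          have hsq : Real.sqrt (2 * (r * δ)) ≤ Real.sqrt (2 * (ρ * δ)) := by
            apply Real.sqrt_le_sqrt
            gcongr
          gcongr)
      rw [Real.norm_eq_abs] at h4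
      refine h4.trans ?_
      rw [abs_of_nonneg (by linarith)]
      nlinarith
    have h5 : ∫ r in α..R, (∫ s in (0:ℝ)..(2 * Real.pi), FE k d r s) ≤
        ∫ r in r₁..R, (∫ s in (0:ℝ)..(2 * Real.pi), FE k d r s) := by
      rw [← intervalIntegral.integral_add_adjacent_intervals (a := r₁) (b := α) (c := R)
        (cE.intervalIntegrable _ _) (cE.intervalIntegrable _ _)]
      have : 0 ≤ ∫ r in r₁..α, (∫ s in (0:ℝ)..(2 * Real.pi), FE k d r s) :=
        intervalIntegral.integral_nonneg h1α (fun r _ => hE0 r)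
      linarith
    have h6 := (abs_le.1 h2).1
    have hc := k.hc
    have h7 : k.c / 2 * ∫ r in α..R, (∫ s in (0:ℝ)..(2 * Real.pi), FE k d r s) ≤
        k.c / 2 * ∫ r in r₁..R, (∫ s in (0:ℝ)..(2 * Real.pi), FE k d r s) := by
      gcongr
    have h8 : k.c / 2 * ∫ r in α..R, (∫ s in (0:ℝ)..(2 * Real.pi), ‖k.ev (U0 k.κ r (d.tr2 s))‖ ^ 2)
      = k.c / 2 * ∫ r in α..R, (∫ s in (0:ℝ)..(2 * Real.pi), FE k d r s) := rfl
    rw [h8]
    linarith
  -- let r₁ → 0
  have hlim : Tendsto (fun r₁ : ℝ => 2 * Real.pi * (S + Real.sqrt r₁ *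
      (k.C0 ^ 2 * (Real.sqrt (2 * Real.pi) * B))) + ρ * Z) (𝓝[>] 0)
      (𝓝 (2 * Real.pi * S + ρ * Z)) := by
    have hc : Continuous (fun r₁ : ℝ => 2 * Real.pi * (S + Real.sqrt r₁ *
      (k.C0 ^ 2 * (Real.sqrt (2 * Real.pi) * B))) + ρ * Z) := by fun_prop
    have := (hc.tendsto 0).mono_left (nhdsWithin_le_nhds (s := Ioi (0:ℝ)))
    simpa using this
  apply ge_of_tendsto hlim
  have hm : 0 < min α ρ := lt_min hα hρ
  filter_upwards [Ioc_mem_nhdsGT hm] with r₁ hr
  exact key r₁ hr.1 hr.2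

end core

end MP3a4792
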