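import Pool.Agent.Lib.MP_3a4792_mp.ConcFlux

open MeasureTheory Set InnerProductSpace Filter Topology
open scoped ContDiff Laplacian InnerProductSpace

noncomputable section

namespace MP3a4792

lemma vc_cos_aux (τf x y : ℝ) : vc τf x (Real.cos y) = vp τf x y := by
  unfold vc vp Wp
  rw [Real.sin_sq]

lemma FF_eq_aux {h τf T R l w : ℝ} (N : ℕ) {r θ : ℝ} (hr : r ≤ R + T + 1 + l) :
    FF h τf T R l w N r (Real.cos (N * θ)) = (N : ℝ) ^ 2 / r ^ 2 * lf T R N (vp τf) r θ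
      + cq h T R r * chi w (Real.cos (N * θ)) := by
  unfold FF
  rw [Real.smoothTransition.one_of_one_le (by linarith), one_mul, vc_cos_aux]
  rfl

/-- the flux through the inner boundary of a funnel followed by a plug -/
theorem conc_flux (Λ : ℝ) (hΛ : 0 < Λ) {δ : ℝ} (d : AvgKer δ) : ∃ m : ℝ, 0 ≤ m ∧
    ∀ w : ℝ, 0 < w → ∀ τf : ℝ, 0 < τf → ∃ C2 : ℝ, 0 ≤ C2 ∧
      ∀ q l : ℝ, 0 < q → q ≤ 1 → C2 * q ≤ 1 → 0 < l →
      ∀ N : ℕ, 1 ≤ N → 1 ≤ (N : ℝ) * q ^ 4 → (q ^ 3)⁻¹ + 1 + l ≤ N / q →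
      ∀ V : E2 → ℝ, Continuous V →
        (∀ r ∈ Icc (N / q : ℝ) (N / q + (q ^ 3)⁻¹ + 1 + l), ∀ θ,
          V (pol r θ) = FF (Λ + 1) τf (q ^ 3)⁻¹ (N / q) l w N r (Real.cos (N * θ))) →
        ∀ (K : Type) [NormedAddCommGroup K] [InnerProductSpace ℂ K] [CompleteSpace K]
          (k : Ker V Λ K) (s : ℝ),
          (⟪U0 k.κ (N / q) (d.tr2 s), k.P (k.U1 (N / q) (d.tr2 s))⟫_ℂ).im ≤
            k.C0 ^ 2 * Phi Λ m (C2 * q ^ 4) (m * (Λ + 1) / Real.sqrt (Real.sinh τf * w))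
              (q ^ 3)⁻¹ l := by
  obtain ⟨D0, DD, hD0, hDD0, hb⟩ := exists_Dbd d
  refine ⟨Real.sqrt (2 * Real.pi) * D0, by positivity, ?_⟩
  intro w hw τf hτ
  obtain ⟨C, hC⟩ := exists_profBd τf
  have hC0 := hC.nn
  refine ⟨20 * (Real.sqrt (2 * Real.pi) * (DD * C)), by positivity, ?_⟩
  intro q l hq hq1 hC2 hl N hN hNq hTl V hV hVF K _ _ _ k s
  refine conc_flux_aux d hΛ hD0 (fun s r θ => (hb s r θ).1) (fun s r θ => (hb s r θ).2.1)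
    (fun s r θ => (hb s r θ).2.2.1) (fun s r θ => (hb s r θ).2.2.2) hC hw hτ hq hq1 hC2 hl hN hNq
    hTl hV ?_ k s
  intro r hr θ
  rw [hVF r hr θ, FF_eq_aux N hr.2]

end MP3a4792
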