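import Pool.Agent.Lib.MP_3a4792_mp.ShellDefs
import Pool.Agent.Lib.MP_3a4792_mp.BlockPot
import Pool.Agent.Lib.MP_3a4792_mp.Assembly
import Pool.Agent.Lib.MP_3a4792_mp.Main
import Pool.Agent.Lib.MP_3a4792_mp.Shells
import Pool.Agent.Lib.MP_3a4792_mp.Cost

open MeasureTheory Set InnerProductSpace Filter Topology
open scoped ContDiff Laplacian InnerProductSpace

noncomputable section

namespace MP3a4792

/-- smallness of the flux bound -/
lemma Phi_le {Λ m σ σ0 T l e : ℝ} (hΛ : 0 < Λ) (hm : 0 ≤ m) (he : 0 < e)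
    (hl : 0 < l) (h1 : 32 * (2 * m + 6 + 2 * Λ) ^ 2 / e ≤ l)
    (h2 : σ0 + (18 + 4 * Λ) * σ ≤ e / (4 * (2 * m + 6 + 2 * Λ) * (1 + l)))
    (h3 : σ0 + (18 + 4 * Λ) * σ ≤ (e / (8 * (2 * m + 6 + 2 * Λ))) ^ 2 / (2 * m + 6 + 2 * Λ))
    (h4 : (2 * m + 6 + 2 * Λ) * ((18 + 4 * Λ) * σ) * T ≤ e / 4) :
    Phi Λ m σ σ0 T l ≤ e := by
  unfold Phi
  set A : ℝ := 2 * m + 6 + 2 * Λ with hA
  have hA0 : 0 < A := by positivity
  set u : ℝ := σ0 + (18 + 4 * Λ) * σ with hu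
  have e1 : A * u * (1 + l) ≤ e / 4 := by
    have h : A * u * (1 + l) ≤ A * (e / (4 * A * (1 + l))) * (1 + l) := by gcongr
    refine h.trans (le_of_eq ?_)
    field_simp
  have e2 : A * (8 * A / l) ≤ e / 4 := by
    rw [div_le_iff₀ he] at h1
    have : A * (8 * A / l) = 8 * A ^ 2 / l := by ring
    rw [this, div_le_iff₀ hl]
    nlinarith
  have e3 : A * (2 * Real.sqrt (A * u)) ≤ e / 4 := by
    have h : A * u ≤ (e / (8 * A)) ^ 2 := by
      calc A * u ≤ A * ((e / (8 * A)) ^ 2 / A) := by gcongr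
        _ = (e / (8 * A)) ^ 2 := by field_simp
    have hs : Real.sqrt (A * u) ≤ e / (8 * A) := by
      calc Real.sqrt (A * u) ≤ Real.sqrt ((e / (8 * A)) ^ 2) := Real.sqrt_le_sqrt h
        _ = e / (8 * A) := Real.sqrt_sq (by positivity)
    calc A * (2 * Real.sqrt (A * u)) ≤ A * (2 * (e / (8 * A))) := by gcongr
      _ = e / 4 := by field_simp; ring
  have e4 : A * u * 1 + A * u * l = A * u * (1 + l) := by ring
  have e5 : A * (8 * A / l + 2 * Real.sqrt (A * u)) = A * (8 * A / l) + A * (2 * Real.sqrt (A * u)) := by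
    ring
  linarith

/-- a small averaging width -/
lemma exists_delta {ρ ε h0 : ℝ} (hρ : 1 ≤ ρ) (hε : 0 < ε) (hh : 0 < h0) :
    ∃ δ : ℝ, 0 < δ ∧ δ ≤ ε ∧
      ρ * (2 * Real.pi * (ρ * (h0 * Real.sqrt (2 * (ρ * δ))))) ≤ ε / 2 := by
  have hpi := Real.pi_pos
  set κ : ℝ := ε / (4 * Real.pi * ρ ^ 2 * h0) with hκ
  have hρ0 : 0 < ρ := by linarith
  have hκ0 : 0 < κ := by positivity
  refine ⟨min ε (κ ^ 2 / (2 * ρ)), by positivity, min_le_left _ _, ?_⟩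
  have h1 : Real.sqrt (2 * (ρ * min ε (κ ^ 2 / (2 * ρ)))) ≤ κ := by
    have h : 2 * (ρ * min ε (κ ^ 2 / (2 * ρ))) ≤ κ ^ 2 := by
      calc 2 * (ρ * min ε (κ ^ 2 / (2 * ρ))) ≤ 2 * (ρ * (κ ^ 2 / (2 * ρ))) := by
            gcongr; exact min_le_right _ _
        _ = κ ^ 2 := by field_simp
    calc Real.sqrt (2 * (ρ * min ε (κ ^ 2 / (2 * ρ)))) ≤ Real.sqrt (κ ^ 2) := Real.sqrt_le_sqrt h
      _ = κ := Real.sqrt_sq hκ0.le
  calc ρ * (2 * Real.pi * (ρ * (h0 * Real.sqrt (2 * (ρ * min ε (κ ^ 2 / (2 * ρ)))))))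
      ≤ ρ * (2 * Real.pi * (ρ * (h0 * κ))) := by gcongr
    _ = ε / 2 := by rw [hκ]; field_simp; ring

/-- a large funnel parameter -/
lemma exists_tau {m c w u : ℝ} (hw : 0 < w) (hu : 0 < u) :
    ∃ τf : ℝ, 0 < τf ∧ m * c / Real.sqrt (Real.sinh τf * w) ≤ u := by
  have h1 : Tendsto (fun τ : ℝ => Real.sqrt (Real.sinh τ * w)) atTop atTop := by
    apply Real.tendsto_sqrt_atTop.comp
    apply Tendsto.atTop_mul_const hw
    apply Filter.tendsto_atTop_mono' _ _ tendsto_id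
    filter_upwards [eventually_ge_atTop (0:ℝ)] with x hx
    exact Real.self_le_sinh_iff.2 hx
  have h2 : Tendsto (fun τ : ℝ => m * c / Real.sqrt (Real.sinh τ * w)) atTop (𝓝 0) :=
    Tendsto.const_div_atTop h1 (m * c)
  have h3 := h2.eventually (eventually_le_nhds hu)
  obtain ⟨τ, hτ⟩ := (h3.and (eventually_gt_atTop 0)).exists
  exact ⟨τ, hτ.2, hτ.1⟩

theorem exists_block (Λ : ℝ) (hΛ : 0 < Λ) : BlockProp Λ (Λ + 2) := by
  intro ρ hρ ε hε
  have hpi := Real.pi_pos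
  obtain ⟨δ, hδ0, hδε, hδ⟩ := exists_delta hρ hε (by linarith : 0 < Λ + 2)
  obtain ⟨d⟩ := exists_avgKer hδ0
  obtain ⟨m, hm, hflux⟩ := conc_flux Λ hΛ d
  obtain ⟨A, hA⟩ : ∃ A : ℝ, A = 2 * m + 6 + 2 * Λ := ⟨_, rfl⟩
  have hA0 : 0 < A := by rw [hA]; positivity
  obtain ⟨B, hB⟩ : ∃ B : ℝ, B = 18 + 4 * Λ := ⟨_, rfl⟩
  have hB0 : 0 < B := by rw [hB]; positivity
  obtain ⟨e, he⟩ : ∃ e : ℝ, e = ε / (4 * Real.pi) := ⟨_, rfl⟩
  have he0 : 0 < e := by rw [he]; positivity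
  -- the length of the plug
  obtain ⟨l, hl⟩ : ∃ l : ℝ, l = 1 + 32 * A ^ 2 / e := ⟨_, rfl⟩
  have hl1 : 1 ≤ l := by
    have : 0 ≤ 32 * A ^ 2 / e := by positivity
    linarith
  have hl0 : 0 < l := by linarith
  -- the width of the plug
  obtain ⟨w, hw0, hw2, hw⟩ := chi_int_small (ε := ε / (4 * (Λ + 1) ^ 2 * (l + 2))) (by positivity)
  -- the funnel parameter
  obtain ⟨u0, hu0⟩ : ∃ u0 : ℝ, u0 = min (e / (4 * A * (1 + l))) ((e / (8 * A)) ^ 2 / A) := ⟨_, rfl⟩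
  have hu00 : 0 < u0 := by rw [hu0]; positivity
  obtain ⟨τf, hτ0, hτ⟩ := exists_tau (m := m) (c := Λ + 1) hw0 (half_pos hu00)
  obtain ⟨C2, hC2, hflux2⟩ := hflux w hw0 τf hτ0
  obtain ⟨Cv, hCv, hcost⟩ := cost_le (h := Λ + 1) (by linarith) τf
  -- the cell size
  obtain ⟨M, hM⟩ : ∃ M : ℝ, M = 1 + C2 + Cv + 2 * B * C2 / u0 + 4 * A * B * C2 / e
    + 8 * Real.pi * Cv ^ 2 * (l + 3) / ε := ⟨_, rfl⟩
  have t1 : 0 ≤ 2 * B * C2 / u0 := by positivity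
  have t2 : 0 ≤ 4 * A * B * C2 / e := by positivity
  have t3 : 0 ≤ 8 * Real.pi * Cv ^ 2 * (l + 3) / ε := by positivity
  have hM1 : 1 ≤ M := by linarith
  have hM0 : 0 < M := by linarith
  obtain ⟨q, hq⟩ : ∃ q : ℝ, q = 1 / M := ⟨_, rfl⟩
  have hq0 : 0 < q := by rw [hq]; positivity
  have hq1 : q ≤ 1 := by
    rw [hq, div_le_one hM0]; exact hM1
  have hqM : q * M = 1 := by rw [hq]; field_simp
  have mulle : ∀ x : ℝ, x ≤ M → x * q ≤ 1 := by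
    intro x hx
    calc x * q ≤ M * q := mul_le_mul_of_nonneg_right hx hq0.le
      _ = 1 := by rw [mul_comm]; exact hqM
  have c1 : C2 * q ≤ 1 := mulle _ (by linarith)
  have c2 : Cv * q ≤ 1 := mulle _ (by linarith)
  have c3 : B * C2 * q ≤ u0 / 2 := by
    have := mulle (2 * B * C2 / u0) (by linarith)
    have e1 : 2 * B * C2 / u0 * q = (2 * B * C2 * q) / u0 := by ring
    rw [e1, div_le_one hu00] at this
    linarith
  have c4 : A * B * C2 * q ≤ e / 4 := by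
    have := mulle (4 * A * B * C2 / e) (by linarith)
    have e1 : 4 * A * B * C2 / e * q = (4 * A * B * C2 * q) / e := by ring
    rw [e1, div_le_one he0] at this
    linarith
  have c5 : 4 * Real.pi * Cv ^ 2 * (l + 3) * q ≤ ε / 2 := by
    have := mulle (8 * Real.pi * Cv ^ 2 * (l + 3) / ε) (by linarith)
    have e1 : 8 * Real.pi * Cv ^ 2 * (l + 3) / ε * q = (8 * Real.pi * Cv ^ 2 * (l + 3) * q) / ε := by
      ring
    rw [e1, div_le_one hε] at this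
    linarith
  have hq2 : q ^ 2 ≤ q := by nlinarith
  have hq4 : q ^ 4 ≤ q := by
    calc q ^ 4 = q ^ 2 * q ^ 2 := by ring
      _ ≤ q * 1 := by
        apply mul_le_mul hq2 _ (by positivity) hq0.le
        nlinarith
      _ = q := mul_one q
  have hT0 : 0 < (q ^ 3)⁻¹ := by positivity
  have hq4T : q ^ 4 * (q ^ 3)⁻¹ = q := by field_simp
  -- the number of cells
  obtain ⟨N, hN⟩ := exists_nat_ge ((q ^ 4)⁻¹ + q * ((q ^ 3)⁻¹ + 1 + l) + q * (ρ + 1) + 1)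
  have p1 : 0 < (q ^ 4)⁻¹ := by positivity
  have p2 : 0 < q * ((q ^ 3)⁻¹ + 1 + l) := by positivity
  have p3 : 0 < q * (ρ + 1) := by
    have : 0 < ρ + 1 := by linarith
    positivity
  have hN1' : (1:ℝ) ≤ N := by linarith
  have hN1 : 1 ≤ N := by exact_mod_cast hN1'
  have hN0 : (0:ℝ) < N := by linarith
  have hNq : 1 ≤ (N:ℝ) * q ^ 4 := by
    have h : (q ^ 4)⁻¹ ≤ N := by linarith
    calc 1 = (q ^ 4)⁻¹ * q ^ 4 := by field_simp
      _ ≤ N * q ^ 4 := by gcongr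
  have hNR : (q ^ 3)⁻¹ + 1 + l ≤ N / q := by
    rw [le_div_iff₀ hq0]
    linarith [mul_comm q ((q ^ 3)⁻¹ + 1 + l)]
  have hNρ : ρ + 1 ≤ N / q := by
    rw [le_div_iff₀ hq0]
    linarith [mul_comm q (ρ + 1)]
  have hR0 : 0 < (N : ℝ) / q := by positivity
  -- the potential
  obtain ⟨Vb, hVs, hVp, hVz, hVb, hVi, hVI⟩ := exists_blockPot
    (fun r c => FF (Λ + 1) τf (q ^ 3)⁻¹ (N / q) l w N r c) N (r₁ := (N : ℝ) / q) (r₂ := (N : ℝ) / q + (q ^ 3)⁻¹ + 1 + l + 1) hR0 (by linarith)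
    (fun r c hr hc => FF_contDiffAt N hr hc) (fun r c hr => FF_zero N hT0 hr)
  obtain ⟨hc1, hc2⟩ := hcost q l w hq0 hq1 hl0 hw0 N hN1
  have hVb' : ∀ x, |Vb x| ≤ Λ + 2 := by
    apply hVb _ (by linarith)
    intro r c hr hc
    refine (hc1 r c hr hc).trans ?_
    have : q ^ 2 * Cv ≤ 1 := by
      calc q ^ 2 * Cv ≤ q * Cv := by gcongr
        _ = Cv * q := mul_comm _ _
        _ ≤ 1 := c2
    linarith
  have hVI' : ∫ x, ‖x‖⁻¹ * Vb x ^ 2 ≤ ε := by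
    rw [hVI]
    refine hc2.trans ?_
    have a1 : 4 * Real.pi * (q ^ 4 * Cv ^ 2) * ((q ^ 3)⁻¹ + l + 2) ≤ ε / 2 := by
      calc 4 * Real.pi * (q ^ 4 * Cv ^ 2) * ((q ^ 3)⁻¹ + l + 2)
          = 4 * Real.pi * Cv ^ 2 * (q ^ 4 * (q ^ 3)⁻¹ + q ^ 4 * (l + 2)) := by ring
        _ ≤ 4 * Real.pi * Cv ^ 2 * (q + q * (l + 2)) := by
            rw [hq4T]
            gcongr
        _ = 4 * Real.pi * Cv ^ 2 * (l + 3) * q := by ring
        _ ≤ ε / 2 := c5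
    have a2 : 2 * (Λ + 1) ^ 2 * (l + 2) * ∫ y in (0:ℝ)..(2 * Real.pi), chi w (Real.cos y) ^ 2
        ≤ ε / 2 := by
      calc 2 * (Λ + 1) ^ 2 * (l + 2) * ∫ y in (0:ℝ)..(2 * Real.pi), chi w (Real.cos y) ^ 2
          ≤ 2 * (Λ + 1) ^ 2 * (l + 2) * (ε / (4 * (Λ + 1) ^ 2 * (l + 2))) := by gcongr
        _ = ε / 2 := by field_simp; ring
    linarith
  refine ⟨Vb, N / q + (q ^ 3)⁻¹ + 1 + l + 1, δ, N / q, d, hVs, hVb', ?_, by linarith, hδ0.le, hδε, by linarith,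
    hVi, hVI', ?_⟩
  · intro x hx
    apply hVz
    rcases hx with hx | hx
    · left; linarith
    · right; exact hx
  · intro V hV hVle hVeq K _ _ _ k α hα hαR
    have hC := k.C0_nonneg
    have hPhi : Phi Λ m (C2 * q ^ 4) (m * (Λ + 1) / Real.sqrt (Real.sinh τf * w)) (q ^ 3)⁻¹ l ≤ e := by
      have b1 : m * (Λ + 1) / Real.sqrt (Real.sinh τf * w) + (18 + 4 * Λ) * (C2 * q ^ 4) ≤ u0 := by
        have : (18 + 4 * Λ) * (C2 * q ^ 4) ≤ u0 / 2 := by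
          calc (18 + 4 * Λ) * (C2 * q ^ 4) = B * C2 * q ^ 4 := by rw [hB]; ring
            _ ≤ B * C2 * q := by gcongr
            _ ≤ u0 / 2 := c3
        linarith
      apply Phi_le hΛ hm he0 hl0
      · rw [← hA]; linarith
      · rw [← hA]; exact (b1.trans hu0.le).trans (min_le_left _ _)
      · rw [← hA]; exact (b1.trans hu0.le).trans (min_le_right _ _)
      · rw [← hA, ← hB]
        calc A * (B * (C2 * q ^ 4)) * (q ^ 3)⁻¹ = A * B * C2 * (q ^ 4 * (q ^ 3)⁻¹) := by ring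
          _ = A * B * C2 * q := by rw [hq4T]
          _ ≤ e / 4 := c4
    have hS : ∀ s, (⟪U0 k.κ (N / q) (d.tr2 s), k.P (k.U1 (N / q) (d.tr2 s))⟫_ℂ).im ≤ k.C0 ^ 2 * e := by
      intro s
      refine (hflux2 q l hq0 hq1 c1 hl0 N hN1 hNq hNR V hV ?_ K k s).trans ?_
      · intro r hr θ
        have hr0 : 0 < r := lt_of_lt_of_le hR0 hr.1
        have hn : ‖pol r θ‖ = r := by rw [norm_pol, abs_of_pos hr0]
        rw [hVeq (pol r θ) (by rw [hn]; linarith [hr.1]) (by rw [hn]; linarith [hr.2]), hVp r θ hr0]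
      · exact mul_le_mul_of_nonneg_left hPhi (sq_nonneg _)
    have hmain := inner_main k d hV hVle hδ0.le (ρ := ρ) (R := N / q) (S := k.C0 ^ 2 * e)
      (by linarith) (by linarith) (by
        intro x hx1 hx2
        rw [hVeq x hx1 (by linarith)]
        exact hVz x (Or.inl hx2)) hS hα hαR
    refine hmain.trans ?_
    have f1 : 2 * Real.pi * (k.C0 ^ 2 * e) = ε / 2 * k.C0 ^ 2 := by
      rw [he]; field_simp; ring
    have f2 : ρ * (2 * Real.pi * (ρ * ((Λ + 2) * (k.C0 ^ 2 * Real.sqrt (2 * (ρ * δ))))))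
        = (ρ * (2 * Real.pi * (ρ * ((Λ + 2) * Real.sqrt (2 * (ρ * δ)))))) * k.C0 ^ 2 := by ring
    rw [f1, f2]
    have f3 := mul_le_mul_of_nonneg_right hδ (sq_nonneg k.C0)
    linarith

end MP3a4792
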