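import Pool.Agent.Lib.MP_3a4792_mp.ConcCalc

open MeasureTheory Set InnerProductSpace Filter Topology
open scoped ContDiff Laplacian InnerProductSpace

noncomputable section

namespace MP3a4792

variable {V : E2 → ℝ} {δ : ℝ} (d : AvgKer δ) (s h τf T R w : ℝ) (N : ℕ)

/-- the constant of `cp` -/
def kap (T : ℝ) (N : ℕ) : ℝ := (2 * (N : ℝ) ^ 2 * T)⁻¹
/-- radial factor of `η` -/
def cp (T : ℝ) (N : ℕ) : ℝ → ℝ := fun r => kap T N * r ^ 2
def cp1 (T : ℝ) (N : ℕ) : ℝ → ℝ := fun r => 2 * kap T N * r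
def cp2 (T : ℝ) (N : ℕ) : ℝ → ℝ := fun _ => 2 * kap T N

def cb1 : ℝ → ℝ → ℝ := GG T R N (Dt d s) (fun _ => 1) (Ap τf)
def cb2 : ℝ → ℝ → ℝ := GG T R N (Dt d s) (cp T N) (Bp τf)
def D1x : ℝ → ℝ → ℝ := fun r θ => 2 * Dt1 d s r θ
def ce1 : ℝ → ℝ → ℝ := fun r θ => (-N) * GG T R N (D1x d s) (fun _ => 1) (dθ (Ap τf)) r θ
  + (-1) * GG T R N (Dt3 d s) (fun _ => 1) (Ap τf) r θ
def ce2 : ℝ → ℝ → ℝ := fun r θ => (-N) * GG T R N (D1x d s) (cp T N) (dθ (Bp τf)) r θ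
  + (-1) * GG T R N (Dt3 d s) (cp T N) (Bp τf) r θ
def cq (h T R : ℝ) : ℝ → ℝ := fun r => h * Real.smoothTransition (r - (R + T))
def cx (w : ℝ) (N : ℕ) : ℝ → ℝ → ℝ := fun _ θ => 1 - chi w (Real.cos (N * θ))
def ce0 : ℝ → ℝ → ℝ := fun r θ => (-1) * ((cq h T R r * cx w N r θ) * cb1 d s τf T R N r θ)

lemma D1x_S2 : S2 (D1x d s) := (Dt1_S2 d s).const_mul 2

lemma dr_D1x : dr (D1x d s) = fun _ _ => 0 := by
  unfold D1x
  rw [(Dt1_S2 d s).dr_const_mul, dr_Dt1]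
  simp

lemma cp_smooth : ContDiff ℝ ∞ (cp T N) := by unfold cp; fun_prop
lemma cp1_smooth : ContDiff ℝ ∞ (cp1 T N) := by unfold cp1; fun_prop
lemma cp2_smooth : ContDiff ℝ ∞ (cp2 T N) := by unfold cp2; fun_prop

lemma cp_deriv (r : ℝ) : HasDerivAt (cp T N) (cp1 T N r) r := by
  have h := ((hasDerivAt_id r).pow 2).const_mul (kap T N)
  have e : (fun y => kap T N * ((id ^ 2 : ℝ → ℝ)) y) = cp T N := by
    ext y; simp [cp]
  rw [e] at h
  refine h.congr_deriv ?_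
  simp [cp1]; ring

lemma cp1_deriv (r : ℝ) : HasDerivAt (cp1 T N) (cp2 T N r) r := by
  have h := (hasDerivAt_id r).const_mul (2 * kap T N)
  refine h.congr_deriv ?_
  simp [cp2]

lemma cp2_deriv (r : ℝ) : HasDerivAt (cp2 T N) 0 r := hasDerivAt_const r _

lemma one_deriv (r : ℝ) : HasDerivAt (fun _ : ℝ => (1 : ℝ)) 0 r := hasDerivAt_const r _

lemma cb1_S2 : S2 (cb1 d s τf T R N) := GG_S2 T R N (Dt_S2 d s) contDiff_const (Ap_S2 τf)
lemma cb2_S2 : S2 (cb2 d s τf T R N) := GG_S2 T R N (Dt_S2 d s) (cp_smooth T N) (Bp_S2 τf)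
lemma ce1_S2 : S2 (ce1 d s τf T R N) :=
  ((GG_S2 T R N (D1x_S2 d s) contDiff_const (Ap_S2 τf).dθ).const_mul _).add
    ((GG_S2 T R N (Dt3_S2 d s) contDiff_const (Ap_S2 τf)).const_mul _)
lemma ce2_S2 : S2 (ce2 d s τf T R N) :=
  ((GG_S2 T R N (D1x_S2 d s) (cp_smooth T N) (Bp_S2 τf).dθ).const_mul _).add
    ((GG_S2 T R N (Dt3_S2 d s) (cp_smooth T N) (Bp_S2 τf)).const_mul _)

lemma cq_smooth : ContDiff ℝ ∞ (cq h T R) := by
  unfold cq
  exact contDiff_const.mul (Real.smoothTransition.contDiff.comp (by fun_prop))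

lemma cx_S2 : S2 (cx w N) := by
  constructor
  · unfold cx chi
    have h1 : ContDiff ℝ ∞ (fun p : ℝ × ℝ => (Real.cos (N * p.2) - 1 + 2 * w) / w) := by fun_prop
    exact contDiff_const.sub (Real.smoothTransition.contDiff.comp h1)
  · intro r θ
    simp only [cx]
    have : Real.cos (N * (θ + 2 * Real.pi)) = Real.cos (N * θ) := by
      rw [mul_add, ← Real.cos_add_nat_mul_two_pi (N * θ) N]
    rw [this]

lemma ce0_S2 : S2 (ce0 d s h τf T R w N) :=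
  (((rad_S2 (cq_smooth h T R)).mul (cx_S2 w N)).mul (cb1_S2 d s τf T R N)).const_mul _

/-! ### derivatives -/

lemma dr_cb1 : dr (cb1 d s τf T R N) =
    fun r θ => T⁻¹ * GG T R N (Dt d s) (fun _ => 1) (dr (Ap τf)) r θ := by
  unfold cb1
  rw [GG_dr (Dt_S2 d s) (dr_Dt d s) contDiff_const one_deriv (Ap_S2 τf)]
  ext r θ
  simp [GG]

lemma ddr_cb1 : dr (dr (cb1 d s τf T R N)) =
    fun r θ => T⁻¹ * (T⁻¹ * GG T R N (Dt d s) (fun _ => 1) (dr (dr (Ap τf))) r θ) := by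
  rw [dr_cb1, (GG_S2 T R N (Dt_S2 d s) contDiff_const (Ap_S2 τf).dr).dr_const_mul,
    GG_dr (Dt_S2 d s) (dr_Dt d s) contDiff_const one_deriv (Ap_S2 τf).dr]
  ext r θ
  simp [GG]

lemma dr_cb2 : dr (cb2 d s τf T R N) =
    fun r θ => GG T R N (Dt d s) (cp1 T N) (Bp τf) r θ
      + T⁻¹ * GG T R N (Dt d s) (cp T N) (dr (Bp τf)) r θ := by
  unfold cb2
  rw [GG_dr (Dt_S2 d s) (dr_Dt d s) (cp_smooth T N) (cp_deriv T N) (Bp_S2 τf)]

lemma ddr_cb2 : dr (dr (cb2 d s τf T R N)) =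
    fun r θ => (GG T R N (Dt d s) (cp2 T N) (Bp τf) r θ
        + T⁻¹ * GG T R N (Dt d s) (cp1 T N) (dr (Bp τf)) r θ)
      + T⁻¹ * (GG T R N (Dt d s) (cp1 T N) (dr (Bp τf)) r θ
        + T⁻¹ * GG T R N (Dt d s) (cp T N) (dr (dr (Bp τf))) r θ) := by
  rw [dr_cb2, S2.dr_add (GG_S2 T R N (Dt_S2 d s) (cp1_smooth T N) (Bp_S2 τf))
    ((GG_S2 T R N (Dt_S2 d s) (cp_smooth T N) (Bp_S2 τf).dr).const_mul _),
    (GG_S2 T R N (Dt_S2 d s) (cp_smooth T N) (Bp_S2 τf).dr).dr_const_mul,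
    GG_dr (Dt_S2 d s) (dr_Dt d s) (cp1_smooth T N) (cp1_deriv T N) (Bp_S2 τf),
    GG_dr (Dt_S2 d s) (dr_Dt d s) (cp_smooth T N) (cp_deriv T N) (Bp_S2 τf).dr]

lemma dddr_cb2 : dr (dr (dr (cb2 d s τf T R N))) =
    fun r θ => 3 * (T⁻¹ * GG T R N (Dt d s) (cp2 T N) (dr (Bp τf)) r θ)
      + 3 * (T⁻¹ * (T⁻¹ * GG T R N (Dt d s) (cp1 T N) (dr (dr (Bp τf))) r θ))
      + T⁻¹ * (T⁻¹ * (T⁻¹ * GG T R N (Dt d s) (cp T N) (dr (dr (dr (Bp τf)))) r θ)) := by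
  have s20 := GG_S2 T R N (Dt_S2 d s) (cp2_smooth T N) (Bp_S2 τf)
  have s11 := GG_S2 T R N (Dt_S2 d s) (cp1_smooth T N) (Bp_S2 τf).dr
  have s02 := GG_S2 T R N (Dt_S2 d s) (cp_smooth T N) (Bp_S2 τf).dr.dr
  rw [ddr_cb2, S2.dr_add (s20.add (s11.const_mul _)) ((s11.add (s02.const_mul _)).const_mul _),
    S2.dr_add s20 (s11.const_mul _), (s11.add (s02.const_mul T⁻¹)).dr_const_mul,
    S2.dr_add s11 (s02.const_mul _), s11.dr_const_mul, s02.dr_const_mul,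
    GG_dr (Dt_S2 d s) (dr_Dt d s) (cp2_smooth T N) (cp2_deriv T N) (Bp_S2 τf),
    GG_dr (Dt_S2 d s) (dr_Dt d s) (cp1_smooth T N) (cp1_deriv T N) (Bp_S2 τf).dr,
    GG_dr (Dt_S2 d s) (dr_Dt d s) (cp_smooth T N) (cp_deriv T N) (Bp_S2 τf).dr.dr]
  ext r θ
  simp only [GG]
  ring

lemma dr_ce2 : dr (ce2 d s τf T R N) =
    fun r θ => (-N) * (GG T R N (D1x d s) (cp1 T N) (dθ (Bp τf)) r θ
        + T⁻¹ * GG T R N (D1x d s) (cp T N) (dr (dθ (Bp τf))) r θ)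
      + (-1) * (GG T R N (Dt3 d s) (cp1 T N) (Bp τf) r θ
        + T⁻¹ * GG T R N (Dt3 d s) (cp T N) (dr (Bp τf)) r θ) := by
  unfold ce2
  have s1 := GG_S2 T R N (D1x_S2 d s) (cp_smooth T N) (Bp_S2 τf).dθ
  have s2 := GG_S2 T R N (Dt3_S2 d s) (cp_smooth T N) (Bp_S2 τf)
  rw [S2.dr_add (s1.const_mul _) (s2.const_mul _), s1.dr_const_mul, s2.dr_const_mul,
    GG_dr (D1x_S2 d s) (dr_D1x d s) (cp_smooth T N) (cp_deriv T N) (Bp_S2 τf).dθ,
    GG_dr (Dt3_S2 d s) (dr_Dt3 d s) (cp_smooth T N) (cp_deriv T N) (Bp_S2 τf)]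

lemma ddθ_gen {p : ℝ → ℝ} (hp : ContDiff ℝ ∞ p) {F : ℝ → ℝ → ℝ} (hF : S2 F) :
    dθ (dθ (GG T R N (Dt d s) p F)) =
    fun r θ => (GG T R N (Dt2 d s) p F r θ + N * GG T R N (Dt1 d s) p (dθ F) r θ)
      + N * (GG T R N (Dt1 d s) p (dθ F) r θ + N * GG T R N (Dt d s) p (dθ (dθ F)) r θ) := by
  have s1 := GG_S2 T R N (Dt1_S2 d s) hp hF
  have s2 := GG_S2 T R N (Dt_S2 d s) hp hF.dθ
  rw [GG_dθ (Dt_S2 d s) (dθ_Dt d s) hp hF, S2.dθ_add s1 (s2.const_mul _), s2.dθ_const_mul,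
    GG_dθ (Dt1_S2 d s) (dθ_Dt1 d s) hp hF, GG_dθ (Dt_S2 d s) (dθ_Dt d s) hp hF.dθ]

/-- the concrete shell -/
def cShell {l : ℝ} (hT : 0 < T) (hR : 0 < R) (hN : 1 ≤ N) (hV : Continuous V)
    (hVr : ∀ r ∈ Icc R (R + T + 1 + l), ∀ θ, V (pol r θ) =
      (N : ℝ) ^ 2 / r ^ 2 * lf T R N (vp τf) r θ + cq h T R r * chi w (Real.cos (N * θ))) :
    ShellData V R (R + T + 1 + l) where
  b1 := cb1 d s τf T R N
  b2 := cb2 d s τf T R N
  e1 := ce1 d s τf T R N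
  e2 := ce2 d s τf T R N
  e0 := ce0 d s h τf T R w N
  q := cq h T R
  hb1 := cb1_S2 d s τf T R N
  hb2 := cb2_S2 d s τf T R N
  he1 := ce1_S2 d s τf T R N
  he2 := ce2_S2 d s τf T R N
  he0 := ce0_S2 d s h τf T R w N
  hV := hV
  H1 := by
    intro r hr θ
    rw [hVr r hr θ]
    have e1 : dθ (dθ (cb1 d s τf T R N)) r θ = _ := congrFun (congrFun
      (ddθ_gen d s T R N contDiff_const (Ap_S2 τf)) r) θ
    rw [e1]
    have e2 : lf T R N (dθ (dθ (Ap τf))) r θ = lf T R N (vp τf) r θ * lf T R N (Ap τf) r θ :=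
      Ap_yy τf _ _
    simp only [GG, ce1, ce0, cb1, cx, D1x, Dt3]
    rw [e2]
    ring
  H2 := by
    intro r hr θ
    have hr0 : 0 < r := lt_of_lt_of_le hR hr.1
    rw [hVr r hr θ]
    have e1 : dθ (dθ (cb2 d s τf T R N)) r θ = _ := congrFun (congrFun
      (ddθ_gen d s T R N (cp_smooth T N) (Bp_S2 τf)) r) θ
    rw [e1, dr_cb1]
    have e2 : lf T R N (dr (Ap τf)) r θ = -(1 / 2) * (lf T R N (dθ (dθ (Bp τf))) r θ
      - lf T R N (vp τf) r θ * lf T R N (Bp τf) r θ) := Ap_x τf _ _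
    have e3 : cq h T R r * lf T R N (Bp τf) r θ = 0 := by
      rcases le_total r (R + T) with hle | hle
      · have : cq h T R r = 0 := by
          unfold cq
          rw [Real.smoothTransition.zero_of_nonpos (by linarith), mul_zero]
        rw [this, zero_mul]
      · have : lf T R N (Bp τf) r θ = 0 := by
          apply Bp_of_one_le
          rw [le_div_iff₀ hT]; linarith
        rw [this, mul_zero]
    have hNr : (0:ℝ) < N := by exact_mod_cast hN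
    have e4 : (N : ℝ) ^ 2 / r ^ 2 * cp T N r = (1 / 2) * T⁻¹ := by
      unfold cp kap
      field_simp
    have e5 : (1 / r ^ 2) * (N : ℝ) ^ 2 * cp T N r = (1 / 2) * T⁻¹ := by
      rw [← e4]; ring
    simp only [GG, ce2, cb2, D1x, Dt3]
    rw [e2]
    linear_combination (chi w (Real.cos (N * θ)) * Dt d s r θ * cp T N r) * e3
      + (lf T R N (vp τf) r θ * Dt d s r θ * lf T R N (Bp τf) r θ) * e4
      - (Dt d s r θ * lf T R N (dθ (dθ (Bp τf))) r θ) * e5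
  Hq := by
    intro r hr
    rcases le_total r (R + T) with hle | hle
    · left
      unfold cq
      rw [Real.smoothTransition.zero_of_nonpos (by linarith), mul_zero]
    · right
      have hx : 1 ≤ (r - R) / T := by rw [le_div_iff₀ hT]; linarith
      have z1 : ∀ θ, lf T R N (Bp τf) r θ = 0 := fun θ => Bp_of_one_le hx
      have z2 : ∀ θ, lf T R N (dr (Bp τf)) r θ = 0 := by
        intro θ
        exact (S2.dr_const (Bp_S2 τf)
          (fun x y hx => by rw [Bp_of_nonpos hx, Bp_of_nonpos le_rfl])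
          (fun x y hx => by rw [Bp_of_one_le hx, Bp_of_one_le le_rfl])).2 _ _ hx
      constructor
      · ext θ
        simp only [cb2, GG, z1, Pi.zero_apply]
        ring
      · rw [dr_cb2]
        ext θ
        simp only [GG, z1, z2, Pi.zero_apply]
        ring

end MP3a4792
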