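import Pool.Agent.Lib.MP_3a4792_mp.Conc

open MeasureTheory Set InnerProductSpace Filter Topology
open scoped ContDiff Laplacian InnerProductSpace

noncomputable section

namespace MP3a4792

lemma integral_periodic_mul {f : ℝ → ℝ} (hf : Continuous f) (hp : Function.Periodic f (2 * Real.pi))
    {N : ℕ} (hN : 1 ≤ N) :
    ∫ θ in (0:ℝ)..(2 * Real.pi), f (N * θ) = ∫ y in (0:ℝ)..(2 * Real.pi), f y := by
  have hN0 : (N : ℝ) ≠ 0 := by positivity
  rw [intervalIntegral.integral_comp_mul_left f hN0, mul_zero]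
  have h1 := hp.intervalIntegral_add_zsmul_eq N 0 (fun _ _ => hf.intervalIntegrable _ _)
  simp only [zsmul_eq_mul, Int.cast_natCast, zero_add] at h1
  rw [h1, smul_eq_mul, ← mul_assoc, inv_mul_cancel₀ hN0, one_mul]

variable {V : E2 → ℝ} {δ : ℝ} (d : AvgKer δ) (s h τf T R w : ℝ) (N : ℕ)

lemma nS_cb1_le {D0 : ℝ} (hD0 : 0 ≤ D0) (hD : ∀ r θ, |Dt d s r θ| ≤ D0) (hN : 1 ≤ N) (r : ℝ) :
    nS (cb1 d s τf T R N r) ≤ Real.sqrt (2 * Real.pi) * D0 := by
  unfold nS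
  have hc : Continuous (cb1 d s τf T R N r) := ((cb1_S2 d s τf T R N).cls r).continuous
  have hA : Continuous (Ap τf ((r - R) / T)) := ((Ap_S2 τf).cls _).continuous
  have hAN : Continuous (fun θ => lf T R N (Ap τf) r θ) := hA.comp (by fun_prop)
  have h1 : ∫ θ in (0:ℝ)..(2 * Real.pi), (cb1 d s τf T R N r θ) ^ 2 ≤
      ∫ θ in (0:ℝ)..(2 * Real.pi), D0 ^ 2 * (lf T R N (Ap τf) r θ) ^ 2 := by
    apply intervalIntegral.integral_mono_on (by positivity)
    · exact (hc.pow 2).intervalIntegrable _ _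
    · exact (continuous_const.mul (hAN.pow 2)).intervalIntegrable _ _
    · intro θ _
      simp only [cb1, GG]
      rw [one_mul, mul_pow, ← sq_abs (Dt d s r θ)]
      have := hD r θ
      gcongr
  have h2 : ∫ θ in (0:ℝ)..(2 * Real.pi), D0 ^ 2 * (lf T R N (Ap τf) r θ) ^ 2 =
      D0 ^ 2 * (2 * Real.pi) := by
    rw [intervalIntegral.integral_const_mul]
    congr 1
    have h3 := integral_periodic_mul (f := fun y => (Ap τf ((r - R) / T) y) ^ 2) (hA.pow 2)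
      (fun y => by simp only [(Ap_S2 τf).2 _ y]) hN
    rw [Ap_int] at h3
    exact h3
  rw [h2] at h1
  calc Real.sqrt _ ≤ Real.sqrt (D0 ^ 2 * (2 * Real.pi)) := Real.sqrt_le_sqrt h1
    _ = Real.sqrt (2 * Real.pi) * D0 := by
      rw [Real.sqrt_mul (by positivity), Real.sqrt_sq hD0]; ring

lemma chi_nn (w c : ℝ) : 0 ≤ chi w c := Real.smoothTransition.nonneg _
lemma chi_le1 (w c : ℝ) : chi w c ≤ 1 := Real.smoothTransition.le_one _
lemma chi_one {w c : ℝ} (hw : 0 < w) (hc : 1 - w ≤ c) : chi w c = 1 := by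
  unfold chi
  apply Real.smoothTransition.one_of_one_le
  rw [le_div_iff₀ hw]; linarith

lemma nS_ce0_le {D0 : ℝ} (hD0 : 0 ≤ D0) (hD : ∀ r θ, |Dt d s r θ| ≤ D0) (hh : 0 ≤ h)
    (hw : 0 < w) (hτ : 0 < τf) (hT : 0 < T) {r : ℝ} (hr : R + T ≤ r) :
    nS (ce0 d s h τf T R w N r) ≤
      Real.sqrt (2 * Real.pi) * D0 * h / Real.sqrt (Real.sinh τf * w) := by
  have hsh : 0 < Real.sinh τf := Real.sinh_pos_iff.2 hτ
  have hx : 1 ≤ (r - R) / T := by rw [le_div_iff₀ hT]; linarith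
  have key : nS (ce0 d s h τf T R w N r) ≤ Real.sqrt (2 * Real.pi) *
      (h * (D0 * (1 / Real.sqrt (Real.sinh τf * w)))) := by
    apply nS_le (by positivity) ((ce0_S2 d s h τf T R w N).cls r).continuous
    intro θ _
    by_cases hc : 1 - w ≤ Real.cos (N * θ)
    · have : ce0 d s h τf T R w N r θ = 0 := by
        simp only [ce0, cx, chi_one hw hc]; ring
      rw [this, abs_zero]; positivity
    · push Not at hc
      have h1 := Ap_tail (τf := τf) (c := 1 - w) (y := N * θ) hτ (by linarith) hc.le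
      have h2 : lf T R N (Ap τf) r θ = Ap τf 1 (N * θ) := Ap_of_one_le hx
      have h3 : |Ap τf 1 (N * θ)| ≤ 1 / Real.sqrt (Real.sinh τf * w) := by
        rw [← Real.sqrt_sq_eq_abs, ← Real.sqrt_one, ← Real.sqrt_div zero_le_one]
        apply Real.sqrt_le_sqrt
        simpa using h1
      simp only [ce0, cb1, GG, h2]
      rw [abs_mul, abs_mul, abs_mul, abs_mul, abs_neg, abs_one, one_mul, one_mul]
      have h4 : |cq h T R r| ≤ h := by
        unfold cq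
        rw [abs_mul, abs_of_nonneg hh, abs_of_nonneg (Real.smoothTransition.nonneg _)]
        have := Real.smoothTransition.le_one (r - (R + T))
        nlinarith
      have h5 : |cx w N r θ| ≤ 1 := by
        unfold cx
        have a := chi_nn w (Real.cos (N * θ))
        have b := chi_le1 w (Real.cos (N * θ))
        rw [abs_le]; constructor <;> linarith
      have h6 := hD r θ
      calc |cq h T R r| * |cx w N r θ| * (|Dt d s r θ| * |Ap τf 1 (N * θ)|)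
          ≤ h * 1 * (D0 * (1 / Real.sqrt (Real.sinh τf * w))) := by
            gcongr
        _ = _ := by ring
  refine key.trans (le_of_eq ?_)
  ring

lemma ce0_zero {r : ℝ} (hr : r ≤ R + T) : nS (ce0 d s h τf T R w N r) ≤ 0 := by
  have : ce0 d s h τf T R w N r = fun _ => 0 := by
    ext θ
    simp only [ce0, cq]
    rw [Real.smoothTransition.zero_of_nonpos (by linarith)]
    ring
  rw [this]
  simp [nS]

section bounds

variable {q DD C : ℝ}

lemma q_pow_le {q : ℝ} (hq : 0 < q) (hq1 : q ≤ 1) {a b : ℕ} (hab : a ≤ b) : q ^ b ≤ q ^ a :=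
  pow_le_pow_of_le_one hq.le hq1 hab

lemma kap_eq (hq : 0 < q) : kap (q ^ 3)⁻¹ N = q ^ 3 / (2 * (N : ℝ) ^ 2) := by
  unfold kap
  by_cases hN : (N : ℝ) = 0
  · simp [hN]
  · field_simp

lemma cp_bd (hq : 0 < q) (hN : 1 ≤ N) {r : ℝ} (hr0 : 0 ≤ r) (hr : r ≤ 2 * (N / q)) :
    |cp (q ^ 3)⁻¹ N r| ≤ 2 * q := by
  have hN0 : (0:ℝ) < N := by exact_mod_cast hN
  unfold cp
  rw [kap_eq N hq, abs_of_nonneg (by positivity)]
  have h1 : r ^ 2 ≤ (2 * (N / q)) ^ 2 := by gcongr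
  calc q ^ 3 / (2 * (N : ℝ) ^ 2) * r ^ 2 ≤ q ^ 3 / (2 * (N : ℝ) ^ 2) * (2 * (N / q)) ^ 2 := by gcongr
    _ = 2 * q := by field_simp

lemma cp1_bd (hq : 0 < q) (hN : 1 ≤ N) (hNq : 1 ≤ (N : ℝ) * q ^ 4) {r : ℝ} (hr0 : 0 ≤ r)
    (hr : r ≤ 2 * (N / q)) : |cp1 (q ^ 3)⁻¹ N r| ≤ 2 * q ^ 6 := by
  have hN0 : (0:ℝ) < N := by exact_mod_cast hN
  unfold cp1
  rw [kap_eq N hq, abs_of_nonneg (by positivity)]
  calc 2 * (q ^ 3 / (2 * (N : ℝ) ^ 2)) * r ≤ 2 * (q ^ 3 / (2 * (N : ℝ) ^ 2)) * (2 * (N / q)) := by gcongr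
    _ = 2 * q ^ 2 * (1 / N) := by field_simp
    _ ≤ 2 * q ^ 2 * q ^ 4 := by
      gcongr
      rw [div_le_iff₀ hN0]; linarith
    _ = 2 * q ^ 6 := by ring

lemma cp2_bd (hq : 0 < q) (hq1 : q ≤ 1) (hN : 1 ≤ N) (hNq : 1 ≤ (N : ℝ) * q ^ 4) (r : ℝ) :
    |cp2 (q ^ 3)⁻¹ N r| ≤ q ^ 4 := by
  have hN0 : (0:ℝ) < N := by exact_mod_cast hN
  unfold cp2
  rw [kap_eq N hq, abs_of_nonneg (by positivity)]
  have h1 : (1 : ℝ) / N ≤ q ^ 4 := by rw [div_le_iff₀ hN0]; linarith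
  have h2 : (1 : ℝ) / N ≤ 1 := by
    rw [div_le_one hN0]; exact_mod_cast hN
  have h3 : q ^ 3 ≤ 1 := pow_le_one₀ hq.le hq1
  calc 2 * (q ^ 3 / (2 * (N : ℝ) ^ 2)) = q ^ 3 * (1 / N) * (1 / N) := by field_simp
    _ ≤ 1 * q ^ 4 * 1 := by gcongr
    _ = q ^ 4 := by ring

end bounds

end MP3a4792
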