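import Pool.Agent.Lib.MP_3a4792_mp.ShellDefs

open MeasureTheory Set InnerProductSpace Filter Topology
open scoped ContDiff Laplacian InnerProductSpace

noncomputable section

namespace MP3a4792

section rules

variable {b b' : ℝ → ℝ → ℝ}

lemma S2.dr_mul (hb : S2 b) (hb' : S2 b') : MP3a4792.dr (fun r θ => b r θ * b' r θ) =
    fun r θ => MP3a4792.dr b r θ * b' r θ + b r θ * MP3a4792.dr b' r θ := by
  ext r θ
  exact ((hb.hasDerivAt_r r θ).mul (hb'.hasDerivAt_r r θ)).deriv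

lemma S2.dθ_mul (hb : S2 b) (hb' : S2 b') : MP3a4792.dθ (fun r θ => b r θ * b' r θ) =
    fun r θ => MP3a4792.dθ b r θ * b' r θ + b r θ * MP3a4792.dθ b' r θ := by
  ext r θ
  exact ((hb.hasDerivAt_θ r θ).mul (hb'.hasDerivAt_θ r θ)).deriv

lemma S2.dr_add (hb : S2 b) (hb' : S2 b') : MP3a4792.dr (fun r θ => b r θ + b' r θ) =
    fun r θ => MP3a4792.dr b r θ + MP3a4792.dr b' r θ := by
  ext r θ
  exact ((hb.hasDerivAt_r r θ).add (hb'.hasDerivAt_r r θ)).deriv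

lemma S2.dθ_add (hb : S2 b) (hb' : S2 b') : MP3a4792.dθ (fun r θ => b r θ + b' r θ) =
    fun r θ => MP3a4792.dθ b r θ + MP3a4792.dθ b' r θ := by
  ext r θ
  exact ((hb.hasDerivAt_θ r θ).add (hb'.hasDerivAt_θ r θ)).deriv

lemma S2.dr_const_mul (hb : S2 b) (c : ℝ) : MP3a4792.dr (fun r θ => c * b r θ) =
    fun r θ => c * MP3a4792.dr b r θ := by
  ext r θ
  exact ((hb.hasDerivAt_r r θ).const_mul c).deriv

lemma S2.dθ_const_mul (hb : S2 b) (c : ℝ) : MP3a4792.dθ (fun r θ => c * b r θ) =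
    fun r θ => c * MP3a4792.dθ b r θ := by
  ext r θ
  exact ((hb.hasDerivAt_θ r θ).const_mul c).deriv

end rules

variable {T R : ℝ} {N : ℕ} {F : ℝ → ℝ → ℝ}

lemma lf_S2 (T R : ℝ) (N : ℕ) (hF : S2 F) : S2 (lf T R N F) := by
  constructor
  · have h : ContDiff ℝ ∞ (fun p : ℝ × ℝ => ((p.1 - R) / T, (N : ℝ) * p.2)) := by fun_prop
    exact hF.1.comp h
  · intro r θ
    simp only [lf]
    have h : Function.Periodic (F ((r - R) / T)) (N * (2 * Real.pi)) := by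
      have := (hF.2 ((r - R) / T)).nat_mul N
      exact this
    have := h (N * θ)
    rw [← this]
    congr 1
    ring

lemma dr_lf (hF : S2 F) : dr (lf T R N F) = fun r θ => T⁻¹ * lf T R N (dr F) r θ := by
  ext r θ
  have h1 : HasDerivAt (fun r : ℝ => (r - R) / T) (1 / T) r := ((hasDerivAt_id r).sub_const R).div_const T
  have h2 := (hF.hasDerivAt_r ((r - R) / T) (N * θ)).comp r h1
  have h3 : dr (lf T R N F) r θ = dr F ((r - R) / T) (N * θ) * (1 / T) := h2.deriv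
  rw [h3, lf]
  ring

lemma dθ_lf (hF : S2 F) : dθ (lf T R N F) = fun r θ => N * lf T R N (dθ F) r θ := by
  ext r θ
  have h1 : HasDerivAt (fun θ : ℝ => (N : ℝ) * θ) ((N : ℝ) * 1) θ := (hasDerivAt_id θ).const_mul _
  have h2 := (hF.hasDerivAt_θ ((r - R) / T) (N * θ)).comp θ h1
  have h3 : dθ (lf T R N F) r θ = dθ F ((r - R) / T) (N * θ) * (N * 1) := h2.deriv
  rw [h3, lf]
  ring

/-- product of an angular function, a radial function and a rescaled profile -/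
def GG (T R : ℝ) (N : ℕ) (D : ℝ → ℝ → ℝ) (p : ℝ → ℝ) (F : ℝ → ℝ → ℝ) : ℝ → ℝ → ℝ :=
  fun r θ => D r θ * (p r * lf T R N F r θ)

variable {D : ℝ → ℝ → ℝ} {p p' : ℝ → ℝ}

lemma rad_S2 (hp : ContDiff ℝ ∞ p) : S2 (fun r _ => p r) :=
  ⟨hp.comp contDiff_fst, fun _ _ => rfl⟩

lemma GG_S2 (T R : ℝ) (N : ℕ) (hD : S2 D) (hp : ContDiff ℝ ∞ p) (hF : S2 F) : S2 (GG T R N D p F) :=
  hD.mul ((rad_S2 hp).mul (lf_S2 T R N hF))

lemma GG_dr (hD : S2 D) (hD0 : dr D = fun _ _ => 0) (hp : ContDiff ℝ ∞ p)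
    (hp' : ∀ r, HasDerivAt p (p' r) r) (hF : S2 F) :
    dr (GG T R N D p F) = fun r θ => GG T R N D p' F r θ + T⁻¹ * GG T R N D p (dr F) r θ := by
  have h1 := S2.dr_mul hD ((rad_S2 hp).mul (lf_S2 T R N hF))
  have h2 := S2.dr_mul (rad_S2 hp) (lf_S2 T R N hF)
  have h3 : dr (fun r (_ : ℝ) => p r) = fun r _ => p' r := by
    ext r θ
    exact (hp' r).deriv
  have h0 : GG T R N D p F = fun r θ => D r θ * (p r * lf T R N F r θ) := rfl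
  rw [h0, h1, h2, h3, hD0, dr_lf hF]
  ext r θ
  simp only [GG]
  ring

lemma GG_dθ {D' : ℝ → ℝ → ℝ} (hD : S2 D) (hD0 : dθ D = D') (hp : ContDiff ℝ ∞ p) (hF : S2 F) :
    dθ (GG T R N D p F) = fun r θ => GG T R N D' p F r θ + N * GG T R N D p (dθ F) r θ := by
  have h1 := S2.dθ_mul hD ((rad_S2 hp).mul (lf_S2 T R N hF))
  have h2 := S2.dθ_mul (rad_S2 hp) (lf_S2 T R N hF)
  have h3 : dθ (fun r (_ : ℝ) => p r) = fun _ _ => 0 := by
    ext r θ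
    exact deriv_const θ (p r)
  have h0 : GG T R N D p F = fun r θ => D r θ * (p r * lf T R N F r θ) := rfl
  rw [h0, h1, h2, h3, hD0, dθ_lf hF]
  ext r θ
  simp only [GG]
  ring

lemma GG_abs_le {r θ D0 P C : ℝ} (hD : |D r θ| ≤ D0) (hp : |p r| ≤ P)
    (hF : ∀ x y, |F x y| ≤ C) : |GG T R N D p F r θ| ≤ D0 * (P * C) := by
  unfold GG
  rw [abs_mul, abs_mul]
  have h1 := hF ((r - R) / T) (N * θ)
  have h2 : |lf T R N F r θ| ≤ C := h1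
  have h3 : 0 ≤ D0 := (abs_nonneg _).trans hD
  have h4 : 0 ≤ P := (abs_nonneg _).trans hp
  have h5 : |p r| * |lf T R N F r θ| ≤ P * C := mul_le_mul hp h2 (abs_nonneg _) h4
  exact mul_le_mul hD h5 (by positivity) h3

/-- angular factors -/
def Dt {δ : ℝ} (d : AvgKer δ) (s : ℝ) : ℝ → ℝ → ℝ := fun _ θ => d.D (s - θ)
def Dt1 {δ : ℝ} (d : AvgKer δ) (s : ℝ) : ℝ → ℝ → ℝ := fun _ θ => - deriv d.D (s - θ)
def Dt2 {δ : ℝ} (d : AvgKer δ) (s : ℝ) : ℝ → ℝ → ℝ := fun _ θ => deriv (deriv d.D) (s - θ)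

section Dt

variable {δ : ℝ} (d : AvgKer δ) (s : ℝ)

lemma Dt_S2 : S2 (Dt d s) := by
  constructor
  · exact d.smooth.comp (contDiff_const.sub contDiff_snd)
  · intro r θ
    exact (d.tr_cls s).2 θ

lemma dθ_Dt : dθ (Dt d s) = Dt1 d s := by
  ext r θ
  exact deriv_comp_const_sub d.D s θ

lemma dθ_Dt1 : dθ (Dt1 d s) = Dt2 d s := by
  ext r θ
  simp only [dθ, Dt2]
  have e : Dt1 d s r = - (fun θ => deriv d.D (s - θ)) := rfl
  rw [e, deriv.neg, deriv_comp_const_sub (deriv d.D) s θ]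
  ring

lemma Dt1_S2 : S2 (Dt1 d s) := by
  rw [← dθ_Dt]; exact (Dt_S2 d s).dθ

lemma Dt2_S2 : S2 (Dt2 d s) := by
  rw [← dθ_Dt1]; exact (Dt1_S2 d s).dθ

lemma dr_Dt : dr (Dt d s) = fun _ _ => 0 := by
  ext r θ
  exact deriv_const r (d.D (s - θ))

lemma dr_Dt1 : dr (Dt1 d s) = fun _ _ => 0 := by
  ext r θ
  exact deriv_const r (- deriv d.D (s - θ))

lemma dr_Dt2 : dr (Dt2 d s) = fun _ _ => 0 := by
  ext r θ
  exact deriv_const r (deriv (deriv d.D) (s - θ))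

/-- `Dt2 + Dt / 4` -/
def Dt3 {δ : ℝ} (d : AvgKer δ) (s : ℝ) : ℝ → ℝ → ℝ := fun r θ => Dt2 d s r θ + (1 / 4) * Dt d s r θ

lemma Dt3_S2 : S2 (Dt3 d s) := (Dt2_S2 d s).add ((Dt_S2 d s).const_mul _)

lemma dr_Dt3 : dr (Dt3 d s) = fun _ _ => 0 := by
  ext r θ
  exact deriv_const r (deriv (deriv d.D) (s - θ) + (1 / 4) * d.D (s - θ))

end Dt

lemma periodic_deriv {f : ℝ → ℝ} {c : ℝ} (hf : Function.Periodic f c) :
    Function.Periodic (deriv f) c := by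
  intro θ
  have h2 : (fun s => f (s + c)) = f := by
    ext s; exact hf s
  have h3 := deriv_comp_add_const f c θ
  rw [h2] at h3
  exact h3.symm

lemma periodic_bound {f : ℝ → ℝ} (hf : Continuous f) (hp : Function.Periodic f (2 * Real.pi)) :
    ∃ B : ℝ, 0 ≤ B ∧ ∀ α, |f α| ≤ B := by
  obtain ⟨B, hB⟩ := isCompact_Icc.exists_bound_of_continuousOn (s := Icc (0:ℝ) (2 * Real.pi))
    hf.continuousOn
  refine ⟨B, (norm_nonneg _).trans (hB 0 ⟨le_rfl, by positivity⟩), ?_⟩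
  intro α
  obtain ⟨y, hy, hy2⟩ := hp.exists_mem_Ico₀ (by positivity) α
  rw [hy2]
  exact hB y (Ico_subset_Icc_self hy)

/-- bounds for the angular kernel -/
lemma exists_Dbd {δ : ℝ} (d : AvgKer δ) : ∃ D0 DD : ℝ, 0 ≤ D0 ∧ 0 ≤ DD ∧ ∀ s r θ,
    |Dt d s r θ| ≤ D0 ∧ |Dt d s r θ| ≤ DD ∧ |2 * Dt1 d s r θ| ≤ DD ∧ |Dt3 d s r θ| ≤ DD := by
  obtain ⟨B0, h00, h0⟩ := periodic_bound d.smooth.continuous d.periodic
  have hd1 : ContDiff ℝ ∞ (deriv d.D) := d.smooth.deriv' 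
  have hd2 : ContDiff ℝ ∞ (deriv (deriv d.D)) := hd1.deriv'
  obtain ⟨B1, h10, h1⟩ := periodic_bound hd1.continuous (periodic_deriv d.periodic)
  obtain ⟨B2, h20, h2⟩ := periodic_bound hd2.continuous (periodic_deriv (periodic_deriv d.periodic))
  refine ⟨B0, B0 + 2 * B1 + B2, h00, by positivity, ?_⟩
  intro s r θ
  refine ⟨h0 _, (h0 _).trans (by linarith), ?_, ?_⟩
  · simp only [Dt1]
    rw [abs_mul, abs_neg, abs_two]
    have := h1 (s - θ)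
    linarith
  · simp only [Dt3, Dt2, Dt]
    refine (abs_add_le _ _).trans ?_
    rw [abs_mul, abs_of_pos (by norm_num : (0:ℝ) < 1 / 4)]
    have := h0 (s - θ)
    have := h2 (s - θ)
    linarith

/-- bounds for the profile -/
structure ProfBd (τf C : ℝ) : Prop where
  nn : 0 ≤ C
  A : ∀ x y, |Ap τf x y| ≤ C
  Ax : ∀ x y, |dr (Ap τf) x y| ≤ C
  Axx : ∀ x y, |dr (dr (Ap τf)) x y| ≤ C
  Ay : ∀ x y, |dθ (Ap τf) x y| ≤ C
  B : ∀ x y, |Bp τf x y| ≤ C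
  Bx : ∀ x y, |dr (Bp τf) x y| ≤ C
  Bxx : ∀ x y, |dr (dr (Bp τf)) x y| ≤ C
  Bxxx : ∀ x y, |dr (dr (dr (Bp τf))) x y| ≤ C
  By : ∀ x y, |dθ (Bp τf) x y| ≤ C
  Byx : ∀ x y, |dr (dθ (Bp τf)) x y| ≤ C

lemma exists_profBd (τf : ℝ) : ∃ C : ℝ, ProfBd τf C := by
  have key : ∀ f : ℝ → ℝ → ℝ, S2 f → (∀ x y, x ≤ 0 → f x y = f 0 y) → (∀ x y, 1 ≤ x → f x y = f 1 y) →
      (∀ x y, x ≤ 0 → dr f x y = dr f 0 y) ∧ (∀ x y, 1 ≤ x → dr f x y = dr f 1 y) := by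
    intro f hf h0 h1
    obtain ⟨a, b⟩ := S2.dr_const hf h0 h1
    exact ⟨fun x y hx => by rw [a x y hx, a 0 y le_rfl], fun x y hx => by rw [b x y hx, b 1 y le_rfl]⟩
  have hA := Ap_S2 τf
  have hA0 : ∀ x y, x ≤ 0 → Ap τf x y = Ap τf 0 y := fun x y hx => by
    rw [Ap_of_nonpos hx, Ap_of_nonpos le_rfl]
  have hA1 : ∀ x y, 1 ≤ x → Ap τf x y = Ap τf 1 y := fun x y hx => Ap_of_one_le hx
  have hB := Bp_S2 τf
  have hB0 : ∀ x y, x ≤ 0 → Bp τf x y = Bp τf 0 y := fun x y hx => by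
    rw [Bp_of_nonpos hx, Bp_of_nonpos le_rfl]
  have hB1 : ∀ x y, 1 ≤ x → Bp τf x y = Bp τf 1 y := fun x y hx => by
    rw [Bp_of_one_le hx, Bp_of_one_le le_rfl]
  obtain ⟨hAx0, hAx1⟩ := key _ hA hA0 hA1
  obtain ⟨hAxx0, hAxx1⟩ := key _ hA.dr hAx0 hAx1
  obtain ⟨hAy0, hAy1⟩ := S2.dθ_const hA hA0 hA1
  obtain ⟨hBx0, hBx1⟩ := key _ hB hB0 hB1
  obtain ⟨hBxx0, hBxx1⟩ := key _ hB.dr hBx0 hBx1
  obtain ⟨hBxxx0, hBxxx1⟩ := key _ hB.dr.dr hBxx0 hBxx1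
  obtain ⟨hBy0, hBy1⟩ := S2.dθ_const hB hB0 hB1
  obtain ⟨hByx0, hByx1⟩ := key _ hB.dθ hBy0 hBy1
  obtain ⟨c1, n1, b1⟩ := S2.exists_bound hA hA0 hA1
  obtain ⟨c2, n2, b2⟩ := S2.exists_bound hA.dr hAx0 hAx1
  obtain ⟨c3, n3, b3⟩ := S2.exists_bound hA.dr.dr hAxx0 hAxx1
  obtain ⟨c4, n4, b4⟩ := S2.exists_bound hA.dθ hAy0 hAy1
  obtain ⟨c5, n5, b5⟩ := S2.exists_bound hB hB0 hB1
  obtain ⟨c6, n6, b6⟩ := S2.exists_bound hB.dr hBx0 hBx1
  obtain ⟨c7, n7, b7⟩ := S2.exists_bound hB.dr.dr hBxx0 hBxx1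
  obtain ⟨c8, n8, b8⟩ := S2.exists_bound hB.dr.dr.dr hBxxx0 hBxxx1
  obtain ⟨c9, n9, b9⟩ := S2.exists_bound hB.dθ hBy0 hBy1
  obtain ⟨c10, n10, b10⟩ := S2.exists_bound hB.dθ.dr hByx0 hByx1
  refine ⟨c1 + c2 + c3 + c4 + c5 + c6 + c7 + c8 + c9 + c10, ?_⟩
  exact
    { nn := by positivity
      A := fun x y => (b1 x y).trans (by linarith)
      Ax := fun x y => (b2 x y).trans (by linarith)
      Axx := fun x y => (b3 x y).trans (by linarith)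
      Ay := fun x y => (b4 x y).trans (by linarith)
      B := fun x y => (b5 x y).trans (by linarith)
      Bx := fun x y => (b6 x y).trans (by linarith)
      Bxx := fun x y => (b7 x y).trans (by linarith)
      Bxxx := fun x y => (b8 x y).trans (by linarith)
      By := fun x y => (b9 x y).trans (by linarith)
      Byx := fun x y => (b10 x y).trans (by linarith) }

end MP3a4792
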