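import Pool.Agent.Lib.MP_3a4792_mp.ConcBd

open MeasureTheory Set InnerProductSpace Filter Topology
open scoped ContDiff Laplacian InnerProductSpace

noncomputable section

set_option linter.unusedSectionVars false

namespace MP3a4792

variable {V : E2 → ℝ} {δ : ℝ} (d : AvgKer δ) (s h τf R w : ℝ) (N : ℕ)

lemma nS_pt {b : ℝ → ℝ} (hb : Continuous b) {B : ℝ} (hB : 0 ≤ B) (h : ∀ θ, |b θ| ≤ B) :
    nS b ≤ Real.sqrt (2 * Real.pi) * B := nS_le hB hb fun θ _ => h θ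

section bounds

variable {q DD C r : ℝ} (hq : 0 < q) (hq1 : q ≤ 1) (hN : 1 ≤ N) (hNq : 1 ≤ (N : ℝ) * q ^ 4)
  (hr0 : (N / q : ℝ) ≤ r) (hr : r ≤ 2 * (N / q))
  (hDD : ∀ r θ, |Dt d s r θ| ≤ DD) (hD1 : ∀ r θ, |D1x d s r θ| ≤ DD)
  (hD3 : ∀ r θ, |Dt3 d s r θ| ≤ DD) (hC : ProfBd τf C)

include hq hq1 hN hNq hr0 hr hDD hD1 hD3 hC

lemma bd_b2 (θ : ℝ) : |cb2 d s τf (q ^ 3)⁻¹ (N / q) N r θ| ≤ 2 * (DD * C) * q := by
  have hNq0 : (0:ℝ) ≤ N / q := by positivity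
  have h1 := cp_bd N hq hN (hNq0.trans hr0) hr
  have := GG_abs_le (T := (q ^ 3)⁻¹) (R := N / q) (N := N) (p := cp (q ^ 3)⁻¹ N) (r := r) (θ := θ)
    (hDD r θ) h1 hC.B
  refine this.trans (le_of_eq ?_)
  ring

lemma bd_db1 (θ : ℝ) : |dr (cb1 d s τf (q ^ 3)⁻¹ (N / q) N) r θ| ≤ (DD * C) * q ^ 3 := by
  rw [dr_cb1, inv_inv, abs_mul, abs_of_nonneg (by positivity : 0 ≤ q ^ 3)]
  have := GG_abs_le (T := (q ^ 3)⁻¹) (R := N / q) (N := N) (p := fun _ => 1) (r := r) (θ := θ)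
    (P := 1) (hDD r θ) (by simp) hC.Ax
  calc q ^ 3 * _ ≤ q ^ 3 * (DD * (1 * C)) := by gcongr
    _ = _ := by ring

lemma bd_ddb1 (θ : ℝ) : |dr (dr (cb1 d s τf (q ^ 3)⁻¹ (N / q) N)) r θ| ≤ (DD * C) * q ^ 4 := by
  have hDD0 : 0 ≤ DD := (abs_nonneg _).trans (hDD 0 0)
  have hC0 := hC.nn
  rw [ddr_cb1, inv_inv, abs_mul, abs_mul, abs_of_nonneg (by positivity : 0 ≤ q ^ 3)]
  have := GG_abs_le (T := (q ^ 3)⁻¹) (R := N / q) (N := N) (p := fun _ => 1) (r := r) (θ := θ)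
    (P := 1) (hDD r θ) (by simp) hC.Axx
  have h6 := q_pow_le hq hq1 (show 4 ≤ 6 by norm_num)
  calc q ^ 3 * (q ^ 3 * _) ≤ q ^ 3 * (q ^ 3 * (DD * (1 * C))) := by gcongr
    _ = (DD * C) * q ^ 6 := by ring
    _ ≤ (DD * C) * q ^ 4 := by gcongr

lemma bd_db2 (θ : ℝ) : |dr (cb2 d s τf (q ^ 3)⁻¹ (N / q) N) r θ| ≤ 4 * (DD * C) * q ^ 4 := by
  have hDD0 : 0 ≤ DD := (abs_nonneg _).trans (hDD 0 0)
  have hC0 := hC.nn
  have hNq0 : (0:ℝ) ≤ N / q := by positivity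
  rw [dr_cb2, inv_inv]
  refine (abs_add_le _ _).trans ?_
  rw [abs_mul (q ^ 3), abs_of_nonneg (by positivity : 0 ≤ q ^ 3)]
  have a1 := GG_abs_le (T := (q ^ 3)⁻¹) (R := N / q) (N := N) (p := cp1 (q ^ 3)⁻¹ N) (r := r) (θ := θ)
    (hDD r θ) (cp1_bd N hq hN hNq (hNq0.trans hr0) hr) hC.B
  have a2 := GG_abs_le (T := (q ^ 3)⁻¹) (R := N / q) (N := N) (p := cp (q ^ 3)⁻¹ N) (r := r) (θ := θ)
    (hDD r θ) (cp_bd N hq hN (hNq0.trans hr0) hr) hC.Bx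
  have h6 := q_pow_le hq hq1 (show 4 ≤ 6 by norm_num)
  calc _ ≤ DD * (2 * q ^ 6 * C) + q ^ 3 * (DD * (2 * q * C)) := by gcongr
    _ = 2 * (DD * C) * q ^ 6 + 2 * (DD * C) * q ^ 4 := by ring
    _ ≤ 2 * (DD * C) * q ^ 4 + 2 * (DD * C) * q ^ 4 := by gcongr
    _ = _ := by ring

lemma bd_ddb2 (θ : ℝ) : |dr (dr (cb2 d s τf (q ^ 3)⁻¹ (N / q) N)) r θ| ≤ 7 * (DD * C) * q ^ 4 := by
  have hDD0 : 0 ≤ DD := (abs_nonneg _).trans (hDD 0 0)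
  have hC0 := hC.nn
  have hNq0 : (0:ℝ) ≤ N / q := by positivity
  have hq3 : 0 ≤ q ^ 3 := by positivity
  rw [ddr_cb2, inv_inv]
  have a0 := GG_abs_le (T := (q ^ 3)⁻¹) (R := N / q) (N := N) (p := cp2 (q ^ 3)⁻¹ N) (r := r) (θ := θ)
    (hDD r θ) (cp2_bd N hq hq1 hN hNq r) hC.B
  have a1 := GG_abs_le (T := (q ^ 3)⁻¹) (R := N / q) (N := N) (p := cp1 (q ^ 3)⁻¹ N) (r := r) (θ := θ)
    (hDD r θ) (cp1_bd N hq hN hNq (hNq0.trans hr0) hr) hC.Bx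
  have a2 := GG_abs_le (T := (q ^ 3)⁻¹) (R := N / q) (N := N) (p := cp (q ^ 3)⁻¹ N) (r := r) (θ := θ)
    (hDD r θ) (cp_bd N hq hN (hNq0.trans hr0) hr) hC.Bxx
  have h7 := q_pow_le hq hq1 (show 4 ≤ 7 by norm_num)
  have h9 := q_pow_le hq hq1 (show 4 ≤ 9 by norm_num)
  set x0 := GG (q ^ 3)⁻¹ (N / q) N (Dt d s) (cp2 (q ^ 3)⁻¹ N) (Bp τf) r θ
  set x1 := GG (q ^ 3)⁻¹ (N / q) N (Dt d s) (cp1 (q ^ 3)⁻¹ N) (dr (Bp τf)) r θ
  set x2 := GG (q ^ 3)⁻¹ (N / q) N (Dt d s) (cp (q ^ 3)⁻¹ N) (dr (dr (Bp τf))) r θ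
  calc |(x0 + q ^ 3 * x1) + q ^ 3 * (x1 + q ^ 3 * x2)|
      = |x0 + 2 * (q ^ 3 * x1) + q ^ 3 * (q ^ 3 * x2)| := by congr 1; ring
    _ ≤ |x0| + 2 * (q ^ 3 * |x1|) + q ^ 3 * (q ^ 3 * |x2|) := by
        refine (abs_add_le _ _).trans ?_
        gcongr
        · refine (abs_add_le _ _).trans ?_
          gcongr
          rw [abs_mul, abs_mul, abs_two, abs_of_nonneg hq3]
        · rw [abs_mul, abs_mul, abs_of_nonneg hq3]
    _ ≤ DD * (q ^ 4 * C) + 2 * (q ^ 3 * (DD * (2 * q ^ 6 * C))) + q ^ 3 * (q ^ 3 * (DD * (2 * q * C))) := by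
        gcongr
    _ = (DD * C) * q ^ 4 + 4 * (DD * C) * q ^ 9 + 2 * (DD * C) * q ^ 7 := by ring
    _ ≤ (DD * C) * q ^ 4 + 4 * (DD * C) * q ^ 4 + 2 * (DD * C) * q ^ 4 := by gcongr
    _ = _ := by ring

lemma bd_dddb2 (θ : ℝ) :
    |dr (dr (dr (cb2 d s τf (q ^ 3)⁻¹ (N / q) N))) r θ| ≤ 11 * (DD * C) * q ^ 4 := by
  have hDD0 : 0 ≤ DD := (abs_nonneg _).trans (hDD 0 0)
  have hC0 := hC.nn
  have hNq0 : (0:ℝ) ≤ N / q := by positivity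
  have hq3 : 0 ≤ q ^ 3 := by positivity
  rw [dddr_cb2, inv_inv]
  have a0 := GG_abs_le (T := (q ^ 3)⁻¹) (R := N / q) (N := N) (p := cp2 (q ^ 3)⁻¹ N) (r := r) (θ := θ)
    (hDD r θ) (cp2_bd N hq hq1 hN hNq r) hC.Bx
  have a1 := GG_abs_le (T := (q ^ 3)⁻¹) (R := N / q) (N := N) (p := cp1 (q ^ 3)⁻¹ N) (r := r) (θ := θ)
    (hDD r θ) (cp1_bd N hq hN hNq (hNq0.trans hr0) hr) hC.Bxx
  have a2 := GG_abs_le (T := (q ^ 3)⁻¹) (R := N / q) (N := N) (p := cp (q ^ 3)⁻¹ N) (r := r) (θ := θ)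
    (hDD r θ) (cp_bd N hq hN (hNq0.trans hr0) hr) hC.Bxxx
  have h7 := q_pow_le hq hq1 (show 4 ≤ 7 by norm_num)
  have h12 := q_pow_le hq hq1 (show 4 ≤ 12 by norm_num)
  have h10 := q_pow_le hq hq1 (show 4 ≤ 10 by norm_num)
  set x0 := GG (q ^ 3)⁻¹ (N / q) N (Dt d s) (cp2 (q ^ 3)⁻¹ N) (dr (Bp τf)) r θ
  set x1 := GG (q ^ 3)⁻¹ (N / q) N (Dt d s) (cp1 (q ^ 3)⁻¹ N) (dr (dr (Bp τf))) r θ
  set x2 := GG (q ^ 3)⁻¹ (N / q) N (Dt d s) (cp (q ^ 3)⁻¹ N) (dr (dr (dr (Bp τf)))) r θ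
  calc |3 * (q ^ 3 * x0) + 3 * (q ^ 3 * (q ^ 3 * x1)) + q ^ 3 * (q ^ 3 * (q ^ 3 * x2))|
      ≤ 3 * (q ^ 3 * |x0|) + 3 * (q ^ 3 * (q ^ 3 * |x1|)) + q ^ 3 * (q ^ 3 * (q ^ 3 * |x2|)) := by
        have h3 : |(3:ℝ)| = 3 := by norm_num
        refine (abs_add_le _ _).trans ?_
        gcongr
        · refine (abs_add_le _ _).trans ?_
          gcongr
          · rw [abs_mul, abs_mul, h3, abs_of_nonneg hq3]
          · rw [abs_mul, abs_mul, abs_mul, h3, abs_of_nonneg hq3]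
        · rw [abs_mul, abs_mul, abs_mul, abs_of_nonneg hq3]
    _ ≤ 3 * (q ^ 3 * (DD * (q ^ 4 * C))) + 3 * (q ^ 3 * (q ^ 3 * (DD * (2 * q ^ 6 * C))))
        + q ^ 3 * (q ^ 3 * (q ^ 3 * (DD * (2 * q * C)))) := by
        gcongr
    _ = 3 * (DD * C) * q ^ 7 + 6 * (DD * C) * q ^ 12 + 2 * (DD * C) * q ^ 10 := by ring
    _ ≤ 3 * (DD * C) * q ^ 4 + 6 * (DD * C) * q ^ 4 + 2 * (DD * C) * q ^ 4 := by gcongr
    _ = _ := by ring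

lemma Nle : (N : ℝ) ≤ q ^ 4 * r ^ 2 := by
  have hNq0 : (0:ℝ) ≤ N / q := by positivity
  have hN0 : (0:ℝ) < N := by exact_mod_cast hN
  have h1 : (N / q) ^ 2 ≤ r ^ 2 := by gcongr
  have h2 : q ^ 4 ≤ q ^ 2 := q_pow_le hq hq1 (by norm_num)
  calc (N : ℝ) ≤ N * (N * q ^ 4) := by nlinarith
    _ ≤ N * (N * q ^ 2) := by gcongr
    _ = q ^ 4 * (N / q) ^ 2 := by field_simp
    _ ≤ q ^ 4 * r ^ 2 := by gcongr

lemma bd_e1 (θ : ℝ) : |ce1 d s τf (q ^ 3)⁻¹ (N / q) N r θ| ≤ 2 * (DD * C) * q ^ 4 * r ^ 2 := by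
  have hDD0 : 0 ≤ DD := (abs_nonneg _).trans (hDD 0 0)
  have hC0 := hC.nn
  have hN1 : (1:ℝ) ≤ N := by exact_mod_cast hN
  have a1 := GG_abs_le (T := (q ^ 3)⁻¹) (R := N / q) (N := N) (p := fun _ => 1) (r := r) (θ := θ)
    (P := 1) (hD1 r θ) (by simp) hC.Ay
  have a2 := GG_abs_le (T := (q ^ 3)⁻¹) (R := N / q) (N := N) (p := fun _ => 1) (r := r) (θ := θ)
    (P := 1) (hD3 r θ) (by simp) hC.A
  have hNle := Nle d s τf N hq hq1 hN hNq hr0 hr hDD hD1 hD3 hC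
  unfold ce1
  refine (abs_add_le _ _).trans ?_
  rw [abs_mul, abs_mul, abs_neg, abs_neg, abs_one, one_mul, Nat.abs_cast]
  calc _ ≤ (N : ℝ) * (DD * (1 * C)) + DD * (1 * C) := by gcongr
    _ ≤ (N : ℝ) * (DD * (1 * C)) + N * (DD * (1 * C)) := by
        have := le_mul_of_one_le_left (b := DD * (1 * C)) (by positivity) hN1
        linarith
    _ = 2 * (DD * C) * N := by ring
    _ ≤ 2 * (DD * C) * (q ^ 4 * r ^ 2) := by gcongr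
    _ = _ := by ring

lemma bd_e2 (θ : ℝ) : |ce2 d s τf (q ^ 3)⁻¹ (N / q) N r θ| ≤ 4 * (DD * C) * q ^ 4 * r ^ 2 := by
  have hDD0 : 0 ≤ DD := (abs_nonneg _).trans (hDD 0 0)
  have hC0 := hC.nn
  have hNq0 : (0:ℝ) ≤ N / q := by positivity
  have hN1 : (1:ℝ) ≤ N := by exact_mod_cast hN
  have hcp : |cp (q ^ 3)⁻¹ N r| ≤ 2 :=
    (cp_bd N hq hN (hNq0.trans hr0) hr).trans (by linarith)
  have a1 := GG_abs_le (T := (q ^ 3)⁻¹) (R := N / q) (N := N) (p := cp (q ^ 3)⁻¹ N) (r := r) (θ := θ)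
    (hD1 r θ) hcp hC.By
  have a2 := GG_abs_le (T := (q ^ 3)⁻¹) (R := N / q) (N := N) (p := cp (q ^ 3)⁻¹ N) (r := r) (θ := θ)
    (hD3 r θ) hcp hC.B
  have hNle := Nle d s τf N hq hq1 hN hNq hr0 hr hDD hD1 hD3 hC
  unfold ce2
  refine (abs_add_le _ _).trans ?_
  rw [abs_mul, abs_mul, abs_neg, abs_neg, abs_one, one_mul, Nat.abs_cast]
  calc _ ≤ (N : ℝ) * (DD * (2 * C)) + DD * (2 * C) := by gcongr
    _ ≤ (N : ℝ) * (DD * (2 * C)) + N * (DD * (2 * C)) := by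
        have := le_mul_of_one_le_left (b := DD * (2 * C)) (by positivity) hN1
        linarith
    _ = 4 * (DD * C) * N := by ring
    _ ≤ 4 * (DD * C) * (q ^ 4 * r ^ 2) := by gcongr
    _ = _ := by ring

lemma bd_de2 (θ : ℝ) :
    |dr (ce2 d s τf (q ^ 3)⁻¹ (N / q) N) r θ| ≤ 8 * (DD * C) * q ^ 4 * r ^ 2 := by
  have hDD0 : 0 ≤ DD := (abs_nonneg _).trans (hDD 0 0)
  have hC0 := hC.nn
  have hNq0 : (0:ℝ) ≤ N / q := by positivity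
  have hN1 : (1:ℝ) ≤ N := by exact_mod_cast hN
  have hq3 : 0 ≤ q ^ 3 := by positivity
  have hq31 : q ^ 3 ≤ 1 := pow_le_one₀ hq.le hq1
  have hcp : |cp (q ^ 3)⁻¹ N r| ≤ 2 :=
    (cp_bd N hq hN (hNq0.trans hr0) hr).trans (by linarith)
  have hcp1 : |cp1 (q ^ 3)⁻¹ N r| ≤ 2 := by
    refine (cp1_bd N hq hN hNq (hNq0.trans hr0) hr).trans ?_
    have : q ^ 6 ≤ 1 := pow_le_one₀ hq.le hq1
    linarith
  have a1 := GG_abs_le (T := (q ^ 3)⁻¹) (R := N / q) (N := N) (p := cp1 (q ^ 3)⁻¹ N) (r := r) (θ := θ)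
    (hD1 r θ) hcp1 hC.By
  have a2 := GG_abs_le (T := (q ^ 3)⁻¹) (R := N / q) (N := N) (p := cp (q ^ 3)⁻¹ N) (r := r) (θ := θ)
    (hD1 r θ) hcp hC.Byx
  have a3 := GG_abs_le (T := (q ^ 3)⁻¹) (R := N / q) (N := N) (p := cp1 (q ^ 3)⁻¹ N) (r := r) (θ := θ)
    (hD3 r θ) hcp1 hC.B
  have a4 := GG_abs_le (T := (q ^ 3)⁻¹) (R := N / q) (N := N) (p := cp (q ^ 3)⁻¹ N) (r := r) (θ := θ)
    (hD3 r θ) hcp hC.Bx
  have hNle := Nle d s τf N hq hq1 hN hNq hr0 hr hDD hD1 hD3 hC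
  rw [dr_ce2, inv_inv]
  set x1 := GG (q ^ 3)⁻¹ (N / q) N (D1x d s) (cp1 (q ^ 3)⁻¹ N) (dθ (Bp τf)) r θ
  set x2 := GG (q ^ 3)⁻¹ (N / q) N (D1x d s) (cp (q ^ 3)⁻¹ N) (dr (dθ (Bp τf))) r θ
  set x3 := GG (q ^ 3)⁻¹ (N / q) N (Dt3 d s) (cp1 (q ^ 3)⁻¹ N) (Bp τf) r θ
  set x4 := GG (q ^ 3)⁻¹ (N / q) N (Dt3 d s) (cp (q ^ 3)⁻¹ N) (dr (Bp τf)) r θ
  have y1 : |x1 + q ^ 3 * x2| ≤ 4 * (DD * C) := by
    refine (abs_add_le _ _).trans ?_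
    rw [abs_mul, abs_of_nonneg hq3]
    calc _ ≤ DD * (2 * C) + 1 * (DD * (2 * C)) := by gcongr
      _ = _ := by ring
  have y2 : |x3 + q ^ 3 * x4| ≤ 4 * (DD * C) := by
    refine (abs_add_le _ _).trans ?_
    rw [abs_mul, abs_of_nonneg hq3]
    calc _ ≤ DD * (2 * C) + 1 * (DD * (2 * C)) := by gcongr
      _ = _ := by ring
  calc |(-(N:ℝ)) * (x1 + q ^ 3 * x2) + (-1) * (x3 + q ^ 3 * x4)|
      ≤ (N:ℝ) * |x1 + q ^ 3 * x2| + 1 * |x3 + q ^ 3 * x4| := by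
        refine (abs_add_le _ _).trans ?_
        rw [abs_mul, abs_mul, abs_neg, abs_neg, abs_one, Nat.abs_cast]
    _ ≤ (N:ℝ) * (4 * (DD * C)) + N * (4 * (DD * C)) := by gcongr
    _ = 8 * (DD * C) * N := by ring
    _ ≤ 8 * (DD * C) * (q ^ 4 * r ^ 2) := by gcongr
    _ = _ := by ring

end bounds

section final

variable {K : Type*} [NormedAddCommGroup K] [InnerProductSpace ℂ K] [CompleteSpace K] {Λ : ℝ}

lemma U0_zero (κ : E2 → K) (r : ℝ) {b : ℝ → ℝ} (hb : b = fun _ => 0) : U0 κ r b = 0 := by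
  rw [hb]; simp [U0]

lemma U1_zero (k : Ker V Λ K) {r : ℝ} (hr : 0 < r) {b : ℝ → ℝ} (hb : b = fun _ => 0) :
    k.U1 r b = 0 := by
  have hz : Cls (fun _ : ℝ => (0:ℝ)) := ⟨contDiff_const, fun _ => rfl⟩
  have := k.U1smul r 0 (fun _ => 0) hr hz
  rw [hb]
  simpa using this

lemma lf_at {T R : ℝ} {N : ℕ} {F : ℝ → ℝ → ℝ} (θ : ℝ) (hF : ∀ y, F 0 y = 0) :
    lf T R N F R θ = 0 := by
  unfold lf
  rw [sub_self, zero_div, hF]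

/-- flux bound for the concrete shell in terms of the potential -/
theorem conc_flux_aux (hΛ : 0 < Λ) {D0 DD C q l w τf : ℝ} {N : ℕ} (hD0 : 0 ≤ D0)
    (hD : ∀ s r θ, |Dt d s r θ| ≤ D0) (hDD : ∀ s r θ, |Dt d s r θ| ≤ DD)
    (hD1 : ∀ s r θ, |D1x d s r θ| ≤ DD)
    (hD3 : ∀ s r θ, |Dt3 d s r θ| ≤ DD) (hC : ProfBd τf C) (hw : 0 < w) (hτ : 0 < τf)
    (hq : 0 < q) (hq1 : q ≤ 1) (hC2 : 20 * (Real.sqrt (2 * Real.pi) * (DD * C)) * q ≤ 1) (hl : 0 < l)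
    (hN : 1 ≤ N) (hNq : 1 ≤ (N : ℝ) * q ^ 4) (hTl : (q ^ 3)⁻¹ + 1 + l ≤ N / q)
    (hV : Continuous V)
    (hVr : ∀ r ∈ Icc (N / q : ℝ) (N / q + (q ^ 3)⁻¹ + 1 + l), ∀ θ, V (pol r θ) =
      (N : ℝ) ^ 2 / r ^ 2 * lf (q ^ 3)⁻¹ (N / q) N (vp τf) r θ
        + cq (Λ + 1) (q ^ 3)⁻¹ (N / q) r * chi w (Real.cos (N * θ)))
    (k : Ker V Λ K) (s : ℝ) :
    (⟪U0 k.κ (N / q) (d.tr2 s), k.P (k.U1 (N / q) (d.tr2 s))⟫_ℂ).im ≤
      k.C0 ^ 2 * Phi Λ (Real.sqrt (2 * Real.pi) * D0)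
        (20 * (Real.sqrt (2 * Real.pi) * (DD * C)) * q ^ 4)
        (Real.sqrt (2 * Real.pi) * D0 * (Λ + 1) / Real.sqrt (Real.sinh τf * w)) (q ^ 3)⁻¹ l := by
  have hN0 : (0:ℝ) < N := by exact_mod_cast hN
  have hT : 0 < (q ^ 3)⁻¹ := by positivity
  have hR : (0:ℝ) < N / q := by positivity
  have hC0 := hC.nn
  have hDD0 : 0 ≤ DD := (abs_nonneg _).trans (hDD 0 0 0)
  have hq31 : q ^ 3 ≤ q := by
    have := q_pow_le hq hq1 (show 1 ≤ 3 by norm_num); simpa using this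
  have hq41 : q ^ 4 ≤ q := by
    have := q_pow_le hq hq1 (show 1 ≤ 4 by norm_num); simpa using this
  have h1R : (1:ℝ) ≤ N / q := by
    rw [le_div_iff₀ hq]
    have : (1:ℝ) ≤ N := by exact_mod_cast hN
    linarith
  set σp : ℝ := Real.sqrt (2 * Real.pi) * (DD * C) with hσp
  have hσp0 : 0 ≤ σp := by positivity
  set sh := cShell d s (Λ + 1) τf (q ^ 3)⁻¹ (N / q) w N (l := l) hT hR hN hV hVr with hsh
  have hbdgen : ∀ r ∈ Icc (N / q : ℝ) (N / q + (q ^ 3)⁻¹ + 1 + l), ∀ t : ℝ,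
      nS (sh.e0 r) ≤ t → sh.Bd r (Real.sqrt (2 * Real.pi) * D0) (20 * σp * q ^ 4) t := by
    intro r hr t ht
    have hr2 : r ≤ 2 * (N / q) := by linarith [hr.2]
    have hr0 : 0 < r := hR.trans_le hr.1
    have hs : 0 ≤ Real.sqrt (2 * Real.pi) := Real.sqrt_nonneg _
    have cc : ∀ b : ℝ → ℝ → ℝ, S2 b → Continuous (b r) := fun b hb => (hb.cls r).continuous
    refine ⟨nS_cb1_le d s τf _ _ N hD0 (hD s) hN r, ?_, ?_, ?_, ?_, ?_, ?_, ?_, ?_, ?_, ht⟩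
    · refine (nS_pt (cc _ sh.hb2) (by positivity)
        (bd_b2 d s τf N hq hq1 hN hNq hr.1 hr2 (hDD s) (hD1 s) (hD3 s) hC)).trans ?_
      calc Real.sqrt (2 * Real.pi) * (2 * (DD * C) * q) = 2 * (σp * q) := by rw [hσp]; ring
        _ ≤ 20 * σp * q := by nlinarith
        _ ≤ 1 := hC2
    · refine (nS_pt (cc _ sh.hb1.dr) (by positivity)
        (bd_db1 d s τf N hq hq1 hN hNq hr.1 hr2 (hDD s) (hD1 s) (hD3 s) hC)).trans ?_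
      calc Real.sqrt (2 * Real.pi) * ((DD * C) * q ^ 3) = σp * q ^ 3 := by rw [hσp]; ring
        _ ≤ σp * q := by gcongr
        _ ≤ 20 * σp * q := by nlinarith
        _ ≤ 1 := hC2
    · refine (nS_pt (cc _ sh.hb2.dr) (by positivity)
        (bd_db2 d s τf N hq hq1 hN hNq hr.1 hr2 (hDD s) (hD1 s) (hD3 s) hC)).trans ?_
      calc Real.sqrt (2 * Real.pi) * (4 * (DD * C) * q ^ 4) = 4 * (σp * q ^ 4) := by rw [hσp]; ring
        _ ≤ 20 * σp * q ^ 4 := by nlinarith [mul_nonneg hσp0 (by positivity : 0 ≤ q ^ 4)]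
    · refine (nS_pt (cc _ sh.hb2.dr.dr) (by positivity)
        (bd_ddb2 d s τf N hq hq1 hN hNq hr.1 hr2 (hDD s) (hD1 s) (hD3 s) hC)).trans ?_
      calc Real.sqrt (2 * Real.pi) * (7 * (DD * C) * q ^ 4) = 7 * (σp * q ^ 4) := by rw [hσp]; ring
        _ ≤ 20 * σp * q ^ 4 := by nlinarith [mul_nonneg hσp0 (by positivity : 0 ≤ q ^ 4)]
    · refine (nS_pt (cc _ sh.hb2.dr.dr.dr) (by positivity)
        (bd_dddb2 d s τf N hq hq1 hN hNq hr.1 hr2 (hDD s) (hD1 s) (hD3 s) hC)).trans ?_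
      calc Real.sqrt (2 * Real.pi) * (11 * (DD * C) * q ^ 4) = 11 * (σp * q ^ 4) := by rw [hσp]; ring
        _ ≤ 20 * σp * q ^ 4 := by nlinarith [mul_nonneg hσp0 (by positivity : 0 ≤ q ^ 4)]
    · refine (nS_pt (cc _ sh.hb1.dr.dr) (by positivity)
        (bd_ddb1 d s τf N hq hq1 hN hNq hr.1 hr2 (hDD s) (hD1 s) (hD3 s) hC)).trans ?_
      calc Real.sqrt (2 * Real.pi) * ((DD * C) * q ^ 4) = σp * q ^ 4 := by rw [hσp]; ring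
        _ ≤ 20 * σp * q ^ 4 := by nlinarith [mul_nonneg hσp0 (by positivity : 0 ≤ q ^ 4)]
    · refine (nS_pt (cc _ sh.he1) (by positivity)
        (bd_e1 d s τf N hq hq1 hN hNq hr.1 hr2 (hDD s) (hD1 s) (hD3 s) hC)).trans ?_
      calc Real.sqrt (2 * Real.pi) * (2 * (DD * C) * q ^ 4 * r ^ 2)
          = 2 * (σp * q ^ 4 * r ^ 2) := by rw [hσp]; ring
        _ ≤ 20 * σp * q ^ 4 * r ^ 2 := by nlinarith [mul_nonneg hσp0 (by positivity : 0 ≤ q ^ 4 * r ^ 2)]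
    · refine (nS_pt (cc _ sh.he2) (by positivity)
        (bd_e2 d s τf N hq hq1 hN hNq hr.1 hr2 (hDD s) (hD1 s) (hD3 s) hC)).trans ?_
      calc Real.sqrt (2 * Real.pi) * (4 * (DD * C) * q ^ 4 * r ^ 2)
          = 4 * (σp * q ^ 4 * r ^ 2) := by rw [hσp]; ring
        _ ≤ 20 * σp * q ^ 4 * r ^ 2 := by nlinarith [mul_nonneg hσp0 (by positivity : 0 ≤ q ^ 4 * r ^ 2)]
    · refine (nS_pt (cc _ sh.he2.dr) (by positivity)
        (bd_de2 d s τf N hq hq1 hN hNq hr.1 hr2 (hDD s) (hD1 s) (hD3 s) hC)).trans ?_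
      calc Real.sqrt (2 * Real.pi) * (8 * (DD * C) * q ^ 4 * r ^ 2)
          = 8 * (σp * q ^ 4 * r ^ 2) := by rw [hσp]; ring
        _ ≤ 20 * σp * q ^ 4 * r ^ 2 := by nlinarith [mul_nonneg hσp0 (by positivity : 0 ≤ q ^ 4 * r ^ 2)]
  have hσ1 : 20 * σp * q ^ 4 ≤ 1 := by
    refine le_trans ?_ hC2
    gcongr
  have hfin := shell_final (R := N / q) (R' := N / q + (q ^ 3)⁻¹) (a := N / q + (q ^ 3)⁻¹ + 1)
    (l := l) (m := Real.sqrt (2 * Real.pi) * D0) (σ := 20 * σp * q ^ 4)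
    (σ0 := Real.sqrt (2 * Real.pi) * D0 * (Λ + 1) / Real.sqrt (Real.sinh τf * w)) sh k h1R
    (by linarith) (by linarith) hl (by positivity) hσ1 (by positivity) (by positivity)
    (fun r hr => hbdgen r ⟨hr.1, by linarith [hr.2]⟩ 0
      (ce0_zero d s (Λ + 1) τf (q ^ 3)⁻¹ (N / q) w N hr.2))
    (fun r hr => hbdgen r ⟨by linarith [hr.1], hr.2⟩ _
      (nS_ce0_le d s (Λ + 1) τf (q ^ 3)⁻¹ (N / q) w N hD0 (hD s) (by linarith) hw hτ hT hr.1))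
    (fun r hr => by
      show cq (Λ + 1) (q ^ 3)⁻¹ (N / q) r = Λ + 1
      unfold cq
      rw [Real.smoothTransition.one_of_one_le (by linarith [hr.1]), mul_one])
  -- the boundary values
  have B0 : ∀ y, Bp τf 0 y = 0 := fun y => Bp_of_nonpos le_rfl
  have hBc0 : ∀ x y, x ≤ 0 → Bp τf x y = Bp τf 0 y := fun x y hx => by
    rw [Bp_of_nonpos hx, Bp_of_nonpos le_rfl]
  have hBc1 : ∀ x y, 1 ≤ x → Bp τf x y = Bp τf 1 y := fun x y hx => by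
    rw [Bp_of_one_le hx, Bp_of_one_le le_rfl]
  have B1 := S2.dr_const (Bp_S2 τf) hBc0 hBc1
  have B2 := S2.dr_const (Bp_S2 τf).dr
    (fun x y hx => by rw [B1.1 x y hx, B1.1 0 y le_rfl])
    (fun x y hx => by rw [B1.2 x y hx, B1.2 1 y le_rfl])
  have BY : ∀ y, dθ (Bp τf) 0 y = 0 := by
    intro y
    have : Bp τf 0 = fun _ => 0 := by ext y; exact B0 y
    simp only [dθ, this, deriv_const]
  have A1 := S2.dr_const (Ap_S2 τf)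
    (fun x y hx => by rw [Ap_of_nonpos hx, Ap_of_nonpos le_rfl])
    (fun x y hx => Ap_of_one_le hx)
  have z1 : sh.b1 (N / q) = d.tr2 s := by
    show cb1 d s τf (q ^ 3)⁻¹ (N / q) N (N / q) = d.tr2 s
    ext θ
    have : lf (q ^ 3)⁻¹ (N / q) N (Ap τf) (N / q) θ = 1 := by
      unfold lf
      rw [sub_self, zero_div, Ap_of_nonpos le_rfl]
    simp only [cb1, GG, this, Dt, AvgKer.tr2, mul_one]
  have z2 : sh.b2 (N / q) = fun _ => 0 := by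
    show cb2 d s τf (q ^ 3)⁻¹ (N / q) N (N / q) = fun _ => 0
    ext θ
    simp only [cb2, GG, lf_at θ B0, mul_zero]
  have z3 : dr sh.b2 (N / q) = fun _ => 0 := by
    show dr (cb2 d s τf (q ^ 3)⁻¹ (N / q) N) (N / q) = fun _ => 0
    rw [dr_cb2]
    ext θ
    simp only [GG, lf_at θ B0, lf_at θ (fun y => B1.1 0 y le_rfl), mul_zero, add_zero]
  have z4 : dr sh.b1 (N / q) = fun _ => 0 := by
    show dr (cb1 d s τf (q ^ 3)⁻¹ (N / q) N) (N / q) = fun _ => 0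
    rw [dr_cb1]
    ext θ
    simp only [GG, lf_at θ (fun y => A1.1 0 y le_rfl), mul_zero]
  have z5 : dr (dr sh.b2) (N / q) = fun _ => 0 := by
    show dr (dr (cb2 d s τf (q ^ 3)⁻¹ (N / q) N)) (N / q) = fun _ => 0
    rw [ddr_cb2]
    ext θ
    simp only [GG, lf_at θ B0, lf_at θ (fun y => B1.1 0 y le_rfl),
      lf_at θ (fun y => B2.1 0 y le_rfl), mul_zero, add_zero]
  have z6 : sh.e2 (N / q) = fun _ => 0 := by
    show ce2 d s τf (q ^ 3)⁻¹ (N / q) N (N / q) = fun _ => 0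
    ext θ
    simp only [ce2, GG, lf_at θ B0, lf_at θ BY, mul_zero, add_zero]
  have zX : sh.X k (N / q) = U0 k.κ (N / q) (d.tr2 s) := by
    unfold ShellData.X
    rw [z1, U1_zero k hR z2, U0_zero k.κ _ z3]
    simp
  have zX1 : sh.X1 k (N / q) = k.U1 (N / q) (d.tr2 s) := by
    unfold ShellData.X1
    rw [z1, U0_zero k.κ _ z4, U0_zero k.κ _ z2, U0_zero k.κ _ z5, U0_zero k.κ _ z6]
    simp
  rw [zX, zX1] at hfin
  refine hfin.trans (le_of_eq ?_)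
  unfold Phi
  ring

end final

end MP3a4792
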