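import Pool.Agent.Lib.MP_3a4792_mp.Ker

open MeasureTheory Set InnerProductSpace Filter Topology
open scoped ContDiff Laplacian InnerProductSpace

noncomputable section

namespace MP3a4792

/-- smooth functions of `(r,θ)`, `2π`-periodic in `θ` -/
def S2 (b : ℝ → ℝ → ℝ) : Prop :=
  ContDiff ℝ ∞ (fun p : ℝ × ℝ => b p.1 p.2) ∧ ∀ r, Function.Periodic (b r) (2 * Real.pi)

/-- radial derivative -/
def dr (b : ℝ → ℝ → ℝ) : ℝ → ℝ → ℝ := fun r θ => deriv (fun s => b s θ) r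

/-- angular derivative -/
def dθ (b : ℝ → ℝ → ℝ) : ℝ → ℝ → ℝ := fun r θ => deriv (b r) θ

lemma S2.hasFDerivAt {b : ℝ → ℝ → ℝ} (hb : S2 b) (r θ : ℝ) :
    HasFDerivAt (fun p : ℝ × ℝ => b p.1 p.2) (fderiv ℝ (fun p : ℝ × ℝ => b p.1 p.2) (r, θ)) (r, θ) :=
  ((hb.1.differentiable (by simp)) (r, θ)).hasFDerivAt

lemma S2.hasDerivAt_r' {b : ℝ → ℝ → ℝ} (hb : S2 b) (r θ : ℝ) :
    HasDerivAt (fun s => b s θ) (fderiv ℝ (fun p : ℝ × ℝ => b p.1 p.2) (r, θ) (1, 0)) r := by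
  have h1 : HasDerivAt (fun s : ℝ => (s, θ)) ((1 : ℝ), (0 : ℝ)) r :=
    (hasDerivAt_id r).prodMk (hasDerivAt_const r θ)
  exact (hb.hasFDerivAt r θ).comp_hasDerivAt r h1

lemma S2.hasDerivAt_θ' {b : ℝ → ℝ → ℝ} (hb : S2 b) (r θ : ℝ) :
    HasDerivAt (b r) (fderiv ℝ (fun p : ℝ × ℝ => b p.1 p.2) (r, θ) (0, 1)) θ := by
  have h1 : HasDerivAt (fun s : ℝ => (r, s)) ((0 : ℝ), (1 : ℝ)) θ :=
    (hasDerivAt_const θ r).prodMk (hasDerivAt_id θ)
  exact (hb.hasFDerivAt r θ).comp_hasDerivAt θ h1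

lemma S2.hasDerivAt_r {b : ℝ → ℝ → ℝ} (hb : S2 b) (r θ : ℝ) :
    HasDerivAt (fun s => b s θ) (dr b r θ) r := by
  have := hb.hasDerivAt_r' r θ
  rw [dr, this.deriv]; exact this

lemma S2.hasDerivAt_θ {b : ℝ → ℝ → ℝ} (hb : S2 b) (r θ : ℝ) :
    HasDerivAt (b r) (dθ b r θ) θ := by
  have := hb.hasDerivAt_θ' r θ
  rw [dθ, this.deriv]; exact this

lemma S2.dr {b : ℝ → ℝ → ℝ} (hb : S2 b) : S2 (dr b) := by
  constructor
  · have h : (fun p : ℝ × ℝ => MP3a4792.dr b p.1 p.2) =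
        fun p : ℝ × ℝ => fderiv ℝ (fun p : ℝ × ℝ => b p.1 p.2) p (1, 0) := by
      ext p
      exact (hb.hasDerivAt_r' p.1 p.2).deriv
    rw [h]
    exact (hb.1.fderiv_right (m := ∞) (by simp)).clm_apply contDiff_const
  · intro r θ
    have : (fun s => b s (θ + 2 * Real.pi)) = fun s => b s θ := by
      ext s; exact hb.2 s θ
    simp only [MP3a4792.dr, this]

lemma S2.dθ {b : ℝ → ℝ → ℝ} (hb : S2 b) : S2 (dθ b) := by
  constructor
  · have h : (fun p : ℝ × ℝ => MP3a4792.dθ b p.1 p.2) =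
        fun p : ℝ × ℝ => fderiv ℝ (fun p : ℝ × ℝ => b p.1 p.2) p (0, 1) := by
      ext p
      exact (hb.hasDerivAt_θ' p.1 p.2).deriv
    rw [h]
    exact (hb.1.fderiv_right (m := ∞) (by simp)).clm_apply contDiff_const
  · intro r θ
    have h2 : (fun s => b r (s + 2 * Real.pi)) = b r := by
      ext s; exact hb.2 r s
    have h3 := deriv_comp_add_const (b r) (2 * Real.pi) θ
    rw [h2] at h3
    exact h3.symm

lemma S2.cls {b : ℝ → ℝ → ℝ} (hb : S2 b) (r : ℝ) : Cls (b r) := by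
  refine ⟨?_, hb.2 r⟩
  have h1 : ContDiff ℝ ∞ (fun θ : ℝ => ((r, θ) : ℝ × ℝ)) := contDiff_const.prodMk contDiff_id
  exact ((hb.1.comp h1).of_le (by norm_cast))

lemma S2.continuous {b : ℝ → ℝ → ℝ} (hb : S2 b) : Continuous (fun p : ℝ × ℝ => b p.1 p.2) :=
  hb.1.continuous

lemma S2.add {b b' : ℝ → ℝ → ℝ} (hb : S2 b) (hb' : S2 b') : S2 (fun r θ => b r θ + b' r θ) :=
  ⟨hb.1.add hb'.1, fun r θ => by simp only [hb.2 r θ, hb'.2 r θ]⟩

lemma S2.mul {b b' : ℝ → ℝ → ℝ} (hb : S2 b) (hb' : S2 b') : S2 (fun r θ => b r θ * b' r θ) :=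
  ⟨hb.1.mul hb'.1, fun r θ => by simp only [hb.2 r θ, hb'.2 r θ]⟩

lemma S2.const_mul {b : ℝ → ℝ → ℝ} (hb : S2 b) (c : ℝ) : S2 (fun r θ => c * b r θ) :=
  ⟨contDiff_const.mul hb.1, fun r θ => by simp only [hb.2 r θ]⟩

lemma S2.iteratedDeriv_two {b : ℝ → ℝ → ℝ} (r θ : ℝ) :
    iteratedDeriv 2 (b r) θ = MP3a4792.dθ (MP3a4792.dθ b) r θ := by
  simp only [iteratedDeriv_succ, iteratedDeriv_zero]
  rfl

lemma nS_le {b : ℝ → ℝ} {B : ℝ} (hB : 0 ≤ B) (hb : Continuous b)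
    (h : ∀ θ ∈ Icc (0:ℝ) (2 * Real.pi), |b θ| ≤ B) : nS b ≤ Real.sqrt (2 * Real.pi) * B := by
  unfold nS
  have h0 : (0:ℝ) ≤ 2 * Real.pi := by positivity
  have h1 : ∫ θ in (0:ℝ)..(2 * Real.pi), (b θ) ^ 2 ≤ ∫ θ in (0:ℝ)..(2 * Real.pi), B ^ 2 := by
    apply intervalIntegral.integral_mono_on h0
    · exact (hb.pow 2).intervalIntegrable _ _
    · exact intervalIntegrable_const
    · intro θ hθ
      have := h θ hθ
      rw [← sq_abs]
      gcongr
  rw [intervalIntegral.integral_const, smul_eq_mul, sub_zero] at h1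
  calc Real.sqrt _ ≤ Real.sqrt (2 * Real.pi * B ^ 2) := Real.sqrt_le_sqrt h1
    _ = Real.sqrt (2 * Real.pi) * B := by
      rw [Real.sqrt_mul h0, Real.sqrt_sq hB]

/-- second order Taylor bound, uniform in `θ` -/
lemma S2.taylor {b : ℝ → ℝ → ℝ} (hb : S2 b) (r0 : ℝ) :
    ∃ B : ℝ, 0 ≤ B ∧ ∀ r, |r - r0| ≤ 1 → ∀ θ ∈ Icc (0:ℝ) (2 * Real.pi),
      |b r θ - b r0 θ - (r - r0) * MP3a4792.dr b r0 θ| ≤ B * (r - r0) ^ 2 := by
  have hc : Continuous (fun p : ℝ × ℝ => MP3a4792.dr (MP3a4792.dr b) p.1 p.2) := hb.dr.dr.continuous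
  have hK : IsCompact (Icc (r0 - 1) (r0 + 1) ×ˢ Icc (0:ℝ) (2 * Real.pi)) :=
    isCompact_Icc.prod isCompact_Icc
  obtain ⟨B, hB⟩ := hK.exists_bound_of_continuousOn hc.continuousOn
  have hB0 : 0 ≤ B := by
    refine (norm_nonneg _).trans (hB (r0, 0) ⟨⟨by linarith, by linarith⟩, ⟨le_rfl, by positivity⟩⟩)
  refine ⟨B, hB0, ?_⟩
  intro r hr θ hθ
  have hr' : r ∈ Icc (r0 - 1) (r0 + 1) := by
    rw [abs_le] at hr
    constructor <;> linarith [hr.1, hr.2]
  have hr0' : r0 ∈ Icc (r0 - 1) (r0 + 1) := by constructor <;> linarith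
  -- first: derivative difference
  have h1 : ∀ s ∈ Icc (r0 - 1) (r0 + 1), |MP3a4792.dr b s θ - MP3a4792.dr b r0 θ| ≤ B * |s - r0| := by
    intro s hs
    have := (convex_Icc (r0 - 1) (r0 + 1)).norm_image_sub_le_of_norm_hasDerivWithin_le
      (f := fun s => MP3a4792.dr b s θ) (f' := fun s => MP3a4792.dr (MP3a4792.dr b) s θ) (C := B)
      (fun x _ => (hb.dr.hasDerivAt_r x θ).hasDerivWithinAt)
      (fun x hx => hB (x, θ) ⟨hx, hθ⟩) hr0' hs
    simpa using this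
  -- second
  have hsub : uIcc r0 r ⊆ Icc (r0 - 1) (r0 + 1) := by
    apply uIcc_subset_Icc hr0' hr'
  have := (convex_uIcc r0 r).norm_image_sub_le_of_norm_hasDerivWithin_le
      (f := fun s => b s θ - (s - r0) * MP3a4792.dr b r0 θ)
      (f' := fun s => MP3a4792.dr b s θ - MP3a4792.dr b r0 θ) (C := B * |r - r0|)
      (fun x _ => by
        have e1 := hb.hasDerivAt_r x θ
        have e2 : HasDerivAt (fun s : ℝ => (s - r0) * MP3a4792.dr b r0 θ) (1 * MP3a4792.dr b r0 θ) x :=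
          ((hasDerivAt_id x).sub_const r0).mul_const _
        rw [one_mul] at e2
        exact (e1.sub e2).hasDerivWithinAt)
      (fun x hx => by
        exact (h1 x (hsub hx)).trans
          (mul_le_mul_of_nonneg_left (Set.abs_sub_left_of_mem_uIcc hx) hB0)) left_mem_uIcc right_mem_uIcc
  simp only [sub_self, zero_mul, sub_zero, Real.norm_eq_abs] at this
  calc |b r θ - b r0 θ - (r - r0) * MP3a4792.dr b r0 θ|
      = |b r θ - (r - r0) * MP3a4792.dr b r0 θ - b r0 θ| := by ring_nf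
    _ ≤ B * |r - r0| * |r - r0| := this
    _ = B * (r - r0) ^ 2 := by rw [mul_assoc, ← sq, sq_abs]

variable {K : Type*} [NormedAddCommGroup K] [InnerProductSpace ℂ K]

lemma Cls.continuous {b : ℝ → ℝ} (hb : Cls b) : Continuous b := hb.1.continuous

lemma Cls.add {b b' : ℝ → ℝ} (hb : Cls b) (hb' : Cls b') : Cls (fun θ => b θ + b' θ) :=
  ⟨hb.1.add hb'.1, fun θ => by simp only [hb.2 θ, hb'.2 θ]⟩

lemma Cls.const_mul {b : ℝ → ℝ} (hb : Cls b) (c : ℝ) : Cls (fun θ => c * b θ) :=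
  ⟨contDiff_const.mul hb.1, fun θ => by simp only [hb.2 θ]⟩

lemma U0_intble {κ : E2 → K} (hκ : Continuous κ) (r : ℝ) {b : ℝ → ℝ} (hb : Continuous b) (x y : ℝ) :
    IntervalIntegrable (fun θ => b θ • κ (pol r θ)) volume x y := by
  apply Continuous.intervalIntegrable
  have : Continuous fun θ : ℝ => pol r θ := pol_continuous.comp (by fun_prop : Continuous fun θ : ℝ => (r, θ))
  exact hb.smul (hκ.comp this)

lemma U0_add {κ : E2 → K} (hκ : Continuous κ) (r : ℝ) {b b' : ℝ → ℝ} (hb : Continuous b)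
    (hb' : Continuous b') : U0 κ r (fun θ => b θ + b' θ) = U0 κ r b + U0 κ r b' := by
  unfold U0
  rw [← smul_add, ← intervalIntegral.integral_add (U0_intble hκ r hb _ _) (U0_intble hκ r hb' _ _)]
  simp only [add_smul]

lemma U0_smul {κ : E2 → K} (r : ℝ) (t : ℝ) (b : ℝ → ℝ) :
    U0 κ r (fun θ => t * b θ) = t • U0 κ r b := by
  unfold U0
  simp only [mul_smul]
  rw [intervalIntegral.integral_smul, smul_comm]

lemma U0_neg {κ : E2 → K} (r : ℝ) (b : ℝ → ℝ) :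
    U0 κ r (fun θ => - b θ) = - U0 κ r b := by
  have := U0_smul (κ := κ) r (-1) b
  simpa using this

lemma U0_sub {κ : E2 → K} (hκ : Continuous κ) (r : ℝ) {b b' : ℝ → ℝ} (hb : Continuous b)
    (hb' : Continuous b') : U0 κ r (fun θ => b θ - b' θ) = U0 κ r b - U0 κ r b' := by
  have h1 := U0_add hκ r hb hb'.neg
  have h2 := U0_neg (κ := κ) r b'
  have e : (fun θ => b θ - b' θ) = fun θ => b θ + (-b') θ := by
    ext θ; simp [sub_eq_add_neg]
  have e2 : (-b' : ℝ → ℝ) = fun θ => - b' θ := rfl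
  rw [e, h1, e2, h2, sub_eq_add_neg]

/-- dynamic differentiation lemma -/
lemma dyn_hasDerivAt (F F' : ℝ → (ℝ → ℝ) → K) (C : ℝ) (hC : 0 ≤ C)
    (hadd : ∀ r b b', 0 < r → Cls b → Cls b' → F r (fun θ => b θ + b' θ) = F r b + F r b')
    (hsmul : ∀ r (t : ℝ) b, 0 < r → Cls b → F r (fun θ => t * b θ) = t • F r b)
    (hbd : ∀ r b, 0 < r → Cls b → ‖F r b‖ ≤ C * (1 + 1 / r) * nS b)
    (hst : ∀ b, Cls b → ∀ r, 0 < r → HasDerivAt (fun r => F r b) (F' r b) r)
    {b : ℝ → ℝ → ℝ} (hb : S2 b) {r0 : ℝ} (hr0 : 0 < r0) :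
    HasDerivAt (fun r => F r (b r)) (F r0 (dr b r0) + F' r0 (b r0)) r0 := by
  -- remainder function
  set ρ : ℝ → ℝ → ℝ := fun r θ => (b r θ + (-1) * b r0 θ) + (-(r - r0)) * dr b r0 θ with hρ
  have hρc : ∀ r, Cls (ρ r) := fun r =>
    (((hb.cls r).add ((hb.cls r0).const_mul (-1))).add ((hb.dr.cls r0).const_mul _))
  have hdec : ∀ r, 0 < r → F r (b r) = F r (b r0) + (r - r0) • F r (dr b r0) + F r (ρ r) := by
    intro r hr
    have e1 : F r (ρ r) = (F r (b r) + (-1 : ℝ) • F r (b r0)) + (-(r - r0)) • F r (dr b r0) := by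
      rw [hρ]
      rw [hadd r (fun θ => b r θ + (-1) * b r0 θ) (fun θ => (-(r - r0)) * dr b r0 θ) hr
        ((hb.cls r).add ((hb.cls r0).const_mul (-1))) ((hb.dr.cls r0).const_mul _)]
      rw [hadd r (b r) (fun θ => (-1) * b r0 θ) hr (hb.cls r) ((hb.cls r0).const_mul (-1))]
      rw [hsmul r _ _ hr (hb.cls r0), hsmul r _ _ hr (hb.dr.cls r0)]
    rw [e1]
    module
  have h1 : HasDerivAt (fun r => F r (b r0)) (F' r0 (b r0)) r0 := hst _ (hb.cls r0) r0 hr0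
  have h2 : HasDerivAt (fun r => (r - r0) • F r (dr b r0)) (F r0 (dr b r0)) r0 := by
    have ha : HasDerivAt (fun r : ℝ => r - r0) 1 r0 := (hasDerivAt_id r0).sub_const r0
    have h := ha.smul (hst _ (hb.dr.cls r0) r0 hr0)
    have e : (fun r => (r - r0) • F r (dr b r0)) = ((fun r => r - r0) • fun r => F r (dr b r0)) := rfl
    rw [e]
    simpa using h
  have h3 : HasDerivAt (fun r => F r (ρ r)) 0 r0 := by
    obtain ⟨B, hB0, hB⟩ := hb.taylor r0
    have hρ0 : F r0 (ρ r0) = 0 := by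
      have := hdec r0 hr0
      simpa using this
    rw [hasDerivAt_iff_isLittleO]
    simp only [hρ0, sub_zero, smul_zero]
    refine Asymptotics.IsBigO.trans_isLittleO (g := fun r => (r - r0) ^ 2) ?_ ?_
    · refine Asymptotics.IsBigO.of_bound (C * (1 + 1 / (r0 / 2)) * (Real.sqrt (2 * Real.pi) * B)) ?_
      have hnb : ∀ᶠ r in 𝓝 r0, r0 / 2 < r ∧ |r - r0| ≤ 1 := by
        apply Filter.Eventually.and
        · exact eventually_gt_nhds (by linarith)
        · have : Continuous fun r : ℝ => |r - r0| := by fun_prop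
          have h := this.tendsto r0
          simp only [sub_self, abs_zero] at h
          exact h.eventually (eventually_le_nhds (by norm_num))
      filter_upwards [hnb] with r hr
      have hr' : 0 < r := by linarith [hr.1]
      have hn : nS (ρ r) ≤ Real.sqrt (2 * Real.pi) * (B * (r - r0) ^ 2) := by
        apply nS_le (by positivity) (hρc r).continuous
        intro θ hθ
        have := hB r hr.2 θ hθ
        have e : ρ r θ = b r θ - b r0 θ - (r - r0) * dr b r0 θ := by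
          simp only [hρ]; ring
        rw [e]; exact this
      have hr2 : 1 / r ≤ 1 / (r0 / 2) := one_div_le_one_div_of_le (by linarith) hr.1.le
      calc ‖F r (ρ r)‖ ≤ C * (1 + 1 / r) * nS (ρ r) := hbd r _ hr' (hρc r)
        _ ≤ C * (1 + 1 / (r0 / 2)) * (Real.sqrt (2 * Real.pi) * (B * (r - r0) ^ 2)) := by
            have hn0 : 0 ≤ nS (ρ r) := Real.sqrt_nonneg _
            gcongr
        _ = C * (1 + 1 / (r0 / 2)) * (Real.sqrt (2 * Real.pi) * B) * ‖(r - r0) ^ 2‖ := by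
            rw [Real.norm_eq_abs, abs_of_nonneg (sq_nonneg (r - r0))]; ring
    · have hq : (fun r : ℝ => (r - r0) ^ 2) = fun r => (r - r0) * (r - r0) := by
        ext r; ring
      rw [hq]
      have h0 : Tendsto (fun r : ℝ => r - r0) (𝓝 r0) (𝓝 0) := by
        have : Continuous fun r : ℝ => r - r0 := by fun_prop
        simpa using this.tendsto r0
      have := ((Asymptotics.isLittleO_one_iff ℝ).2 h0).mul_isBigO
        (Asymptotics.isBigO_refl (fun r : ℝ => r - r0) (𝓝 r0))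
      simpa using this
  have hsum := (h1.add h2).add h3
  have hev : (fun r => F r (b r)) =ᶠ[𝓝 r0] fun r => (F r (b r0) + (r - r0) • F r (dr b r0)) + F r (ρ r) := by
    filter_upwards [eventually_gt_nhds hr0] with r hr
    exact hdec r hr
  have := hsum.congr_of_eventuallyEq hev
  convert this using 1
  module

end MP3a4792
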