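import Mathlib

/-!
# Essential self-adjointness of the Laplacian and of bounded perturbations (helper18)

`E` is a finite dimensional real inner product space.  Main facts:

* `exists_cutoff`: compactly supported Schwartz functions are dense in `𝓢(E,ℂ)` in the graph norm
  of the Laplacian;
* `free_core`: an `L²` weak solution `(u, w)` of `-Δu = w` (tested against `C_c^∞`) is a limit of
  `(φ, -Δφ)`, `φ ∈ C_c^∞`.
-/

open MeasureTheory SchwartzMap FourierTransform LineDeriv Laplacian Filter Topology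
open scoped ENNReal ComplexConjugate

noncomputable section

set_option linter.unusedSectionVars false

namespace MP3a

variable {E : Type*} [NormedAddCommGroup E] [InnerProductSpace ℝ E] [FiniteDimensional ℝ E]
  [MeasurableSpace E] [BorelSpace E]

/-- scaling by `1/(n+1)` as a continuous linear equivalence. -/
def scl (E : Type*) [NormedAddCommGroup E] [InnerProductSpace ℝ E] (n : ℕ) : E ≃L[ℝ] E :=
  ContinuousLinearEquiv.smulLeft (Units.mk0 ((1 : ℝ) / (n + 1)) (by positivity))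

lemma scl_apply (n : ℕ) (x : E) : scl E n x = ((1 : ℝ) / (n + 1)) • x := rfl

/-- `a(x/(n+1))`. -/
def dil (a : 𝓢(E, ℂ)) (n : ℕ) : 𝓢(E, ℂ) := compCLMOfContinuousLinearEquiv ℂ (scl E n) a

lemma dil_apply (a : 𝓢(E, ℂ)) (n : ℕ) (x : E) : dil a n x = a (((1 : ℝ) / (n + 1)) • x) := rfl

lemma lineDeriv_dil (a : 𝓢(E, ℂ)) (n : ℕ) (m : E) :
    ∂_{m} (dil a n) = ((1 : ℝ) / (n + 1)) • dil (∂_{m} a) n := by
  ext x
  rw [dil, lineDerivOp_compCLMOfContinuousLinearEquiv]
  simp only [compCLMOfContinuousLinearEquiv_apply, Function.comp_apply, smul_apply, dil_apply,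
    scl_apply]
  rw [lineDerivOp_apply_eq_fderiv, lineDerivOp_apply_eq_fderiv, map_smul]

/-- product of Schwartz functions -/
def mulS (a f : 𝓢(E, ℂ)) : 𝓢(E, ℂ) := smulLeftCLM ℂ a f

lemma mulS_apply (a f : 𝓢(E, ℂ)) (x : E) : mulS a f x = a x * f x := by
  rw [mulS, smulLeftCLM_apply_apply a.hasTemperateGrowth, smul_eq_mul]

lemma lineDeriv_mulS (a f : 𝓢(E, ℂ)) (m : E) :
    ∂_{m} (mulS a f) = mulS (∂_{m} a) f + mulS a (∂_{m} f) := by
  ext x
  have h : (mulS a f : E → ℂ) = fun x => a x * f x := by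
    ext x; exact mulS_apply a f x
  rw [lineDerivOp_apply_eq_fderiv, h, add_apply, mulS_apply, mulS_apply,
    lineDerivOp_apply_eq_fderiv, lineDerivOp_apply_eq_fderiv]
  rw [fderiv_fun_mul (a.differentiableAt) (f.differentiableAt)]
  simp [mul_comm]
  ring

lemma toLp_sub' (f g : 𝓢(E, ℂ)) : (f - g).toLp 2 volume = f.toLp 2 volume - g.toLp 2 volume :=
  map_sub (SchwartzMap.toLpCLM ℂ ℂ 2 (volume : Measure E)) f g

lemma toLp_add' (f g : 𝓢(E, ℂ)) : (f + g).toLp 2 volume = f.toLp 2 volume + g.toLp 2 volume :=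
  map_add (SchwartzMap.toLpCLM ℂ ℂ 2 (volume : Measure E)) f g

lemma toLp_smul' (c : ℂ) (g : 𝓢(E, ℂ)) : (c • g).toLp 2 volume = c • g.toLp 2 volume :=
  map_smul (SchwartzMap.toLpCLM ℂ ℂ 2 (volume : Measure E)) c g

lemma toLp_neg' (g : 𝓢(E, ℂ)) : (-g).toLp 2 volume = - g.toLp 2 volume :=
  map_neg (SchwartzMap.toLpCLM ℂ ℂ 2 (volume : Measure E)) g

lemma toLp_zero' : (0 : 𝓢(E, ℂ)).toLp 2 volume = 0 :=
  map_zero (SchwartzMap.toLpCLM ℂ ℂ 2 (volume : Measure E))

lemma conv (a F : 𝓢(E, ℂ)) :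
    Tendsto (fun n => (mulS (dil a n) F).toLp 2 volume) atTop (𝓝 (a 0 • F.toLp 2 volume)) := by
  rw [tendsto_iff_norm_sub_tendsto_zero]
  obtain ⟨C, hC0, hC⟩ : ∃ C : ℝ, 0 ≤ C ∧ ∀ x, ‖a x‖ ≤ C :=
    ⟨SchwartzMap.seminorm ℂ 0 0 a, apply_nonneg _ _, fun x => norm_le_seminorm ℂ a x⟩
  have h1 : ∀ n, ‖(mulS (dil a n) F).toLp 2 volume - a 0 • F.toLp 2 volume‖ =
      (∫ x, ‖(mulS (dil a n) F - a 0 • F) x‖ ^ (2 : ℝ≥0∞).toReal) ^ (2 : ℝ≥0∞).toReal⁻¹ := by
    intro n
    rw [← toLp_smul', ← toLp_sub']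
    exact norm_toLp' (by norm_num) (by norm_num)
  simp_rw [h1]
  have h2 : Tendsto (fun n => ∫ x, ‖(mulS (dil a n) F - a 0 • F) x‖ ^ (2 : ℝ≥0∞).toReal)
      atTop (𝓝 (∫ _ : E, (0 : ℝ))) := by
    apply tendsto_integral_of_dominated_convergence (fun x => (2 * C) ^ 2 * ‖F x‖ ^ 2)
    · intro n
      apply Continuous.aestronglyMeasurable
      exact ((mulS (dil a n) F - a 0 • F).continuous.norm.rpow_const (by simp))
    · have := (F.memLp 2 (volume : Measure E)).integrable_norm_pow (by norm_num)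
      simpa using this.const_mul ((2 * C) ^ 2)
    · intro n
      filter_upwards with x
      simp only [ENNReal.toReal_ofNat, Real.rpow_ofNat, norm_pow, norm_norm]
      have : (mulS (dil a n) F - a 0 • F) x = (a (((1 : ℝ) / (n + 1)) • x) - a 0) * F x := by
        rw [sub_apply, mulS_apply, dil_apply, smul_apply, smul_eq_mul]; ring
      rw [this, norm_mul, mul_pow]
      gcongr
      calc _ ≤ ‖a (((1 : ℝ) / (n + 1)) • x)‖ + ‖a 0‖ := norm_sub_le _ _
        _ ≤ C + C := add_le_add (hC _) (hC _)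
        _ = 2 * C := by ring
    · filter_upwards with x
      have h3 : Tendsto (fun n : ℕ => a (((1 : ℝ) / (n + 1)) • x)) atTop (𝓝 (a 0)) := by
        have h4 : Tendsto (fun n : ℕ => ((1 : ℝ) / (n + 1)) • x) atTop (𝓝 ((0 : ℝ) • x)) :=
          (tendsto_one_div_add_atTop_nhds_zero_nat).smul_const x
        rw [zero_smul] at h4
        exact (a.continuous.tendsto 0).comp h4
      have h5 : Tendsto (fun n : ℕ => (mulS (dil a n) F - a 0 • F) x) atTop (𝓝 0) := by
        have : ∀ n : ℕ, (mulS (dil a n) F - a 0 • F) x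
            = (a (((1 : ℝ) / (n + 1)) • x) - a 0) * F x := by
          intro n
          rw [sub_apply, mulS_apply, dil_apply, smul_apply, smul_eq_mul]; ring
        simp_rw [this]
        have := (h3.sub_const (a 0)).mul_const (F x)
        simpa using this
      have h6 := (h5.norm).pow 2
      simpa using h6
  rw [integral_zero] at h2
  have h3 := h2.rpow_const (p := (2 : ℝ≥0∞).toReal⁻¹) (Or.inr (by positivity))
  simpa using h3

/-- the standard cutoff. -/
def cut (E : Type*) [NormedAddCommGroup E] [InnerProductSpace ℝ E] [FiniteDimensional ℝ E] :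
    𝓢(E, ℂ) :=
  HasCompactSupport.toSchwartzMap (f := fun x => ((default : ContDiffBump (0 : E)) x : ℂ))
    ((default : ContDiffBump (0 : E)).hasCompactSupport.comp_left (g := fun r : ℝ => (r : ℂ)) (by simp))
    (Complex.ofRealCLM.contDiff.comp (default : ContDiffBump (0 : E)).contDiff)

lemma cut_zero : cut E 0 = 1 := by
  have : (default : ContDiffBump (0 : E)) 0 = 1 :=
    (default : ContDiffBump (0 : E)).one_of_mem_closedBall (by
      simp [(default : ContDiffBump (0 : E)).rIn_pos.le])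
  rw [cut, HasCompactSupport.toSchwartzMap_toFun, this]; simp

lemma cut_supp : HasCompactSupport (cut E) := by
  have := (default : ContDiffBump (0 : E)).hasCompactSupport.comp_left
    (g := fun r : ℝ => (r : ℂ)) (by simp)
  exact this

lemma dil_supp {a : 𝓢(E, ℂ)} (ha : HasCompactSupport a) (n : ℕ) :
    HasCompactSupport (dil a n) := by
  have := ha.comp_homeomorph (scl E n).toHomeomorph
  exact this

lemma mulS_supp {a : 𝓢(E, ℂ)} (ha : HasCompactSupport a) (f : 𝓢(E, ℂ)) :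
    HasCompactSupport (mulS a f) := by
  have h : (mulS a f : E → ℂ) = a * f := by
    ext x; simp [mulS_apply]
  rw [h]
  exact ha.mul_right

lemma exists_cutoff (f : 𝓢(E, ℂ)) : ∃ g : ℕ → 𝓢(E, ℂ), (∀ n, HasCompactSupport (g n)) ∧
    Tendsto (fun n => (g n).toLp 2 volume) atTop (𝓝 (f.toLp 2 volume)) ∧
    Tendsto (fun n => (Δ (g n)).toLp 2 volume) atTop (𝓝 ((Δ f).toLp 2 volume)) := by
  refine ⟨fun n => mulS (dil (cut E) n) f, fun n => mulS_supp (dil_supp cut_supp n) f, ?_, ?_⟩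
  · have := conv (cut E) f
    rwa [cut_zero, one_smul] at this
  · have hs : ∀ g : 𝓢(E, ℂ), Δ g = ∑ i, ∂_{stdOrthonormalBasis ℝ E i}
        (∂_{stdOrthonormalBasis ℝ E i} g) := fun g => laplacian_eq_sum _ g
    have hsum : ∀ F : Fin (Module.finrank ℝ E) → 𝓢(E, ℂ),
        (∑ i, F i).toLp 2 volume = ∑ i, (F i).toLp 2 volume := by
      intro F
      exact map_sum (SchwartzMap.toLpCLM ℂ ℂ 2 (volume : Measure E)) F _
    rw [hs f, hsum]
    simp_rw [hs (mulS (dil (cut E) _) f), hsum]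
    apply tendsto_finsetSum
    intro i _
    set m := stdOrthonormalBasis ℝ E i
    have hn : ∀ n : ℕ, (∂_{m} (∂_{m} (mulS (dil (cut E) n) f))).toLp 2 volume =
        (((1 : ℝ) / (n + 1) : ℝ) : ℂ) • ((((1 : ℝ) / (n + 1) : ℝ) : ℂ) •
          (mulS (dil (∂_{m} (∂_{m} (cut E))) n) f).toLp 2 volume)
        + (2 : ℂ) • ((((1 : ℝ) / (n + 1) : ℝ) : ℂ) • (mulS (dil (∂_{m} (cut E)) n) (∂_{m} f)).toLp 2 volume)
        + (mulS (dil (cut E) n) (∂_{m} (∂_{m} f))).toLp 2 volume := by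
      intro n
      rw [← toLp_smul', ← toLp_smul', ← toLp_smul', ← toLp_smul', ← toLp_add', ← toLp_add']
      congr 1
      rw [lineDeriv_mulS, lineDeriv_dil, lineDerivOp_add, lineDeriv_mulS, lineDeriv_mulS,
        lineDeriv_dil, lineDerivOp_smul, lineDeriv_dil]
      ext x
      simp only [add_apply, mulS_apply, smul_apply, dil_apply, Complex.real_smul, smul_eq_mul]
      ring
    simp_rw [hn]
    have ht : Tendsto (fun n : ℕ => (((1 : ℝ) / (n + 1) : ℝ) : ℂ)) atTop (𝓝 0) := by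
      have := (Complex.continuous_ofReal.tendsto 0).comp tendsto_one_div_add_atTop_nhds_zero_nat
      simpa [Function.comp_def] using this
    have h1 := ht.smul (ht.smul (conv (∂_{m} (∂_{m} (cut E))) f))
    have h2 := (ht.smul (conv (∂_{m} (cut E)) (∂_{m} f))).const_smul (2 : ℂ)
    have h3 := conv (cut E) (∂_{m} (∂_{m} f))
    have h4 := (h1.add h2).add h3
    simpa [cut_zero] using h4

/-- the operator `1 - (2π)⁻² Δ`. -/
def bes (f : 𝓢(E, ℂ)) : 𝓢(E, ℂ) := f - ((2 * Real.pi) ^ 2)⁻¹ • Δ f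

lemma bes_eq (f : 𝓢(E, ℂ)) :
    bes f = SchwartzMap.fourierMultiplierCLM ℂ ((fun _ : E => (1 : ℝ)) + (fun x : E => ‖x‖ ^ 2)) f := by
  rw [bes, SchwartzMap.laplacian_eq_fourierMultiplierCLM]
  have h2 : SchwartzMap.fourierMultiplierCLM ℂ ((fun _ : E => (1 : ℝ)) + (fun x : E => ‖x‖ ^ 2)) f =
      SchwartzMap.fourierMultiplierCLM ℂ (fun _ : E => (1 : ℝ)) f +
      SchwartzMap.fourierMultiplierCLM ℂ (fun x : E => (‖x‖ ^ 2 : ℝ)) f := by
    rw [SchwartzMap.fourierMultiplierCLM_apply, SchwartzMap.fourierMultiplierCLM_apply,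
      SchwartzMap.fourierMultiplierCLM_apply,
      SchwartzMap.smulLeftCLM_add (F := ℂ) (g₁ := fun _ : E => (1 : ℝ))
      (g₂ := fun x : E => (‖x‖ ^ 2 : ℝ)) (by fun_prop) (by fun_prop),
      add_apply, fourierInv_add]
  rw [h2, SchwartzMap.fourierMultiplierCLM_const, one_smul]
  have : (2 * Real.pi) ^ 2 ≠ 0 := by positivity
  rw [neg_smul, smul_neg, smul_smul, inv_mul_cancel₀ this, one_smul, sub_neg_eq_add]
  rfl

/-- inverse of `bes`. -/
def besInv (f : 𝓢(E, ℂ)) : 𝓢(E, ℂ) :=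
  SchwartzMap.fourierMultiplierCLM ℂ (fun x : E => ((1 + ‖x‖ ^ 2) ^ (-1 : ℝ) : ℝ)) f

lemma bes_besInv (f : 𝓢(E, ℂ)) : bes (besInv f) = f := by
  rw [bes_eq, besInv, SchwartzMap.fourierMultiplierCLM_fourierMultiplierCLM_apply
    (by fun_prop) (by fun_prop)]
  have : (((fun _ : E => (1 : ℝ)) + (fun x : E => ‖x‖ ^ 2)) *
      (fun x : E => ((1 + ‖x‖ ^ 2) ^ (-1 : ℝ) : ℝ))) = fun x : E => (1 : ℝ) := by
    ext x
    have h : (1 + ‖x‖ ^ 2 : ℝ) ≠ 0 := by positivity
    simp only [Pi.mul_apply, Pi.add_apply]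
    rw [Real.rpow_neg_one, mul_inv_cancel₀ h]
  rw [this, SchwartzMap.fourierMultiplierCLM_const, one_smul]
  rfl

/-- `conj a * b` as a real bilinear map -/
def cmulL : ℂ →L[ℝ] ℂ →L[ℝ] ℂ :=
  (ContinuousLinearMap.mul ℝ ℂ).comp (Complex.conjCLE : ℂ →L[ℝ] ℂ)

lemma cmulL_apply (a b : ℂ) : cmulL a b = inner ℂ a b := by
  simp [cmulL, mul_comm]

lemma lap_symm (f g : 𝓢(E, ℂ)) :
    inner ℂ ((Δ f).toLp 2 volume) (g.toLp 2 volume) =
      inner ℂ (f.toLp 2 volume) ((Δ g).toLp 2 (volume : Measure E)) := by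
  rw [inner_toL2_toL2_eq _ _ volume, inner_toL2_toL2_eq _ _ volume]
  simp_rw [← cmulL_apply]
  exact (integral_bilinear_laplacian_right_eq_left f g cmulL).symm

lemma lap_nonpos (f : 𝓢(E, ℂ)) :
    (inner ℂ (f.toLp 2 volume) ((Δ f).toLp 2 (volume : Measure E))).re ≤ 0 := by
  have hsum : ∀ F : Fin (Module.finrank ℝ E) → 𝓢(E, ℂ),
      (∑ i, F i).toLp 2 volume = ∑ i, (F i).toLp 2 (volume : Measure E) := by
    intro F
    exact map_sum (SchwartzMap.toLpCLM ℂ ℂ 2 (volume : Measure E)) F _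
  rw [laplacian_eq_sum (stdOrthonormalBasis ℝ E), hsum, inner_sum, Complex.re_sum]
  apply Finset.sum_nonpos
  intro i _
  have h := integral_bilinear_lineDerivOp_right_eq_neg_left (μ := (volume : Measure E))
    f (∂_{stdOrthonormalBasis ℝ E i} f) cmulL (stdOrthonormalBasis ℝ E i)
  simp_rw [cmulL_apply] at h
  rw [inner_toL2_toL2_eq _ _ volume, h, ← inner_toL2_toL2_eq _ _ volume]
  rw [Complex.neg_re]
  have := inner_self_nonneg (𝕜 := ℂ) (x := (∂_{stdOrthonormalBasis ℝ E i} f).toLp 2 (volume : Measure E))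
  simp only [RCLike.re_eq_complex_re] at this
  linarith

lemma graph_ineq (f : 𝓢(E, ℂ)) {c : ℝ} (hc : 0 ≤ c) :
    ‖f.toLp 2 (volume : Measure E)‖ ^ 2 + c ^ 2 * ‖(Δ f).toLp 2 (volume : Measure E)‖ ^ 2 ≤
      ‖f.toLp 2 (volume : Measure E) - (c : ℂ) • (Δ f).toLp 2 (volume : Measure E)‖ ^ 2 := by
  rw [@norm_sub_sq ℂ, inner_smul_right, norm_smul]
  have h := lap_nonpos f
  simp only [RCLike.re_eq_complex_re, Complex.re_ofReal_mul, Complex.norm_real, Real.norm_eq_abs,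
    mul_pow, sq_abs]
  nlinarith [mul_nonneg hc (neg_nonneg.mpr h)]

lemma toLp_bes (f : 𝓢(E, ℂ)) : (bes f).toLp 2 (volume : Measure E) =
    f.toLp 2 volume - ((((2 * Real.pi) ^ 2)⁻¹ : ℝ) : ℂ) • (Δ f).toLp 2 volume := by
  rw [bes, toLp_sub', ← toLp_smul']
  rfl

lemma dense_bes : Dense {g : Lp ℂ 2 (volume : Measure E) | ∃ φ : 𝓢(E, ℂ), HasCompactSupport φ ∧
    g = (bes φ).toLp 2 volume} := by
  intro g
  have h1 : g ∈ closure (Set.range (SchwartzMap.toLpCLM ℝ ℂ 2 (volume : Measure E))) :=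
    (SchwartzMap.denseRange_toLpCLM (by norm_num)) g
  refine closure_minimal ?_ isClosed_closure h1
  rintro _ ⟨ψ, rfl⟩
  obtain ⟨φ, hφ, h2, h3⟩ := exists_cutoff (besInv ψ)
  have h4 : Tendsto (fun n => (bes (φ n)).toLp 2 (volume : Measure E)) atTop
      (𝓝 ((bes (besInv ψ)).toLp 2 volume)) := by
    simp_rw [toLp_bes]
    exact h2.sub (h3.const_smul _)
  rw [bes_besInv] at h4
  exact mem_closure_of_tendsto h4 (Eventually.of_forall fun n => ⟨φ n, hφ n, rfl⟩)

theorem free_core (u w : Lp ℂ 2 (volume : Measure E))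
    (h : ∀ φ : 𝓢(E, ℂ), HasCompactSupport φ →
      inner ℂ w (φ.toLp 2 volume) = - inner ℂ u ((Δ φ).toLp 2 volume)) :
    ∃ φ : ℕ → 𝓢(E, ℂ), (∀ n, HasCompactSupport (φ n)) ∧
      Tendsto (fun n => (φ n).toLp 2 volume) atTop (𝓝 u) ∧
      Tendsto (fun n => (Δ (φ n)).toLp 2 volume) atTop (𝓝 (-w)) := by
  set c : ℝ := ((2 * Real.pi) ^ 2)⁻¹ with hc
  have hc0 : 0 < c := by positivity
  obtain ⟨s, hs, hlim⟩ := mem_closure_iff_seq_limit.mp (dense_bes (u + (c : ℂ) • w))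
  choose φ hφ hsφ using hs
  have hlim' : Tendsto (fun n => (φ n).toLp 2 (volume : Measure E) -
      (c : ℂ) • (Δ (φ n)).toLp 2 volume) atTop (𝓝 (u + (c : ℂ) • w)) := by
    refine hlim.congr fun n => ?_
    rw [hsφ n, toLp_bes]
  have hcau := hlim'.cauchySeq
  have key : ∀ m n, ‖(φ m).toLp 2 (volume : Measure E) - (φ n).toLp 2 volume‖ ^ 2 +
      c ^ 2 * ‖(Δ (φ m)).toLp 2 (volume : Measure E) - (Δ (φ n)).toLp 2 volume‖ ^ 2 ≤
      ‖((φ m).toLp 2 (volume : Measure E) - (c : ℂ) • (Δ (φ m)).toLp 2 volume) -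
        ((φ n).toLp 2 (volume : Measure E) - (c : ℂ) • (Δ (φ n)).toLp 2 volume)‖ ^ 2 := by
    intro m n
    have h1 := graph_ineq (φ m - φ n) hc0.le
    have h2 : Δ (φ m - φ n) = Δ (φ m) - Δ (φ n) :=
      map_sub (laplacianCLM ℝ E 𝓢(E, ℂ)) (φ m) (φ n)
    rw [h2, toLp_sub', toLp_sub'] at h1
    convert h1 using 3
    rw [smul_sub]
    abel
  have hc1 : CauchySeq (fun n => (φ n).toLp 2 (volume : Measure E)) := by
    rw [Metric.cauchySeq_iff] at hcau ⊢
    intro ε hε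
    obtain ⟨N, hN⟩ := hcau ε hε
    refine ⟨N, fun m hm n hn => ?_⟩
    have h1 := hN m hm n hn
    rw [dist_eq_norm] at h1 ⊢
    have h2 := key m n
    have h3 : ‖(φ m).toLp 2 (volume : Measure E) - (φ n).toLp 2 volume‖ ^ 2 < ε ^ 2 := by
      have := pow_lt_pow_left₀ h1 (norm_nonneg _) (n := 2) (by norm_num)
      nlinarith [sq_nonneg (c * ‖(Δ (φ m)).toLp 2 (volume : Measure E) - (Δ (φ n)).toLp 2 volume‖)]
    exact lt_of_pow_lt_pow_left₀ 2 hε.le h3
  have hc2 : CauchySeq (fun n => (Δ (φ n)).toLp 2 (volume : Measure E)) := by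
    rw [Metric.cauchySeq_iff] at hcau ⊢
    intro ε hε
    obtain ⟨N, hN⟩ := hcau (c * ε) (by positivity)
    refine ⟨N, fun m hm n hn => ?_⟩
    have h1 := hN m hm n hn
    rw [dist_eq_norm] at h1 ⊢
    have h2 := key m n
    have h3 : (c * ‖(Δ (φ m)).toLp 2 (volume : Measure E) - (Δ (φ n)).toLp 2 volume‖) ^ 2
        < (c * ε) ^ 2 := by
      have := pow_lt_pow_left₀ h1 (norm_nonneg _) (n := 2) (by norm_num)
      nlinarith [sq_nonneg (‖(φ m).toLp 2 (volume : Measure E) - (φ n).toLp 2 volume‖)]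
    have h4 := lt_of_pow_lt_pow_left₀ 2 (by positivity) h3
    exact lt_of_mul_lt_mul_left h4 hc0.le
  obtain ⟨u', hu'⟩ := cauchySeq_tendsto_of_complete hc1
  obtain ⟨z, hz⟩ := cauchySeq_tendsto_of_complete hc2
  have hsumeq : u' - (c : ℂ) • z = u + (c : ℂ) • w :=
    tendsto_nhds_unique (hu'.sub (hz.const_smul _)) hlim'
  -- `(u', -z)` is again a weak solution
  have hweak : ∀ ψ : 𝓢(E, ℂ), HasCompactSupport ψ →
      inner ℂ z (ψ.toLp 2 volume) = inner ℂ u' ((Δ ψ).toLp 2 volume) := by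
    intro ψ _
    have h1 := hz.inner (𝕜 := ℂ) (tendsto_const_nhds (x := ψ.toLp 2 (volume : Measure E)))
    have h2 := hu'.inner (𝕜 := ℂ) (tendsto_const_nhds (x := (Δ ψ).toLp 2 (volume : Measure E)))
    refine tendsto_nhds_unique h1 (h2.congr fun n => ?_)
    exact (lap_symm (φ n) ψ).symm
  have hd : u' - u = 0 := by
    apply dense_bes.eq_zero_of_inner_left ℂ
    rintro v ⟨ψ, hψ, hv⟩
    rw [hv, toLp_bes, inner_sub_right, inner_smul_right, inner_sub_left, inner_sub_left,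
      ← hweak ψ hψ]
    have h1 := h ψ hψ
    have h2 : inner ℂ u ((Δ ψ).toLp 2 (volume : Measure E)) = - inner ℂ w (ψ.toLp 2 volume) := by
      rw [h1, neg_neg]
    rw [h2]
    have h3 : inner ℂ u' (ψ.toLp 2 (volume : Measure E)) - (c : ℂ) * inner ℂ z (ψ.toLp 2 volume)
        = inner ℂ u (ψ.toLp 2 volume) + (c : ℂ) * inner ℂ w (ψ.toLp 2 volume) := by
      have := congrArg (fun t => inner ℂ t (ψ.toLp 2 (volume : Measure E))) hsumeq
      simp only [inner_sub_left, inner_add_left, inner_smul_left, Complex.conj_ofReal] at this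
      exact this
    linear_combination h3
  have hu : u' = u := sub_eq_zero.mp hd
  have hzw : z = -w := by
    rw [hu, sub_eq_add_neg, add_right_inj] at hsumeq
    have hcc : (c : ℂ) ≠ 0 := by exact_mod_cast hc0.ne'
    have : (c : ℂ) • (z + w) = 0 := by
      rw [smul_add, ← hsumeq]; simp
    rcases smul_eq_zero.mp this with h0 | h0
    · exact absurd h0 hcc
    · exact eq_neg_of_add_eq_zero_left h0
  exact ⟨φ, hφ, hu ▸ hu', hzw ▸ hz⟩

end MP3a
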