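import Mathlib
import Pool.Agent.Lib.MP_3a4792_mp.Base
import Pool.Agent.Lib.MP_3a4792_mp.FreeESA

/-!
# MP_3a4792_mp, module C: essential self-adjointness of `-Δ + V` (helper18)
-/

open MeasureTheory SchwartzMap FourierTransform LineDeriv Laplacian Filter Topology
open scoped ENNReal ComplexConjugate ContDiff

noncomputable section

namespace MP3a4792

/-- a test function as a Schwartz function -/
def toS (u : TF) : 𝓢(E2, ℂ) := (TF.hasCompactSupport u).toSchwartzMap (TF.contDiff u)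

lemma toS_coe (u : TF) : (toS u : E2 → ℂ) = u.1 := rfl

lemma toS_toLp (u : TF) : (toS u).toLp 2 volume = toL2 u := rfl

lemma toS_lap (u : TF) : toS (lap u) = Δ (toS u) := by
  ext x
  rw [SchwartzMap.laplacian_apply]
  rfl

/-- a compactly supported Schwartz function as a test function -/
def ofS (φ : 𝓢(E2, ℂ)) (h : HasCompactSupport φ) : TF := ⟨φ, φ.smooth ⊤, h⟩

lemma toS_ofS (φ : 𝓢(E2, ℂ)) (h : HasCompactSupport φ) : toS (ofS φ h) = φ := by
  ext x; rfl

lemma toL2_injective : Function.Injective toL2 := by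
  intro u v huv
  have h1 : (toS u).toLp 2 (volume : Measure E2) = (toS v).toLp 2 volume := huv
  have h2 := SchwartzMap.injective_toLp (E := E2) (F := ℂ) 2 volume h1
  apply Subtype.ext
  funext x
  exact congrArg (fun f : 𝓢(E2, ℂ) => f x) h2

lemma dense_toL2 : Dense (Set.range toL2 : Set L2E) := by
  intro g
  have h1 : g ∈ closure (Set.range (SchwartzMap.toLpCLM ℝ ℂ 2 (volume : Measure E2))) :=
    (SchwartzMap.denseRange_toLpCLM (by norm_num)) g
  refine closure_minimal ?_ isClosed_closure h1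
  rintro _ ⟨ψ, rfl⟩
  obtain ⟨φ, hφ, h2, -⟩ := MP3a.exists_cutoff ψ
  refine mem_closure_of_tendsto h2 (Eventually.of_forall fun n => ⟨ofS (φ n) (hφ n), ?_⟩)
  rw [← toS_toLp, toS_ofS]

/-- the class of `V` in `L^∞` -/
def Vinf (V : E2 → ℝ) (hV : ContDiff ℝ ∞ V) (hb : ∃ h : ℝ, ∀ x, |V x| ≤ h) :
    Lp ℂ ∞ (volume : Measure E2) :=
  MemLp.toLp (fun x => (V x : ℂ)) (by
    obtain ⟨h, hh⟩ := hb
    refine memLp_top_of_bound ?_ h (Eventually.of_forall fun x => ?_)
    · exact (Complex.continuous_ofReal.comp hV.continuous).aestronglyMeasurable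
    · simpa using hh x)

/-- multiplication by `V` on `L²` -/
def mulB (V : E2 → ℝ) (hV : ContDiff ℝ ∞ V) (hb : ∃ h : ℝ, ∀ x, |V x| ≤ h) : L2E →L[ℂ] L2E :=
  (ContinuousLinearMap.mul ℂ ℂ).holderL volume ∞ 2 2 (Vinf V hV hb)

lemma coeFn_mulB (V : E2 → ℝ) (hV : ContDiff ℝ ∞ V) (hb : ∃ h : ℝ, ∀ x, |V x| ≤ h) (u : L2E) :
    (mulB V hV hb u : E2 → ℂ) =ᵐ[volume] fun x => (V x : ℂ) * u x := by
  have h1 := (ContinuousLinearMap.mul ℂ ℂ).coeFn_holder (r := 2) (Vinf V hV hb) u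
  have h2 : (Vinf V hV hb : E2 → ℂ) =ᵐ[volume] fun x => (V x : ℂ) := MemLp.coeFn_toLp _
  filter_upwards [h1, h2] with x hx1 hx2
  have : (mulB V hV hb u : E2 → ℂ) x =
    ((ContinuousLinearMap.mul ℂ ℂ).holder 2 (Vinf V hV hb) u : E2 → ℂ) x := rfl
  rw [this, hx1, hx2]
  rfl

lemma mulB_toL2 (V : E2 → ℝ) (hV : ContDiff ℝ ∞ V) (hb : ∃ h : ℝ, ∀ x, |V x| ≤ h) (u : TF) :
    mulB V hV hb (toL2 u) = toL2 (mulTF V hV u) := by
  apply Lp.ext
  filter_upwards [coeFn_mulB V hV hb (toL2 u), coeFn_toL2 u, coeFn_toL2 (mulTF V hV u)]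
    with x h1 h2 h3
  rw [h1, h2, h3]
  rfl

lemma mulB_symm (V : E2 → ℝ) (hV : ContDiff ℝ ∞ V) (hb : ∃ h : ℝ, ∀ x, |V x| ≤ h) (u v : L2E) :
    inner ℂ (mulB V hV hb u) v = inner ℂ u (mulB V hV hb v) := by
  rw [L2.inner_def, L2.inner_def]
  apply integral_congr_ae
  filter_upwards [coeFn_mulB V hV hb u, coeFn_mulB V hV hb v] with x h1 h2
  rw [h1, h2]
  simp only [RCLike.inner_apply, map_mul, Complex.conj_ofReal]
  ring

lemma toL2_Hop (V : E2 → ℝ) (hV : ContDiff ℝ ∞ V) (hb : ∃ h : ℝ, ∀ x, |V x| ≤ h) (u : TF) :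
    toL2 (Hop V hV u) = mulB V hV hb (toL2 u) - toL2 (lap u) := by
  rw [mulB_toL2, Hop, LinearMap.sub_apply, map_sub]

lemma lap_symm (u v : TF) : inner ℂ (toL2 (lap u)) (toL2 v) = inner ℂ (toL2 u) (toL2 (lap v)) := by
  have := MP3a.lap_symm (toS u) (toS v)
  rw [← toS_lap, ← toS_lap] at this
  exact this

lemma Hop_symm (V : E2 → ℝ) (hV : ContDiff ℝ ∞ V) (hb : ∃ h : ℝ, ∀ x, |V x| ≤ h) (u v : TF) :
    inner ℂ (toL2 (Hop V hV u)) (toL2 v) = inner ℂ (toL2 u) (toL2 (Hop V hV v)) := by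
  rw [toL2_Hop V hV hb, toL2_Hop V hV hb, inner_sub_left, inner_sub_right, lap_symm, mulB_symm]

/-- a weak solution is a limit of test functions in the graph norm. -/
theorem weak_mem_closure (V : E2 → ℝ) (hV : ContDiff ℝ ∞ V) (hb : ∃ h : ℝ, ∀ x, |V x| ≤ h)
    (u v : L2E) (h : ∀ φ : TF, inner ℂ v (toL2 φ) = inner ℂ u (toL2 (Hop V hV φ))) :
    (u, v) ∈ closure (graph0 V hV) := by
  obtain ⟨φ, hφ, h1, h2⟩ := MP3a.free_core u (v - mulB V hV hb u) (by
    intro ψ hψ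
    have h1 := h (ofS ψ hψ)
    rw [toL2_Hop V hV hb, inner_sub_right, ← mulB_symm] at h1
    have h2 : toL2 (ofS ψ hψ) = ψ.toLp 2 volume := by rw [← toS_toLp, toS_ofS]
    have h3 : toL2 (lap (ofS ψ hψ)) = (Δ ψ).toLp 2 volume := by
      rw [← toS_toLp, toS_lap, toS_ofS]
    rw [h2, h3] at h1
    rw [inner_sub_left, h1]
    ring)
  refine mem_closure_of_tendsto (f := fun n => (toL2 (ofS (φ n) (hφ n)),
    toL2 (Hop V hV (ofS (φ n) (hφ n))))) (b := atTop) ?_
    (Eventually.of_forall fun n => ⟨ofS (φ n) (hφ n), rfl⟩)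
  have h3 : Tendsto (fun n => toL2 (ofS (φ n) (hφ n))) atTop (𝓝 u) := by
    refine h1.congr fun n => ?_
    rw [← toS_toLp, toS_ofS]
  have h4 : Tendsto (fun n => toL2 (lap (ofS (φ n) (hφ n)))) atTop
      (𝓝 (-(v - mulB V hV hb u))) := by
    refine h2.congr fun n => ?_
    rw [← toS_toLp, toS_lap, toS_ofS]
  refine h3.prodMk_nhds ?_
  simp_rw [toL2_Hop V hV hb]
  have h5 := (((mulB V hV hb).continuous.tendsto u).comp h3).sub h4
  simpa using h5

/-- The operator `-Δ+V` on test functions as a partially defined operator of `L²`. -/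
def T0 (V : E2 → ℝ) (hV : ContDiff ℝ ∞ V) : L2E →ₗ.[ℂ] L2E where
  domain := LinearMap.range toL2
  toFun := (toL2 ∘ₗ Hop V hV) ∘ₗ (LinearEquiv.ofInjective toL2 toL2_injective).symm.toLinearMap

lemma T0_graph (V : E2 → ℝ) (hV : ContDiff ℝ ∞ V) :
    ((T0 V hV).graph : Set (L2E × L2E)) = graph0 V hV := by
  ext p
  rw [SetLike.mem_coe, LinearPMap.mem_graph_iff]
  constructor
  · rintro ⟨⟨y, u, rfl⟩, h1, h2⟩
    refine ⟨u, ?_⟩
    have h3 : (LinearEquiv.ofInjective toL2 toL2_injective).symm ⟨toL2 u, u, rfl⟩ = u := by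
      rw [LinearEquiv.symm_apply_eq]; rfl
    have h4 : (T0 V hV) ⟨toL2 u, u, rfl⟩ = toL2 (Hop V hV u) := by
      change toL2 (Hop V hV ((LinearEquiv.ofInjective toL2 toL2_injective).symm
        ⟨toL2 u, u, rfl⟩)) = _
      rw [h3]
    exact Prod.ext h1.symm (by rw [← h2, h4])
  · rintro ⟨u, rfl⟩
    refine ⟨⟨toL2 u, u, rfl⟩, rfl, ?_⟩
    have h3 : (LinearEquiv.ofInjective toL2 toL2_injective).symm ⟨toL2 u, u, rfl⟩ = u := by
      rw [LinearEquiv.symm_apply_eq]; rfl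
    change toL2 (Hop V hV ((LinearEquiv.ofInjective toL2 toL2_injective).symm
        ⟨toL2 u, u, rfl⟩)) = _
    rw [h3]

lemma T0_dense (V : E2 → ℝ) (hV : ContDiff ℝ ∞ V) : Dense ((T0 V hV).domain : Set L2E) := by
  have : ((T0 V hV).domain : Set L2E) = Set.range toL2 := LinearMap.coe_range toL2
  rw [this]
  exact dense_toL2

theorem exists_selfAdjoint_closure (V : E2 → ℝ) (hV : ContDiff ℝ ∞ V)
    (hb : ∃ h : ℝ, ∀ x, |V x| ≤ h) :
    ∃ H : L2E →ₗ.[ℂ] L2E, IsSelfAdjoint H ∧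
      (H.graph : Set (L2E × L2E)) = closure (graph0 V hV) := by
  set T := T0 V hV with hT
  have hd : Dense (T.domain : Set L2E) := T0_dense V hV
  have hg : (T.graph : Set (L2E × L2E)) = graph0 V hV := T0_graph V hV
  have hmem : ∀ p : L2E × L2E, p ∈ T.adjoint.graph ↔
      ∀ φ : TF, inner ℂ p.2 (toL2 φ) = inner ℂ p.1 (toL2 (Hop V hV φ)) := by
    intro p
    rw [LinearPMap.adjoint_graph_eq_graph_adjoint hd, Submodule.mem_adjoint_iff]
    constructor
    · intro h φ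
      have h1 : (toL2 φ, toL2 (Hop V hV φ)) ∈ T.graph := by
        rw [← SetLike.mem_coe, hg]; exact ⟨φ, rfl⟩
      have h2 := sub_eq_zero.mp (h _ _ h1)
      rw [← inner_conj_symm, ← h2, inner_conj_symm]
    · intro h a b hab
      rw [← SetLike.mem_coe, hg] at hab
      obtain ⟨φ, hφ⟩ := hab
      obtain ⟨rfl, rfl⟩ := Prod.ext_iff.mp hφ
      rw [sub_eq_zero]
      have h2 := h φ
      simp only
      rw [← inner_conj_symm, ← h2, inner_conj_symm]
  have hgr : (T.adjoint.graph : Set (L2E × L2E)) = closure (graph0 V hV) := by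
    apply Set.Subset.antisymm
    · intro p hp
      exact weak_mem_closure V hV hb p.1 p.2 ((hmem p).mp hp)
    · apply closure_minimal
      · rintro p ⟨u, rfl⟩
        rw [SetLike.mem_coe, hmem]
        intro φ
        exact Hop_symm V hV hb u φ
      · exact LinearPMap.adjoint_isClosed hd
  refine ⟨T.adjoint, ?_, hgr⟩
  have hle : T ≤ T.adjoint := by
    apply LinearPMap.le_of_le_graph
    intro p hp
    rw [← SetLike.mem_coe, hgr]
    apply subset_closure
    rw [← hg]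
    exact hp
  have hd' : Dense (T.adjoint.domain : Set L2E) := hd.mono hle.1
  rw [LinearPMap.isSelfAdjoint_def]
  apply LinearPMap.eq_of_eq_graph
  ext p
  rw [LinearPMap.adjoint_graph_eq_graph_adjoint hd', Submodule.mem_adjoint_iff, hmem]
  constructor
  · intro h φ
    have h1 : (toL2 φ, toL2 (Hop V hV φ)) ∈ T.adjoint.graph := by
      rw [← SetLike.mem_coe, hgr]; exact subset_closure ⟨φ, rfl⟩
    have h2 := sub_eq_zero.mp (h _ _ h1)
    rw [← inner_conj_symm, ← h2, inner_conj_symm]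
  · intro h a b hab
    rw [← SetLike.mem_coe, hgr] at hab
    have hcl : IsClosed {q : L2E × L2E | inner ℂ q.2 p.1 - inner ℂ q.1 p.2 = 0} := by
      apply isClosed_eq
      · fun_prop
      · exact continuous_const
    have hsub : graph0 V hV ⊆ {q : L2E × L2E | inner ℂ q.2 p.1 - inner ℂ q.1 p.2 = 0} := by
      rintro q ⟨φ, rfl⟩
      have h2 := h φ
      rw [Set.mem_ofPred_eq, sub_eq_zero]
      simp only
      rw [← inner_conj_symm, ← h2, inner_conj_symm]
    exact closure_minimal hsub hcl hab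

end MP3a4792
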