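import Pool.Agent.Lib.MP_3a4792_mp.Assembly
import Pool.Agent.Lib.MP_3a4792_mp.EssSA

open MeasureTheory Set InnerProductSpace Filter Topology
open scoped ContDiff Laplacian InnerProductSpace ENNReal

noncomputable section

namespace MP3a4792

/-- the statement of module K (`exists_ker`) for spaces in `Type` -/
def ExistsKer : Prop := ∀ (K : Type) [NormedAddCommGroup K] [InnerProductSpace ℂ K] [CompleteSpace K]
    (V : E2 → ℝ) (hV : ContDiff ℝ ∞ V) (_hb : ∃ h : ℝ, ∀ x, |V x| ≤ h) (Λ : ℝ)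
    (M P : K →L[ℂ] K) (ev : K →L[ℂ] ℂ) (c : ℝ) (_hc : 0 < c) (_hM : ‖M‖ ≤ Λ) (_hP : ‖P‖ ≤ 1)
    (_Msa : ∀ a b : K, ⟪M a, b⟫_ℂ = ⟪a, M b⟫_ℂ) (_Psa : ∀ a b : K, ⟪P a, b⟫_ℂ = ⟪a, P b⟫_ℂ)
    (_comm : ∀ a b : K, ⟪M a, P b⟫_ℂ - ⟪a, P (M b)⟫_ℂ =
      Complex.I * (c : ℂ) * (starRingEnd ℂ (ev a) * ev b))
    (T : K →L[ℂ] L2E) (_hT : ∀ g, (T g, T (M g)) ∈ closure (graph0 V hV)),
    ∃ k : Ker V Λ K, k.c = c ∧ k.ev = ev ∧
      ∀ u : TF, (ContinuousLinearMap.adjoint T) (toL2 u) = ∫ x, u.1 x • k.κ x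

section mulop

variable {Λ : ℝ}

/-- multiplication by a bounded function -/
def mulOp (f : ℝ → ℂ) (hf : MemLp f ∞ (volume.restrict (Ioo (0 : ℝ) Λ))) : KK Λ →L[ℂ] KK Λ :=
  ((ContinuousLinearMap.mul ℂ ℂ).holderL (volume.restrict (Ioo (0 : ℝ) Λ)) ∞ 2 2) (hf.toLp _)

lemma mulOp_coeFn (f : ℝ → ℂ) (hf : MemLp f ∞ (volume.restrict (Ioo (0 : ℝ) Λ))) (g : KK Λ) :
    (mulOp f hf g : ℝ → ℂ) =ᵐ[volume.restrict (Ioo (0 : ℝ) Λ)] fun E => f E * g E := by
  have h1 := ContinuousLinearMap.coeFn_holder (r := 2) (ContinuousLinearMap.mul ℂ ℂ) (hf.toLp _) g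
  have h2 := hf.coeFn_toLp
  filter_upwards [h1, h2] with x hx1 hx2
  rw [mulOp]
  refine hx1.trans ?_
  simp only [ContinuousLinearMap.mul_apply']
  rw [hx2]

lemma memLp_ind {A : Set ℝ} (hA : MeasurableSet A) :
    MemLp (A.indicator fun _ => (1 : ℂ)) ∞ (volume.restrict (Ioo (0 : ℝ) Λ)) := by
  refine memLp_top_of_bound ?_ 1 ?_
  · exact (measurable_const.indicator hA).aestronglyMeasurable
  · refine Eventually.of_forall fun x => ?_
    by_cases hx : x ∈ A <;> simp [hx]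

end mulop

/-- main theorem in terms of `graph0` -/
theorem main_graph0 (hker : ExistsKer) {Λ : ℝ} (hΛ : 0 < Λ) (hblock : ∃ h0, BlockProp Λ h0) :
    ∃ (V : E2 → ℝ) (hV : ContDiff ℝ ∞ V), (∃ h, ∀ x, |V x| ≤ h) ∧
      Integrable (fun x => ‖x‖⁻¹ * V x ^ 2) ∧
      ∀ T : KK Λ →L[ℂ] L2E,
        (∀ g g' : KK Λ, ((g' : ℝ → ℂ) =ᵐ[volume.restrict (Ioo 0 Λ)] fun E => (E:ℂ) * g E) →
          (T g, T g') ∈ closure (graph0 V hV)) → T = 0 := by
  obtain ⟨h0, hB⟩ := hblock
  obtain ⟨V, hV, hVb, hVi, hV0⟩ := exists_potential hB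
  refine ⟨V, hV, ⟨h0, hVb⟩, hVi, ?_⟩
  intro T hT
  obtain ⟨M, P, ev, c, hc, hMc, hev, hM, hP, Msa, Psa, comm⟩ := exists_halfLine_form Λ hΛ
  have h1 : ∀ u : TF, (ContinuousLinearMap.adjoint T) (toL2 u) = 0 := by
    intro u
    set w : KK Λ := (ContinuousLinearMap.adjoint T) (toL2 u) with hw
    have h2 : ∀ A : Set ℝ, MeasurableSet A → ∫ x in A, w x ∂(volume.restrict (Ioo (0 : ℝ) Λ)) = 0 := by
      intro A hA
      set Q : KK Λ →L[ℂ] KK Λ := mulOp (A.indicator fun _ => (1 : ℂ)) (memLp_ind hA) with hQ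
      have hint : ∀ g, ((T ∘L Q) g, (T ∘L Q) (M g)) ∈ closure (graph0 V hV) := by
        intro g
        refine hT (Q g) (Q (M g)) ?_
        have a1 := mulOp_coeFn (A.indicator fun _ => (1 : ℂ)) (memLp_ind hA) g
        have a2 := mulOp_coeFn (A.indicator fun _ => (1 : ℂ)) (memLp_ind hA) (M g)
        have a3 := hMc g
        rw [← hQ] at a1 a2
        filter_upwards [a1, a2, a3] with x hx1 hx2 hx3
        rw [hx2, hx3, hx1]
        ring
      obtain ⟨k, hkc, hkev, hk⟩ := hker (KK Λ) V hV ⟨h0, hVb⟩ Λ M P ev c hc hM hP Msa Psa comm (T ∘L Q) hint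
      have h3 := hk u
      have h4 : ev ((ContinuousLinearMap.adjoint (T ∘L Q)) (toL2 u)) = 0 := by
        rw [h3, ← hkev, ← ContinuousLinearMap.integral_comp_comm]
        · have : ∀ x, k.ev (u.1 x • k.κ x) = 0 := by
            intro x
            rw [map_smul, hV0 (KK Λ) k x, smul_zero]
          simp only [this, integral_zero]
        · apply Continuous.integrable_of_hasCompactSupport
          · exact (TF.continuous u).smul k.κcont
          · exact (TF.hasCompactSupport u).smul_right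
      rw [ContinuousLinearMap.adjoint_comp, ContinuousLinearMap.comp_apply, ← hw, hev] at h4
      have h5 : ∫ E in Ioo (0 : ℝ) Λ, (ContinuousLinearMap.adjoint Q w : KK Λ) E =
          ⟪HalfLine.one1 Λ, ContinuousLinearMap.adjoint Q w⟫_ℂ := by
        rw [HalfLine.inner_KK]
        apply integral_congr_ae
        filter_upwards [HalfLine.one1_coeFn Λ] with x hx
        rw [hx]; simp
      rw [h5, ContinuousLinearMap.adjoint_inner_right, HalfLine.inner_KK] at h4
      rw [← h4, ← integral_indicator hA]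
      apply integral_congr_ae
      have a1 := mulOp_coeFn (A.indicator fun _ => (1 : ℂ)) (memLp_ind hA) (HalfLine.one1 Λ)
      rw [← hQ] at a1
      filter_upwards [a1, HalfLine.one1_coeFn Λ] with x hx1 hx2
      rw [hx1, hx2]
      by_cases hx : x ∈ A <;> simp [hx]
    have h6 : (w : ℝ → ℂ) =ᵐ[volume.restrict (Ioo (0 : ℝ) Λ)] 0 := by
      apply Lp.ae_eq_zero_of_forall_setIntegral_eq_zero w (by norm_num) (by norm_num)
      · intro s hs _
        exact ((Lp.memLp w).integrable (by norm_num)).integrableOn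
      · intro s hs _
        exact h2 s hs
    exact (Lp.eq_zero_iff_ae_eq_zero).2 h6
  have h2 : ContinuousLinearMap.adjoint T = 0 := by
    have h3 : (⇑(ContinuousLinearMap.adjoint T) : L2E → KK Λ) = fun _ => 0 := by
      apply Continuous.ext_on dense_toL2 (ContinuousLinearMap.continuous _) continuous_const
      rintro _ ⟨u, rfl⟩
      exact h1 u
    ext1 f
    exact congrFun h3 f
  have h3 := congrArg ContinuousLinearMap.adjoint h2
  rw [ContinuousLinearMap.adjoint_adjoint, map_zero] at h3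
  exact h3

end MP3a4792
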