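import Pool.Agent.Lib.MP_3a4792_mp.Shell

open MeasureTheory Set InnerProductSpace Filter Topology
open scoped ContDiff Laplacian InnerProductSpace

noncomputable section

namespace MP3a4792

/-- an angular averaging kernel of width `δ` -/
structure AvgKer (δ : ℝ) where
  D : ℝ → ℝ
  smooth : ContDiff ℝ ∞ D
  periodic : Function.Periodic D (2 * Real.pi)
  nonneg : ∀ α, 0 ≤ D α
  int_one : ∫ α in (0:ℝ)..(2 * Real.pi), D α = 1
  supp : ∀ α, D α ≠ 0 → 2 * (1 - Real.cos α) ≤ δ ^ 2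

variable {K : Type*} [NormedAddCommGroup K] [InnerProductSpace ℂ K]

namespace AvgKer

variable {δ : ℝ} (d : AvgKer δ)

/-- the translate -/
def tr (θ₀ : ℝ) : ℝ → ℝ := fun θ => d.D (θ₀ - θ)

lemma tr_cls (θ₀ : ℝ) : Cls (d.tr θ₀) := by
  constructor
  · exact (d.smooth.of_le (by norm_cast)).comp (contDiff_const.sub contDiff_id)
  · intro θ
    have := d.periodic (θ₀ - (θ + 2 * Real.pi))
    simp only [tr]
    rw [← this]
    congr 1
    ring

/-- the translates as a function of two variables -/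
def tr2 : ℝ → ℝ → ℝ := fun s θ => d.D (s - θ)

lemma tr2_S2 : S2 d.tr2 := by
  constructor
  · exact d.smooth.comp (contDiff_fst.sub contDiff_snd)
  · intro s θ
    exact (d.tr_cls s).2 θ

lemma integral_tr (θ₀ : ℝ) : ∫ θ in (0:ℝ)..(2 * Real.pi), d.D (θ₀ - θ) = 1 := by
  rw [intervalIntegral.integral_comp_sub_left (fun x => d.D x) θ₀]
  have h := d.periodic.intervalIntegral_add_eq (θ₀ - 2 * Real.pi) 0
  rw [show θ₀ - 2 * Real.pi + 2 * Real.pi = θ₀ by ring, zero_add] at h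
  rw [sub_zero, h, d.int_one]

lemma integral_tr' (θ : ℝ) : ∫ θ₀ in (0:ℝ)..(2 * Real.pi), d.D (θ₀ - θ) = 1 := by
  rw [intervalIntegral.integral_comp_sub_right (fun x => d.D x) θ]
  have h := d.periodic.intervalIntegral_add_eq (0 - θ) 0
  rw [show 0 - θ + 2 * Real.pi = 2 * Real.pi - θ by ring, zero_add] at h
  rw [h, d.int_one]

lemma dist_le {r θ θ' : ℝ} (hδ : 0 ≤ δ) (hr : 0 ≤ r) (h : d.D (θ - θ') ≠ 0) :
    ‖pol r θ - pol r θ'‖ ≤ r * δ := by
  have h1 := norm_pol_sub_sq r θ θ'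
  have h2 := d.supp _ h
  have h3 : ‖pol r θ - pol r θ'‖ ^ 2 ≤ (r * δ) ^ 2 := by
    rw [h1, mul_pow]
    nlinarith [sq_nonneg r, mul_le_mul_of_nonneg_left h2 (sq_nonneg r)]
  exact abs_le_of_sq_le_sq h3 (by positivity) |> (le_abs_self _).trans

end AvgKer

lemma U0_continuous2 {κ : E2 → K} (hκ : Continuous κ) {f : ℝ → ℝ → ℝ → ℝ}
    (hf : Continuous fun p : (ℝ × ℝ) × ℝ => f p.1.1 p.1.2 p.2) :
    Continuous fun p : ℝ × ℝ => U0 κ p.1 (f p.1 p.2) := by
  unfold U0
  refine Continuous.smul (f := fun p : ℝ × ℝ => Real.sqrt p.1) (by fun_prop) ?_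
  apply intervalIntegral.continuous_parametric_intervalIntegral_of_continuous'
  have h1 : Continuous fun p : (ℝ × ℝ) × ℝ => pol p.1.1 p.2 :=
    pol_continuous.comp (by fun_prop : Continuous fun p : (ℝ × ℝ) × ℝ => (p.1.1, p.2))
  exact hf.smul (hκ.comp h1)

/-- derivative in the centre -/
lemma U0_hasDerivAt_center {κ : E2 → K} (hκ : Continuous κ) {b : ℝ → ℝ → ℝ} (hb : S2 b) (r s : ℝ) :
    HasDerivAt (fun s => U0 κ r (b s)) (U0 κ r (dr b s)) s := by
  obtain ⟨B, hB0, hB⟩ := hb.taylor s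
  have hbd : ∃ C : ℝ, 0 ≤ C ∧ ∀ θ ∈ Icc (0:ℝ) (2 * Real.pi), ‖κ (pol r θ)‖ ≤ C := by
    have hc : Continuous fun θ : ℝ => κ (pol r θ) :=
      hκ.comp (pol_continuous.comp (by fun_prop : Continuous fun θ : ℝ => (r, θ)))
    obtain ⟨C, hC⟩ := isCompact_Icc.exists_bound_of_continuousOn (s := Icc (0:ℝ) (2 * Real.pi)) hc.continuousOn
    exact ⟨C, (norm_nonneg _).trans (hC 0 ⟨le_rfl, by positivity⟩), hC⟩
  obtain ⟨C, hC0, hC⟩ := hbd
  rw [hasDerivAt_iff_isLittleO]
  refine Asymptotics.IsBigO.trans_isLittleO (g := fun t => (t - s) ^ 2) ?_ ?_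
  · refine Asymptotics.IsBigO.of_bound (Real.sqrt r * (B * C * (2 * Real.pi))) ?_
    have hnb : ∀ᶠ t in 𝓝 s, |t - s| ≤ 1 := by
      have : Continuous fun r : ℝ => |r - s| := by fun_prop
      have h := this.tendsto s
      simp only [sub_self, abs_zero] at h
      exact h.eventually (eventually_le_nhds (by norm_num))
    filter_upwards [hnb] with t ht
    have e1 : U0 κ r (b t) - U0 κ r (b s) - (t - s) • U0 κ r (dr b s) =
        U0 κ r (fun θ => b t θ - b s θ - (t - s) * dr b s θ) := by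
      have h1 := U0_sub hκ r (b := fun θ => b t θ - b s θ) (b' := fun θ => (t - s) * dr b s θ)
        ((hb.cls t).continuous.sub (hb.cls s).continuous)
        (continuous_const.mul (hb.dr.cls s).continuous)
      have h2 := U0_sub hκ r (b := b t) (b' := b s) (hb.cls t).continuous (hb.cls s).continuous
      rw [h1, h2, U0_smul]
    rw [e1]
    unfold U0
    rw [norm_smul, Real.norm_eq_abs, abs_of_nonneg (Real.sqrt_nonneg r)]
    have h2 : ‖∫ θ in (0:ℝ)..(2 * Real.pi), (b t θ - b s θ - (t - s) * dr b s θ) • κ (pol r θ)‖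
        ≤ (B * (t - s) ^ 2 * C) * |2 * Real.pi - 0| := by
      apply intervalIntegral.norm_integral_le_of_norm_le_const
      intro θ hθ
      rw [uIoc_of_le (by positivity)] at hθ
      have hθ' : θ ∈ Icc (0:ℝ) (2 * Real.pi) := Ioc_subset_Icc_self hθ
      rw [norm_smul, Real.norm_eq_abs]
      exact mul_le_mul (hB t ht θ hθ') (hC θ hθ') (norm_nonneg _) (by positivity)
    have h3 : |2 * Real.pi - 0| = 2 * Real.pi := by
      rw [sub_zero, abs_of_pos (by positivity)]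
    rw [h3] at h2
    rw [Real.norm_eq_abs, abs_of_nonneg (sq_nonneg (t - s))]
    calc Real.sqrt r * ‖∫ θ in (0:ℝ)..(2 * Real.pi), (b t θ - b s θ - (t - s) * dr b s θ) • κ (pol r θ)‖
        ≤ Real.sqrt r * ((B * (t - s) ^ 2 * C) * (2 * Real.pi)) := by gcongr
      _ = Real.sqrt r * (B * C * (2 * Real.pi)) * (t - s) ^ 2 := by ring
  · have hq : (fun r : ℝ => (r - s) ^ 2) = fun r => (r - s) * (r - s) := by
      ext r; ring
    rw [hq]
    have h0 : Tendsto (fun r : ℝ => r - s) (𝓝 s) (𝓝 0) := by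
      have : Continuous fun r : ℝ => r - s := by fun_prop
      simpa using this.tendsto s
    have := ((Asymptotics.isLittleO_one_iff ℝ).2 h0).mul_isBigO
      (Asymptotics.isBigO_refl (fun r : ℝ => r - s) (𝓝 s))
    simpa using this

lemma im_inner_self_P {P : K →L[ℂ] K} (Psa : ∀ a b : K, ⟪P a, b⟫_ℂ = ⟪a, P b⟫_ℂ) (a : K) :
    (⟪a, P a⟫_ℂ).im = 0 := by
  have h1 := Psa a a
  have h2 := inner_conj_symm (𝕜 := ℂ) (P a) a
  rw [h1] at h2
  have := congrArg Complex.im h2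
  simp only [Complex.conj_im] at this
  linarith

section core

variable [CompleteSpace K] {V : E2 → ℝ} {Λ : ℝ} (k : Ker V Λ K) {δ : ℝ} (d : AvgKer δ)

/-- the angular second derivative term has no imaginary part -/
lemma ID_zero (r : ℝ) :
    ∫ s in (0:ℝ)..(2 * Real.pi), (⟪U0 k.κ r (d.tr2 s), k.P (U0 k.κ r (dr (dr d.tr2) s))⟫_ℂ).im = 0 := by
  have h1 : ∀ s, HasDerivAt (fun s => U0 k.κ r (d.tr2 s)) (U0 k.κ r (dr d.tr2 s)) s := fun s =>
    U0_hasDerivAt_center k.κcont d.tr2_S2 r s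
  have h2 : ∀ s, HasDerivAt (fun s => U0 k.κ r (dr d.tr2 s)) (U0 k.κ r (dr (dr d.tr2) s)) s := fun s =>
    U0_hasDerivAt_center k.κcont d.tr2_S2.dr r s
  have h3 : ∀ s, HasDerivAt (fun s => (⟪U0 k.κ r (d.tr2 s), k.P (U0 k.κ r (dr d.tr2 s))⟫_ℂ).im)
      (⟪U0 k.κ r (d.tr2 s), k.P (U0 k.κ r (dr (dr d.tr2) s))⟫_ℂ).im s := by
    intro s
    have hP : HasDerivAt (fun s => k.P (U0 k.κ r (dr d.tr2 s))) (k.P (U0 k.κ r (dr (dr d.tr2) s))) s :=
      (k.P.restrictScalars ℝ).hasFDerivAt.comp_hasDerivAt s (h2 s)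
    have h := hasDerivAt_inner_real (h1 s) hP
    have him : HasDerivAt (fun s => (⟪U0 k.κ r (d.tr2 s), k.P (U0 k.κ r (dr d.tr2 s))⟫_ℂ).im)
      (⟪U0 k.κ r (d.tr2 s), k.P (U0 k.κ r (dr (dr d.tr2) s))⟫_ℂ
        + ⟪U0 k.κ r (dr d.tr2 s), k.P (U0 k.κ r (dr d.tr2 s))⟫_ℂ).im s :=
      Complex.imCLM.hasFDerivAt.comp_hasDerivAt s h
    refine him.congr_deriv ?_
    rw [Complex.add_im, im_inner_self_P k.Psa, add_zero]
  have hcont : Continuous fun s => (⟪U0 k.κ r (d.tr2 s), k.P (U0 k.κ r (dr (dr d.tr2) s))⟫_ℂ).im := by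
    have c1 : Continuous fun s => U0 k.κ r (d.tr2 s) :=
      continuous_iff_continuousAt.2 fun s => (h1 s).continuousAt
    have c2 : Continuous fun s => U0 k.κ r (dr (dr d.tr2) s) :=
      continuous_iff_continuousAt.2 fun s =>
        (U0_hasDerivAt_center k.κcont d.tr2_S2.dr.dr r s).continuousAt
    exact Complex.continuous_im.comp (c1.inner (k.P.continuous.comp c2))
  rw [intervalIntegral.integral_eq_sub_of_hasDerivAt (fun s _ => h3 s) (hcont.intervalIntegrable _ _)]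
  -- periodicity
  have p1 : d.tr2 (2 * Real.pi) = d.tr2 0 := by
    ext θ
    simp only [AvgKer.tr2]
    have := d.periodic (0 - θ)
    rw [show 0 - θ + 2 * Real.pi = 2 * Real.pi - θ by ring] at this
    exact this
  have p2 : dr d.tr2 (2 * Real.pi) = dr d.tr2 0 := by
    ext θ
    have h2 : (fun s => d.tr2 (s + 2 * Real.pi) θ) = fun s => d.tr2 s θ := by
      ext s
      simp only [AvgKer.tr2]
      have := d.periodic (s - θ)
      rw [show s - θ + 2 * Real.pi = s + 2 * Real.pi - θ by ring] at this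
      exact this
    have h3 := deriv_comp_add_const (fun s => d.tr2 s θ) (2 * Real.pi) 0
    rw [h2] at h3
    simp only [zero_add] at h3
    exact h3.symm
  rw [p1, p2, sub_self]

lemma norm_κ2_sub (hδ : 0 ≤ δ) {r : ℝ} (hr : 0 ≤ r) (θ : ℝ) :
    ‖(∫ s in (0:ℝ)..(2 * Real.pi), d.D (s - θ) • U0 k.κ r (d.tr2 s)) - Real.sqrt r • k.κ (pol r θ)‖
      ≤ Real.sqrt r * (k.C0 * Real.sqrt (2 * (r * δ))) := by
  have hC := k.C0_nonneg
  have hκθ : Continuous fun θ : ℝ => k.κ (pol r θ) :=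
    k.κcont.comp (pol_continuous.comp (by fun_prop : Continuous fun θ : ℝ => (r, θ)))
  have hDc : Continuous d.D := d.smooth.continuous
  -- pointwise in s
  have h1 : ∀ s, d.D (s - θ) • U0 k.κ r (d.tr2 s) - (d.D (s - θ) * 1) • (Real.sqrt r • k.κ (pol r θ)) =
      d.D (s - θ) • (Real.sqrt r • ∫ θ' in (0:ℝ)..(2 * Real.pi), d.D (s - θ') • (k.κ (pol r θ') - k.κ (pol r θ))) := by
    intro s
    unfold U0
    simp only [smul_sub]
    rw [intervalIntegral.integral_sub, intervalIntegral.integral_smul_const, d.integral_tr s]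
    · simp only [AvgKer.tr2, smul_sub, one_smul, mul_one]
    · exact ((hDc.comp (continuous_const.sub continuous_id)).smul hκθ).intervalIntegrable _ _
    · exact ((hDc.comp (continuous_const.sub continuous_id)).smul continuous_const).intervalIntegrable _ _
  have h2 : (∫ s in (0:ℝ)..(2 * Real.pi), d.D (s - θ) • U0 k.κ r (d.tr2 s)) - Real.sqrt r • k.κ (pol r θ)
      = ∫ s in (0:ℝ)..(2 * Real.pi), d.D (s - θ) •
        (Real.sqrt r • ∫ θ' in (0:ℝ)..(2 * Real.pi), d.D (s - θ') • (k.κ (pol r θ') - k.κ (pol r θ))) := by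
    have e1 : Real.sqrt r • k.κ (pol r θ) =
        ∫ s in (0:ℝ)..(2 * Real.pi), (d.D (s - θ) * 1) • (Real.sqrt r • k.κ (pol r θ)) := by
      rw [intervalIntegral.integral_smul_const]
      simp only [mul_one]
      rw [d.integral_tr' θ, one_smul]
    rw [e1, ← intervalIntegral.integral_sub]
    · apply intervalIntegral.integral_congr
      intro s _
      exact h1 s
    · apply Continuous.intervalIntegrable
      have c1 : Continuous fun s => U0 k.κ r (d.tr2 s) :=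
        continuous_iff_continuousAt.2 fun s =>
          (U0_hasDerivAt_center k.κcont d.tr2_S2 r s).continuousAt
      exact (hDc.comp (continuous_id.sub continuous_const)).smul c1
    · apply Continuous.intervalIntegrable
      fun_prop
  rw [h2]
  -- norm bound
  have hbound : ∀ s, ‖d.D (s - θ) •
        (Real.sqrt r • ∫ θ' in (0:ℝ)..(2 * Real.pi), d.D (s - θ') • (k.κ (pol r θ') - k.κ (pol r θ)))‖
      ≤ d.D (s - θ) * (Real.sqrt r * (k.C0 * Real.sqrt (2 * (r * δ)))) := by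
    intro s
    rw [norm_smul, norm_smul, Real.norm_eq_abs, Real.norm_eq_abs, abs_of_nonneg (d.nonneg _),
      abs_of_nonneg (Real.sqrt_nonneg _)]
    by_cases hs : d.D (s - θ) = 0
    · rw [hs]; simp
    apply mul_le_mul_of_nonneg_left _ (d.nonneg _)
    apply mul_le_mul_of_nonneg_left _ (Real.sqrt_nonneg _)
    have h3 : ‖∫ θ' in (0:ℝ)..(2 * Real.pi), d.D (s - θ') • (k.κ (pol r θ') - k.κ (pol r θ))‖ ≤
        ∫ θ' in (0:ℝ)..(2 * Real.pi), d.D (s - θ') * (k.C0 * Real.sqrt (2 * (r * δ))) := by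
      apply intervalIntegral.norm_integral_le_of_norm_le (by positivity)
      · apply Filter.Eventually.of_forall
        intro θ' _
        rw [norm_smul, Real.norm_eq_abs, abs_of_nonneg (d.nonneg _)]
        by_cases hs' : d.D (s - θ') = 0
        · rw [hs']; simp
        apply mul_le_mul_of_nonneg_left _ (d.nonneg _)
        refine (k.κholder _ _).trans ?_
        apply mul_le_mul_of_nonneg_left _ hC
        apply Real.sqrt_le_sqrt
        have a1 := d.dist_le hδ hr hs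
        have a2 := d.dist_le hδ hr hs'
        calc ‖pol r θ' - pol r θ‖ = ‖(pol r s - pol r θ) - (pol r s - pol r θ')‖ := by congr 1; abel
          _ ≤ ‖pol r s - pol r θ‖ + ‖pol r s - pol r θ'‖ := norm_sub_le _ _
          _ ≤ r * δ + r * δ := add_le_add a1 a2
          _ = 2 * (r * δ) := by ring
      · apply Continuous.intervalIntegrable
        fun_prop
    rw [intervalIntegral.integral_mul_const, d.integral_tr s, one_mul] at h3
    exact h3
  calc ‖∫ s in (0:ℝ)..(2 * Real.pi), d.D (s - θ) •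
        (Real.sqrt r • ∫ θ' in (0:ℝ)..(2 * Real.pi), d.D (s - θ') • (k.κ (pol r θ') - k.κ (pol r θ)))‖
      ≤ ∫ s in (0:ℝ)..(2 * Real.pi), d.D (s - θ) * (Real.sqrt r * (k.C0 * Real.sqrt (2 * (r * δ)))) := by
        apply intervalIntegral.norm_integral_le_of_norm_le (by positivity)
        · apply Filter.Eventually.of_forall
          intro s _
          exact hbound s
        · apply Continuous.intervalIntegrable
          fun_prop
    _ = Real.sqrt r * (k.C0 * Real.sqrt (2 * (r * δ))) := by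
        rw [intervalIntegral.integral_mul_const, d.integral_tr' θ, one_mul]

lemma im_inner_integral {f : ℝ → K} (hf : Continuous f) (b : K) (a₁ a₂ : ℝ) :
    (⟪∫ s in a₁..a₂, f s, b⟫_ℂ).im = ∫ s in a₁..a₂, (⟪f s, b⟫_ℂ).im := by
  have h1 : ∀ a : K, (⟪a, b⟫_ℂ).im = - (⟪b, a⟫_ℂ).im := by
    intro a
    have := inner_conj_symm (𝕜 := ℂ) a b
    rw [← this, Complex.conj_im]
  have h2 : ∀ a : K, (⟪b, a⟫_ℂ).im = (Complex.imCLM.comp ((innerSL ℂ b).restrictScalars ℝ)) a := by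
    intro a; rfl
  simp only [h1, h2]
  rw [← ContinuousLinearMap.intervalIntegral_comp_comm _ (hf.intervalIntegrable _ _),
    intervalIntegral.integral_neg]

lemma im_inner_integral_right {f : ℝ → K} (hf : Continuous f) (a : K) (P : K →L[ℂ] K) (a₁ a₂ : ℝ) :
    (⟪a, P (∫ s in a₁..a₂, f s)⟫_ℂ).im = ∫ s in a₁..a₂, (⟪a, P (f s)⟫_ℂ).im := by
  have h2 : ∀ b : K, (⟪a, P b⟫_ℂ).im =
      (Complex.imCLM.comp (((innerSL ℂ a).comp P).restrictScalars ℝ)) b := by
    intro a; rfl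
  simp only [h2]
  rw [← ContinuousLinearMap.intervalIntegral_comp_comm _ (hf.intervalIntegrable _ _)]

/-- the contribution of the potential inside -/
lemma IV_le (hδ : 0 ≤ δ) {r : ℝ} (hr : 0 ≤ r) {v : ℝ → ℝ} (hv : Continuous v) {h0 : ℝ}
    (hvb : ∀ θ, |v θ| ≤ h0) :
    |∫ s in (0:ℝ)..(2 * Real.pi), (⟪U0 k.κ r (d.tr2 s),
      k.P (U0 k.κ r (fun θ => v θ * d.tr2 s θ))⟫_ℂ).im|
      ≤ 2 * Real.pi * (r * (h0 * (k.C0 ^ 2 * Real.sqrt (2 * (r * δ))))) := by
  have hC := k.C0_nonneg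
  have hh0 : 0 ≤ h0 := (abs_nonneg _).trans (hvb 0)
  have hκθ : Continuous fun θ : ℝ => k.κ (pol r θ) :=
    k.κcont.comp (pol_continuous.comp (by fun_prop : Continuous fun θ : ℝ => (r, θ)))
  have hDc : Continuous d.D := d.smooth.continuous
  have hx : Continuous fun s => U0 k.κ r (d.tr2 s) :=
    continuous_iff_continuousAt.2 fun s => (U0_hasDerivAt_center k.κcont d.tr2_S2 r s).continuousAt
  set F : ℝ → ℝ → ℝ := fun s θ =>
    (Real.sqrt r * v θ) * (d.D (s - θ) * (⟪U0 k.κ r (d.tr2 s), k.P (k.κ (pol r θ))⟫_ℂ).im) with hF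
  have hFc : Continuous F.uncurry := by
    have c1 : Continuous fun p : ℝ × ℝ => (⟪U0 k.κ r (d.tr2 p.1), k.P (k.κ (pol r p.2))⟫_ℂ).im :=
      Complex.continuous_im.comp ((hx.comp continuous_fst).inner (k.P.continuous.comp (hκθ.comp continuous_snd)))
    simp only [hF, Function.uncurry_def]
    fun_prop
  have h1 : ∀ s, (⟪U0 k.κ r (d.tr2 s), k.P (U0 k.κ r (fun θ => v θ * d.tr2 s θ))⟫_ℂ).im =
      ∫ θ in (0:ℝ)..(2 * Real.pi), F s θ := by
    intro s
    have e : U0 k.κ r (fun θ => v θ * d.tr2 s θ) =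
        ∫ θ in (0:ℝ)..(2 * Real.pi), (Real.sqrt r * (v θ * d.D (s - θ))) • k.κ (pol r θ) := by
      unfold U0
      rw [← intervalIntegral.integral_smul]
      simp only [smul_smul, AvgKer.tr2]
    rw [e, im_inner_integral_right (by fun_prop)]
    apply intervalIntegral.integral_congr
    intro θ _
    simp only [hF]
    have e2 : k.P ((Real.sqrt r * (v θ * d.D (s - θ))) • k.κ (pol r θ)) =
        ((Real.sqrt r * (v θ * d.D (s - θ)) : ℝ) : ℂ) • k.P (k.κ (pol r θ)) := by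
      rw [← map_smul]; rfl
    rw [e2, inner_smul_right, Complex.im_ofReal_mul]
    ring
  simp only [h1]
  rw [intervalIntegral_intervalIntegral_swap]
  swap
  · apply (hFc.continuousOn.integrableOn_compact (isCompact_uIcc.prod isCompact_uIcc)).mono_set
    exact Set.prod_mono uIoc_subset_uIcc uIoc_subset_uIcc
  have h2 : ∀ θ, ∫ s in (0:ℝ)..(2 * Real.pi), F s θ = (Real.sqrt r * v θ) *
      (⟪(∫ s in (0:ℝ)..(2 * Real.pi), d.D (s - θ) • U0 k.κ r (d.tr2 s)) - Real.sqrt r • k.κ (pol r θ),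
        k.P (k.κ (pol r θ))⟫_ℂ).im := by
    intro θ
    simp only [hF]
    rw [intervalIntegral.integral_const_mul]
    congr 1
    rw [inner_sub_left, Complex.sub_im]
    have e3 : (⟪Real.sqrt r • k.κ (pol r θ), k.P (k.κ (pol r θ))⟫_ℂ).im = 0 := by
      have e4 : Real.sqrt r • k.κ (pol r θ) = ((Real.sqrt r : ℝ) : ℂ) • k.κ (pol r θ) := rfl
      rw [e4, inner_smul_left, Complex.conj_ofReal, Complex.im_ofReal_mul, im_inner_self_P k.Psa, mul_zero]
    rw [e3, sub_zero, im_inner_integral]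
    · apply intervalIntegral.integral_congr
      intro s _
      simp only
      have e4 : d.D (s - θ) • U0 k.κ r (d.tr2 s) = ((d.D (s - θ) : ℝ) : ℂ) • U0 k.κ r (d.tr2 s) := rfl
      rw [e4, inner_smul_left, Complex.conj_ofReal, Complex.im_ofReal_mul]
    · exact (hDc.comp (continuous_id.sub continuous_const)).smul hx
  simp only [h2]
  have h3 : ∀ θ, ‖(Real.sqrt r * v θ) *
      (⟪(∫ s in (0:ℝ)..(2 * Real.pi), d.D (s - θ) • U0 k.κ r (d.tr2 s)) - Real.sqrt r • k.κ (pol r θ),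
        k.P (k.κ (pol r θ))⟫_ℂ).im‖ ≤ r * (h0 * (k.C0 ^ 2 * Real.sqrt (2 * (r * δ)))) := by
    intro θ
    rw [norm_mul, norm_mul, Real.norm_eq_abs, Real.norm_eq_abs, Real.norm_eq_abs,
      abs_of_nonneg (Real.sqrt_nonneg r)]
    have a1 := im_inner_P_le k.P k.hP ((∫ s in (0:ℝ)..(2 * Real.pi), d.D (s - θ) • U0 k.κ r (d.tr2 s))
      - Real.sqrt r • k.κ (pol r θ)) (k.κ (pol r θ))
    have a2 := norm_κ2_sub k d hδ hr θ
    have a3 := k.κbd (pol r θ)
    calc Real.sqrt r * |v θ| * |(⟪(∫ s in (0:ℝ)..(2 * Real.pi), d.D (s - θ) • U0 k.κ r (d.tr2 s))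
          - Real.sqrt r • k.κ (pol r θ), k.P (k.κ (pol r θ))⟫_ℂ).im|
        ≤ Real.sqrt r * h0 * ((Real.sqrt r * (k.C0 * Real.sqrt (2 * (r * δ)))) * k.C0) := by
          apply mul_le_mul
          · exact mul_le_mul_of_nonneg_left (hvb θ) (Real.sqrt_nonneg _)
          · exact a1.trans (mul_le_mul a2 a3 (norm_nonneg _) (by positivity))
          · exact abs_nonneg _
          · positivity
      _ = (Real.sqrt r * Real.sqrt r) * (h0 * (k.C0 ^ 2 * Real.sqrt (2 * (r * δ)))) := by ring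
      _ = r * (h0 * (k.C0 ^ 2 * Real.sqrt (2 * (r * δ)))) := by rw [Real.mul_self_sqrt hr]
  have h4 := intervalIntegral.norm_integral_le_of_norm_le_const (a := 0) (b := 2 * Real.pi)
    (fun θ _ => h3 θ)
  rw [Real.norm_eq_abs] at h4
  refine h4.trans (le_of_eq ?_)
  rw [sub_zero, abs_of_pos (by positivity)]
  ring

lemma AvgKer.exists_bound : ∃ B : ℝ, 0 ≤ B ∧ ∀ α, d.D α ≤ B := by
  obtain ⟨B, hB⟩ := isCompact_Icc.exists_bound_of_continuousOn (s := Icc (0:ℝ) (2 * Real.pi))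
    d.smooth.continuous.continuousOn
  refine ⟨B, (norm_nonneg _).trans (hB 0 ⟨le_rfl, by positivity⟩), ?_⟩
  intro α
  obtain ⟨y, hy, hy2⟩ := d.periodic.exists_mem_Ico₀ (by positivity) α
  rw [hy2]
  exact (le_abs_self _).trans (hB y (Ico_subset_Icc_self hy))

lemma AvgKer.nS_tr_le {B : ℝ} (hB0 : 0 ≤ B) (hB : ∀ α, d.D α ≤ B) (s : ℝ) :
    nS (d.tr2 s) ≤ Real.sqrt (2 * Real.pi) * B := by
  apply nS_le hB0 (d.tr2_S2.cls s).continuous
  intro θ _
  have e : d.tr2 s θ = d.D (s - θ) := rfl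
  rw [e, abs_of_nonneg (d.nonneg _)]
  exact hB _

lemma norm_U0_tr_le {r : ℝ} (s : ℝ) : ‖U0 k.κ r (d.tr2 s)‖ ≤ Real.sqrt r * k.C0 := by
  unfold U0
  rw [norm_smul, Real.norm_eq_abs, abs_of_nonneg (Real.sqrt_nonneg _)]
  apply mul_le_mul_of_nonneg_left _ (Real.sqrt_nonneg _)
  have hDc : Continuous d.D := d.smooth.continuous
  have h3 : ‖∫ θ' in (0:ℝ)..(2 * Real.pi), d.tr2 s θ' • k.κ (pol r θ')‖ ≤
        ∫ θ' in (0:ℝ)..(2 * Real.pi), d.D (s - θ') * k.C0 := by
    apply intervalIntegral.norm_integral_le_of_norm_le (by positivity)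
    · apply Filter.Eventually.of_forall
      intro θ' _
      rw [norm_smul, Real.norm_eq_abs, AvgKer.tr2, abs_of_nonneg (d.nonneg _)]
      exact mul_le_mul_of_nonneg_left (k.κbd _) (d.nonneg _)
    · apply Continuous.intervalIntegrable
      fun_prop
  rw [intervalIntegral.integral_mul_const, d.integral_tr s, one_mul] at h3
  exact h3

/-- flux identity for the averaged kernel -/
lemma inner_flux (hV : Continuous V) {r₁ R : ℝ} (h0 : 0 < r₁) (h1 : r₁ ≤ R) (s : ℝ) :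
    (⟪U0 k.κ R (d.tr2 s), k.P (k.U1 R (d.tr2 s))⟫_ℂ).im
      - (⟪U0 k.κ r₁ (d.tr2 s), k.P (k.U1 r₁ (d.tr2 s))⟫_ℂ).im =
    ∫ r in r₁..R, ((k.c / 2 * ‖k.ev (U0 k.κ r (d.tr2 s))‖ ^ 2
      + (⟪U0 k.κ r (d.tr2 s), k.P (U0 k.κ r (fun θ => V (pol r θ) * d.tr2 s θ))⟫_ℂ).im)
      - (1 / r ^ 2) * (⟪U0 k.κ r (d.tr2 s), k.P (U0 k.κ r (dr (dr d.tr2) s))⟫_ℂ).im) := by
  symm
  have hcl := d.tr2_S2.cls s
  have hid : ∀ r, U0 k.κ r (fun θ => iteratedDeriv 2 (d.tr2 s) θ + d.tr2 s θ / 4) =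
      U0 k.κ r (dr (dr d.tr2) s) + (1 / 4 : ℝ) • U0 k.κ r (d.tr2 s) := by
    intro r
    have e1 : ∀ θ, iteratedDeriv 2 (d.tr2 s) θ = dr (dr d.tr2) s θ := by
      intro θ
      have h2 : ∀ (g : ℝ → ℝ), deriv (fun θ => g (s - θ)) = fun θ => - deriv g (s - θ) := by
        intro g
        ext θ
        exact deriv_comp_const_sub g s θ
      have h3 : ∀ (g : ℝ → ℝ) t, deriv (fun s => g (s - t)) = fun s => deriv g (s - t) := by
        intro g t
        ext x
        exact deriv_comp_sub_const g t x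
      rw [iteratedDeriv_succ, iteratedDeriv_one]
      have e2 : d.tr2 s = fun θ => d.D (s - θ) := rfl
      rw [e2, h2]
      have e3 : deriv (fun θ => - deriv d.D (s - θ)) θ = deriv (deriv d.D) (s - θ) := by
        have e5 : (fun θ => - deriv d.D (s - θ)) = - (fun θ => deriv d.D (s - θ)) := rfl
        rw [e5, deriv.neg, h2]
        ring
      rw [e3]
      have e4 : ∀ s, dr d.tr2 s θ = deriv d.D (s - θ) := by
        intro s
        simp only [dr, AvgKer.tr2]
        rw [h3]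
      simp only [dr]
      have e6 : (fun s => deriv (fun s => d.tr2 s θ) s) = fun s => deriv d.D (s - θ) := by
        ext s; exact e4 s
      rw [e6, h3]
    have e7 : (fun θ => iteratedDeriv 2 (d.tr2 s) θ + d.tr2 s θ / 4) =
        fun θ => dr (dr d.tr2) s θ + (1 / 4) * d.tr2 s θ := by
      ext θ
      rw [e1 θ]; ring
    have e8 := U0_add k.κcont r (b := dr (dr d.tr2) s) (b' := fun θ => (1 / 4) * d.tr2 s θ)
      (d.tr2_S2.dr.dr.cls s).continuous (continuous_const.mul hcl.continuous)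
    rw [e7, e8, U0_smul]
  have hd : ∀ r ∈ uIcc r₁ R, HasDerivAt (fun r => (⟪U0 k.κ r (d.tr2 s), k.P (k.U1 r (d.tr2 s))⟫_ℂ).im)
      ((k.c / 2 * ‖k.ev (U0 k.κ r (d.tr2 s))‖ ^ 2
      + (⟪U0 k.κ r (d.tr2 s), k.P (U0 k.κ r (fun θ => V (pol r θ) * d.tr2 s θ))⟫_ℂ).im)
      - (1 / r ^ 2) * (⟪U0 k.κ r (d.tr2 s), k.P (U0 k.κ r (dr (dr d.tr2) s))⟫_ℂ).im) r := by
    intro r hr
    rw [uIcc_of_le h1] at hr
    have hr0 : 0 < r := lt_of_lt_of_le h0 hr.1
    have a1 := k.S0 _ hcl r hr0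
    have a2 := k.S1 _ hcl r hr0
    have a3 : HasDerivAt (fun r => k.U1 r (d.tr2 s)) (- k.M (U0 k.κ r (d.tr2 s))
        + (-(1 / (4 * r ^ 2)) : ℝ) • U0 k.κ r (d.tr2 s)
        + (U0 k.κ r (fun θ => V (pol r θ) * d.tr2 s θ) - (1 / r ^ 2) • U0 k.κ r (dr (dr d.tr2) s))) r := by
      refine a2.congr_deriv ?_
      rw [hid r]
      have : (1 / (4 * r ^ 2) : ℝ) = (1 / r ^ 2) * (1 / 4) := by
        field_simp
      rw [this]
      module
    have a4 := flux_hasDerivAt k.M k.P k.ev k.c k.Psa k.comm (X := fun r => U0 k.κ r (d.tr2 s))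
      (X1 := fun r => k.U1 r (d.tr2 s)) a1 a3
    refine a4.congr_deriv ?_
    rw [map_sub, inner_sub_right, Complex.sub_im]
    have e2 : k.P ((1 / r ^ 2) • U0 k.κ r (dr (dr d.tr2) s)) =
        ((1 / r ^ 2 : ℝ) : ℂ) • k.P (U0 k.κ r (dr (dr d.tr2) s)) := by
      rw [← map_smul]; rfl
    rw [e2, inner_smul_right, Complex.im_ofReal_mul]
    ring
  apply intervalIntegral.integral_eq_sub_of_hasDerivAt hd
  apply ContinuousOn.intervalIntegrable
  rw [uIcc_of_le h1]
  have cx : Continuous fun r => U0 k.κ r (d.tr2 s) := by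
    have := U0_continuous2 k.κcont (f := fun _ s θ => d.tr2 s θ)
      (d.tr2_S2.continuous.comp (by fun_prop : Continuous fun p : (ℝ × ℝ) × ℝ => (p.1.2, p.2)))
    exact this.comp (by fun_prop : Continuous fun r : ℝ => (r, s))
  have cw : Continuous fun r => U0 k.κ r (fun θ => V (pol r θ) * d.tr2 s θ) := by
    have := U0_continuous2 k.κcont (f := fun r s θ => V (pol r θ) * d.tr2 s θ)
      ((hV.comp (pol_continuous.comp (by fun_prop : Continuous fun p : (ℝ × ℝ) × ℝ => (p.1.1, p.2)))).mul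
      (d.tr2_S2.continuous.comp (by fun_prop : Continuous fun p : (ℝ × ℝ) × ℝ => (p.1.2, p.2))))
    exact this.comp (by fun_prop : Continuous fun r : ℝ => (r, s))
  have cy : Continuous fun r => U0 k.κ r (dr (dr d.tr2) s) := by
    have := U0_continuous2 k.κcont (f := fun _ s θ => dr (dr d.tr2) s θ)
      (d.tr2_S2.dr.dr.continuous.comp (by fun_prop : Continuous fun p : (ℝ × ℝ) × ℝ => (p.1.2, p.2)))
    exact this.comp (by fun_prop : Continuous fun r : ℝ => (r, s))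
  have c1 : Continuous fun r => ‖k.ev (U0 k.κ r (d.tr2 s))‖ ^ 2 := by fun_prop
  have c2 : Continuous fun r => (⟪U0 k.κ r (d.tr2 s), k.P (U0 k.κ r (fun θ => V (pol r θ) * d.tr2 s θ))⟫_ℂ).im :=
    Complex.continuous_im.comp (cx.inner (k.P.continuous.comp cw))
  have c3 : Continuous fun r => (⟪U0 k.κ r (d.tr2 s), k.P (U0 k.κ r (dr (dr d.tr2) s))⟫_ℂ).im :=
    Complex.continuous_im.comp (cx.inner (k.P.continuous.comp cy))
  have c4 : ContinuousOn (fun r : ℝ => 1 / r ^ 2) (Icc r₁ R) := by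
    apply ContinuousOn.div continuousOn_const (by fun_prop)
    intro r hr
    have : 0 < r := lt_of_lt_of_le h0 hr.1
    positivity
  exact ((continuousOn_const.mul c1.continuousOn).add c2.continuousOn).sub (c4.mul c3.continuousOn)

end core

end MP3a4792
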