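import Pool.Agent.Lib.MP_3a4792_mp.Base

open MeasureTheory Set InnerProductSpace Filter Topology
open scoped ContDiff Laplacian InnerProductSpace

noncomputable section

namespace MP3a4792

/-- `C²` and `2π`-periodic real functions -/
def Cls (b : ℝ → ℝ) : Prop := ContDiff ℝ 2 b ∧ Function.Periodic b (2 * Real.pi)

/-- `L²` norm over one period -/
def nS (b : ℝ → ℝ) : ℝ := Real.sqrt (∫ θ in (0:ℝ)..(2 * Real.pi), (b θ) ^ 2)

/-- circle pairing -/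
def U0 {K : Type*} [NormedAddCommGroup K] [NormedSpace ℝ K] (κ : E2 → K) (r : ℝ) (b : ℝ → ℝ) : K :=
  Real.sqrt r • ∫ θ in (0:ℝ)..(2 * Real.pi), b θ • κ (pol r θ)

/-- the interface: a generalized eigenfunction kernel with its circle pairings -/
structure Ker (V : E2 → ℝ) (Λ : ℝ) (K : Type*) [NormedAddCommGroup K] [InnerProductSpace ℂ K]
    [CompleteSpace K] where
  M : K →L[ℂ] K
  P : K →L[ℂ] K
  ev : K →L[ℂ] ℂ
  c : ℝ
  κ : E2 → K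
  U1 : ℝ → (ℝ → ℝ) → K
  C0 : ℝ
  hc : 0 < c
  hM : ‖M‖ ≤ Λ
  hP : ‖P‖ ≤ 1
  Msa : ∀ a b : K, ⟪M a, b⟫_ℂ = ⟪a, M b⟫_ℂ
  Psa : ∀ a b : K, ⟪P a, b⟫_ℂ = ⟪a, P b⟫_ℂ
  comm : ∀ a b : K, ⟪M a, P b⟫_ℂ - ⟪a, P (M b)⟫_ℂ =
    Complex.I * (c : ℂ) * (starRingEnd ℂ (ev a) * ev b)
  κbd : ∀ x, ‖κ x‖ ≤ C0
  κholder : ∀ x y, ‖κ x - κ y‖ ≤ C0 * Real.sqrt ‖x - y‖
  U1add : ∀ r b b', 0 < r → Cls b → Cls b' → U1 r (fun θ => b θ + b' θ) = U1 r b + U1 r b'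
  U1smul : ∀ r (t : ℝ) b, 0 < r → Cls b → U1 r (fun θ => t * b θ) = t • U1 r b
  S0 : ∀ b, Cls b → ∀ r, 0 < r → HasDerivAt (fun r => U0 κ r b) (U1 r b) r
  S1 : ∀ b, Cls b → ∀ r, 0 < r → HasDerivAt (fun r => U1 r b)
    (- M (U0 κ r b) + U0 κ r (fun θ => V (pol r θ) * b θ)
      - (1 / r ^ 2) • U0 κ r (fun θ => iteratedDeriv 2 b θ + b θ / 4)) r
  B0 : ∀ b, Cls b → ∀ r, 0 < r → ‖U0 κ r b‖ ≤ C0 * nS b
  B1 : ∀ b, Cls b → ∀ r, 0 < r → ‖U1 r b - (1 / (2 * r)) • U0 κ r b‖ ≤ C0 * nS b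

variable {K : Type*} [NormedAddCommGroup K] [InnerProductSpace ℂ K] [CompleteSpace K]
variable {V : E2 → ℝ} {Λ : ℝ}

lemma pol_continuous : Continuous (fun p : ℝ × ℝ => pol p.1 p.2) := by
  unfold pol
  apply (PiLp.continuous_toLp 2 _).comp
  apply continuous_pi
  intro i
  fin_cases i <;> simp <;> fun_prop

lemma norm_pol_sub_sq (r θ θ' : ℝ) :
    ‖pol r θ - pol r θ'‖ ^ 2 = 2 * r ^ 2 * (1 - Real.cos (θ - θ')) := by
  rw [EuclideanSpace.norm_sq_eq]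
  simp only [pol, Fin.sum_univ_two, PiLp.sub_apply, Real.norm_eq_abs, sq_abs]
  simp
  rw [Real.cos_sub]
  have h1 := Real.sin_sq_add_cos_sq θ
  have h2 := Real.sin_sq_add_cos_sq θ'
  ring_nf
  nlinarith [h1, h2]

lemma norm_pol (r θ : ℝ) : ‖pol r θ‖ = |r| := by
  have : ‖pol r θ‖ ^ 2 = r ^ 2 := by
    rw [EuclideanSpace.norm_sq_eq]
    simp [pol, Fin.sum_univ_two, mul_pow]
    have h1 := Real.sin_sq_add_cos_sq θ
    nlinarith
  rw [← abs_norm, ← sq_eq_sq_iff_abs_eq_abs]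
  simpa using this

namespace Ker

variable (k : Ker V Λ K)

lemma κcont : Continuous k.κ := by
  rw [continuous_iff_continuousAt]
  intro x
  rw [ContinuousAt, tendsto_iff_norm_sub_tendsto_zero]
  refine squeeze_zero (fun y => norm_nonneg _) (fun y => k.κholder y x) ?_
  have h : Continuous fun y : E2 => k.C0 * Real.sqrt ‖y - x‖ := by fun_prop
  have := h.tendsto x
  simpa using this

end Ker

end MP3a4792
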