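import Pool.Agent.Lib.MP_3a4792_mp.Kernel1

/-! The kernel of an intertwiner: main theorem. -/

open MeasureTheory Set InnerProductSpace Filter Topology
open scoped ContDiff Laplacian InnerProductSpace SchwartzMap LineDeriv

noncomputable section

set_option linter.unusedSectionVars false

namespace MP3a4792

open KerAux in
theorem exists_ker {K : Type*} [NormedAddCommGroup K] [InnerProductSpace ℂ K] [CompleteSpace K]
    (V : E2 → ℝ) (hV : ContDiff ℝ ∞ V) (hb : ∃ h : ℝ, ∀ x, |V x| ≤ h) {Λ : ℝ}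
    (M P : K →L[ℂ] K) (ev : K →L[ℂ] ℂ) (c : ℝ) (hc : 0 < c) (hM : ‖M‖ ≤ Λ) (hP : ‖P‖ ≤ 1)
    (Msa : ∀ a b : K, ⟪M a, b⟫_ℂ = ⟪a, M b⟫_ℂ) (Psa : ∀ a b : K, ⟪P a, b⟫_ℂ = ⟪a, P b⟫_ℂ)
    (comm : ∀ a b : K, ⟪M a, P b⟫_ℂ - ⟪a, P (M b)⟫_ℂ =
      Complex.I * (c : ℂ) * (starRingEnd ℂ (ev a) * ev b))
    (T : K →L[ℂ] L2E) (hT : ∀ g, (T g, T (M g)) ∈ closure (graph0 V hV)) :
    ∃ k : Ker V Λ K, k.c = c ∧ k.ev = ev ∧
      ∀ u : TF, (ContinuousLinearMap.adjoint T) (toL2 u) = ∫ x, u.1 x • k.κ x := by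
  obtain ⟨h, hb⟩ := hb
  have h0 : 0 ≤ h := (abs_nonneg _).trans (hb 0)
  obtain ⟨C, hC, hSob⟩ := exists_sobolev_const
  set A : ℝ := C * (1 + h) with hA
  have hA0 : 0 ≤ A := by positivity
  set C0 : ℝ := A * (‖T‖ * (1 + ‖M‖)) with hC0
  have hC00 : 0 ≤ C0 := by positivity
  have hN : ∀ u : TF, C * N2 u ≤ A * NH V hV u := by
    intro u
    rw [hA, mul_assoc]
    exact mul_le_mul_of_nonneg_left (N2_le hV hb u) hC.le
  have hCN : ∀ u : TF, 0 ≤ C * N2 u := fun u => mul_nonneg hC.le (Sob.N2_nonneg u)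
  -- the kernel
  have hex : ∀ x : E2, ∃ φ : K, Rep V hV M T (2 * A) (evL x) φ := fun x =>
    exists_rep hA0 fun u => ((hSob u).1 x).trans (hN u)
  choose κ hκ' using hex
  have hκ : ∀ x, Rep V hV M T (2 * A) (fun u => u.1 x) (κ x) := hκ'
  have h2A : 0 ≤ 2 * A := by positivity
  have κbd : ∀ x, ‖κ x‖ ≤ C0 := fun x =>
    (hκ x).norm_le hT hA0 fun u => ((hSob u).1 x).trans (hN u)
  have κholder : ∀ x y, ‖κ x - κ y‖ ≤ C0 * Real.sqrt ‖x - y‖ := by
    intro x y
    have h1 := ((hκ x).sub (hκ y)).norm_le hT (A := A * Real.sqrt ‖x - y‖) (by positivity) (fun u => by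
      refine ((hSob u).2.1 x y).trans ?_
      have := mul_le_mul_of_nonneg_left (hN u) (Real.sqrt_nonneg ‖x - y‖)
      linarith)
    refine h1.trans (le_of_eq ?_)
    rw [hC0]
    ring
  have κcont : Continuous κ := by
    rw [continuous_iff_continuousAt]
    intro x
    rw [ContinuousAt, tendsto_iff_norm_sub_tendsto_zero]
    refine squeeze_zero (fun y => norm_nonneg _) (fun y => κholder y x) ?_
    have h : Continuous fun y : E2 => C0 * Real.sqrt ‖y - x‖ := by fun_prop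
    have := h.tendsto x
    simpa using this
  -- bounds of the functionals
  have bd0 : ∀ (b : ℝ → ℝ), Continuous b → ∀ r, 0 < r → ∀ u : TF, ‖U0 u.1 r b‖ ≤ nS b * (C * N2 u) :=
    fun b hbc r hr u => pairing_le hbc (cont_θ u r) hr (hCN u) ((hSob u).2.2.1 r hr)
  have bdd : ∀ (b : ℝ → ℝ), Continuous b → ∀ r, 0 < r → ∀ u : TF, ‖Ld u r b‖ ≤ nS b * (C * N2 u) := by
    intro b hbc r hr u
    have hcd : Continuous fun θ : ℝ => fderiv ℝ u.1 (pol r θ) (pol 1 θ) := by
      simp_rw [fderiv_pol_one]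
      have h1 := cont_θ (Sob.dd (Sob.e 0) u) r
      have h2 := cont_θ (Sob.dd (Sob.e 1) u) r
      exact ((Complex.continuous_ofReal.comp Real.continuous_cos).mul h1).add
        ((Complex.continuous_ofReal.comp Real.continuous_sin).mul h2)
    exact pairing_le hbc hcd hr (hCN u) ((hSob u).2.2.2 r hr)
  have bd1 : ∀ (b : ℝ → ℝ), Continuous b → ∀ r, 0 < r → ∀ u : TF,
      ‖L1 u r b‖ ≤ (nS b * (1 / (2 * r) + 1) * A) * NH V hV u := by
    intro b hbc r hr u
    have h1 := bd0 b hbc r hr u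
    have h2 := bdd b hbc r hr u
    have h3 : ‖L1 u r b‖ ≤ (1 / (2 * r)) * ‖U0 u.1 r b‖ + ‖Ld u r b‖ := by
      refine (norm_add_le _ _).trans ?_
      rw [norm_smul, Real.norm_eq_abs, abs_of_pos (by positivity)]
    have h4 : (1 / (2 * r)) * ‖U0 u.1 r b‖ ≤ (1 / (2 * r)) * (nS b * (C * N2 u)) :=
      mul_le_mul_of_nonneg_left h1 (by positivity)
    have h5 : nS b * (1 / (2 * r) + 1) * (C * N2 u) ≤ nS b * (1 / (2 * r) + 1) * (A * NH V hV u) :=
      mul_le_mul_of_nonneg_left (hN u) (mul_nonneg (nS_nonneg b) (by positivity))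
    linarith
  have hex1 : ∀ (r : ℝ) (b : ℝ → ℝ), ∃ φ : K, 0 < r → Continuous b →
      Rep V hV M T (2 * (nS b * (1 / (2 * r) + 1) * A)) (fun u => L1 u r b) φ := by
    intro r b
    by_cases hr : 0 < r
    · by_cases hbc : Continuous b
      · obtain ⟨φ, hφ⟩ := exists_rep (V := V) (hV := hV) (M := M) (T := T) (ℓ := L1L r hr b hbc)
          (A := nS b * (1 / (2 * r) + 1) * A)
          (mul_nonneg (mul_nonneg (nS_nonneg b) (by positivity)) hA0) (bd1 b hbc r hr)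
        exact ⟨φ, fun _ _ => hφ⟩
      · exact ⟨0, fun _ h => absurd h hbc⟩
    · exact ⟨0, fun h => absurd h hr⟩
  choose U1 hU1 using hex1
  -- representers of the circle pairings
  have hU0 : ∀ (b : ℝ → ℝ), Continuous b → ∀ r, ∃ C', Rep V hV M T C' (fun u => U0 u.1 r b) (U0 κ r b) := by
    intro b hbc r
    obtain ⟨B, hB⟩ := (isCompact_Icc.image_of_continuousOn (s := Icc (0:ℝ) (2 * Real.pi))
      hbc.continuousOn).isBounded.exists_norm_le
    exact ⟨_, rep_U0 h2A hκ κcont hbc r (fun θ hθ => hB _ ⟨θ, hθ, rfl⟩)⟩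
  have B0 : ∀ b, Cls b → ∀ r, 0 < r → ‖U0 κ r b‖ ≤ C0 * nS b := by
    intro b hbC r hr
    obtain ⟨C', h1⟩ := hU0 b hbC.1.continuous r
    have h2 := h1.norm_le hT (A := nS b * A) (mul_nonneg (nS_nonneg b) hA0) (fun u => by
      refine (bd0 b hbC.1.continuous r hr u).trans ?_
      rw [mul_assoc]
      exact mul_le_mul_of_nonneg_left (hN u) (nS_nonneg b))
    refine h2.trans (le_of_eq ?_)
    rw [hC0]
    ring
  have B1 : ∀ b, Cls b → ∀ r, 0 < r → ‖U1 r b - (1 / (2 * r)) • U0 κ r b‖ ≤ C0 * nS b := by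
    intro b hbC r hr
    obtain ⟨C', h1⟩ := hU0 b hbC.1.continuous r
    have h2 := ((hU1 r b hr hbC.1.continuous).sub (h1.smul (1 / (2 * r)))).norm_le hT
      (A := nS b * A) (mul_nonneg (nS_nonneg b) hA0) (fun u => by
      have e : L1 u r b - ((1 / (2 * r) : ℝ) : ℂ) * U0 u.1 r b = Ld u r b := by
        unfold L1
        rw [Complex.real_smul]
        ring
      rw [e]
      refine (bdd b hbC.1.continuous r hr u).trans ?_
      rw [mul_assoc]
      exact mul_le_mul_of_nonneg_left (hN u) (nS_nonneg b))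
    refine h2.trans (le_of_eq ?_)
    rw [hC0]
    ring
  have U1add : ∀ r b b', 0 < r → Cls b → Cls b' → U1 r (fun θ => b θ + b' θ) = U1 r b + U1 r b' := by
    intro r b b' hr hbC hbC'
    have h1 := hU1 r (fun θ => b θ + b' θ) hr (hbC.1.continuous.add hbC'.1.continuous)
    have h2 := (hU1 r b hr hbC.1.continuous).add (hU1 r b' hr hbC'.1.continuous)
    exact h1.unique hT (h2.congr fun u => (L1_add_b u hr hbC.1.continuous hbC'.1.continuous).symm)
  have U1smul : ∀ r (t : ℝ) b, 0 < r → Cls b → U1 r (fun θ => t * b θ) = t • U1 r b := by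
    intro r t b hr hbC
    have h1 := hU1 r (fun θ => t * b θ) hr (continuous_const.mul hbC.1.continuous)
    have h2 := (hU1 r b hr hbC.1.continuous).smul t
    exact h1.unique hT (h2.congr fun u => (L1_smul_b u hr hbC.1.continuous t).symm)
  have S1i : ∀ b, Cls b → ∀ r₁ r₂, 0 < r₁ → r₁ ≤ r₂ → U1 r₂ b - U1 r₁ b = ∫ r in r₁..r₂, WW V M κ b r :=
    fun b hbC r₁ r₂ h1 h12 => S1_int hT Msa h2A hκ κcont hbC h1 h12 (hU1 r₁ b h1 hbC.1.continuous)
      (hU1 r₂ b (lt_of_lt_of_le h1 h12) hbC.1.continuous)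
  have S1 : ∀ b, Cls b → ∀ r, 0 < r → HasDerivAt (fun r => U1 r b) (WW V M κ b r) r :=
    fun b hbC r hr => hasDerivAt_of_int (S1i b hbC) (contOn_WW κcont hV.continuous hbC) hr
  have U1c : ∀ b, Cls b → ContinuousOn (fun r => U1 r b) (Ioi 0) :=
    fun b hbC r hr => (S1 b hbC r hr).continuousAt.continuousWithinAt
  have S0 : ∀ b, Cls b → ∀ r, 0 < r → HasDerivAt (fun r => U0 κ r b) (U1 r b) r := by
    intro b hbC r hr
    choose C₀ hC₀ using hU0 b hbC.1.continuous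
    refine hasDerivAt_of_int (f := fun r => U0 κ r b) (W := fun r => U1 r b)
      (fun r₁ r₂ h1 h12 => ?_) (U1c b hbC) hr
    refine S0_int hT hbC hC₀ (C₁ := fun r => 2 * (nS b * (1 / (2 * r) + 1) * A))
      (fun r hr => hU1 r b hr hbC.1.continuous) ?_ (U1c b hbC) h1 h12
    intro r₁ r h1 h12
    have h3 : 1 / (2 * r) ≤ 1 / (2 * r₁) := by
      apply one_div_le_one_div_of_le (by positivity)
      linarith
    have h4 : nS b * (1 / (2 * r) + 1) ≤ nS b * (1 / (2 * r₁) + 1) :=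
      mul_le_mul_of_nonneg_left (by linarith) (nS_nonneg b)
    have h5 := mul_le_mul_of_nonneg_right h4 hA0
    show 2 * (nS b * (1 / (2 * r) + 1) * A) ≤ 2 * (nS b * (1 / (2 * r₁) + 1) * A)
    linarith
  exact ⟨{ M := M, P := P, ev := ev, c := c, κ := κ, U1 := U1, C0 := C0, hc := hc, hM := hM, hP := hP,
           Msa := Msa, Psa := Psa, comm := comm, κbd := κbd, κholder := κholder, U1add := U1add,
           U1smul := U1smul, S0 := S0, S1 := S1, B0 := B0, B1 := B1 }, rfl, rfl,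
    fun u => adj_eq hT h2A hκ κcont u⟩

end MP3a4792
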