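import Pool.Agent.Lib.MP_3a4792_mp.Ker
import Pool.Agent.Lib.MP_3a4792_mp.Sobolev

/-! The kernel of an intertwiner and its circle pairings. -/

open MeasureTheory Set InnerProductSpace Filter Topology
open scoped ContDiff Laplacian InnerProductSpace SchwartzMap LineDeriv

noncomputable section

set_option linter.unusedSectionVars false

namespace MP3a4792

namespace KerAux

variable {K : Type*} [NormedAddCommGroup K] [InnerProductSpace ℂ K] [CompleteSpace K]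

/-- `φ ↦ ⟪φ, g⟫` as a real linear map -/
def ipr (g : K) : K →L[ℝ] ℂ :=
  (Complex.conjCLE : ℂ →L[ℝ] ℂ).comp ((innerSL ℂ g).restrictScalars ℝ)

lemma ipr_apply (g φ : K) : ipr g φ = ⟪φ, g⟫_ℂ := by
  show starRingEnd ℂ ⟪g, φ⟫_ℂ = _
  rw [inner_conj_symm]

section rep

variable (V : E2 → ℝ) (hV : ContDiff ℝ ∞ V) (M : K →L[ℂ] K) (T : K →L[ℂ] L2E)

/-- distance of the graph point of `u` from the point of `g` -/
def D (u : TF) (g : K) : ℝ := ‖toL2 u - T g‖ + ‖toL2 (Hop V hV u) - T (M g)‖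

/-- graph norm -/
def NH (u : TF) : ℝ := ‖toL2 u‖ + ‖toL2 (Hop V hV u)‖

lemma D_nonneg (u : TF) (g : K) : 0 ≤ D V hV M T u g := add_nonneg (norm_nonneg _) (norm_nonneg _)

lemma NH_nonneg (u : TF) : 0 ≤ NH V hV u := add_nonneg (norm_nonneg _) (norm_nonneg _)

/-- `φ` represents the functional `ℓ` with constant `C` -/
def Rep (C : ℝ) (ℓ : TF → ℂ) (φ : K) : Prop :=
  ∀ (u : TF) (g : K), ‖ℓ u - ⟪φ, g⟫_ℂ‖ ≤ C * D V hV M T u g

variable {V hV M T}

lemma dense (hT : ∀ g, (T g, T (M g)) ∈ closure (graph0 V hV)) (g : K) {ε : ℝ} (hε : 0 < ε) :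
    ∃ u : TF, D V hV M T u g < ε := by
  obtain ⟨p, ⟨u, rfl⟩, hp⟩ := Metric.mem_closure_iff.mp (hT g) (ε / 2) (by positivity)
  refine ⟨u, ?_⟩
  rw [dist_eq_norm, Prod.norm_def, max_lt_iff] at hp
  simp only [Prod.fst_sub, Prod.snd_sub] at hp
  have h1 := hp.1
  have h2 := hp.2
  rw [norm_sub_rev] at h1 h2
  unfold D
  linarith

lemma Rep.unique (hT : ∀ g, (T g, T (M g)) ∈ closure (graph0 V hV)) {C C' : ℝ} {ℓ : TF → ℂ}
    {φ φ' : K} (h : Rep V hV M T C ℓ φ) (h' : Rep V hV M T C' ℓ φ') : φ = φ' := by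
  apply ext_inner_right ℂ
  intro g
  rw [← sub_eq_zero, ← norm_le_zero_iff]
  apply le_of_forall_pos_le_add
  intro ε hε
  obtain ⟨u, hu⟩ := dense hT g (ε := ε / (|C| + |C'| + 1)) (by positivity)
  have h1 := h u g
  have h2 := h' u g
  have hD := D_nonneg V hV M T u g
  have h3 : ‖⟪φ, g⟫_ℂ - ⟪φ', g⟫_ℂ‖ ≤ ‖ℓ u - ⟪φ, g⟫_ℂ‖ + ‖ℓ u - ⟪φ', g⟫_ℂ‖ := by
    rw [show ⟪φ, g⟫_ℂ - ⟪φ', g⟫_ℂ = (ℓ u - ⟪φ', g⟫_ℂ) - (ℓ u - ⟪φ, g⟫_ℂ) by ring]
    refine (norm_sub_le _ _).trans (le_of_eq ?_)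
    ring
  rw [lt_div_iff₀ (by positivity)] at hu
  have h4 : C * D V hV M T u g ≤ |C| * D V hV M T u g := mul_le_mul_of_nonneg_right (le_abs_self _) hD
  have h5 : C' * D V hV M T u g ≤ |C'| * D V hV M T u g := mul_le_mul_of_nonneg_right (le_abs_self _) hD
  nlinarith

lemma Rep.norm_le (hT : ∀ g, (T g, T (M g)) ∈ closure (graph0 V hV)) {C A : ℝ} {ℓ : TF → ℂ}
    {φ : K} (h : Rep V hV M T C ℓ φ) (hA : 0 ≤ A) (hℓ : ∀ u, ‖ℓ u‖ ≤ A * NH V hV u) :
    ‖φ‖ ≤ A * (‖T‖ * (1 + ‖M‖)) := by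
  have key : ∀ g : K, ‖⟪φ, g⟫_ℂ‖ ≤ A * (‖T‖ * (1 + ‖M‖)) * ‖g‖ := by
    intro g
    apply le_of_forall_pos_le_add
    intro ε hε
    obtain ⟨u, hu⟩ := dense hT g (ε := ε / (|C| + A + 1)) (by positivity)
    have h1 := h u g
    have hD := D_nonneg V hV M T u g
    have h2 : NH V hV u ≤ ‖T‖ * (1 + ‖M‖) * ‖g‖ + D V hV M T u g := by
      unfold NH D
      have a1 : ‖toL2 u‖ ≤ ‖toL2 u - T g‖ + ‖T g‖ := by
        simpa using norm_add_le (toL2 u - T g) (T g)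
      have a2 : ‖toL2 (Hop V hV u)‖ ≤ ‖toL2 (Hop V hV u) - T (M g)‖ + ‖T (M g)‖ := by
        simpa using norm_add_le (toL2 (Hop V hV u) - T (M g)) (T (M g))
      have a3 := T.le_opNorm g
      have a4 : ‖T (M g)‖ ≤ ‖T‖ * (‖M‖ * ‖g‖) :=
        (T.le_opNorm _).trans (mul_le_mul_of_nonneg_left (M.le_opNorm g) (norm_nonneg _))
      nlinarith
    have h3 : ‖⟪φ, g⟫_ℂ‖ ≤ ‖ℓ u - ⟪φ, g⟫_ℂ‖ + ‖ℓ u‖ := by
      have : ⟪φ, g⟫_ℂ = ℓ u - (ℓ u - ⟪φ, g⟫_ℂ) := by ring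
      calc ‖⟪φ, g⟫_ℂ‖ = ‖ℓ u - (ℓ u - ⟪φ, g⟫_ℂ)‖ := by rw [← this]
        _ ≤ ‖ℓ u‖ + ‖ℓ u - ⟪φ, g⟫_ℂ‖ := norm_sub_le _ _
        _ = _ := by ring
    rw [lt_div_iff₀ (by positivity)] at hu
    have h4 : C * D V hV M T u g ≤ |C| * D V hV M T u g := mul_le_mul_of_nonneg_right (le_abs_self _) hD
    have h5 := hℓ u
    have h6 := mul_le_mul_of_nonneg_left h2 hA
    nlinarith
  rcases eq_or_ne φ 0 with h0 | h0
  · rw [h0, norm_zero]; positivity
  · have h1 := key φ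
    have h2 : ‖φ‖ * ‖φ‖ ≤ ‖⟪φ, φ⟫_ℂ‖ := by
      rw [← inner_self_eq_norm_mul_norm (𝕜 := ℂ)]
      exact RCLike.re_le_norm _
    have h3 : 0 < ‖φ‖ := norm_pos_iff.mpr h0
    exact le_of_mul_le_mul_right (h2.trans h1) h3

lemma Rep.congr {C : ℝ} {ℓ ℓ' : TF → ℂ} {φ : K} (h : Rep V hV M T C ℓ φ) (e : ∀ u, ℓ u = ℓ' u) :
    Rep V hV M T C ℓ' φ := by
  intro u g
  rw [← e u]
  exact h u g

lemma Rep.mono {C C' : ℝ} {ℓ : TF → ℂ} {φ : K} (h : Rep V hV M T C ℓ φ) (hC : C ≤ C') :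
    Rep V hV M T C' ℓ φ :=
  fun u g => (h u g).trans (mul_le_mul_of_nonneg_right hC (D_nonneg V hV M T u g))

lemma Rep.add {C C' : ℝ} {ℓ ℓ' : TF → ℂ} {φ φ' : K} (h : Rep V hV M T C ℓ φ)
    (h' : Rep V hV M T C' ℓ' φ') : Rep V hV M T (C + C') (fun u => ℓ u + ℓ' u) (φ + φ') := by
  intro u g
  rw [inner_add_left, add_mul]
  calc ‖ℓ u + ℓ' u - (⟪φ, g⟫_ℂ + ⟪φ', g⟫_ℂ)‖ = ‖(ℓ u - ⟪φ, g⟫_ℂ) + (ℓ' u - ⟪φ', g⟫_ℂ)‖ := by
        congr 1; ring
    _ ≤ ‖ℓ u - ⟪φ, g⟫_ℂ‖ + ‖ℓ' u - ⟪φ', g⟫_ℂ‖ := norm_add_le _ _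
    _ ≤ _ := add_le_add (h u g) (h' u g)

lemma Rep.smul {C : ℝ} {ℓ : TF → ℂ} {φ : K} (h : Rep V hV M T C ℓ φ) (t : ℝ) :
    Rep V hV M T (|t| * C) (fun u => (t : ℂ) * ℓ u) (t • φ) := by
  intro u g
  have e : ⟪t • φ, g⟫_ℂ = (t : ℂ) * ⟪φ, g⟫_ℂ := by
    rw [← ipr_apply, ← ipr_apply, map_smul]
    rfl
  rw [e, ← mul_sub, norm_mul, Complex.norm_real, Real.norm_eq_abs, mul_assoc]
  exact mul_le_mul_of_nonneg_left (h u g) (abs_nonneg _)

lemma Rep.neg {C : ℝ} {ℓ : TF → ℂ} {φ : K} (h : Rep V hV M T C ℓ φ) :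
    Rep V hV M T C (fun u => - ℓ u) (-φ) := by
  intro u g
  rw [inner_neg_left, ← neg_sub', norm_neg]
  exact h u g

lemma Rep.sub {C C' : ℝ} {ℓ ℓ' : TF → ℂ} {φ φ' : K} (h : Rep V hV M T C ℓ φ)
    (h' : Rep V hV M T C' ℓ' φ') : Rep V hV M T (C + C') (fun u => ℓ u - ℓ' u) (φ - φ') := by
  have := h.add h'.neg
  simpa [sub_eq_add_neg] using this

/-- integrals of representers -/
lemma Rep.integral {C a b : ℝ} (hab : a ≤ b) {ℓ : ℝ → TF → ℂ} {φ : ℝ → K}
    (h : ∀ s ∈ Icc a b, Rep V hV M T C (ℓ s) (φ s)) (hφ : ContinuousOn φ (Icc a b))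
    (hℓ : ∀ u, ContinuousOn (fun s => ℓ s u) (Icc a b)) :
    Rep V hV M T ((b - a) * C) (fun u => ∫ s in a..b, ℓ s u) (∫ s in a..b, φ s) := by
  intro u g
  have hφi : IntervalIntegrable φ volume a b := by
    apply ContinuousOn.intervalIntegrable
    rwa [uIcc_of_le hab]
  have hℓi : IntervalIntegrable (fun s => ℓ s u) volume a b := by
    apply ContinuousOn.intervalIntegrable
    rw [uIcc_of_le hab]
    exact hℓ u
  have e : ⟪∫ s in a..b, φ s, g⟫_ℂ = ∫ s in a..b, ⟪φ s, g⟫_ℂ := by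
    rw [← ipr_apply, ← ContinuousLinearMap.intervalIntegral_comp_comm _ hφi]
    simp_rw [ipr_apply]
  have hii : IntervalIntegrable (fun s => ⟪φ s, g⟫_ℂ) volume a b := by
    apply ContinuousOn.intervalIntegrable
    rw [uIcc_of_le hab]
    have := (ipr g).continuous.comp_continuousOn hφ
    refine this.congr (fun s _ => ?_)
    exact (ipr_apply g (φ s)).symm
  rw [e, ← intervalIntegral.integral_sub hℓi hii]
  have := intervalIntegral.norm_integral_le_of_norm_le_const (a := a) (b := b)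
    (f := fun s => ℓ s u - ⟪φ s, g⟫_ℂ) (C := C * D V hV M T u g) (by
      intro s hs
      rw [uIoc_of_le hab] at hs
      exact h s ⟨hs.1.le, hs.2⟩ u g)
  rw [abs_of_nonneg (by linarith)] at this
  refine this.trans (le_of_eq ?_)
  ring

/-- the linear map `u ↦ (u, Hu)` -/
def iota (V : E2 → ℝ) (hV : ContDiff ℝ ∞ V) : TF →ₗ[ℂ] L2E × L2E :=
  LinearMap.prod toL2 (toL2 ∘ₗ Hop V hV)

/-- extension of a bounded functional from a range -/
lemma exists_ext {X Y : Type*} [AddCommGroup X] [Module ℂ X] [NormedAddCommGroup Y] [NormedSpace ℂ Y]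
    (i : X →ₗ[ℂ] Y) (ℓ : X →ₗ[ℂ] ℂ) {B : ℝ} (hB : 0 ≤ B) (h : ∀ u, ‖ℓ u‖ ≤ B * ‖i u‖) :
    ∃ F : Y →L[ℂ] ℂ, ‖F‖ ≤ B ∧ ∀ u, F (i u) = ℓ u := by
  have hker : LinearMap.ker i ≤ LinearMap.ker ℓ := by
    intro u hu
    rw [LinearMap.mem_ker] at hu ⊢
    rw [← norm_le_zero_iff]
    refine (h u).trans ?_
    rw [hu, norm_zero, mul_zero]
  have hex : ∃ f₀ : LinearMap.range i →ₗ[ℂ] ℂ, ∀ u (h : i u ∈ LinearMap.range i), f₀ ⟨i u, h⟩ = ℓ u := by
    refine ⟨((LinearMap.ker i).liftQ ℓ hker) ∘ₗ i.quotKerEquivRange.symm.toLinearMap, ?_⟩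
    intro u h
    simp only [LinearMap.comp_apply, LinearEquiv.coe_coe]
    rw [LinearMap.quotKerEquivRange_symm_apply_image]
    rfl
  obtain ⟨f₀, hf₀⟩ := hex
  have hbd : ∀ x, ‖f₀ x‖ ≤ B * ‖x‖ := by
    rintro ⟨x, hx⟩
    obtain ⟨u, rfl⟩ := LinearMap.mem_range.mp hx
    rw [hf₀ u hx]
    exact h u
  obtain ⟨F, hF1, hF2⟩ := exists_extension_norm_eq (LinearMap.range i) (f₀.mkContinuous B hbd)
  refine ⟨F, ?_, fun u => ?_⟩
  · rw [hF2]
    exact LinearMap.mkContinuous_norm_le _ hB _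
  · have hm : i u ∈ LinearMap.range i := LinearMap.mem_range_self i u
    have := hF1 ⟨i u, hm⟩
    rw [LinearMap.mkContinuous_apply, hf₀ u hm] at this
    exact this

/-- existence of representers -/
lemma exists_rep {ℓ : TF →ₗ[ℂ] ℂ} {A : ℝ} (hA : 0 ≤ A) (hℓ : ∀ u, ‖ℓ u‖ ≤ A * NH V hV u) :
    ∃ φ : K, Rep V hV M T (2 * A) ℓ φ := by
  have hNH : ∀ u, NH V hV u ≤ 2 * ‖iota V hV u‖ := by
    intro u
    have h1 : ‖toL2 u‖ ≤ ‖iota V hV u‖ := norm_fst_le (iota V hV u)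
    have h2 : ‖toL2 (Hop V hV u)‖ ≤ ‖iota V hV u‖ := norm_snd_le (iota V hV u)
    unfold NH
    linarith
  obtain ⟨F, hFn, hF⟩ := exists_ext (iota V hV) ℓ (B := 2 * A) (by positivity) (fun u => by
    refine (hℓ u).trans ?_
    have := mul_le_mul_of_nonneg_left (hNH u) hA
    linarith)
  refine ⟨(toDual ℂ K).symm (F.comp (T.prod (T.comp M))), fun u g => ?_⟩
  rw [toDual_symm_apply, ← hF u, ContinuousLinearMap.comp_apply, ← map_sub]
  refine (F.le_opNorm _).trans ?_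
  apply mul_le_mul hFn _ (norm_nonneg _) (by positivity)
  rw [Prod.norm_def]
  apply max_le
  · exact le_add_of_nonneg_right (norm_nonneg _)
  · exact le_add_of_nonneg_left (norm_nonneg _)

end rep

/-! ### calculus of test functions in polar coordinates -/

open Sob

lemma pol_comp (w : TF) (x : E2) (a θ : ℝ) : fderiv ℝ w.1 x (pol a θ) =
    ((a * Real.cos θ : ℝ) : ℂ) * (dd (e 0) w).1 x + ((a * Real.sin θ : ℝ) : ℂ) * (dd (e 1) w).1 x := by
  rw [eq_sum_e (pol a θ), map_add, map_smul, map_smul, Complex.real_smul, Complex.real_smul]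
  rfl

lemma hasDerivAt_r (w : TF) (r θ : ℝ) : HasDerivAt (fun r => w.1 (pol r θ))
    ((Real.cos θ : ℂ) * (dd (e 0) w).1 (pol r θ) + (Real.sin θ : ℂ) * (dd (e 1) w).1 (pol r θ)) r := by
  have hd : DifferentiableAt ℝ w.1 (pol r θ) :=
    ((TF.contDiff w).differentiable (by norm_cast)) _
  have h1 : HasDerivAt (fun r => w.1 (pol r θ)) (fderiv ℝ w.1 (pol r θ) (pol 1 θ)) r :=
    hd.hasFDerivAt.comp_hasDerivAt r (hasDerivAt_pol r θ)
  refine h1.congr_deriv ?_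
  rw [pol_comp]
  simp

lemma hasDerivAt_pol_θ (r θ : ℝ) : HasDerivAt (fun θ => pol r θ) (pol r (θ + Real.pi / 2)) θ := by
  have h1 : HasDerivAt (fun θ : ℝ => (![r * Real.cos θ, r * Real.sin θ] : Fin 2 → ℝ))
      ![r * Real.cos (θ + Real.pi / 2), r * Real.sin (θ + Real.pi / 2)] θ := by
    rw [hasDerivAt_pi]
    intro i
    fin_cases i
    · simp only [Fin.zero_eta, Matrix.cons_val_zero]
      rw [Real.cos_add_pi_div_two]
      exact (Real.hasDerivAt_cos θ).const_mul r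
    · simp only [Fin.mk_one, Matrix.cons_val_one]
      rw [Real.sin_add_pi_div_two]
      exact (Real.hasDerivAt_sin θ).const_mul r
  have h2 := ((PiLp.continuousLinearEquiv 2 ℝ (fun _ : Fin 2 => ℝ)).symm :
    (Fin 2 → ℝ) →L[ℝ] E2).hasFDerivAt.comp_hasDerivAt θ h1
  exact h2

lemma hasDerivAt_θ (w : TF) (r θ : ℝ) : HasDerivAt (fun θ => w.1 (pol r θ))
    (-((r * Real.sin θ : ℝ) : ℂ) * (dd (e 0) w).1 (pol r θ) +
      ((r * Real.cos θ : ℝ) : ℂ) * (dd (e 1) w).1 (pol r θ)) θ := by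
  have hd : DifferentiableAt ℝ w.1 (pol r θ) :=
    ((TF.contDiff w).differentiable (by norm_cast)) _
  have h1 : HasDerivAt (fun θ => w.1 (pol r θ))
      (fderiv ℝ w.1 (pol r θ) (pol r (θ + Real.pi / 2))) θ :=
    hd.hasFDerivAt.comp_hasDerivAt θ (hasDerivAt_pol_θ r θ)
  refine h1.congr_deriv ?_
  rw [pol_comp, Real.cos_add_pi_div_two, Real.sin_add_pi_div_two]
  simp

lemma lap_eq (u : TF) (x : E2) :
    (lap u).1 x = (dd (e 0) (dd (e 0) u)).1 x + (dd (e 1) (dd (e 1) u)).1 x := by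
  have h1 : (lap u).1 x = (Δ (sch u) : 𝓢(E2, ℂ)) x := by
    rw [SchwartzMap.laplacian_apply]
    rfl
  rw [h1, SchwartzMap.laplacian_eq_sum (EuclideanSpace.basisFun (Fin 2) ℝ), Fin.sum_univ_two,
    EuclideanSpace.basisFun_apply, EuclideanSpace.basisFun_apply]
  rfl

lemma cont_TF (w : TF) : Continuous fun p : ℝ × ℝ => w.1 (pol p.1 p.2) :=
  (TF.continuous w).comp continuous_pol

lemma swap_ftc {b : ℝ → ℝ} (hb : Continuous b) {f k : ℝ → ℝ → ℂ} {r₁ r₂ : ℝ} (h12 : r₁ ≤ r₂)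
    (hk : ContinuousOn (fun p : ℝ × ℝ => k p.1 p.2) (Icc r₁ r₂ ×ˢ univ))
    (hd : ∀ θ, ∀ r ∈ Icc r₁ r₂, HasDerivAt (fun r => f r θ) (k r θ) r) :
    ∫ θ in (0:ℝ)..(2 * Real.pi), b θ • (f r₂ θ - f r₁ θ) =
      ∫ r in r₁..r₂, ∫ θ in (0:ℝ)..(2 * Real.pi), b θ • k r θ := by
  have h1 : ∀ θ, f r₂ θ - f r₁ θ = ∫ r in r₁..r₂, k r θ := by
    intro θ
    have hc : ContinuousOn (fun r => k r θ) (uIcc r₁ r₂) := by
      rw [uIcc_of_le h12]
      exact hk.comp (f := fun r : ℝ => (r, θ)) (by fun_prop) (fun r hr => ⟨hr, mem_univ _⟩)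
    refine (intervalIntegral.integral_eq_sub_of_hasDerivAt (f := fun r => f r θ) (fun r hr => ?_)
      hc.intervalIntegrable).symm
    rw [uIcc_of_le h12] at hr
    exact hd θ r hr
  simp_rw [h1, ← intervalIntegral.integral_smul]
  apply intervalIntegral_intervalIntegral_swap
  have hc : ContinuousOn (Function.uncurry fun θ r => b θ • k r θ)
      (uIcc (0:ℝ) (2 * Real.pi) ×ˢ uIcc r₁ r₂) := by
    have h2 : ContinuousOn (fun p : ℝ × ℝ => k p.2 p.1) (uIcc (0:ℝ) (2 * Real.pi) ×ˢ uIcc r₁ r₂) := by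
      refine hk.comp (f := fun p : ℝ × ℝ => (p.2, p.1)) (by fun_prop) ?_
      rintro ⟨a, c⟩ ⟨ha, hc⟩
      rw [uIcc_of_le h12] at hc
      exact ⟨hc, mem_univ _⟩
    exact (hb.comp continuous_fst).continuousOn.smul h2
  exact (hc.integrableOn_compact (isCompact_uIcc.prod isCompact_uIcc)).mono_set
    (Set.prod_mono uIoc_subset_uIcc uIoc_subset_uIcc)

lemma periodic_deriv {b : ℝ → ℝ} (hb : Function.Periodic b (2 * Real.pi)) :
    deriv b (2 * Real.pi) = deriv b 0 := by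
  have h1 : (fun x => b (x + 2 * Real.pi)) = b := funext hb
  have h2 := deriv_comp_add_const (f := b) (2 * Real.pi) 0
  rw [h1, zero_add] at h2
  exact h2.symm

lemma parts {b : ℝ → ℝ} (hb : Cls b) {f f' f'' : ℝ → ℂ} (h1 : ∀ θ, HasDerivAt f (f' θ) θ)
    (h2 : ∀ θ, HasDerivAt f' (f'' θ) θ) (hc : Continuous f'') (p : f (2 * Real.pi) = f 0)
    (p' : f' (2 * Real.pi) = f' 0) :
    ∫ θ in (0:ℝ)..(2 * Real.pi), b θ • f'' θ =
      ∫ θ in (0:ℝ)..(2 * Real.pi), (iteratedDeriv 2 b θ) • f θ := by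
  have hb2 : ContDiff ℝ 2 b := hb.1
  have hb1 : ContDiff ℝ 1 (deriv b) := by
    have := (contDiff_succ_iff_deriv (n := 1) (f := b)).mp (by norm_num; exact hb2)
    exact this.2.2
  have hd1 : ∀ θ, HasDerivAt b (deriv b θ) θ := fun θ =>
    ((hb2.differentiable (by norm_num)) θ).hasDerivAt
  have hd2 : ∀ θ, HasDerivAt (deriv b) (deriv (deriv b) θ) θ := fun θ =>
    ((hb1.differentiable (by norm_num)) θ).hasDerivAt
  have hcd2 : Continuous (deriv (deriv b)) := hb1.continuous_deriv (by norm_num)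
  have hcf : Continuous f := continuous_iff_continuousAt.mpr fun θ => (h1 θ).continuousAt
  have hcf' : Continuous f' := continuous_iff_continuousAt.mpr fun θ => (h2 θ).continuousAt
  have hb0 : b (2 * Real.pi) = b 0 := by
    have := hb.2 0
    rwa [zero_add] at this
  have hb0' := periodic_deriv hb.2
  have e2 : iteratedDeriv 2 b = deriv (deriv b) := by
    rw [iteratedDeriv_succ, iteratedDeriv_one]
  have i1 := intervalIntegral.integral_mul_deriv_eq_deriv_mul (a := 0) (b := 2 * Real.pi)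
    (u := fun θ => (b θ : ℂ)) (u' := fun θ => ((deriv b θ : ℝ) : ℂ)) (v := f') (v' := f'')
    (fun θ _ => (hd1 θ).ofReal_comp) (fun θ _ => h2 θ)
    ((Complex.continuous_ofReal.comp hb1.continuous).intervalIntegrable _ _)
    (hc.intervalIntegrable _ _)
  have i2 := intervalIntegral.integral_mul_deriv_eq_deriv_mul (a := 0) (b := 2 * Real.pi)
    (u := fun θ => ((deriv b θ : ℝ) : ℂ)) (u' := fun θ => ((deriv (deriv b) θ : ℝ) : ℂ)) (v := f)
    (v' := f')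
    (fun θ _ => (hd2 θ).ofReal_comp) (fun θ _ => h1 θ)
    ((Complex.continuous_ofReal.comp hcd2).intervalIntegrable _ _)
    (hcf'.intervalIntegrable _ _)
  simp only [hb0, p', p, hb0'] at i1 i2
  simp only [Complex.real_smul, e2]
  rw [i1, i2]
  ring

/-- derivative part of the circle pairing -/
def Ld (u : TF) (r : ℝ) (b : ℝ → ℝ) : ℂ :=
  Real.sqrt r • ∫ θ in (0:ℝ)..(2 * Real.pi), b θ • (fderiv ℝ u.1 (pol r θ) (pol 1 θ))

/-- derivative of the circle pairing -/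
def L1 (u : TF) (r : ℝ) (b : ℝ → ℝ) : ℂ := (1 / (2 * r)) • U0 u.1 r b + Ld u r b

/-- the integrand of `L1` -/
def k0 (u : TF) (r θ : ℝ) : ℂ := ((1 / (2 * Real.sqrt r) : ℝ) : ℂ) * u.1 (pol r θ) +
  (Real.sqrt r : ℂ) * ((Real.cos θ : ℂ) * (dd (e 0) u).1 (pol r θ) +
    (Real.sin θ : ℂ) * (dd (e 1) u).1 (pol r θ))

lemma fderiv_pol_one (u : TF) (r θ : ℝ) : fderiv ℝ u.1 (pol r θ) (pol 1 θ) =
    (Real.cos θ : ℂ) * (dd (e 0) u).1 (pol r θ) + (Real.sin θ : ℂ) * (dd (e 1) u).1 (pol r θ) := by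
  rw [pol_comp]
  simp

lemma cont_θ (w : TF) (r : ℝ) : Continuous fun θ : ℝ => w.1 (pol r θ) :=
  (cont_TF w).comp (by fun_prop : Continuous fun θ : ℝ => (r, θ))

lemma cont_b {b : ℝ → ℝ} (hb : Continuous b) (w : TF) (r : ℝ) :
    Continuous fun θ : ℝ => b θ • w.1 (pol r θ) := hb.smul (cont_θ w r)

lemma L1_eq (u : TF) {r : ℝ} (hr : 0 < r) {b : ℝ → ℝ} (hb : Continuous b) :
    L1 u r b = ∫ θ in (0:ℝ)..(2 * Real.pi), b θ • k0 u r θ := by
  have hs : 0 < Real.sqrt r := Real.sqrt_pos.mpr hr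
  have hss : Real.sqrt r * Real.sqrt r = r := Real.mul_self_sqrt hr.le
  unfold L1 Ld U0
  rw [← intervalIntegral.integral_smul, ← intervalIntegral.integral_smul,
    ← intervalIntegral.integral_smul, ← intervalIntegral.integral_add]
  · congr 1
    funext θ
    rw [fderiv_pol_one]
    unfold k0
    simp only [Complex.real_smul]
    have e1 : ((1 / (2 * r) : ℝ) : ℂ) * (Real.sqrt r : ℂ) = ((1 / (2 * Real.sqrt r) : ℝ) : ℂ) := by
      rw [← Complex.ofReal_mul]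
      congr 1
      rw [div_mul_eq_mul_div, one_mul, div_eq_div_iff (by positivity) (by positivity)]
      linear_combination 2 * hss
    linear_combination ((b θ : ℂ) * u.1 (pol r θ)) * e1
  · apply Continuous.intervalIntegrable
    exact ((cont_b hb u r).const_smul (Real.sqrt r)).const_smul (1 / (2 * r))
  · apply Continuous.intervalIntegrable
    have h1 := cont_θ (dd (e 0) u) r
    have h2 := cont_θ (dd (e 1) u) r
    simp_rw [fderiv_pol_one]
    have h3 : Continuous fun θ : ℝ => (Real.cos θ : ℂ) * (dd (e 0) u).1 (pol r θ) +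
        (Real.sin θ : ℂ) * (dd (e 1) u).1 (pol r θ) :=
      ((Complex.continuous_ofReal.comp Real.continuous_cos).mul h1).add
        ((Complex.continuous_ofReal.comp Real.continuous_sin).mul h2)
    exact (hb.smul h3).const_smul (Real.sqrt r)

lemma hasDerivAt_sqrt_mul (u : TF) {r : ℝ} (hr : 0 < r) (θ : ℝ) :
    HasDerivAt (fun r => (Real.sqrt r : ℂ) * u.1 (pol r θ)) (k0 u r θ) r := by
  have h1 := (Real.hasDerivAt_sqrt hr.ne').ofReal_comp
  have h2 := h1.mul (hasDerivAt_r u r θ)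
  refine h2.congr_deriv ?_
  unfold k0
  push_cast
  ring

lemma contOn_k0 (u : TF) {r₁ r₂ : ℝ} (h : 0 < r₁) :
    ContinuousOn (fun p : ℝ × ℝ => k0 u p.1 p.2) (Icc r₁ r₂ ×ˢ univ) := by
  unfold k0
  have a0 := cont_TF u
  have a1 := cont_TF (dd (e 0) u)
  have a2 := cont_TF (dd (e 1) u)
  have h1 : ContinuousOn (fun p : ℝ × ℝ => ((1 / (2 * Real.sqrt p.1) : ℝ) : ℂ)) (Icc r₁ r₂ ×ˢ univ) := by
    apply Complex.continuous_ofReal.comp_continuousOn
    apply ContinuousOn.div continuousOn_const (by fun_prop)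
    rintro ⟨a, c⟩ ⟨ha, _⟩
    have : 0 < a := lt_of_lt_of_le h ha.1
    positivity
  exact (h1.mul a0.continuousOn).add (by fun_prop)

lemma I0 (u : TF) {b : ℝ → ℝ} (hb : Continuous b) {r₁ r₂ : ℝ} (h : 0 < r₁) (h12 : r₁ ≤ r₂) :
    U0 u.1 r₂ b - U0 u.1 r₁ b = ∫ r in r₁..r₂, L1 u r b := by
  have key := swap_ftc hb h12 (f := fun r θ => (Real.sqrt r : ℂ) * u.1 (pol r θ)) (k := k0 u)
    (contOn_k0 u h) (fun θ r hr => hasDerivAt_sqrt_mul u (lt_of_lt_of_le h hr.1) θ)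
  have e1 : ∫ r in r₁..r₂, L1 u r b = ∫ r in r₁..r₂, ∫ θ in (0:ℝ)..(2 * Real.pi), b θ • k0 u r θ := by
    apply intervalIntegral.integral_congr
    intro r hr
    rw [uIcc_of_le h12] at hr
    exact L1_eq u (lt_of_lt_of_le h hr.1) hb
  rw [e1, ← key]
  unfold U0
  rw [← intervalIntegral.integral_smul, ← intervalIntegral.integral_smul,
    ← intervalIntegral.integral_sub]
  · congr 1
    funext θ
    simp only [Complex.real_smul]
    ring
  · exact ((cont_b hb u r₂).const_smul (Real.sqrt r₂)).intervalIntegrable _ _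
  · exact ((cont_b hb u r₁).const_smul (Real.sqrt r₁)).intervalIntegrable _ _

/-- second angular derivative -/
def uθθ (u : TF) (r θ : ℝ) : ℂ :=
  -(r : ℂ) * ((Real.cos θ : ℂ) * (dd (e 0) u).1 (pol r θ) + (Real.sin θ : ℂ) * (dd (e 1) u).1 (pol r θ)) +
    (r : ℂ) ^ 2 * ((Real.sin θ : ℂ) ^ 2 * (dd (e 0) (dd (e 0) u)).1 (pol r θ)
      - (Real.sin θ : ℂ) * (Real.cos θ : ℂ) * ((dd (e 1) (dd (e 0) u)).1 (pol r θ) +
        (dd (e 0) (dd (e 1) u)).1 (pol r θ))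
      + (Real.cos θ : ℂ) ^ 2 * (dd (e 1) (dd (e 1) u)).1 (pol r θ))

/-- first angular derivative -/
def uθ (u : TF) (r θ : ℝ) : ℂ :=
  -((r * Real.sin θ : ℝ) : ℂ) * (dd (e 0) u).1 (pol r θ) +
      ((r * Real.cos θ : ℝ) : ℂ) * (dd (e 1) u).1 (pol r θ)

lemma hasDerivAt_uθ (u : TF) (r θ : ℝ) : HasDerivAt (fun θ => uθ u r θ) (uθθ u r θ) θ := by
  have h0 := hasDerivAt_θ (dd (e 0) u) r θ
  have h1 := hasDerivAt_θ (dd (e 1) u) r θ
  have hs := (((Real.hasDerivAt_sin θ).const_mul r).ofReal_comp).neg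
  have hc := (((Real.hasDerivAt_cos θ).const_mul r).ofReal_comp)
  have h2 := (hs.mul h0).add (hc.mul h1)
  refine h2.congr_deriv ?_
  unfold uθθ
  simp only [Pi.neg_apply]
  push_cast
  ring

/-- radial derivative of `k0` -/
def k1 (u : TF) (r θ : ℝ) : ℂ :=
  (Real.sqrt r : ℂ) * ((lap u).1 (pol r θ) - ((1 / r ^ 2 : ℝ) : ℂ) * uθθ u r θ
    - ((1 / (4 * r ^ 2) : ℝ) : ℂ) * u.1 (pol r θ))

lemma hasDerivAt_k0 (u : TF) {r : ℝ} (hr : 0 < r) (θ : ℝ) :
    HasDerivAt (fun r => k0 u r θ) (k1 u r θ) r := by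
  have hs : 0 < Real.sqrt r := Real.sqrt_pos.mpr hr
  have hss : Real.sqrt r * Real.sqrt r = r := Real.mul_self_sqrt hr.le
  have hq := Real.hasDerivAt_sqrt hr.ne'
  have h1 : HasDerivAt (fun r : ℝ => ((1 / (2 * Real.sqrt r) : ℝ) : ℂ))
      ((-(1 / (4 * r * Real.sqrt r)) : ℝ) : ℂ) r := by
    have h := ((hq.const_mul 2).fun_inv (by positivity))
    have h' : HasDerivAt (fun r : ℝ => 1 / (2 * Real.sqrt r)) (-(1 / (4 * r * Real.sqrt r))) r := by
      refine (h.congr_of_eventuallyEq ?_).congr_deriv ?_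
      · exact Filter.Eventually.of_forall fun x => by simp [one_div]
      · rw [mul_pow, pow_two (Real.sqrt r), hss]
        field_simp
        ring
    exact h'.ofReal_comp
  have h0 := hasDerivAt_r u r θ
  have h2 := hasDerivAt_r (dd (e 0) u) r θ
  have h3 := hasDerivAt_r (dd (e 1) u) r θ
  have h4 := (h2.const_mul (Real.cos θ : ℂ)).add (h3.const_mul (Real.sin θ : ℂ))
  have h5 := (h1.mul h0).add ((hq.ofReal_comp).mul h4)
  refine h5.congr_deriv ?_
  unfold k1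
  rw [lap_eq]
  unfold uθθ
  have htr : (Real.sin θ : ℂ) ^ 2 = 1 - (Real.cos θ : ℂ) ^ 2 := by
    have := Real.sin_sq_add_cos_sq θ
    have h : ((Real.sin θ ^ 2 + Real.cos θ ^ 2 : ℝ) : ℂ) = ((1:ℝ) : ℂ) := by rw [this]
    push_cast at h
    push_cast
    linear_combination h
  have e1 : ((-(1 / (4 * r * Real.sqrt r)) : ℝ) : ℂ) =
      -(Real.sqrt r : ℂ) * ((1 / (4 * r ^ 2) : ℝ) : ℂ) := by
    rw [← Complex.ofReal_neg, ← Complex.ofReal_mul]
    congr 1
    rw [neg_mul, neg_inj, mul_one_div, div_eq_div_iff (by positivity) (by positivity)]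
    linear_combination (-(4 * r)) * hss
  have e2 : 2 * ((1 / (2 * Real.sqrt r) : ℝ) : ℂ) = (Real.sqrt r : ℂ) * ((1 / r ^ 2 : ℝ) : ℂ) * (r : ℂ) := by
    have : (2:ℂ) = ((2:ℝ) : ℂ) := by norm_num
    rw [this, ← Complex.ofReal_mul, ← Complex.ofReal_mul, ← Complex.ofReal_mul]
    congr 1
    rw [mul_one_div, mul_one_div, div_mul_eq_mul_div, div_eq_div_iff (by positivity) (by positivity)]
    linear_combination (-(2 * r)) * hss
  have e3 : ((1 / r ^ 2 : ℝ) : ℂ) * (r : ℂ) ^ 2 = 1 := by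
    rw [← Complex.ofReal_pow, ← Complex.ofReal_mul, one_div, inv_mul_cancel₀ (by positivity),
      Complex.ofReal_one]
  simp only [Pi.add_apply]
  linear_combination e1 * u.1 (pol r θ) + e2 * ((Real.cos θ : ℂ) * (dd (e 0) u).1 (pol r θ) +
    (Real.sin θ : ℂ) * (dd (e 1) u).1 (pol r θ)) +
    (Real.sqrt r : ℂ) * ((Real.sin θ : ℂ) ^ 2 * (dd (e 0) (dd (e 0) u)).1 (pol r θ)
      - (Real.sin θ : ℂ) * (Real.cos θ : ℂ) * ((dd (e 1) (dd (e 0) u)).1 (pol r θ) +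
        (dd (e 0) (dd (e 1) u)).1 (pol r θ))
      + (Real.cos θ : ℂ) ^ 2 * (dd (e 1) (dd (e 1) u)).1 (pol r θ)) * e3 +
    (Real.sqrt r : ℂ) * ((dd (e 0) (dd (e 0) u)).1 (pol r θ) +
      (dd (e 1) (dd (e 1) u)).1 (pol r θ)) * htr

lemma cont_uθθ (u : TF) : Continuous fun p : ℝ × ℝ => uθθ u p.1 p.2 := by
  unfold uθθ
  have a1 := cont_TF (dd (e 0) u)
  have a2 := cont_TF (dd (e 1) u)
  have a3 := cont_TF (dd (e 0) (dd (e 0) u))
  have a4 := cont_TF (dd (e 1) (dd (e 0) u))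
  have a5 := cont_TF (dd (e 0) (dd (e 1) u))
  have a6 := cont_TF (dd (e 1) (dd (e 1) u))
  fun_prop

lemma contOn_k1 (u : TF) {r₁ r₂ : ℝ} (h : 0 < r₁) :
    ContinuousOn (fun p : ℝ × ℝ => k1 u p.1 p.2) (Icc r₁ r₂ ×ˢ univ) := by
  unfold k1
  have a0 := cont_TF u
  have a1 := cont_TF (lap u)
  have a2 := cont_uθθ u
  have h1 : ∀ c : ℝ, 0 < c → ContinuousOn (fun p : ℝ × ℝ => ((1 / (c * p.1 ^ 2) : ℝ) : ℂ))
      (Icc r₁ r₂ ×ˢ univ) := by
    intro c hc
    apply Complex.continuous_ofReal.comp_continuousOn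
    apply ContinuousOn.div continuousOn_const (by fun_prop)
    rintro ⟨a, c'⟩ ⟨ha, _⟩
    have : 0 < a := lt_of_lt_of_le h ha.1
    positivity
  have h2 := h1 1 one_pos
  have h3 := h1 4 (by norm_num)
  simp only [one_mul] at h2
  have h4 : ContinuousOn (fun p : ℝ × ℝ => (Real.sqrt p.1 : ℂ)) (Icc r₁ r₂ ×ˢ univ) := by fun_prop
  exact h4.mul ((a1.continuousOn.sub (h2.mul a2.continuousOn)).sub (h3.mul a0.continuousOn))

lemma pol_two_pi (r : ℝ) : pol r (2 * Real.pi) = pol r 0 := by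
  have := pol_periodic r 0
  rwa [zero_add] at this

lemma cls_dd {b : ℝ → ℝ} (hb : Cls b) : Continuous (iteratedDeriv 2 b) :=
  hb.1.continuous_iteratedDeriv 2 (by norm_num)

lemma I1 (u : TF) {b : ℝ → ℝ} (hb : Cls b) {r₁ r₂ : ℝ} (h : 0 < r₁) (h12 : r₁ ≤ r₂) :
    L1 u r₂ b - L1 u r₁ b = ∫ r in r₁..r₂, (U0 (lap u).1 r b -
      (1 / r ^ 2) • U0 u.1 r (fun θ => iteratedDeriv 2 b θ + b θ / 4)) := by
  have hbc : Continuous b := hb.1.continuous
  have hr2 : 0 < r₂ := lt_of_lt_of_le h h12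
  have key := swap_ftc hbc h12 (f := k0 u) (k := k1 u)
    (contOn_k1 u h) (fun θ r hr => hasDerivAt_k0 u (lt_of_lt_of_le h hr.1) θ)
  have hk0c : ∀ r : ℝ, Continuous fun θ : ℝ => k0 u r θ := by
    intro r
    unfold k0
    have h0 := cont_θ u r
    have h1 := cont_θ (dd (e 0) u) r
    have h2 := cont_θ (dd (e 1) u) r
    exact (continuous_const.mul h0).add (continuous_const.mul
      (((Complex.continuous_ofReal.comp Real.continuous_cos).mul h1).add
        ((Complex.continuous_ofReal.comp Real.continuous_sin).mul h2)))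
  have hi : ∀ r : ℝ, IntervalIntegrable (fun θ => b θ • k0 u r θ) volume 0 (2 * Real.pi) :=
    fun r => (hbc.smul (hk0c r)).intervalIntegrable _ _
  rw [L1_eq u h hbc, L1_eq u hr2 hbc, ← intervalIntegral.integral_sub (hi r₂) (hi r₁)]
  simp_rw [← smul_sub]
  rw [key]
  apply intervalIntegral.integral_congr
  intro r hr
  rw [uIcc_of_le h12] at hr
  have hr0 : 0 < r := lt_of_lt_of_le h hr.1
  have hcu : Continuous fun θ : ℝ => uθθ u r θ :=
    (cont_uθθ u).comp (by fun_prop : Continuous fun θ : ℝ => (r, θ))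
  have hparts : ∫ θ in (0:ℝ)..(2 * Real.pi), b θ • uθθ u r θ =
      ∫ θ in (0:ℝ)..(2 * Real.pi), (iteratedDeriv 2 b θ) • u.1 (pol r θ) :=
    parts hb (f := fun θ => u.1 (pol r θ)) (f' := fun θ => uθ u r θ) (f'' := fun θ => uθθ u r θ)
      (fun θ => hasDerivAt_θ u r θ) (fun θ => hasDerivAt_uθ u r θ) hcu
      (by simp only [pol_two_pi]) (by
        simp only [uθ, pol_two_pi, Real.sin_two_pi, Real.cos_two_pi, Real.sin_zero, Real.cos_zero])
  show ∫ θ in (0:ℝ)..(2 * Real.pi), b θ • k1 u r θ = U0 (lap u).1 r b -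
      (1 / r ^ 2) • U0 u.1 r (fun θ => iteratedDeriv 2 b θ + b θ / 4)
  have c1 : IntervalIntegrable (fun θ => b θ • (lap u).1 (pol r θ)) volume 0 (2 * Real.pi) :=
    (cont_b hbc (lap u) r).intervalIntegrable _ _
  have c2 : IntervalIntegrable (fun θ => b θ • uθθ u r θ) volume 0 (2 * Real.pi) :=
    (hbc.smul hcu).intervalIntegrable _ _
  have c3 : IntervalIntegrable (fun θ => b θ • u.1 (pol r θ)) volume 0 (2 * Real.pi) :=
    (cont_b hbc u r).intervalIntegrable _ _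
  have c4 : IntervalIntegrable (fun θ => iteratedDeriv 2 b θ • u.1 (pol r θ)) volume 0 (2 * Real.pi) :=
    (cont_b (cls_dd hb) u r).intervalIntegrable _ _
  have e1 : ∫ θ in (0:ℝ)..(2 * Real.pi), b θ • k1 u r θ =
      (Real.sqrt r : ℂ) * ((∫ θ in (0:ℝ)..(2 * Real.pi), b θ • (lap u).1 (pol r θ))
        - ((1 / r ^ 2 : ℝ) : ℂ) * (∫ θ in (0:ℝ)..(2 * Real.pi), b θ • uθθ u r θ)
        - ((1 / (4 * r ^ 2) : ℝ) : ℂ) * (∫ θ in (0:ℝ)..(2 * Real.pi), b θ • u.1 (pol r θ))) := by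
    rw [← intervalIntegral.integral_const_mul, ← intervalIntegral.integral_const_mul,
      ← intervalIntegral.integral_sub c1 (c2.const_mul _),
      ← intervalIntegral.integral_sub (c1.sub (c2.const_mul _)) (c3.const_mul _),
      ← intervalIntegral.integral_const_mul]
    congr 1
    funext θ
    unfold k1
    simp only [Complex.real_smul]
    ring
  have e2 : ∫ θ in (0:ℝ)..(2 * Real.pi), (iteratedDeriv 2 b θ + b θ / 4) • u.1 (pol r θ) =
      (∫ θ in (0:ℝ)..(2 * Real.pi), iteratedDeriv 2 b θ • u.1 (pol r θ)) +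
      ((1 / 4 : ℝ) : ℂ) * ∫ θ in (0:ℝ)..(2 * Real.pi), b θ • u.1 (pol r θ) := by
    rw [← intervalIntegral.integral_const_mul, ← intervalIntegral.integral_add c4 (c3.const_mul _)]
    congr 1
    funext θ
    simp only [Complex.real_smul]
    push_cast
    ring
  rw [e1, hparts]
  unfold U0
  rw [e2]
  simp only [Complex.real_smul]
  push_cast
  have hr' : (r : ℂ) ≠ 0 := by exact_mod_cast hr0.ne'
  field_simp
  ring

/-! ### bounds -/

lemma cs_int {f g : ℝ → ℝ} (hf : Continuous f) (hg : Continuous g) (hf0 : ∀ θ, 0 ≤ f θ)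
    (hg0 : ∀ θ, 0 ≤ g θ) : ∫ θ in (0:ℝ)..(2 * Real.pi), f θ * g θ ≤
      Real.sqrt (∫ θ in (0:ℝ)..(2 * Real.pi), f θ ^ 2) *
      Real.sqrt (∫ θ in (0:ℝ)..(2 * Real.pi), g θ ^ 2) := by
  have hpi : (0:ℝ) ≤ 2 * Real.pi := by have := Real.pi_pos; positivity
  rw [intervalIntegral.integral_of_le hpi, intervalIntegral.integral_of_le hpi,
    intervalIntegral.integral_of_le hpi]
  have hm : ∀ {h : ℝ → ℝ}, Continuous h → MemLp h (ENNReal.ofReal 2)
      (volume.restrict (Ioc 0 (2 * Real.pi))) := by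
    intro h hh
    rw [ENNReal.ofReal_ofNat]
    refine (memLp_two_iff_integrable_sq hh.aestronglyMeasurable).mpr ?_
    exact ((hh.pow 2).continuousOn.integrableOn_compact isCompact_Icc).mono_set Ioc_subset_Icc_self
  have key := integral_mul_le_Lp_mul_Lq_of_nonneg (μ := volume.restrict (Ioc 0 (2 * Real.pi)))
    Real.HolderConjugate.two_two (Filter.Eventually.of_forall hf0) (Filter.Eventually.of_forall hg0)
    (hm hf) (hm hg)
  simp only [Real.rpow_two] at key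
  rw [← Real.sqrt_eq_rpow, ← Real.sqrt_eq_rpow] at key
  exact key

lemma pairing_le {b : ℝ → ℝ} (hb : Continuous b) {f : ℝ → ℂ} (hf : Continuous f) {r B : ℝ}
    (hr : 0 < r) (hB : 0 ≤ B) (h : r * ∫ θ in (0:ℝ)..(2 * Real.pi), ‖f θ‖ ^ 2 ≤ B ^ 2) :
    ‖Real.sqrt r • ∫ θ in (0:ℝ)..(2 * Real.pi), b θ • f θ‖ ≤ nS b * B := by
  have hpi : (0:ℝ) ≤ 2 * Real.pi := by have := Real.pi_pos; positivity
  rw [norm_smul, Real.norm_eq_abs, abs_of_nonneg (Real.sqrt_nonneg _)]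
  have h1 : ‖∫ θ in (0:ℝ)..(2 * Real.pi), b θ • f θ‖ ≤
      ∫ θ in (0:ℝ)..(2 * Real.pi), |b θ| * ‖f θ‖ := by
    refine (intervalIntegral.norm_integral_le_integral_norm hpi).trans (le_of_eq ?_)
    congr 1
    funext θ
    rw [norm_smul, Real.norm_eq_abs]
  have h2 := cs_int (f := fun θ => |b θ|) (g := fun θ => ‖f θ‖) hb.abs hf.norm
    (fun _ => abs_nonneg _) (fun _ => norm_nonneg _)
  simp only [sq_abs] at h2
  calc Real.sqrt r * ‖∫ θ in (0:ℝ)..(2 * Real.pi), b θ • f θ‖ ≤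
        Real.sqrt r * (nS b * Real.sqrt (∫ θ in (0:ℝ)..(2 * Real.pi), ‖f θ‖ ^ 2)) :=
        mul_le_mul_of_nonneg_left (h1.trans h2) (Real.sqrt_nonneg _)
    _ = nS b * Real.sqrt (r * ∫ θ in (0:ℝ)..(2 * Real.pi), ‖f θ‖ ^ 2) := by
        rw [Real.sqrt_mul hr.le]
        ring
    _ ≤ nS b * B := by
        apply mul_le_mul_of_nonneg_left _ (Real.sqrt_nonneg _)
        exact (Real.sqrt_le_sqrt h).trans (le_of_eq (Real.sqrt_sq hB))

lemma norm_mulTF_le {V : E2 → ℝ} (hV : ContDiff ℝ ∞ V) {h : ℝ} (hb : ∀ x, |V x| ≤ h) (u : TF) :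
    ‖toL2 (mulTF V hV u)‖ ≤ h * ‖toL2 u‖ := by
  apply Lp.norm_le_mul_norm_of_ae_le_mul
  filter_upwards [coeFn_toL2 (mulTF V hV u), coeFn_toL2 u] with x h1 h2
  rw [h1, h2]
  show ‖(V x : ℂ) * u.1 x‖ ≤ h * ‖u.1 x‖
  rw [norm_mul, Complex.norm_real, Real.norm_eq_abs]
  exact mul_le_mul_of_nonneg_right (hb x) (norm_nonneg _)

lemma lap_eq_sub (V : E2 → ℝ) (hV : ContDiff ℝ ∞ V) (u : TF) : lap u = mulTF V hV u - Hop V hV u := by
  simp [Hop]

lemma N2_le {V : E2 → ℝ} (hV : ContDiff ℝ ∞ V) {h : ℝ} (hb : ∀ x, |V x| ≤ h) (u : TF) :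
    N2 u ≤ (1 + h) * NH V hV u := by
  have h0 : 0 ≤ h := (abs_nonneg _).trans (hb 0)
  unfold N2 NH
  have h1 : ‖toL2 (lap u)‖ ≤ h * ‖toL2 u‖ + ‖toL2 (Hop V hV u)‖ := by
    rw [lap_eq_sub V hV u, map_sub]
    exact (norm_sub_le _ _).trans (add_le_add (norm_mulTF_le hV hb u) le_rfl)
  have h2 : 0 ≤ ‖toL2 (Hop V hV u)‖ := norm_nonneg _
  nlinarith

lemma amgm_inf {x a n : ℝ} (ha : 0 ≤ a) (hn : 0 ≤ n) (h : ∀ μ : ℝ, 0 < μ → x ≤ (μ * a + n ^ 2 / μ) / 2) :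
    x ≤ (a + 1) * n := by
  rcases hn.eq_or_lt with h0 | h0
  · subst h0
    rw [mul_zero]
    apply le_of_forall_pos_le_add
    intro ε hε
    have h1 := h (ε / (a + 1)) (by positivity)
    have h2 : ε / (a + 1) * a ≤ ε := by
      rw [div_mul_eq_mul_div, div_le_iff₀ (by positivity)]
      nlinarith
    simp only [ne_eq, OfNat.ofNat_ne_zero, not_false_eq_true, zero_pow, zero_div, add_zero] at h1
    linarith
  · have h1 := h n h0
    have h2 : n ^ 2 / n = n := by rw [pow_two, mul_div_assoc, div_self h0.ne', mul_one]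
    rw [h2] at h1
    nlinarith

lemma cont_U0 {K' : Type*} [NormedAddCommGroup K'] [NormedSpace ℝ K'] {F : E2 → K'}
    (hF : Continuous F) {β : ℝ → ℝ → ℝ} (hβ : Continuous (Function.uncurry β)) :
    Continuous fun r => U0 F r (β r) := by
  unfold U0
  have h1 : Continuous fun r : ℝ => ∫ θ in (0:ℝ)..(2 * Real.pi), β r θ • F (pol r θ) := by
    apply intervalIntegral.continuous_parametric_intervalIntegral_of_continuous'
    exact hβ.smul (hF.comp continuous_pol)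
  exact Real.continuous_sqrt.smul h1

lemma nS_nonneg (b : ℝ → ℝ) : 0 ≤ nS b := Real.sqrt_nonneg _

/-- the annular pairing is bounded in `L²` -/
lemma annular_le {b : ℝ → ℝ} (hb : Continuous b) {r₁ r₂ : ℝ} (h : 0 < r₁) (h12 : r₁ ≤ r₂) (w : TF) :
    ‖∫ r in r₁..r₂, U0 w.1 r b‖ ≤ nS b * ((r₂ - r₁ + 1) * ‖toL2 w‖) := by
  have hU : Continuous fun r => U0 w.1 r b :=
    cont_U0 (TF.continuous w) (β := fun _ => b) (by
      show Continuous fun p : ℝ × ℝ => b p.2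
      fun_prop)
  set S : ℝ → ℝ := fun r => r * ∫ θ in (0:ℝ)..(2 * Real.pi), ‖w.1 (pol r θ)‖ ^ 2 with hS
  have hSc : Continuous S := by
    apply continuous_id.mul
    apply intervalIntegral.continuous_parametric_intervalIntegral_of_continuous'
    exact (cont_TF w).norm.pow 2
  have hpi : (0:ℝ) ≤ 2 * Real.pi := by have := Real.pi_pos; positivity
  have hS0 : ∀ r, 0 < r → 0 ≤ S r := by
    intro r hr
    apply mul_nonneg hr.le
    exact intervalIntegral.integral_nonneg hpi fun θ _ => by positivity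
  have hpt : ∀ μ : ℝ, 0 < μ → ∀ r, 0 < r → ‖U0 w.1 r b‖ ≤ nS b * ((μ + S r / μ) / 2) := by
    intro μ hμ r hr
    have h1 := pairing_le hb (f := fun θ => w.1 (pol r θ)) (cont_θ w r) (B := Real.sqrt (S r)) hr
      (Real.sqrt_nonneg _) (le_of_eq (Real.sq_sqrt (hS0 r hr)).symm)
    refine h1.trans (mul_le_mul_of_nonneg_left ?_ (nS_nonneg b))
    have h2 := Real.sq_sqrt (hS0 r hr)
    rw [le_div_iff₀ (by norm_num), ← sub_nonneg]
    have h3 : μ + S r / μ - Real.sqrt (S r) * 2 = (Real.sqrt (S r) - μ) ^ 2 / μ := by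
      rw [sub_sq, h2]
      field_simp
      ring
    rw [h3]
    positivity
  have hint : ∀ μ : ℝ, 0 < μ → ‖∫ r in r₁..r₂, U0 w.1 r b‖ ≤
      nS b * ((μ * (r₂ - r₁) + ‖toL2 w‖ ^ 2 / μ) / 2) := by
    intro μ hμ
    have h1 : ‖∫ r in r₁..r₂, U0 w.1 r b‖ ≤ ∫ r in r₁..r₂, nS b * ((μ + S r / μ) / 2) := by
      refine (intervalIntegral.norm_integral_le_integral_norm h12).trans ?_
      apply intervalIntegral.integral_mono_on h12 (hU.norm.intervalIntegrable _ _)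
      · apply Continuous.intervalIntegrable
        fun_prop
      · intro r hr
        exact hpt μ hμ r (lt_of_lt_of_le h hr.1)
    refine h1.trans ?_
    rw [intervalIntegral.integral_const_mul]
    apply mul_le_mul_of_nonneg_left _ (nS_nonneg b)
    rw [intervalIntegral.integral_div]
    apply div_le_div_of_nonneg_right _ (by norm_num)
    rw [intervalIntegral.integral_add (by simp) ((hSc.div_const μ).intervalIntegrable _ _),
      intervalIntegral.integral_const, smul_eq_mul, intervalIntegral.integral_div]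
    have h2 := polar_norm_le w h h12
    have h3 : (∫ r in r₁..r₂, S r) / μ ≤ ‖toL2 w‖ ^ 2 / μ :=
      div_le_div_of_nonneg_right h2 hμ.le
    linarith
  rcases (nS_nonneg b).eq_or_lt with h0 | h0
  · have := hint 1 one_pos
    rw [← h0, zero_mul] at this ⊢
    exact this
  · have h1 : ‖∫ r in r₁..r₂, U0 w.1 r b‖ / nS b ≤ (r₂ - r₁ + 1) * ‖toL2 w‖ := by
      apply amgm_inf (by linarith) (norm_nonneg _)
      intro μ hμ
      rw [div_le_iff₀ h0]
      have := hint μ hμ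
      linarith
    rw [div_le_iff₀ h0] at h1
    linarith

/-! ### linearity of the functionals -/

/-- evaluation as a linear map -/
def evL (x : E2) : TF →ₗ[ℂ] ℂ where
  toFun u := u.1 x
  map_add' _ _ := rfl
  map_smul' _ _ := rfl

lemma dd_add (m : E2) (u v : TF) (x : E2) : (dd m (u + v)).1 x = (dd m u).1 x + (dd m v).1 x := by
  have hu : DifferentiableAt ℝ u.1 x := ((TF.contDiff u).differentiable (by norm_cast)) x
  have hv : DifferentiableAt ℝ v.1 x := ((TF.contDiff v).differentiable (by norm_cast)) x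
  show fderiv ℝ (u.1 + v.1) x m = fderiv ℝ u.1 x m + fderiv ℝ v.1 x m
  rw [fderiv_add hu hv]
  rfl

lemma dd_smul (m : E2) (c : ℂ) (u : TF) (x : E2) : (dd m (c • u)).1 x = c * (dd m u).1 x := by
  have hu : DifferentiableAt ℝ u.1 x := ((TF.contDiff u).differentiable (by norm_cast)) x
  show fderiv ℝ (c • u.1) x m = c * fderiv ℝ u.1 x m
  rw [fderiv_const_smul hu]
  rfl

lemma k0_add (u v : TF) (r θ : ℝ) : k0 (u + v) r θ = k0 u r θ + k0 v r θ := by
  unfold k0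
  rw [dd_add, dd_add]
  have : (u + v).1 (pol r θ) = u.1 (pol r θ) + v.1 (pol r θ) := rfl
  rw [this]
  ring

lemma k0_smul (c : ℂ) (u : TF) (r θ : ℝ) : k0 (c • u) r θ = c * k0 u r θ := by
  unfold k0
  rw [dd_smul, dd_smul]
  have : (c • u).1 (pol r θ) = c * u.1 (pol r θ) := rfl
  rw [this]
  ring

lemma cont_k0 (u : TF) (r : ℝ) : Continuous fun θ : ℝ => k0 u r θ := by
  unfold k0
  have h0 := cont_θ u r
  have h1 := cont_θ (dd (e 0) u) r
  have h2 := cont_θ (dd (e 1) u) r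
  exact (continuous_const.mul h0).add (continuous_const.mul
    (((Complex.continuous_ofReal.comp Real.continuous_cos).mul h1).add
      ((Complex.continuous_ofReal.comp Real.continuous_sin).mul h2)))

/-- `L1` as a linear map in the test function -/
def L1L (r : ℝ) (hr : 0 < r) (b : ℝ → ℝ) (hb : Continuous b) : TF →ₗ[ℂ] ℂ where
  toFun u := L1 u r b
  map_add' u v := by
    have i1 : IntervalIntegrable (fun θ => b θ • k0 u r θ) volume 0 (2 * Real.pi) :=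
      (hb.smul (cont_k0 u r)).intervalIntegrable _ _
    have i2 : IntervalIntegrable (fun θ => b θ • k0 v r θ) volume 0 (2 * Real.pi) :=
      (hb.smul (cont_k0 v r)).intervalIntegrable _ _
    rw [L1_eq _ hr hb, L1_eq _ hr hb, L1_eq _ hr hb, ← intervalIntegral.integral_add i1 i2]
    congr 1
    funext θ
    rw [k0_add, smul_add]
  map_smul' c u := by
    rw [L1_eq _ hr hb, L1_eq _ hr hb, RingHom.id_apply, smul_eq_mul,
      ← intervalIntegral.integral_const_mul]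
    congr 1
    funext θ
    rw [k0_smul, Complex.real_smul, Complex.real_smul]
    ring

lemma L1_add_b (u : TF) {r : ℝ} (hr : 0 < r) {b b' : ℝ → ℝ} (hb : Continuous b)
    (hb' : Continuous b') : L1 u r (fun θ => b θ + b' θ) = L1 u r b + L1 u r b' := by
  have i1 : IntervalIntegrable (fun θ => b θ • k0 u r θ) volume 0 (2 * Real.pi) :=
    (hb.smul (cont_k0 u r)).intervalIntegrable _ _
  have i2 : IntervalIntegrable (fun θ => b' θ • k0 u r θ) volume 0 (2 * Real.pi) :=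
    (hb'.smul (cont_k0 u r)).intervalIntegrable _ _
  have hbb : Continuous (fun θ => b θ + b' θ) := hb.add hb'
  rw [L1_eq _ hr hb, L1_eq _ hr hb', L1_eq _ hr hbb, ← intervalIntegral.integral_add i1 i2]
  congr 1
  funext θ
  rw [add_smul]

lemma L1_smul_b (u : TF) {r : ℝ} (hr : 0 < r) {b : ℝ → ℝ} (hb : Continuous b) (t : ℝ) :
    L1 u r (fun θ => t * b θ) = (t : ℂ) * L1 u r b := by
  have hbb : Continuous (fun θ => t * b θ) := continuous_const.mul hb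
  rw [L1_eq _ hr hb, L1_eq _ hr hbb, ← intervalIntegral.integral_const_mul]
  congr 1
  funext θ
  rw [mul_smul, Complex.real_smul]

lemma U0_sub (u v : TF) (r : ℝ) {b : ℝ → ℝ} (hb : Continuous b) :
    U0 (u - v).1 r b = U0 u.1 r b - U0 v.1 r b := by
  unfold U0
  rw [← smul_sub, ← intervalIntegral.integral_sub ((cont_b hb u r).intervalIntegrable _ _)
    ((cont_b hb v r).intervalIntegrable _ _)]
  congr 2
  funext θ
  rw [← smul_sub]
  rfl

/-! ### representers of the functionals -/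

section concrete

variable {K : Type*} [NormedAddCommGroup K] [InnerProductSpace ℂ K] [CompleteSpace K]
variable {V : E2 → ℝ} {hV : ContDiff ℝ ∞ V} {M : K →L[ℂ] K} {T : K →L[ℂ] L2E}

/-- representer of a circle pairing -/
lemma rep_U0 {κ : E2 → K} {A : ℝ} (hA : 0 ≤ A) (hκ : ∀ x, Rep V hV M T A (fun u => u.1 x) (κ x))
    (hκc : Continuous κ) {β : ℝ → ℝ} (hβ : Continuous β) {B : ℝ} (r : ℝ)
    (hB : ∀ θ ∈ Icc (0:ℝ) (2 * Real.pi), |β θ| ≤ B) :
    Rep V hV M T (Real.sqrt r * ((2 * Real.pi) * (B * A))) (fun u => U0 u.1 r β) (U0 κ r β) := by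
  have hpi : (0:ℝ) ≤ 2 * Real.pi := by have := Real.pi_pos; positivity
  have h1 := Rep.integral (V := V) (hV := hV) (M := M) (T := T) (C := B * A) hpi
    (ℓ := fun θ u => (β θ : ℂ) * u.1 (pol r θ)) (φ := fun θ => β θ • κ (pol r θ))
    (fun θ hθ => ((hκ (pol r θ)).smul (β θ)).mono (mul_le_mul_of_nonneg_right (hB θ hθ) hA))
    (by
      have : Continuous fun θ : ℝ => pol r θ :=
        continuous_pol.comp (by fun_prop : Continuous fun θ : ℝ => (r, θ))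
      exact (hβ.smul (hκc.comp this)).continuousOn)
    (fun u => ((Complex.continuous_ofReal.comp hβ).mul (cont_θ u r)).continuousOn)
  have h2 := h1.smul (Real.sqrt r)
  rw [abs_of_nonneg (Real.sqrt_nonneg _), sub_zero] at h2
  exact h2

lemma continuous_of_uncurry {β : ℝ → ℝ → ℝ} (hβ : Continuous (Function.uncurry β)) (r : ℝ) :
    Continuous (β r) := hβ.comp (by fun_prop : Continuous fun θ : ℝ => (r, θ))

/-- representer of an annular pairing -/
lemma rep_ann {κ : E2 → K} {A : ℝ} (hA : 0 ≤ A) (hκ : ∀ x, Rep V hV M T A (fun u => u.1 x) (κ x))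
    (hκc : Continuous κ) {β : ℝ → ℝ → ℝ} (hβ : Continuous (Function.uncurry β)) {c : ℝ → ℝ}
    {r₁ r₂ : ℝ} (h12 : r₁ ≤ r₂) (hc : ContinuousOn c (Icc r₁ r₂)) :
    ∃ C, Rep V hV M T C (fun u => ∫ r in r₁..r₂, c r • U0 u.1 r (β r))
      (∫ r in r₁..r₂, c r • U0 κ r (β r)) := by
  have hcomp : IsCompact (Icc r₁ r₂ ×ˢ Icc (0:ℝ) (2 * Real.pi)) := isCompact_Icc.prod isCompact_Icc
  obtain ⟨B, hB⟩ := (hcomp.image_of_continuousOn (f := fun p : ℝ × ℝ => β p.1 p.2)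
    hβ.continuousOn).isBounded.exists_norm_le
  obtain ⟨B', hB'⟩ := (isCompact_Icc.image_of_continuousOn hc).isBounded.exists_norm_le
  have hB1 : ∀ r ∈ Icc r₁ r₂, ∀ θ ∈ Icc (0:ℝ) (2 * Real.pi), |β r θ| ≤ |B| := fun r hr θ hθ =>
    (hB _ ⟨(r, θ), ⟨hr, hθ⟩, rfl⟩).trans (le_abs_self _)
  have hB2 : ∀ r ∈ Icc r₁ r₂, |c r| ≤ |B'| := fun r hr =>
    (hB' _ ⟨r, hr, rfl⟩).trans (le_abs_self _)
  have hpi : (0:ℝ) ≤ 2 * Real.pi := by have := Real.pi_pos; positivity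
  refine ⟨_, Rep.integral h12 (C := |B'| * (Real.sqrt r₂ * ((2 * Real.pi) * (|B| * A))))
    (ℓ := fun r u => c r • U0 u.1 r (β r)) (φ := fun r => c r • U0 κ r (β r)) ?_ ?_ ?_⟩
  · intro r hr
    have h1 := (rep_U0 hA hκ hκc (continuous_of_uncurry hβ r) r (hB1 r hr)).smul (c r)
    refine (h1.mono ?_).congr (fun u => ?_)
    · apply mul_le_mul (hB2 r hr) _ (by positivity) (abs_nonneg _)
      apply mul_le_mul_of_nonneg_right (Real.sqrt_le_sqrt hr.2) (by positivity)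
    · rw [Complex.real_smul]
  · exact hc.smul (cont_U0 hκc hβ).continuousOn
  · intro u
    exact hc.smul (cont_U0 (TF.continuous u) hβ).continuousOn

/-- representer of the annular pairing of `Hu` -/
lemma rep_H (hT : ∀ g, (T g, T (M g)) ∈ closure (graph0 V hV))
    (Msa : ∀ a b : K, ⟪M a, b⟫_ℂ = ⟪a, M b⟫_ℂ) {C : ℝ} {b : ℝ → ℝ} (hb : Continuous b)
    {r₁ r₂ : ℝ} (h : 0 < r₁) (h12 : r₁ ≤ r₂) {φ : K}
    (hφ : Rep V hV M T C (fun u => ∫ r in r₁..r₂, U0 u.1 r b) φ) :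
    Rep V hV M T (nS b * (r₂ - r₁ + 1)) (fun u => ∫ r in r₁..r₂, U0 (Hop V hV u).1 r b) (M φ) := by
  intro u g
  set B : ℝ := nS b * (r₂ - r₁ + 1) with hB
  have hB0 : 0 ≤ B := mul_nonneg (nS_nonneg b) (by linarith)
  rw [Msa]
  apply le_of_forall_pos_le_add
  intro ε hε
  obtain ⟨w, hw⟩ := dense hT (M g) (ε := ε / (B + |C| + 1)) (by positivity)
  rw [lt_div_iff₀ (by positivity)] at hw
  have hD := D_nonneg V hV M T w (M g)
  have h1 := hφ w (M g)
  simp only at h1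
  have hcu : ∀ v : TF, Continuous fun r => U0 v.1 r b := fun v =>
    cont_U0 (TF.continuous v) (β := fun _ => b) (by
      show Continuous fun p : ℝ × ℝ => b p.2
      fun_prop)
  have h2 : (∫ r in r₁..r₂, U0 (Hop V hV u).1 r b) - (∫ r in r₁..r₂, U0 w.1 r b) =
      ∫ r in r₁..r₂, U0 (Hop V hV u - w).1 r b := by
    rw [← intervalIntegral.integral_sub ((hcu _).intervalIntegrable _ _)
      ((hcu _).intervalIntegrable _ _)]
    congr 1
    funext r
    rw [U0_sub _ _ _ hb]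
  have h3 := annular_le hb h h12 (Hop V hV u - w)
  have h4 : ‖toL2 (Hop V hV u - w)‖ ≤ D V hV M T u g + D V hV M T w (M g) := by
    rw [map_sub]
    have e : toL2 (Hop V hV u) - toL2 w = (toL2 (Hop V hV u) - T (M g)) - (toL2 w - T (M g)) := by
      abel
    rw [e]
    refine (norm_sub_le _ _).trans (add_le_add ?_ ?_)
    · exact le_add_of_nonneg_left (norm_nonneg _)
    · exact le_add_of_nonneg_right (norm_nonneg _)
  have h5 : ‖(∫ r in r₁..r₂, U0 (Hop V hV u).1 r b) - ⟪φ, M g⟫_ℂ‖ ≤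
      ‖∫ r in r₁..r₂, U0 (Hop V hV u - w).1 r b‖ + ‖(∫ r in r₁..r₂, U0 w.1 r b) - ⟪φ, M g⟫_ℂ‖ := by
    rw [← h2]
    refine le_trans (le_of_eq ?_) (norm_add_le _ _)
    congr 1
    ring
  have h6 : C * D V hV M T w (M g) ≤ |C| * D V hV M T w (M g) :=
    mul_le_mul_of_nonneg_right (le_abs_self _) hD
  have h7 : ‖∫ r in r₁..r₂, U0 (Hop V hV u - w).1 r b‖ ≤ B * (D V hV M T u g + D V hV M T w (M g)) := by
    refine h3.trans ?_
    rw [hB, mul_assoc]
    apply mul_le_mul_of_nonneg_left _ (nS_nonneg b)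
    exact mul_le_mul_of_nonneg_left h4 (by linarith)
  nlinarith

end concrete

end KerAux

end MP3a4792
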