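import Pool.Agent.Lib.MP_3a4792_mp.Kernel0

/-! Differential equations of the circle pairings, adjoint identity. -/

open MeasureTheory Set InnerProductSpace Filter Topology
open scoped ContDiff Laplacian InnerProductSpace SchwartzMap LineDeriv

noncomputable section

set_option linter.unusedSectionVars false

namespace MP3a4792

namespace KerAux

open Sob

lemma hasDerivAt_of_int {F : Type*} [NormedAddCommGroup F] [NormedSpace ℝ F] [CompleteSpace F]
    {f W : ℝ → F}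
    (hf : ∀ r₁ r₂, 0 < r₁ → r₁ ≤ r₂ → f r₂ - f r₁ = ∫ r in r₁..r₂, W r)
    (hW : ContinuousOn W (Ioi 0)) {r : ℝ} (hr : 0 < r) : HasDerivAt f (W r) r := by
  have hnb : Ioi (r / 2) ∈ 𝓝 r := Ioi_mem_nhds (by linarith)
  have h0 : ContinuousAt W r := hW.continuousAt (Ioi_mem_nhds hr)
  have hi : IntervalIntegrable W volume (r / 2) r := by
    apply ContinuousOn.intervalIntegrable
    rw [uIcc_of_le (by linarith)]
    exact hW.mono fun x hx => lt_of_lt_of_le (by positivity : (0:ℝ) < r / 2) hx.1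
  have hm : StronglyMeasurableAtFilter W (𝓝 r) := by
    refine ⟨Ioi 0, Ioi_mem_nhds hr, ?_⟩
    exact hW.aestronglyMeasurable measurableSet_Ioi
  have h1 := (intervalIntegral.integral_hasDerivAt_right hi hm h0).const_add (f (r / 2))
  refine h1.congr_of_eventuallyEq ?_
  filter_upwards [hnb] with s hs
  have h2 := hf (r / 2) s (by positivity) (le_of_lt hs)
  rw [← h2]
  abel

section concrete

variable {K : Type*} [NormedAddCommGroup K] [InnerProductSpace ℂ K] [CompleteSpace K]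
variable {V : E2 → ℝ} {hV : ContDiff ℝ ∞ V} {M : K →L[ℂ] K} {T : K →L[ℂ] L2E}

/-- right side of the equation for `U1` -/
def WW (V : E2 → ℝ) (M : K →L[ℂ] K) (κ : E2 → K) (b : ℝ → ℝ) (r : ℝ) : K :=
  - M (U0 κ r b) + U0 κ r (fun θ => V (pol r θ) * b θ)
      - (1 / r ^ 2) • U0 κ r (fun θ => iteratedDeriv 2 b θ + b θ / 4)

lemma cont_unc_b {b : ℝ → ℝ} (hb : Continuous b) :
    Continuous (Function.uncurry fun (_ : ℝ) θ => b θ) := by
  show Continuous fun p : ℝ × ℝ => b p.2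
  fun_prop

lemma cont_unc_Vb {b : ℝ → ℝ} (hb : Continuous b) (hVc : Continuous V) :
    Continuous (Function.uncurry fun (r : ℝ) θ => V (pol r θ) * b θ) := by
  show Continuous fun p : ℝ × ℝ => V (pol p.1 p.2) * b p.2
  exact (hVc.comp continuous_pol).mul (by fun_prop)

lemma cont_b4 {b : ℝ → ℝ} (hb : Cls b) : Continuous fun θ => iteratedDeriv 2 b θ + b θ / 4 :=
  (cls_dd hb).add (hb.1.continuous.div_const 4)

lemma contOn_inv_sq : ContinuousOn (fun r : ℝ => 1 / r ^ 2) (Ioi 0) := by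
  apply ContinuousOn.div continuousOn_const (by fun_prop)
  intro r hr
  have : (0:ℝ) < r := hr
  positivity

lemma contOn_WW {κ : E2 → K} (hκ : Continuous κ) (hVc : Continuous V) {b : ℝ → ℝ} (hb : Cls b) :
    ContinuousOn (WW V M κ b) (Ioi 0) := by
  unfold WW
  have h1 := cont_U0 hκ (cont_unc_b hb.1.continuous)
  have h2 := cont_U0 hκ (cont_unc_Vb hb.1.continuous hVc)
  have h3 := cont_U0 hκ (cont_unc_b (cont_b4 hb))
  exact (((M.continuous.comp h1).neg).add h2).continuousOn.sub (contOn_inv_sq.smul h3.continuousOn)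

lemma U0_mulTF (u : TF) (r : ℝ) (b : ℝ → ℝ) :
    U0 (mulTF V hV u).1 r b = U0 u.1 r (fun θ => V (pol r θ) * b θ) := by
  unfold U0
  congr 2
  funext θ
  show b θ • ((V (pol r θ) : ℂ) * u.1 (pol r θ)) = _
  simp only [Complex.real_smul]
  push_cast
  ring

lemma S1_int (hT : ∀ g, (T g, T (M g)) ∈ closure (graph0 V hV))
    (Msa : ∀ a b : K, ⟪M a, b⟫_ℂ = ⟪a, M b⟫_ℂ) {κ : E2 → K} {A : ℝ} (hA : 0 ≤ A)
    (hκ : ∀ x, Rep V hV M T A (fun u => u.1 x) (κ x)) (hκc : Continuous κ)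
    {b : ℝ → ℝ} (hb : Cls b) {C₁ C₂ : ℝ} {φ₁ φ₂ : K} {r₁ r₂ : ℝ} (h : 0 < r₁) (h12 : r₁ ≤ r₂)
    (h₁ : Rep V hV M T C₁ (fun u => L1 u r₁ b) φ₁) (h₂ : Rep V hV M T C₂ (fun u => L1 u r₂ b) φ₂) :
    φ₂ - φ₁ = ∫ r in r₁..r₂, WW V M κ b r := by
  have hbc : Continuous b := hb.1.continuous
  have hVc : Continuous V := hV.continuous
  have hI : Icc r₁ r₂ ⊆ Ioi 0 := fun x hx => lt_of_lt_of_le h hx.1
  obtain ⟨Ca, ha⟩ := rep_ann hA hκ hκc (cont_unc_b hbc) (c := fun _ => 1) h12 continuousOn_const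
  obtain ⟨Cb, hb'⟩ := rep_ann hA hκ hκc (cont_unc_Vb hbc hVc) (c := fun _ => 1) h12 continuousOn_const
  obtain ⟨Cc, hc⟩ := rep_ann hA hκ hκc (cont_unc_b (cont_b4 hb)) (c := fun r => 1 / r ^ 2) h12
    (contOn_inv_sq.mono hI)
  simp only [one_smul] at ha hb'
  have hH := rep_H hT Msa hbc h h12 ha
  have hR := (hb'.sub hH).sub hc
  have hL := h₂.sub h₁
  have key := hL.unique hT (hR.congr (fun u => ?_))
  · rw [key]
    have i1 : IntervalIntegrable (fun r => U0 κ r b) volume r₁ r₂ :=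
      (cont_U0 hκc (cont_unc_b hbc)).intervalIntegrable _ _
    have i2 : IntervalIntegrable (fun r => U0 κ r (fun θ => V (pol r θ) * b θ)) volume r₁ r₂ :=
      (cont_U0 hκc (cont_unc_Vb hbc hVc)).intervalIntegrable _ _
    have i3 : IntervalIntegrable (fun r : ℝ => (1 / r ^ 2) •
        U0 κ r (fun θ => iteratedDeriv 2 b θ + b θ / 4)) volume r₁ r₂ := by
      apply ContinuousOn.intervalIntegrable
      rw [uIcc_of_le h12]
      exact (contOn_inv_sq.mono hI).smul (cont_U0 hκc (cont_unc_b (cont_b4 hb))).continuousOn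
    have i1' : IntervalIntegrable (fun r => M (U0 κ r b)) volume r₁ r₂ :=
      (M.continuous.comp (cont_U0 hκc (cont_unc_b hbc))).intervalIntegrable _ _
    rw [← ContinuousLinearMap.intervalIntegral_comp_comm M i1, ← intervalIntegral.integral_sub i2 i1',
      ← intervalIntegral.integral_sub (i2.sub i1') i3]
    congr 1
    funext r
    unfold WW
    abel
  · rw [I1 u hb h h12]
    have j1 : IntervalIntegrable (fun r => U0 (Hop V hV u).1 r b) volume r₁ r₂ :=
      (cont_U0 (TF.continuous _) (cont_unc_b hbc)).intervalIntegrable _ _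
    have j2 : IntervalIntegrable (fun r => U0 u.1 r (fun θ => V (pol r θ) * b θ)) volume r₁ r₂ :=
      (cont_U0 (TF.continuous u) (cont_unc_Vb hbc hVc)).intervalIntegrable _ _
    have j3 : IntervalIntegrable (fun r : ℝ => (1 / r ^ 2) •
        U0 u.1 r (fun θ => iteratedDeriv 2 b θ + b θ / 4)) volume r₁ r₂ := by
      apply ContinuousOn.intervalIntegrable
      rw [uIcc_of_le h12]
      exact (contOn_inv_sq.mono hI).smul
        (cont_U0 (TF.continuous u) (cont_unc_b (cont_b4 hb))).continuousOn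
    rw [← intervalIntegral.integral_sub j2 j1, ← intervalIntegral.integral_sub (j2.sub j1) j3]
    congr 1
    funext r
    rw [lap_eq_sub V hV u, U0_sub _ _ _ hbc, U0_mulTF]

lemma contOn_L1 (u : TF) {b : ℝ → ℝ} (hb : Cls b) : ContinuousOn (fun r => L1 u r b) (Ioi 0) := by
  intro r hr
  have hbc : Continuous b := hb.1.continuous
  refine (hasDerivAt_of_int (f := fun r => L1 u r b) (W := fun r => U0 (lap u).1 r b -
      (1 / r ^ 2) • U0 u.1 r (fun θ => iteratedDeriv 2 b θ + b θ / 4))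
      (fun r₁ r₂ h h12 => I1 u hb h h12) ?_ hr).continuousAt.continuousWithinAt
  exact (cont_U0 (TF.continuous _) (cont_unc_b hbc)).continuousOn.sub
    (contOn_inv_sq.smul (cont_U0 (TF.continuous u) (cont_unc_b (cont_b4 hb))).continuousOn)

lemma S0_int (hT : ∀ g, (T g, T (M g)) ∈ closure (graph0 V hV)) {κ : E2 → K} {b : ℝ → ℝ} (hb : Cls b)
    {C₀ : ℝ → ℝ} (h0 : ∀ r, Rep V hV M T (C₀ r) (fun u => U0 u.1 r b) (U0 κ r b))
    {U : ℝ → K} {C₁ : ℝ → ℝ} (h1 : ∀ r, 0 < r → Rep V hV M T (C₁ r) (fun u => L1 u r b) (U r))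
    (hC₁ : ∀ r₁ r, 0 < r₁ → r₁ ≤ r → C₁ r ≤ C₁ r₁) (hU : ContinuousOn U (Ioi 0))
    {r₁ r₂ : ℝ} (h : 0 < r₁) (h12 : r₁ ≤ r₂) :
    U0 κ r₂ b - U0 κ r₁ b = ∫ r in r₁..r₂, U r := by
  have hI : Icc r₁ r₂ ⊆ Ioi 0 := fun x hx => lt_of_lt_of_le h hx.1
  have hR := Rep.integral (V := V) (hV := hV) (M := M) (T := T) (C := C₁ r₁) h12
    (ℓ := fun r u => L1 u r b) (φ := U)
    (fun r hr => (h1 r (hI hr)).mono (hC₁ r₁ r h hr.1)) (hU.mono hI)
    (fun u => (contOn_L1 u hb).mono hI)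
  have hL := (h0 r₂).sub (h0 r₁)
  exact hL.unique hT (hR.congr fun u => (I0 u hb.1.continuous h h12).symm)

lemma adj_eq (hT : ∀ g, (T g, T (M g)) ∈ closure (graph0 V hV)) {κ : E2 → K} {A : ℝ}
    (hA : 0 ≤ A) (hκ : ∀ x, Rep V hV M T A (fun u => u.1 x) (κ x)) (hκc : Continuous κ) (u : TF) :
    (ContinuousLinearMap.adjoint T) (toL2 u) = ∫ x, u.1 x • κ x := by
  have hcs : HasCompactSupport u.1 := TF.hasCompactSupport u
  have hcu : Continuous u.1 := TF.continuous u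
  have i1 : Integrable (fun x => u.1 x • κ x) := by
    apply Continuous.integrable_of_hasCompactSupport (hcu.smul hκc)
    exact hcs.smul_right
  have iu : Integrable (fun x => ‖u.1 x‖) := by
    apply Continuous.integrable_of_hasCompactSupport hcu.norm
    exact hcs.norm
  apply ext_inner_right ℂ
  intro g
  rw [ContinuousLinearMap.adjoint_inner_left]
  have e1 : ⟪∫ x, u.1 x • κ x, g⟫_ℂ = ∫ x, starRingEnd ℂ (u.1 x) * ⟪κ x, g⟫_ℂ := by
    rw [← ipr_apply, ← ContinuousLinearMap.integral_comp_comm _ i1]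
    congr 1
    funext x
    rw [ipr_apply, inner_smul_left]
  rw [e1, ← sub_eq_zero, ← norm_le_zero_iff]
  apply le_of_forall_pos_le_add
  intro ε hε
  set B : ℝ := ‖toL2 u‖ + A * ∫ x, ‖u.1 x‖ with hB
  have hB0 : 0 ≤ B := add_nonneg (norm_nonneg _) (mul_nonneg hA (integral_nonneg fun x => norm_nonneg _))
  obtain ⟨w, hw⟩ := dense hT g (ε := ε / (B + 1)) (by positivity)
  rw [lt_div_iff₀ (by positivity)] at hw
  have hD := D_nonneg V hV M T w g
  have i2 : Integrable (fun x => starRingEnd ℂ (u.1 x) * ⟪κ x, g⟫_ℂ) := by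
    apply Continuous.integrable_of_hasCompactSupport
    · apply (Complex.continuous_conj.comp hcu).mul
      exact hκc.inner continuous_const
    · apply HasCompactSupport.mul_right
      exact hcs.comp_left (map_zero _)
  have i3 : Integrable (fun x => starRingEnd ℂ (u.1 x) * w.1 x) := by
    apply Continuous.integrable_of_hasCompactSupport
    · exact (Complex.continuous_conj.comp hcu).mul (TF.continuous w)
    · apply HasCompactSupport.mul_right
      exact hcs.comp_left (map_zero _)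
  have e2 : ⟪toL2 u, toL2 w⟫_ℂ = ∫ x, starRingEnd ℂ (u.1 x) * w.1 x := by
    rw [L2.inner_def]
    apply integral_congr_ae
    filter_upwards [coeFn_toL2 u, coeFn_toL2 w] with x h1 h2
    rw [h1, h2, RCLike.inner_apply, mul_comm]
  have h1 : ‖⟪toL2 u, T g⟫_ℂ - ⟪toL2 u, toL2 w⟫_ℂ‖ ≤ ‖toL2 u‖ * D V hV M T w g := by
    rw [← inner_sub_right]
    refine (norm_inner_le_norm _ _).trans ?_
    apply mul_le_mul_of_nonneg_left _ (norm_nonneg _)
    rw [norm_sub_rev]
    exact le_add_of_nonneg_right (norm_nonneg _)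
  have h2 : ‖(∫ x, starRingEnd ℂ (u.1 x) * w.1 x) - ∫ x, starRingEnd ℂ (u.1 x) * ⟪κ x, g⟫_ℂ‖ ≤
      (A * ∫ x, ‖u.1 x‖) * D V hV M T w g := by
    rw [← integral_sub i3 i2]
    have h3 : A * (∫ x, ‖u.1 x‖) * D V hV M T w g = ∫ x, ‖u.1 x‖ * (A * D V hV M T w g) := by
      rw [integral_mul_const]
      ring
    rw [h3]
    refine norm_integral_le_of_norm_le (iu.mul_const _) (Filter.Eventually.of_forall fun x => ?_)
    rw [← mul_sub, norm_mul, RCLike.norm_conj]
    exact mul_le_mul_of_nonneg_left (hκ x w g) (norm_nonneg _)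
  have h4 : ‖⟪toL2 u, T g⟫_ℂ - ∫ x, starRingEnd ℂ (u.1 x) * ⟪κ x, g⟫_ℂ‖ ≤
      ‖⟪toL2 u, T g⟫_ℂ - ⟪toL2 u, toL2 w⟫_ℂ‖ +
      ‖(∫ x, starRingEnd ℂ (u.1 x) * w.1 x) - ∫ x, starRingEnd ℂ (u.1 x) * ⟪κ x, g⟫_ℂ‖ := by
    rw [← e2]
    refine le_trans (le_of_eq ?_) (norm_add_le _ _)
    congr 1
    ring
  have h5 : B * D V hV M T w g = ‖toL2 u‖ * D V hV M T w g + (A * ∫ x, ‖u.1 x‖) * D V hV M T w g := by
    rw [hB]
    ring
  nlinarith

end concrete

end KerAux

end MP3a4792
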