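import Mathlib

/-! Abstract one dimensional estimates for `X'' = -M X + q X + err` in a Hilbert space. -/

open MeasureTheory Set InnerProductSpace Filter Topology
open scoped InnerProductSpace ComplexConjugate

noncomputable section

namespace MP3a4792

variable {K : Type*} [NormedAddCommGroup K] [InnerProductSpace ℂ K]

lemma hasDerivAt_inner_real {X Y : ℝ → K} {X' Y' : K} {r : ℝ} (hX : HasDerivAt X X' r)
    (hY : HasDerivAt Y Y' r) :
    HasDerivAt (fun r => ⟪X r, Y r⟫_ℂ) (⟪X r, Y'⟫_ℂ + ⟪X', Y r⟫_ℂ) r :=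
  hX.inner ℂ hY

/-- flux derivative -/
lemma flux_hasDerivAt (M P : K →L[ℂ] K) (ev : K →L[ℂ] ℂ) (c : ℝ)
    (Psa : ∀ a b : K, ⟪P a, b⟫_ℂ = ⟪a, P b⟫_ℂ)
    (comm : ∀ a b : K, ⟪M a, P b⟫_ℂ - ⟪a, P (M b)⟫_ℂ =
      Complex.I * (c : ℂ) * (starRingEnd ℂ (ev a) * ev b))
    {X X1 : ℝ → K} {r q : ℝ} {e : K}
    (hX : HasDerivAt X (X1 r) r) (hX1 : HasDerivAt X1 (- M (X r) + q • X r + e) r) :
    HasDerivAt (fun r => (⟪X r, P (X1 r)⟫_ℂ).im)
      (c / 2 * ‖ev (X r)‖ ^ 2 + (⟪X r, P e⟫_ℂ).im) r := by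
  have hP1 : HasDerivAt (fun r => P (X1 r)) (P (- M (X r) + q • X r + e)) r := by
    have := (P.restrictScalars ℝ).hasFDerivAt.comp_hasDerivAt r hX1
    exact this
  have h := hasDerivAt_inner_real hX hP1
  have him : HasDerivAt (fun r => (⟪X r, P (X1 r)⟫_ℂ).im)
      (⟪X r, P (- M (X r) + q • X r + e)⟫_ℂ + ⟪X1 r, P (X1 r)⟫_ℂ).im r :=
    Complex.imCLM.hasFDerivAt.comp_hasDerivAt r h
  refine him.congr_deriv ?_
  simp only [Complex.add_im, map_add, map_neg, inner_add_right, inner_neg_right,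
    Complex.neg_im]
  -- real terms
  have hr1 : (⟪X1 r, P (X1 r)⟫_ℂ).im = 0 := by
    have h1 := Psa (X1 r) (X1 r)
    have h2 := inner_conj_symm (𝕜 := ℂ) (P (X1 r)) (X1 r)
    rw [h1] at h2
    have := congrArg Complex.im h2
    simp only [Complex.conj_im] at this
    linarith
  have hr2 : (⟪X r, P (q • X r)⟫_ℂ).im = 0 := by
    have hP : P (q • X r) = (q : ℂ) • P (X r) := by
      rw [← map_smul]; rfl
    rw [hP, inner_smul_right]
    have h1 := Psa (X r) (X r)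
    have h2 := inner_conj_symm (𝕜 := ℂ) (P (X r)) (X r)
    rw [h1] at h2
    have := congrArg Complex.im h2
    simp only [Complex.conj_im] at this
    rw [Complex.mul_im]
    simp only [Complex.ofReal_re, Complex.ofReal_im, zero_mul, add_zero]
    have h0 : (⟪X r, P (X r)⟫_ℂ).im = 0 := by linarith
    rw [h0, mul_zero]
  have hr3 : (⟪X r, P (M (X r))⟫_ℂ).im = - (c / 2 * ‖ev (X r)‖ ^ 2) := by
    have h1 := comm (X r) (X r)
    have h2 : ⟪M (X r), P (X r)⟫_ℂ = starRingEnd ℂ (⟪X r, P (M (X r))⟫_ℂ) := by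
      rw [inner_conj_symm, Psa]
    rw [h2] at h1
    have h3 := congrArg Complex.im h1
    rw [Complex.sub_im, Complex.conj_im] at h3
    have h4 : (starRingEnd ℂ (ev (X r)) * ev (X r)) = ((‖ev (X r)‖ ^ 2 : ℝ) : ℂ) := by
      rw [← Complex.normSq_eq_conj_mul_self, Complex.normSq_eq_norm_sq]
    rw [h4] at h3
    have h5 : (Complex.I * (c : ℂ) * ((‖ev (X r)‖ ^ 2 : ℝ) : ℂ)).im = c * ‖ev (X r)‖ ^ 2 := by
      simp [Complex.mul_im, ← Complex.ofReal_pow]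
    rw [h5] at h3
    linarith
  rw [hr1, hr2, hr3]
  ring

/-- the error part is bounded -/
lemma im_inner_P_le (P : K →L[ℂ] K) (hP : ‖P‖ ≤ 1) (a b : K) :
    |(⟪a, P b⟫_ℂ).im| ≤ ‖a‖ * ‖b‖ := by
  calc |(⟪a, P b⟫_ℂ).im| ≤ ‖⟪a, P b⟫_ℂ‖ := Complex.abs_im_le_norm _
    _ ≤ ‖a‖ * ‖P b‖ := norm_inner_le_norm _ _
    _ ≤ ‖a‖ * (1 * ‖b‖) := by
        gcongr
        exact (P.le_opNorm b).trans (by gcongr)
    _ = ‖a‖ * ‖b‖ := by rw [one_mul]

/-- monotonicity of the flux up to the error -/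
lemma flux_le (M P : K →L[ℂ] K) (ev : K →L[ℂ] ℂ) (c : ℝ) (hc : 0 ≤ c)
    (hP : ‖P‖ ≤ 1)
    (Psa : ∀ a b : K, ⟪P a, b⟫_ℂ = ⟪a, P b⟫_ℂ)
    (comm : ∀ a b : K, ⟪M a, P b⟫_ℂ - ⟪a, P (M b)⟫_ℂ =
      Complex.I * (c : ℂ) * (starRingEnd ℂ (ev a) * ev b))
    {X X1 : ℝ → K} {q : ℝ → ℝ} {e : ℝ → K} {r₁ r₂ A ε : ℝ} (h12 : r₁ ≤ r₂)
    (hX : ∀ r ∈ Icc r₁ r₂, HasDerivAt X (X1 r) r)
    (hX1 : ∀ r ∈ Icc r₁ r₂, HasDerivAt X1 (- M (X r) + q r • X r + e r) r)
    (hA : ∀ r ∈ Icc r₁ r₂, ‖X r‖ ≤ A) (hε : ∀ r ∈ Icc r₁ r₂, ‖e r‖ ≤ ε) :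
    (⟪X r₁, P (X1 r₁)⟫_ℂ).im ≤ (⟪X r₂, P (X1 r₂)⟫_ℂ).im + A * ε * (r₂ - r₁) := by
  have hd : ∀ r ∈ Icc r₁ r₂, HasDerivAt (fun r => (⟪X r, P (X1 r)⟫_ℂ).im + A * ε * r)
      (c / 2 * ‖ev (X r)‖ ^ 2 + (⟪X r, P (e r)⟫_ℂ).im + A * ε) r := by
    intro r hr
    have h1 := flux_hasDerivAt M P ev c Psa comm (hX r hr) (hX1 r hr)
    have h2 : HasDerivAt (fun r : ℝ => A * ε * r) (A * ε * 1) r := (hasDerivAt_id r).const_mul _
    rw [mul_one] at h2
    exact h1.add h2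
  have hmono : MonotoneOn (fun r => (⟪X r, P (X1 r)⟫_ℂ).im + A * ε * r) (Icc r₁ r₂) := by
    apply monotoneOn_of_deriv_nonneg (convex_Icc _ _)
    · intro r hr
      exact (hd r hr).continuousAt.continuousWithinAt
    · intro r hr
      rw [interior_Icc] at hr
      exact (hd r (Ioo_subset_Icc_self hr)).differentiableAt.differentiableWithinAt
    · intro r hr
      rw [interior_Icc] at hr
      have hr' := Ioo_subset_Icc_self hr
      rw [(hd r hr').deriv]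
      have h3 := im_inner_P_le P hP (X r) (e r)
      have h4 : ‖X r‖ * ‖e r‖ ≤ A * ε :=
        mul_le_mul (hA r hr') (hε r hr') (norm_nonneg _) ((norm_nonneg _).trans (hA r hr'))
      have h5 := neg_abs_le (⟪X r, P (e r)⟫_ℂ).im
      have h6 : 0 ≤ c / 2 * ‖ev (X r)‖ ^ 2 := by positivity
      linarith
  have := hmono (left_mem_Icc.2 h12) (right_mem_Icc.2 h12) h12
  simp only at this
  linarith

/-- Agmon type estimate in the plug -/
lemma agmon (M : K →L[ℂ] K) {Λ : ℝ} (hM : ‖M‖ ≤ Λ)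
    {X X1 : ℝ → K} {e : ℝ → K} {a l A ε : ℝ} (hl : 0 < l)
    (hX : ∀ r ∈ Icc a (a + l), HasDerivAt X (X1 r) r)
    (hX1 : ∀ r ∈ Icc a (a + l), HasDerivAt X1 (- M (X r) + (Λ + 1) • X r + e r) r)
    (hA : ∀ r ∈ Icc a (a + l), ‖X r‖ ≤ A) (hε : ∀ r ∈ Icc a (a + l), ‖e r‖ ≤ ε) :
    ∫ r in (a + l / 4)..(a + 3 * l / 4), ‖X r‖ ^ 2 ≤ 29 * A ^ 2 / l + 2 * l * (A * ε) := by
  set ω : ℝ → ℝ := fun r => (r - a) * (a + l - r) / l with hω
  set ω' : ℝ → ℝ := fun r => (l - 2 * (r - a)) / l with hω'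
  have hωd : ∀ r, HasDerivAt ω (ω' r) r := by
    intro r
    have h1 : HasDerivAt (fun r : ℝ => r - a) 1 r := (hasDerivAt_id r).sub_const a
    have h2 : HasDerivAt (fun r : ℝ => a + l - r) (-1) r := by
      simpa using (hasDerivAt_id r).const_sub (a + l)
    have h3 := (h1.mul h2).div_const l
    refine h3.congr_deriv ?_
    simp only [hω']; ring
  have hω'1 : ∀ r ∈ Icc a (a + l), ω' r ^ 2 ≤ 1 := by
    intro r hr
    have : |ω' r| ≤ 1 := by
      simp only [hω', abs_div, abs_of_pos hl]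
      rw [div_le_one hl, abs_le]
      constructor <;> linarith [hr.1, hr.2]
    calc ω' r ^ 2 = |ω' r| ^ 2 := (sq_abs _).symm
      _ ≤ 1 ^ 2 := by gcongr
      _ = 1 := one_pow 2
  have hω0 : ∀ r ∈ Icc a (a + l), 0 ≤ ω r ∧ ω r ≤ l / 4 := by
    intro r hr
    constructor
    · exact div_nonneg (mul_nonneg (by linarith [hr.1]) (by linarith [hr.2])) hl.le
    · simp only [hω]
      rw [div_le_div_iff₀ hl (by norm_num)]
      nlinarith [sq_nonneg (2 * (r - a) - l)]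
  have hA0 : 0 ≤ A := (norm_nonneg _).trans (hA a ⟨le_rfl, by linarith⟩)
  have hε0 : 0 ≤ ε := (norm_nonneg _).trans (hε a ⟨le_rfl, by linarith⟩)
  set G : ℝ → ℝ := fun r => ω r ^ 2 * (⟪X r, X1 r⟫_ℂ).re with hG
  set L : ℝ → ℝ := fun r => ω r ^ 2 * ‖X r‖ ^ 2 - A ^ 2 - l ^ 2 / 16 * (A * ε) with hL
  have hGd : ∀ r ∈ Icc a (a + l), HasDerivAt G
      (2 * ω r * ω' r * (⟪X r, X1 r⟫_ℂ).re + ω r ^ 2 * ((⟪X r, - M (X r) + (Λ + 1) • X r + e r⟫_ℂ).re
        + ‖X1 r‖ ^ 2)) r := by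
    intro r hr
    have h := hasDerivAt_inner_real (hX r hr) (hX1 r hr)
    have hre : HasDerivAt (fun r => (⟪X r, X1 r⟫_ℂ).re)
      (⟪X r, - M (X r) + (Λ + 1) • X r + e r⟫_ℂ + ⟪X1 r, X1 r⟫_ℂ).re r :=
      Complex.reCLM.hasFDerivAt.comp_hasDerivAt r h
    have h2 : HasDerivAt (fun r => ω r ^ 2) (2 * ω r * ω' r) r := by
      have := (hωd r).pow 2
      refine this.congr_deriv ?_
      norm_num
    have h3 := h2.mul hre
    refine h3.congr_deriv ?_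
    have h4 : (⟪X1 r, X1 r⟫_ℂ).re = ‖X1 r‖ ^ 2 := inner_self_eq_norm_sq (𝕜 := ℂ) (X1 r)
    rw [Complex.add_re, h4]
  have hlow : ∀ r ∈ Icc a (a + l), L r ≤ (2 * ω r * ω' r * (⟪X r, X1 r⟫_ℂ).re
      + ω r ^ 2 * ((⟪X r, - M (X r) + (Λ + 1) • X r + e r⟫_ℂ).re + ‖X1 r‖ ^ 2)) := by
    intro r hr
    have hx : ‖X r‖ ≤ A := hA r hr
    have he : ‖e r‖ ≤ ε := hε r hr
    have h1 : (⟪X r, - M (X r) + (Λ + 1) • X r + e r⟫_ℂ).re ≥ ‖X r‖ ^ 2 - ‖X r‖ * ‖e r‖ := by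
      rw [inner_add_right, inner_add_right, inner_neg_right, Complex.add_re, Complex.add_re,
        Complex.neg_re]
      have ha : (⟪X r, M (X r)⟫_ℂ).re ≤ Λ * ‖X r‖ ^ 2 := by
        calc (⟪X r, M (X r)⟫_ℂ).re ≤ ‖⟪X r, M (X r)⟫_ℂ‖ := Complex.re_le_norm _
          _ ≤ ‖X r‖ * ‖M (X r)‖ := norm_inner_le_norm _ _
          _ ≤ ‖X r‖ * (Λ * ‖X r‖) := by
              gcongr
              exact (M.le_opNorm _).trans (by gcongr)
          _ = Λ * ‖X r‖ ^ 2 := by ring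
      have hb : (⟪X r, (Λ + 1) • X r⟫_ℂ).re = (Λ + 1) * ‖X r‖ ^ 2 := by
        have e1 : (Λ + 1) • X r = ((Λ + 1 : ℝ) : ℂ) • X r := rfl
        rw [e1, inner_smul_right, Complex.re_ofReal_mul]
        congr 1
        exact inner_self_eq_norm_sq (𝕜 := ℂ) (X r)
      have hc : -(‖X r‖ * ‖e r‖) ≤ (⟪X r, e r⟫_ℂ).re := by
        have := norm_inner_le_norm (𝕜 := ℂ) (X r) (e r)
        have h2 := Complex.abs_re_le_norm (⟪X r, e r⟫_ℂ)
        have h3 := neg_abs_le (⟪X r, e r⟫_ℂ).re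
        linarith
      rw [hb]
      linarith
    have h2 : |(⟪X r, X1 r⟫_ℂ).re| ≤ ‖X r‖ * ‖X1 r‖ :=
      (Complex.abs_re_le_norm _).trans (norm_inner_le_norm _ _)
    have h3 : 2 * ω r * ω' r * (⟪X r, X1 r⟫_ℂ).re ≥ - (ω r ^ 2 * ‖X1 r‖ ^ 2 + ω' r ^ 2 * ‖X r‖ ^ 2) := by
      have h4 : |2 * ω r * ω' r * (⟪X r, X1 r⟫_ℂ).re| ≤ 2 * |ω r| * |ω' r| * (‖X r‖ * ‖X1 r‖) := by
        rw [abs_mul, abs_mul, abs_mul, abs_two]
        gcongr
      have h5 : 2 * |ω r| * |ω' r| * (‖X r‖ * ‖X1 r‖) ≤ ω r ^ 2 * ‖X1 r‖ ^ 2 + ω' r ^ 2 * ‖X r‖ ^ 2 := by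
        have := sq_nonneg (|ω r| * ‖X1 r‖ - |ω' r| * ‖X r‖)
        have e1 : |ω r| ^ 2 = ω r ^ 2 := sq_abs _
        have e2 : |ω' r| ^ 2 = ω' r ^ 2 := sq_abs _
        nlinarith
      have := neg_abs_le (2 * ω r * ω' r * (⟪X r, X1 r⟫_ℂ).re)
      linarith
    have h6 : ω' r ^ 2 * ‖X r‖ ^ 2 ≤ A ^ 2 := by
      calc ω' r ^ 2 * ‖X r‖ ^ 2 ≤ 1 * A ^ 2 := by
            gcongr
            exact hω'1 r hr
        _ = A ^ 2 := one_mul _
    have h7 : ω r ^ 2 * (‖X r‖ * ‖e r‖) ≤ l ^ 2 / 16 * (A * ε) := by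
      have : ω r ^ 2 ≤ (l / 4) ^ 2 := by
        have := hω0 r hr
        gcongr
        · exact this.1
        · exact this.2
      calc ω r ^ 2 * (‖X r‖ * ‖e r‖) ≤ (l / 4) ^ 2 * (A * ε) := by gcongr
        _ = _ := by ring
    have h8 : ω r ^ 2 * ((⟪X r, - M (X r) + (Λ + 1) • X r + e r⟫_ℂ).re + ‖X1 r‖ ^ 2) ≥
        ω r ^ 2 * (‖X r‖ ^ 2 - ‖X r‖ * ‖e r‖ + ‖X1 r‖ ^ 2) := by
      apply mul_le_mul_of_nonneg_left _ (sq_nonneg _)
      linarith
    simp only [hL]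
    nlinarith
  have hLc : ContinuousOn L (Icc a (a + l)) := by
    have h1 : ContinuousOn (fun r => ‖X r‖) (Icc a (a + l)) := by
      intro r hr
      exact (hX r hr).continuousAt.norm.continuousWithinAt
    have h2 : Continuous ω := by fun_prop
    have : ContinuousOn (fun r => ω r ^ 2 * ‖X r‖ ^ 2 - A ^ 2 - l ^ 2 / 16 * (A * ε)) (Icc a (a + l)) := by
      fun_prop
    exact this
  -- integrate
  have hint : ∫ r in a..(a + l), L r ≤ G (a + l) - G a := by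
    have hle : a ≤ a + l := by linarith
    apply intervalIntegral.integral_le_sub_of_hasDeriv_right_of_le hle
    · intro r hr
      exact (hGd r hr).continuousAt.continuousWithinAt
    · intro r hr
      exact (hGd r (Ioo_subset_Icc_self hr)).hasDerivWithinAt
    · exact hLc.integrableOn_Icc
    · intro r hr
      exact hlow r (Ioo_subset_Icc_self hr)
  have hG0 : G (a + l) - G a = 0 := by
    simp [hG, hω]
  rw [hG0] at hint
  have hXc : ContinuousOn (fun r => ω r ^ 2 * ‖X r‖ ^ 2) (Icc a (a + l)) := by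
    have h1 : ContinuousOn (fun r => ‖X r‖) (Icc a (a + l)) := by
      intro r hr
      exact (hX r hr).continuousAt.norm.continuousWithinAt
    have h2 : Continuous ω := by fun_prop
    fun_prop
  have hle : a ≤ a + l := by linarith
  have hsplit : ∫ r in a..(a + l), L r = (∫ r in a..(a + l), ω r ^ 2 * ‖X r‖ ^ 2)
      - l * (A ^ 2 + l ^ 2 / 16 * (A * ε)) := by
    have e1 : ∀ r, L r = ω r ^ 2 * ‖X r‖ ^ 2 - (A ^ 2 + l ^ 2 / 16 * (A * ε)) := by
      intro r; simp only [hL]; ring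
    simp only [e1]
    rw [intervalIntegral.integral_sub, intervalIntegral.integral_const]
    · simp
    · apply ContinuousOn.intervalIntegrable
      rw [uIcc_of_le hle]; exact hXc
    · exact intervalIntegrable_const
  have hmid : ∫ r in (a + l / 4)..(a + 3 * l / 4), (3 * l / 16) ^ 2 * ‖X r‖ ^ 2
      ≤ ∫ r in a..(a + l), ω r ^ 2 * ‖X r‖ ^ 2 := by
    have hsub : Icc (a + l / 4) (a + 3 * l / 4) ⊆ Icc a (a + l) :=
      Icc_subset_Icc (by linarith) (by linarith)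
    calc ∫ r in (a + l / 4)..(a + 3 * l / 4), (3 * l / 16) ^ 2 * ‖X r‖ ^ 2
        ≤ ∫ r in (a + l / 4)..(a + 3 * l / 4), ω r ^ 2 * ‖X r‖ ^ 2 := by
          apply intervalIntegral.integral_mono_on (by linarith)
          · apply ContinuousOn.intervalIntegrable
            rw [uIcc_of_le (by linarith)]
            have h1 : ContinuousOn (fun r => ‖X r‖) (Icc (a + l / 4) (a + 3 * l / 4)) := by
              intro r hr
              exact (hX r (hsub hr)).continuousAt.norm.continuousWithinAt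
            fun_prop
          · apply ContinuousOn.intervalIntegrable
            rw [uIcc_of_le (by linarith)]
            exact hXc.mono hsub
          · intro r hr
            have : 3 * l / 16 ≤ ω r := by
              simp only [hω]
              rw [le_div_iff₀ hl]
              nlinarith [hr.1, hr.2, mul_nonneg (sub_nonneg.2 hr.1) (sub_nonneg.2 hr.2)]
            gcongr
      _ ≤ ∫ r in a..(a + l), ω r ^ 2 * ‖X r‖ ^ 2 := by
          apply intervalIntegral.integral_mono_interval (by linarith) (by linarith) (by linarith)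
          · apply Filter.Eventually.of_forall
            intro r; positivity
          · apply ContinuousOn.intervalIntegrable
            rw [uIcc_of_le hle]; exact hXc
  rw [hsplit] at hint
  rw [intervalIntegral.integral_const_mul] at hmid
  have hfin : (3 * l / 16) ^ 2 * ∫ r in (a + l / 4)..(a + 3 * l / 4), ‖X r‖ ^ 2 ≤
      l * (A ^ 2 + l ^ 2 / 16 * (A * ε)) := by linarith
  have hl2 : (3 * l / 16) ^ 2 = 9 * l ^ 2 / 256 := by ring
  rw [hl2] at hfin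
  have : 29 * A ^ 2 / l + 2 * l * (A * ε) ≥ 256 / (9 * l ^ 2) * (l * (A ^ 2 + l ^ 2 / 16 * (A * ε))) := by
    have e1 : 256 / (9 * l ^ 2) * (l * (A ^ 2 + l ^ 2 / 16 * (A * ε))) =
        (256 / 9) * A ^ 2 / l + (16 / 9) * l * (A * ε) := by
      field_simp
      ring
    rw [e1]
    have h1 : (256 / 9) * A ^ 2 / l ≤ 29 * A ^ 2 / l := by
      gcongr
      norm_num
    have h2 : (16 / 9) * l * (A * ε) ≤ 2 * l * (A * ε) := by
      gcongr
      norm_num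
    linarith
  refine le_trans ?_ this
  rw [div_mul_eq_mul_div, le_div_iff₀ (by positivity)]
  linarith

/-- the plug kills the flux -/
lemma plug_flux (M P : K →L[ℂ] K) (ev : K →L[ℂ] ℂ) (c : ℝ) (hc : 0 ≤ c)
    {Λ : ℝ} (hM : ‖M‖ ≤ Λ) (hP : ‖P‖ ≤ 1)
    (Psa : ∀ a b : K, ⟪P a, b⟫_ℂ = ⟪a, P b⟫_ℂ)
    (comm : ∀ a b : K, ⟪M a, P b⟫_ℂ - ⟪a, P (M b)⟫_ℂ =
      Complex.I * (c : ℂ) * (starRingEnd ℂ (ev a) * ev b))
    {X X1 : ℝ → K} {e : ℝ → K} {a l A ε : ℝ} (hl : 0 < l)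
    (hX : ∀ r ∈ Icc a (a + l), HasDerivAt X (X1 r) r)
    (hX1 : ∀ r ∈ Icc a (a + l), HasDerivAt X1 (- M (X r) + (Λ + 1) • X r + e r) r)
    (hA : ∀ r ∈ Icc a (a + l), ‖X r‖ ≤ A) (hA1 : ∀ r ∈ Icc a (a + l), ‖X1 r‖ ≤ A)
    (hε : ∀ r ∈ Icc a (a + l), ‖e r‖ ≤ ε) :
    (⟪X a, P (X1 a)⟫_ℂ).im ≤ A * ε * l + A * (8 * A / l + 2 * Real.sqrt (A * ε)) := by
  have hA0 : 0 ≤ A := (norm_nonneg _).trans (hA a ⟨le_rfl, by linarith⟩)
  have hε0 : 0 ≤ ε := (norm_nonneg _).trans (hε a ⟨le_rfl, by linarith⟩)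
  set y : ℝ := (⟪X a, P (X1 a)⟫_ℂ).im - A * ε * l with hy
  have h1 : ∀ r ∈ Icc a (a + l), y ≤ A * ‖X r‖ := by
    intro r hr
    have hsub : Icc a r ⊆ Icc a (a + l) := Icc_subset_Icc le_rfl hr.2
    have h2 := flux_le M P ev c hc hP Psa comm (q := fun _ => Λ + 1) hr.1
      (fun s hs => hX s (hsub hs)) (fun s hs => hX1 s (hsub hs))
      (fun s hs => hA s (hsub hs)) (fun s hs => hε s (hsub hs))
    have h3 : (⟪X r, P (X1 r)⟫_ℂ).im ≤ ‖X r‖ * ‖X1 r‖ :=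
      (le_abs_self _).trans (im_inner_P_le P hP _ _)
    have h4 : ‖X r‖ * ‖X1 r‖ ≤ ‖X r‖ * A := mul_le_mul_of_nonneg_left (hA1 r hr) (norm_nonneg _)
    have h5 : A * ε * (r - a) ≤ A * ε * l := by
      apply mul_le_mul_of_nonneg_left _ (by positivity)
      linarith [hr.2]
    simp only [hy]
    linarith
  have hag := agmon M hM hl hX hX1 hA hε
  -- pass to y
  suffices h : y ≤ A * (8 * A / l + 2 * Real.sqrt (A * ε)) by simp only [hy] at h; linarith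
  by_cases hy0 : y ≤ 0
  · refine hy0.trans (by positivity)
  rw [not_le] at hy0
  have hsub : Icc (a + l / 4) (a + 3 * l / 4) ⊆ Icc a (a + l) :=
    Icc_subset_Icc (by linarith) (by linarith)
  have h2 : (l / 2) * y ^ 2 ≤ A ^ 2 * ∫ r in (a + l / 4)..(a + 3 * l / 4), ‖X r‖ ^ 2 := by
    have e1 : ∫ r in (a + l / 4)..(a + 3 * l / 4), y ^ 2 = (l / 2) * y ^ 2 := by
      rw [intervalIntegral.integral_const, smul_eq_mul]; ring
    rw [← e1, ← intervalIntegral.integral_const_mul]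
    apply intervalIntegral.integral_mono_on (by linarith) intervalIntegrable_const
    · apply ContinuousOn.intervalIntegrable
      rw [uIcc_of_le (by linarith)]
      have h1 : ContinuousOn (fun r => ‖X r‖) (Icc (a + l / 4) (a + 3 * l / 4)) := by
        intro r hr
        exact (hX r (hsub hr)).continuousAt.norm.continuousWithinAt
      fun_prop
    · intro r hr
      have := h1 r (hsub hr)
      calc y ^ 2 ≤ (A * ‖X r‖) ^ 2 := by gcongr
        _ = A ^ 2 * ‖X r‖ ^ 2 := by ring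
  have h3 : (l / 2) * y ^ 2 ≤ A ^ 2 * (29 * A ^ 2 / l + 2 * l * (A * ε)) :=
    h2.trans (mul_le_mul_of_nonneg_left hag (sq_nonneg _))
  have h4 : y ^ 2 ≤ (A * (8 * A / l + 2 * Real.sqrt (A * ε))) ^ 2 := by
    have h5 : y ^ 2 ≤ A ^ 2 * (58 * A ^ 2 / l ^ 2 + 4 * (A * ε)) := by
      have h6 : y ^ 2 = (2 / l) * ((l / 2) * y ^ 2) := by field_simp
      rw [h6]
      calc (2 / l) * ((l / 2) * y ^ 2) ≤ (2 / l) * (A ^ 2 * (29 * A ^ 2 / l + 2 * l * (A * ε))) := by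
            gcongr
        _ = A ^ 2 * (58 * A ^ 2 / l ^ 2 + 4 * (A * ε)) := by
            field_simp
            ring
    refine h5.trans ?_
    rw [mul_pow]
    apply mul_le_mul_of_nonneg_left _ (sq_nonneg _)
    have h7 : Real.sqrt (A * ε) ^ 2 = A * ε := Real.sq_sqrt (by positivity)
    have h8 : (8 * A / l + 2 * Real.sqrt (A * ε)) ^ 2 =
        64 * A ^ 2 / l ^ 2 + 4 * (A * ε) + 32 * A / l * Real.sqrt (A * ε) := by
      rw [add_sq, mul_pow 2, h7]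
      field_simp
      ring
    rw [h8]
    have h9 : 0 ≤ 32 * A / l * Real.sqrt (A * ε) := by positivity
    have h10 : 58 * A ^ 2 / l ^ 2 ≤ 64 * A ^ 2 / l ^ 2 := by
      gcongr
      norm_num
    linarith
  exact abs_le_of_sq_le_sq h4 (by positivity) |> (le_abs_self y).trans

end MP3a4792
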