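import Pool.Agent.Lib.MP_3a4792_mp.PlainStmt
import Pool.Agent.Lib.MP_3a4792_mp.Graph
import Pool.Agent.Lib.MP_3a4792_mp.Kernel
import Pool.Agent.Lib.MP_3a4792_mp.Block

open MeasureTheory Set InnerProductSpace Filter Topology SimonL2
open scoped ContDiff Laplacian InnerProductSpace ENNReal

noncomputable section

namespace MP3a4792

variable (V : E2 → ℝ) (hV : ContDiff ℝ ∞ V)

lemma schr_eq (u : TF) (x : E2) : schr 2 V u.1 x = (Hop V hV u).1 x := by
  rw [Hop_apply]
  simp only [schr]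
  ring

lemma symm_closure (hb : ∃ h : ℝ, ∀ x, |V x| ≤ h) {p q : L2E × L2E}
    (hp : p ∈ closure (graph0 V hV)) (hq : q ∈ closure (graph0 V hV)) :
    inner ℂ p.2 q.1 = inner ℂ p.1 q.2 := by
  have h1 : ∀ φ : TF, ∀ p ∈ closure (graph0 V hV),
      inner ℂ p.2 (toL2 φ) = inner ℂ p.1 (toL2 (Hop V hV φ)) := by
    intro φ p hp
    have hcl : IsClosed {p : L2E × L2E | inner ℂ p.2 (toL2 φ) = inner ℂ p.1 (toL2 (Hop V hV φ))} := by
      apply isClosed_eq <;> fun_prop
    refine closure_minimal ?_ hcl hp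
    rintro p ⟨u, rfl⟩
    exact Hop_symm V hV hb u φ
  have hcl : IsClosed {q : L2E × L2E | inner ℂ p.2 q.1 = inner ℂ p.1 q.2} := by
    apply isClosed_eq <;> fun_prop
  refine closure_minimal ?_ hcl hq
  rintro q ⟨φ, rfl⟩
  exact h1 φ p hp

include hV in
theorem essSelfAdjoint (hb : ∃ h : ℝ, ∀ x, |V x| ≤ h) : EssSelfAdjoint 2 V := by
  constructor
  · intro u hu
    have h := TF.memLp (Hop V hV ⟨u, hu⟩)
    refine (memLp_congr_ae (Eventually.of_forall fun x => ?_)).1 h
    exact (schr_eq V hV ⟨u, hu⟩ x).symm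
  · intro f hf σ hσ h
    have hf' : MemLp f 2 (volume : Measure E2) := hf
    set F : L2E := hf'.toLp f with hF
    have hFc : (F : E2 → ℂ) =ᵐ[volume] f := hf'.coeFn_toLp
    have h1 : ∀ u : TF, inner ℂ F (toL2 (Hop V hV u) + σ • toL2 u) = 0 := by
      intro u
      rw [L2.inner_def, ← h u.1 u.2]
      apply integral_congr_ae
      filter_upwards [hFc, Lp.coeFn_add (toL2 (Hop V hV u)) (σ • toL2 u),
        Lp.coeFn_smul σ (toL2 u), coeFn_toL2 u, coeFn_toL2 (Hop V hV u)] with x a1 a2 a3 a4 a5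
      rw [a2, Pi.add_apply, a3, Pi.smul_apply, a1, a4, a5, ← schr_eq V hV u x]
      simp only [RCLike.inner_apply, smul_eq_mul]
      ring
    have h2 : ∀ φ : TF, inner ℂ (-(starRingEnd ℂ σ) • F) (toL2 φ) = inner ℂ F (toL2 (Hop V hV φ)) := by
      intro φ
      have := h1 φ
      rw [inner_add_right, inner_smul_right] at this
      rw [inner_smul_left, map_neg, Complex.conj_conj]
      linear_combination -this
    have h3 := weak_mem_closure V hV hb F (-(starRingEnd ℂ σ) • F) h2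
    have h4 := symm_closure V hV hb h3 h3
    simp only [inner_smul_left, inner_smul_right, map_neg, Complex.conj_conj] at h4
    have h5 : inner ℂ F F = 0 := by
      rcases hσ with rfl | rfl
      · simp only [Complex.conj_I] at h4
        have : (2 * Complex.I) * inner ℂ F F = 0 := by linear_combination -h4
        simpa using this
      · simp only [map_neg, Complex.conj_I] at h4
        have : (2 * Complex.I) * inner ℂ F F = 0 := by linear_combination h4
        simpa using this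
    have h6 : F = 0 := inner_self_eq_zero.1 h5
    have h7 : (F : E2 → ℂ) =ᵐ[volume] 0 := by rw [h6]; exact Lp.coeFn_zero _ _ _
    exact hFc.symm.trans h7

/-- from the operator on `L²` classes -/
theorem noAC_of {Λ : ℝ} (h : ∀ T : KK Λ →L[ℂ] L2E,
        (∀ g g' : KK Λ, ((g' : ℝ → ℂ) =ᵐ[volume.restrict (Ioo 0 Λ)] fun E => (E:ℂ) * g E) →
          (T g, T g') ∈ closure (graph0 V hV)) → T = 0) : NoAC 2 V Λ := by
  intro T hT hint
  obtain ⟨C, hC⟩ := hT.bdd
  have hmem : ∀ g : KK Λ, SqIntE Λ g := fun g => Lp.memLp g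
  have hmem2 : ∀ g : KK Λ, MemLp (T g) 2 (volume : Measure E2) := fun g => hT.mem g (hmem g)
  -- equal classes are mapped to equal classes
  have hcongr : ∀ g g' : ℝ → ℂ, SqIntE Λ g → SqIntE Λ g' → g =ᵐ[volume.restrict (Ioo 0 Λ)] g' →
      SameL2 2 (T g) (T g') := by
    intro g g' hg hg' hgg
    have hneg : SqIntE Λ (fun E => (-1 : ℂ) * g' E) := hg'.const_mul (-1)
    have hsub : SqIntE Λ (fun E => g E + (-1 : ℂ) * g' E) := hg.add hneg
    have h1 := hT.add g (fun E => (-1 : ℂ) * g' E) hg hneg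
    have h2 := hT.smul (-1) g' hg'
    have h3 := hC _ hsub
    have h4 : nrmE Λ (fun E => g E + (-1 : ℂ) * g' E) = 0 := by
      unfold nrmE
      rw [eLpNorm_congr_ae (g := 0)]
      · exact eLpNorm_zero
      · filter_upwards [hgg] with x hx
        simp [hx]
    rw [h4, mul_zero, nonpos_iff_eq_zero] at h3
    have h5 := (eLpNorm_eq_zero_iff (hT.mem _ hsub).1 (by norm_num)).1 h3
    unfold SameL2 at *
    filter_upwards [h1, h2, h5] with x a1 a2 a3
    rw [a1, a2] at a3
    have : T g x + -1 * T g' x = 0 := a3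
    linear_combination this
  let T' : KK Λ →L[ℂ] L2E := LinearMap.mkContinuous
    { toFun := fun g => (hmem2 g).toLp _
      map_add' := by
        intro g g'
        apply Lp.ext
        have h1 := hcongr (g + g' : KK Λ) (fun E => g E + g' E) (hmem _) ((hmem g).add (hmem g'))
          (Lp.coeFn_add g g')
        have h2 := hT.add g g' (hmem g) (hmem g')
        filter_upwards [(hmem2 (g + g')).coeFn_toLp, (hmem2 g).coeFn_toLp, (hmem2 g').coeFn_toLp,
          Lp.coeFn_add ((hmem2 g).toLp _) ((hmem2 g').toLp _), h1, h2] with x a1 a2 a3 a4 a5 a6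
        rw [a1, a4, Pi.add_apply, a2, a3, a5, a6]
      map_smul' := by
        intro c g
        apply Lp.ext
        have h1 := hcongr (c • g : KK Λ) (fun E => c * g E) (hmem _) ((hmem g).const_mul c)
          (Lp.coeFn_smul c g)
        have h2 := hT.smul c g (hmem g)
        filter_upwards [(hmem2 (c • g)).coeFn_toLp, (hmem2 g).coeFn_toLp,
          Lp.coeFn_smul c ((hmem2 g).toLp _), h1, h2] with x a1 a2 a4 a5 a6
        rw [RingHom.id_apply, a1, a4, Pi.smul_apply, a2, a5, a6, smul_eq_mul] } C (by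
      intro g
      have h1 := hC g (hmem g)
      have h2 : ‖(hmem2 g).toLp _‖ = (nrm 2 (T g)).toReal := Lp.norm_toLp _ _
      have h3 : ‖g‖ = (nrmE Λ g).toReal := Lp.norm_def g
      show ‖(hmem2 g).toLp _‖ ≤ C * ‖g‖
      rw [h2, h3, ← ENNReal.coe_toReal, ← ENNReal.toReal_mul]
      apply ENNReal.toReal_mono _ h1
      exact ENNReal.mul_ne_top ENNReal.coe_ne_top (hmem g).eLpNorm_ne_top)
  have hT' : ∀ g : KK Λ, T' g = (hmem2 g).toLp _ := fun g => rfl
  have h0 : T' = 0 := by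
    apply h T'
    intro g g' hgg
    have hgE : SqIntE Λ (fun E => (E : ℂ) * g E) := (memLp_congr_ae hgg).1 (hmem g')
    have h1 := hcongr g' (fun E => (E : ℂ) * g E) (hmem g') hgE hgg
    obtain ⟨h2, h3, h4⟩ := hint g (hmem g)
    have e1 : T' g' = MemLp.toLp _ h3 := by
      rw [hT']
      apply Lp.ext
      unfold SameL2 at h1
      filter_upwards [(hmem2 g').coeFn_toLp, MemLp.coeFn_toLp h3, h1] with x a1 a2 a3
      rw [a1, a2, a3]
    rw [e1, hT', Metric.mem_closure_iff]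
    intro ε hε
    obtain ⟨u, hu, hu1, hu2⟩ := h4 (ENNReal.ofReal ε) (ENNReal.ofReal_pos.2 hε)
    refine ⟨_, ⟨⟨u, hu⟩, rfl⟩, ?_⟩
    have key : ∀ (a b : E2 → ℂ) (ha : MemLp a 2 (volume : Measure E2)) (hb : MemLp b 2 volume),
        nrm 2 (fun x => b x - a x) < ENNReal.ofReal ε → dist (ha.toLp a) (hb.toLp b) < ε := by
      intro a b ha hb hab
      rw [dist_comm, dist_eq_norm, ← MemLp.toLp_sub, Lp.norm_toLp]
      exact ENNReal.toReal_lt_of_lt_ofReal hab
    rw [Prod.dist_eq, max_lt_iff]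
    constructor
    · exact key _ _ (hmem2 g) (TF.memLp ⟨u, hu⟩) hu1
    · refine key _ _ h3 (TF.memLp (Hop V hV ⟨u, hu⟩)) ?_
      refine lt_of_eq_of_lt ?_ hu2
      congr 1
      ext x
      rw [← schr_eq V hV ⟨u, hu⟩ x]
  intro g hg
  have h1 : T' (hg.toLp g) = 0 := by rw [h0]; rfl
  rw [hT'] at h1
  have h2 := hcongr (hg.toLp g) g (hmem _) hg hg.coeFn_toLp
  have h3 := (hmem2 (hg.toLp g)).coeFn_toLp
  rw [h1] at h3
  unfold SameL2 at *
  filter_upwards [h2, h3, Lp.coeFn_zero ℂ 2 (volume : Measure E2)] with x a1 a2 a3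
  rw [← a1, ← a2, a3]

theorem main_plain : ∀ Λ : ℝ, 0 < Λ → ∃ V : EuclideanSpace ℝ (Fin 2) → ℝ, ContDiff ℝ ∞ V ∧
      (∃ h : ℝ, ∀ x, |V x| ≤ h) ∧ Integrable (fun x => ‖x‖⁻¹ * V x ^ 2) ∧
      EssSelfAdjoint 2 V ∧ NoAC 2 V Λ := by
  intro Λ hΛ
  obtain ⟨V, hV, hb, hi, hT⟩ := main_graph0
    (fun K _ _ _ V hV hb Λ M P ev c hc hM hP Msa Psa comm T hT =>
      exists_ker V hV hb M P ev c hc hM hP Msa Psa comm T hT) hΛ ⟨Λ + 2, exists_block Λ hΛ⟩
  exact ⟨V, hV, hb, hi, essSelfAdjoint V hV hb, noAC_of V hV hT⟩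

end MP3a4792
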