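import Mathlib

/-!
# Simon's conjecture on square integrable potentials: definitions

Schrödinger operators on `L²(ℝ^ν;ℂ)`. Elements of `L²` are written as functions, equality is
equality almost everywhere.
-/

open MeasureTheory Set
open scoped ContDiff Laplacian

noncomputable section

namespace SimonL2

/-- `f` is (the class of) an element of `L²(ℝ^ν;ℂ)` -/
def SqInt (ν : ℕ) (f : EuclideanSpace ℝ (Fin ν) → ℂ) : Prop := MemLp f 2

/-- `f = g` in `L²(ℝ^ν;ℂ)` -/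
def SameL2 (ν : ℕ) (f g : EuclideanSpace ℝ (Fin ν) → ℂ) : Prop := ∀ᵐ x, f x = g x

/-- the `L²` norm of `f` -/
def nrm (ν : ℕ) (f : EuclideanSpace ℝ (Fin ν) → ℂ) : ENNReal := eLpNorm f 2

/-- the class of test functions `C_c^∞(ℝ^ν;ℂ)` -/
def IsTest (ν : ℕ) (u : EuclideanSpace ℝ (Fin ν) → ℂ) : Prop := ContDiff ℝ ∞ u ∧ HasCompactSupport u

/-- `-Δu + Vu` -/
def schr (ν : ℕ) (V : EuclideanSpace ℝ (Fin ν) → ℝ) (u : EuclideanSpace ℝ (Fin ν) → ℂ) :
    EuclideanSpace ℝ (Fin ν) → ℂ := fun x => -(Δ u x) + (V x : ℂ) * u x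

/-- `(f,g)` belongs to the closure (in `L² × L²`) of the graph of `-Δ+V` on test functions, that is
`f` is in the domain of the closure `H` and `H f = g` -/
def InClosure (ν : ℕ) (V : EuclideanSpace ℝ (Fin ν) → ℝ) (f g : EuclideanSpace ℝ (Fin ν) → ℂ) : Prop :=
  SqInt ν f ∧ SqInt ν g ∧ ∀ ε : ENNReal, 0 < ε →
    ∃ u, IsTest ν u ∧ nrm ν (fun x => u x - f x) < ε ∧ nrm ν (fun x => schr ν V u x - g x) < ε

/-- `-Δ+V` is essentially self-adjoint on test functions: it maps test functions to `L²` and the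
ranges of `-Δ+V+i` and `-Δ+V-i` on test functions have trivial orthogonal complement in `L²` -/
def EssSelfAdjoint (ν : ℕ) (V : EuclideanSpace ℝ (Fin ν) → ℝ) : Prop :=
  (∀ u, IsTest ν u → SqInt ν (schr ν V u)) ∧
  ∀ f, SqInt ν f → ∀ σ : ℂ, (σ = Complex.I ∨ σ = -Complex.I) →
    (∀ u, IsTest ν u → ∫ x, starRingEnd ℂ (f x) * (schr ν V u x + σ * u x) = 0) → SameL2 ν f 0

/-- `g` is (the class of) an element of `L²((0,Λ);ℂ)` -/
def SqIntE (Λ : ℝ) (g : ℝ → ℂ) : Prop := MemLp g 2 (volume.restrict (Ioo 0 Λ))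

/-- the `L²((0,Λ))` norm -/
def nrmE (Λ : ℝ) (g : ℝ → ℂ) : ENNReal := eLpNorm g 2 (volume.restrict (Ioo 0 Λ))

/-- `T` is a bounded linear operator from `L²((0,Λ);ℂ)` to `L²(ℝ^ν;ℂ)` -/
structure IsBddOp (ν : ℕ) (Λ : ℝ) (T : (ℝ → ℂ) → EuclideanSpace ℝ (Fin ν) → ℂ) : Prop where
  mem : ∀ g, SqIntE Λ g → SqInt ν (T g)
  add : ∀ g g', SqIntE Λ g → SqIntE Λ g' →
    SameL2 ν (T (fun E => g E + g' E)) (fun x => T g x + T g' x)
  smul : ∀ (c : ℂ) g, SqIntE Λ g → SameL2 ν (T (fun E => c * g E)) (fun x => c * T g x)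
  bdd : ∃ C : NNReal, ∀ g, SqIntE Λ g → nrm ν (T g) ≤ C * nrmE Λ g

/-- the closure `H` of `-Δ+V` has no absolutely continuous spectrum in `(0,Λ)`: the only bounded
operator `T` from `L²((0,Λ))` to `L²(ℝ^ν)` with `H T g = T (E g)` for all `g` is zero -/
def NoAC (ν : ℕ) (V : EuclideanSpace ℝ (Fin ν) → ℝ) (Λ : ℝ) : Prop :=
  ∀ T, IsBddOp ν Λ T →
    (∀ g, SqIntE Λ g → InClosure ν V (T g) (T (fun E => (E : ℂ) * g E))) →
    ∀ g, SqIntE Λ g → SameL2 ν (T g) 0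

end SimonL2
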