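import Pool.Agent.Lib.MP_3a4792_mp.Inner

open MeasureTheory Set InnerProductSpace Filter Topology
open scoped ContDiff Laplacian InnerProductSpace

noncomputable section

namespace MP3a4792

/-- radial profile of the funnel -/
def tauP (τf x : ℝ) : ℝ := τf * Real.smoothTransition x
def Wp (τf x y : ℝ) : ℝ := Real.cosh (tauP τf x) - Real.sinh (tauP τf x) * Real.cos y
def Ap (τf x y : ℝ) : ℝ := (Real.sqrt (Wp τf x y))⁻¹
def Bp (τf x y : ℝ) : ℝ := deriv (tauP τf) x * Real.cos y * Ap τf x y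
def vp (τf x y : ℝ) : ℝ := 3 / 4 * Real.sinh (tauP τf x) ^ 2 * Real.sin y ^ 2 / Wp τf x y ^ 2
  - 1 / 2 * Real.sinh (tauP τf x) * Real.cos y / Wp τf x y

lemma cosh_sub_pos (t y : ℝ) : 0 < Real.cosh t - Real.sinh t * Real.cos y := by
  have h1 : |Real.sinh t| < Real.cosh t := by
    have h := Real.cosh_sq t
    have hc := Real.cosh_pos t
    apply abs_lt_of_sq_lt_sq _ hc.le
    linarith
  have h2 : Real.sinh t * Real.cos y ≤ |Real.sinh t| := by
    calc Real.sinh t * Real.cos y ≤ |Real.sinh t * Real.cos y| := le_abs_self _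
      _ = |Real.sinh t| * |Real.cos y| := abs_mul _ _
      _ ≤ |Real.sinh t| * 1 := by
          apply mul_le_mul_of_nonneg_left (Real.abs_cos_le_one y) (abs_nonneg _)
      _ = |Real.sinh t| := mul_one _
  linarith

lemma Wp_pos (τf x y : ℝ) : 0 < Wp τf x y := cosh_sub_pos _ _

lemma tauP_contDiff (τf : ℝ) : ContDiff ℝ ∞ (tauP τf) := by
  unfold tauP
  exact contDiff_const.mul Real.smoothTransition.contDiff

lemma tauP_hasDerivAt (τf x : ℝ) : HasDerivAt (tauP τf) (deriv (tauP τf) x) x :=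
  ((tauP_contDiff τf).differentiable (by simp) x).hasDerivAt

lemma deriv_tauP_contDiff (τf : ℝ) : ContDiff ℝ ∞ (deriv (tauP τf)) :=
  (contDiff_infty_iff_deriv.1 (tauP_contDiff τf)).2

lemma Wp_contDiff (τf : ℝ) : ContDiff ℝ ∞ (fun p : ℝ × ℝ => Wp τf p.1 p.2) := by
  unfold Wp
  have h1 : ContDiff ℝ ∞ (fun p : ℝ × ℝ => tauP τf p.1) := (tauP_contDiff τf).comp contDiff_fst
  have h2 : ContDiff ℝ ∞ (fun p : ℝ × ℝ => Real.cos p.2) := Real.contDiff_cos.comp contDiff_snd
  exact (Real.contDiff_cosh.comp h1).sub ((Real.contDiff_sinh.comp h1).mul h2)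

lemma Wp_periodic (τf x y : ℝ) : Wp τf x (y + 2 * Real.pi) = Wp τf x y := by
  simp only [Wp, Real.cos_add_two_pi]

theorem Ap_S2 (τf : ℝ) : S2 (Ap τf) := by
  constructor
  · unfold Ap
    exact ((Wp_contDiff τf).sqrt (fun p => (Wp_pos τf p.1 p.2).ne')).inv
      (fun p => (Real.sqrt_pos.2 (Wp_pos τf p.1 p.2)).ne')
  · intro x y
    simp only [Ap, Wp_periodic]

theorem Bp_S2 (τf : ℝ) : S2 (Bp τf) := by
  constructor
  · unfold Bp
    have h1 : ContDiff ℝ ∞ (fun p : ℝ × ℝ => deriv (tauP τf) p.1) :=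
      (deriv_tauP_contDiff τf).comp contDiff_fst
    have h2 : ContDiff ℝ ∞ (fun p : ℝ × ℝ => Real.cos p.2) := Real.contDiff_cos.comp contDiff_snd
    exact (h1.mul h2).mul (Ap_S2 τf).1
  · intro x y
    simp only [Bp, (Ap_S2 τf).2 x y, Real.cos_add_two_pi]

theorem vp_S2 (τf : ℝ) : S2 (vp τf) := by
  constructor
  · unfold vp
    have h1 : ContDiff ℝ ∞ (fun p : ℝ × ℝ => Real.sinh (tauP τf p.1)) :=
      Real.contDiff_sinh.comp ((tauP_contDiff τf).comp contDiff_fst)
    have h2 : ContDiff ℝ ∞ (fun p : ℝ × ℝ => Real.cos p.2) := Real.contDiff_cos.comp contDiff_snd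
    have h3 : ContDiff ℝ ∞ (fun p : ℝ × ℝ => Real.sin p.2) := Real.contDiff_sin.comp contDiff_snd
    have hW := Wp_contDiff τf
    exact (((contDiff_const.mul (h1.pow 2)).mul (h3.pow 2)).div (hW.pow 2)
      (fun p => (pow_pos (Wp_pos τf p.1 p.2) 2).ne')).sub
      (((contDiff_const.mul h1).mul h2).div hW (fun p => (Wp_pos τf p.1 p.2).ne'))
  · intro x y
    simp only [vp, Wp_periodic, Real.cos_add_two_pi, Real.sin_add_two_pi]

theorem Ap_pos (τf x y : ℝ) : 0 < Ap τf x y := inv_pos.2 (Real.sqrt_pos.2 (Wp_pos τf x y))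

lemma Ap_sq (τf x y : ℝ) : Ap τf x y ^ 2 = 1 / Wp τf x y := by
  unfold Ap
  rw [inv_pow, Real.sq_sqrt (Wp_pos τf x y).le, one_div]

/-- derivative of `W ^ (-1/2)` along any curve -/
lemma hasDerivAt_inv_sqrt {W : ℝ → ℝ} {W' t : ℝ} (hW : HasDerivAt W W' t) (h0 : 0 < W t) :
    HasDerivAt (fun t => (Real.sqrt (W t))⁻¹) (-(1 / 2) * (W' / W t) * (Real.sqrt (W t))⁻¹) t := by
  have h1 := (hW.sqrt h0.ne').inv (Real.sqrt_pos.2 h0).ne'
  refine h1.congr_deriv ?_
  have hs : Real.sqrt (W t) ≠ 0 := (Real.sqrt_pos.2 h0).ne'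
  rw [Real.sq_sqrt h0.le]
  field_simp

lemma Wp_hasDerivAt_y (τf x y : ℝ) :
    HasDerivAt (Wp τf x) (Real.sinh (tauP τf x) * Real.sin y) y := by
  have h := ((Real.hasDerivAt_cos y).const_mul (Real.sinh (tauP τf x))).const_sub
    (Real.cosh (tauP τf x))
  exact h.congr_deriv (by ring)

lemma Wp_hasDerivAt_x (τf x y : ℝ) :
    HasDerivAt (fun x => Wp τf x y)
      (deriv (tauP τf) x * (Real.sinh (tauP τf x) - Real.cosh (tauP τf x) * Real.cos y)) x := by
  have h1 := tauP_hasDerivAt τf x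
  have h := h1.cosh.sub (h1.sinh.mul_const (Real.cos y))
  exact h.congr_deriv (by ring)

lemma Ap_y (τf x y : ℝ) : dθ (Ap τf) x y =
    -(1 / 2) * (Real.sinh (tauP τf x) * Real.sin y / Wp τf x y) * Ap τf x y :=
  (hasDerivAt_inv_sqrt (Wp_hasDerivAt_y τf x y) (Wp_pos τf x y)).deriv

theorem Ap_yy (τf x y : ℝ) : dθ (dθ (Ap τf)) x y = vp τf x y * Ap τf x y := by
  have hfun : dθ (Ap τf) x = fun y =>
      -(1 / 2) * (Real.sinh (tauP τf x) * Real.sin y / Wp τf x y) * Ap τf x y := by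
    ext y; exact Ap_y τf x y
  have hW := (Wp_pos τf x y).ne'
  have hA : HasDerivAt (Ap τf x) (-(1 / 2) * (Real.sinh (tauP τf x) * Real.sin y / Wp τf x y) *
      Ap τf x y) y := hasDerivAt_inv_sqrt (Wp_hasDerivAt_y τf x y) (Wp_pos τf x y)
  have h1 := ((((Real.hasDerivAt_sin y).const_mul (Real.sinh (tauP τf x))).div
    (Wp_hasDerivAt_y τf x y) hW).const_mul (-(1 / 2))).mul hA
  have h2 : dθ (dθ (Ap τf)) x y = deriv (fun y =>
      -(1 / 2) * (Real.sinh (tauP τf x) * Real.sin y / Wp τf x y) * Ap τf x y) y := by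
    show deriv (dθ (Ap τf) x) y = _
    rw [hfun]
  rw [h2]
  have h3 := h1.deriv
  refine Eq.trans ?_ (h3.trans ?_)
  · rfl
  · simp only [Pi.div_apply]
    unfold vp
    field_simp
    ring

theorem Ap_x (τf x y : ℝ) : dr (Ap τf) x y =
    -(1 / 2) * (dθ (dθ (Bp τf)) x y - vp τf x y * Bp τf x y) := by
  have hW := (Wp_pos τf x y).ne'
  have hL : dr (Ap τf) x y = -(1 / 2) * ((deriv (tauP τf) x * (Real.sinh (tauP τf x) -
      Real.cosh (tauP τf x) * Real.cos y)) / Wp τf x y) * Ap τf x y :=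
    (hasDerivAt_inv_sqrt (Wp_hasDerivAt_x τf x y) (Wp_pos τf x y)).deriv
  -- derivatives of B
  have hS := Ap_S2 τf
  have hB1 : ∀ y, dθ (Bp τf) x y = deriv (tauP τf) x * (-Real.sin y * Ap τf x y +
      Real.cos y * dθ (Ap τf) x y) := by
    intro y
    have h := ((Real.hasDerivAt_cos y).const_mul (deriv (tauP τf) x)).mul (hS.hasDerivAt_θ x y)
    exact h.deriv.trans (by ring)
  have hB2 : dθ (dθ (Bp τf)) x y = deriv (tauP τf) x * (-Real.cos y * Ap τf x y
      - 2 * Real.sin y * dθ (Ap τf) x y + Real.cos y * dθ (dθ (Ap τf)) x y) := by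
    have hfun : dθ (Bp τf) x = fun y => deriv (tauP τf) x * (-Real.sin y * Ap τf x y +
      Real.cos y * dθ (Ap τf) x y) := by
      ext y; exact hB1 y
    have h1 := (((Real.hasDerivAt_sin y).neg.mul (hS.hasDerivAt_θ x y)).add
      ((Real.hasDerivAt_cos y).mul (hS.dθ.hasDerivAt_θ x y))).const_mul (deriv (tauP τf) x)
    show deriv (dθ (Bp τf) x) y = _
    rw [hfun]
    exact h1.deriv.trans (by simp only [Pi.neg_apply]; ring)
  rw [hL, hB2, Ap_yy, Ap_y]
  have hid : Real.cosh (tauP τf x) * Real.cos y - Real.sinh (tauP τf x) =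
      Real.cos y * Wp τf x y - Real.sinh (tauP τf x) * Real.sin y ^ 2 := by
    unfold Wp
    rw [Real.sin_sq]
    ring
  have hid2 : Real.sinh (tauP τf x) - Real.cosh (tauP τf x) * Real.cos y =
      Real.sinh (tauP τf x) * Real.sin y ^ 2 - Real.cos y * Wp τf x y := by linarith
  rw [hid2]
  unfold Bp
  field_simp
  ring

lemma integral_inv_cosh (t : ℝ) :
    ∫ y in (0:ℝ)..(2 * Real.pi), 1 / (Real.cosh t - Real.sinh t * Real.cos y) = 2 * Real.pi := by
  set F : ℝ → ℝ → ℝ := fun s y => (Real.cosh s * Real.cos y - Real.sinh s) /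
    (Real.cosh s - Real.sinh s * Real.cos y) ^ 2 with hF
  have hFc : Continuous F.uncurry := by
    simp only [hF, Function.uncurry_def]
    apply Continuous.div
    · fun_prop
    · fun_prop
    · intro p
      exact (pow_pos (cosh_sub_pos p.1 p.2) 2).ne'
  have h1 : ∀ y, 1 / (Real.cosh t - Real.sinh t * Real.cos y) - 1 = ∫ s in (0:ℝ)..t, F s y := by
    intro y
    have hd : ∀ s ∈ uIcc 0 t, HasDerivAt (fun s => 1 / (Real.cosh s - Real.sinh s * Real.cos y))
        (F s y) s := by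
      intro s _
      have h := ((Real.hasDerivAt_cosh s).sub ((Real.hasDerivAt_sinh s).mul_const (Real.cos y))).inv
        (cosh_sub_pos s y).ne'
      have e : (fun s => 1 / (Real.cosh s - Real.sinh s * Real.cos y)) =
        (Real.cosh - fun y_1 => Real.sinh y_1 * Real.cos y)⁻¹ := by
        ext s; simp
      rw [e]
      refine h.congr_deriv ?_
      simp only [hF, Pi.sub_apply]
      congr 1
      ring
    rw [intervalIntegral.integral_eq_sub_of_hasDerivAt hd]
    · simp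
    · apply Continuous.intervalIntegrable
      exact hFc.comp (by fun_prop : Continuous fun s : ℝ => (s, y))
  have h2 : ∀ s, ∫ y in (0:ℝ)..(2 * Real.pi), F s y = 0 := by
    intro s
    have hd : ∀ y ∈ uIcc 0 (2 * Real.pi), HasDerivAt (fun y => Real.sin y /
        (Real.cosh s - Real.sinh s * Real.cos y)) (F s y) y := by
      intro y _
      have hW : HasDerivAt (fun y => Real.cosh s - Real.sinh s * Real.cos y)
          (Real.sinh s * Real.sin y) y :=
        (((Real.hasDerivAt_cos y).const_mul (Real.sinh s)).const_sub (Real.cosh s)).congr_deriv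
          (by ring)
      have h := (Real.hasDerivAt_sin y).div hW (cosh_sub_pos s y).ne'
      refine h.congr_deriv ?_
      simp only [hF]
      congr 1
      have := Real.sin_sq_add_cos_sq y
      linear_combination (-Real.sinh s) * this
    rw [intervalIntegral.integral_eq_sub_of_hasDerivAt hd]
    · simp
    · apply Continuous.intervalIntegrable
      exact hFc.comp (by fun_prop : Continuous fun y : ℝ => (s, y))
  have h3 : ∫ y in (0:ℝ)..(2 * Real.pi), (1 / (Real.cosh t - Real.sinh t * Real.cos y) - 1) = 0 := by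
    simp only [h1]
    rw [intervalIntegral_intervalIntegral_swap]
    · simp only [h2]
      simp
    · have hFc' : Continuous (Function.uncurry fun y s => F s y) :=
        hFc.comp (by fun_prop : Continuous fun p : ℝ × ℝ => (p.2, p.1))
      apply (hFc'.continuousOn.integrableOn_compact (isCompact_uIcc.prod isCompact_uIcc)).mono_set
      exact Set.prod_mono uIoc_subset_uIcc uIoc_subset_uIcc
  rw [intervalIntegral.integral_sub] at h3
  · rw [intervalIntegral.integral_const, smul_eq_mul, mul_one, sub_zero] at h3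
    linarith
  · apply Continuous.intervalIntegrable
    apply Continuous.div
    · fun_prop
    · fun_prop
    · intro p
      exact (cosh_sub_pos t p).ne'
  · exact intervalIntegrable_const

theorem Ap_int (τf x : ℝ) : ∫ y in (0:ℝ)..(2 * Real.pi), Ap τf x y ^ 2 = 2 * Real.pi := by
  simp only [Ap_sq]
  exact integral_inv_cosh _

lemma tauP_of_nonpos {τf x : ℝ} (hx : x ≤ 0) : tauP τf x = 0 := by
  rw [tauP, Real.smoothTransition.zero_of_nonpos hx, mul_zero]

lemma tauP_of_one_le {τf x : ℝ} (hx : 1 ≤ x) : tauP τf x = τf := by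
  rw [tauP, Real.smoothTransition.one_of_one_le hx, mul_one]

lemma deriv_eq_zero_of_Iic {f : ℝ → ℝ} {x a : ℝ} (hf : DifferentiableAt ℝ f x) (hx : x ≤ a)
    (h : ∀ t, t ≤ a → f t = f a) : deriv f x = 0 := by
  have h1 : HasDerivWithinAt f (deriv f x) (Iic x) x := hf.hasDerivAt.hasDerivWithinAt
  have h2 : HasDerivWithinAt f 0 (Iic x) x := by
    refine (hasDerivWithinAt_const x (Iic x) (f a)).congr ?_ (h x hx)
    intro t ht
    exact h t (le_trans ht hx)
  exact (uniqueDiffOn_Iic x x self_mem_Iic).eq_deriv _ h1 h2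

lemma deriv_eq_zero_of_Ici {f : ℝ → ℝ} {x a : ℝ} (hf : DifferentiableAt ℝ f x) (hx : a ≤ x)
    (h : ∀ t, a ≤ t → f t = f a) : deriv f x = 0 := by
  have h1 : HasDerivWithinAt f (deriv f x) (Ici x) x := hf.hasDerivAt.hasDerivWithinAt
  have h2 : HasDerivWithinAt f 0 (Ici x) x := by
    refine (hasDerivWithinAt_const x (Ici x) (f a)).congr ?_ (h x hx)
    intro t ht
    exact h t (le_trans hx ht)
  exact (uniqueDiffOn_Ici x x self_mem_Ici).eq_deriv _ h1 h2

lemma deriv_tauP_of_nonpos {τf x : ℝ} (hx : x ≤ 0) : deriv (tauP τf) x = 0 :=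
  deriv_eq_zero_of_Iic (tauP_hasDerivAt τf x).differentiableAt hx
    (fun t ht => by rw [tauP_of_nonpos ht, tauP_of_nonpos le_rfl])

lemma deriv_tauP_of_one_le {τf x : ℝ} (hx : 1 ≤ x) : deriv (tauP τf) x = 0 :=
  deriv_eq_zero_of_Ici (tauP_hasDerivAt τf x).differentiableAt hx
    (fun t ht => by rw [tauP_of_one_le ht, tauP_of_one_le le_rfl])

theorem Ap_of_nonpos {τf x y : ℝ} (hx : x ≤ 0) : Ap τf x y = 1 := by
  simp [Ap, Wp, tauP_of_nonpos hx]

theorem Bp_of_nonpos {τf x y : ℝ} (hx : x ≤ 0) : Bp τf x y = 0 := by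
  simp [Bp, deriv_tauP_of_nonpos hx]

theorem vp_of_nonpos {τf x y : ℝ} (hx : x ≤ 0) : vp τf x y = 0 := by
  simp [vp, tauP_of_nonpos hx]

theorem Ap_of_one_le {τf x y : ℝ} (hx : 1 ≤ x) : Ap τf x y = Ap τf 1 y := by
  simp only [Ap, Wp, tauP_of_one_le hx, tauP_of_one_le (le_refl (1:ℝ))]

theorem Bp_of_one_le {τf x y : ℝ} (hx : 1 ≤ x) : Bp τf x y = 0 := by
  simp [Bp, deriv_tauP_of_one_le hx]

theorem vp_of_one_le {τf x y : ℝ} (hx : 1 ≤ x) : vp τf x y = vp τf 1 y := by
  simp only [vp, Wp, tauP_of_one_le hx, tauP_of_one_le (le_refl (1:ℝ))]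

theorem Ap_tail {τf c y : ℝ} (hτ : 0 < τf) (hc : c < 1) (hy : Real.cos y ≤ c) :
    Ap τf 1 y ^ 2 ≤ 1 / (Real.sinh τf * (1 - c)) := by
  rw [Ap_sq]
  have hs : 0 < Real.sinh τf := Real.sinh_pos_iff.2 hτ
  apply one_div_le_one_div_of_le (mul_pos hs (by linarith))
  unfold Wp
  rw [tauP_of_one_le le_rfl]
  have h1 : Real.sinh τf < Real.cosh τf := Real.sinh_lt_cosh τf
  nlinarith [mul_le_mul_of_nonneg_left hy hs.le]

/-- `S2` functions which are constant in `x ≤ 0` and in `x ≥ 1` are bounded, and so are all derivatives -/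
theorem S2.exists_bound {f : ℝ → ℝ → ℝ} (hf : S2 f) (h0 : ∀ x y, x ≤ 0 → f x y = f 0 y)
    (h1 : ∀ x y, 1 ≤ x → f x y = f 1 y) : ∃ C : ℝ, 0 ≤ C ∧ ∀ x y, |f x y| ≤ C := by
  have hK : IsCompact (Icc (0:ℝ) 1 ×ˢ Icc (0:ℝ) (2 * Real.pi)) := isCompact_Icc.prod isCompact_Icc
  obtain ⟨C, hC⟩ := hK.exists_bound_of_continuousOn hf.continuous.continuousOn
  have hp : (0:ℝ) ≤ 2 * Real.pi := by positivity
  refine ⟨C, (norm_nonneg _).trans (hC (0, 0) ⟨⟨le_rfl, zero_le_one⟩, ⟨le_rfl, hp⟩⟩), ?_⟩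
  have key : ∀ x y, x ∈ Icc (0:ℝ) 1 → |f x y| ≤ C := by
    intro x y hx
    obtain ⟨z, hz, hz2⟩ := (hf.2 x).exists_mem_Ico₀ (by positivity) y
    rw [hz2]
    exact hC (x, z) ⟨hx, Ico_subset_Icc_self hz⟩
  intro x y
  rcases le_total x 0 with hx | hx
  · rw [h0 x y hx]
    exact key 0 y ⟨le_rfl, zero_le_one⟩
  rcases le_total 1 x with hx' | hx'
  · rw [h1 x y hx']
    exact key 1 y ⟨zero_le_one, le_rfl⟩
  exact key x y ⟨hx, hx'⟩

theorem S2.dθ_const {f : ℝ → ℝ → ℝ} (hf : S2 f) (h0 : ∀ x y, x ≤ 0 → f x y = f 0 y)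
    (h1 : ∀ x y, 1 ≤ x → f x y = f 1 y) :
    (∀ x y, x ≤ 0 → MP3a4792.dθ f x y = MP3a4792.dθ f 0 y) ∧
      (∀ x y, 1 ≤ x → MP3a4792.dθ f x y = MP3a4792.dθ f 1 y) := by
  have _ := hf
  constructor
  · intro x y hx
    have : f x = f 0 := by ext z; exact h0 x z hx
    simp only [MP3a4792.dθ, this]
  · intro x y hx
    have : f x = f 1 := by ext z; exact h1 x z hx
    simp only [MP3a4792.dθ, this]

theorem S2.dr_const {f : ℝ → ℝ → ℝ} (hf : S2 f) (h0 : ∀ x y, x ≤ 0 → f x y = f 0 y)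
    (h1 : ∀ x y, 1 ≤ x → f x y = f 1 y) :
    (∀ x y, x ≤ 0 → MP3a4792.dr f x y = 0) ∧ (∀ x y, 1 ≤ x → MP3a4792.dr f x y = 0) := by
  constructor
  · intro x y hx
    exact deriv_eq_zero_of_Iic (f := fun s => f s y) (hf.hasDerivAt_r x y).differentiableAt hx
      (fun t ht => h0 t y ht)
  · intro x y hx
    exact deriv_eq_zero_of_Ici (f := fun s => f s y) (hf.hasDerivAt_r x y).differentiableAt hx
      (fun t ht => h1 t y ht)

/-- averaging kernels exist -/
theorem exists_avgKer {δ : ℝ} (hδ : 0 < δ) : Nonempty (AvgKer δ) := by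
  set c : ℝ := 1 - δ ^ 2 / 2 with hc
  have hc1 : c < 1 := by
    have : 0 < δ ^ 2 := by positivity
    rw [hc]; linarith
  set f : ℝ → ℝ := fun α => Real.smoothTransition (Real.cos α - c) with hf
  have hfs : ContDiff ℝ ∞ f := Real.smoothTransition.contDiff.comp (Real.contDiff_cos.sub contDiff_const)
  have hfn : ∀ α, 0 ≤ f α := fun α => Real.smoothTransition.nonneg _
  have hI : 0 < ∫ α in (0:ℝ)..(2 * Real.pi), f α := by
    apply intervalIntegral.integral_pos (by positivity) hfs.continuous.continuousOn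
      (fun x _ => hfn x)
    refine ⟨0, ⟨le_rfl, by positivity⟩, ?_⟩
    apply Real.smoothTransition.pos_of_pos
    rw [Real.cos_zero]
    linarith
  refine ⟨⟨fun α => (∫ α in (0:ℝ)..(2 * Real.pi), f α)⁻¹ * f α, contDiff_const.mul hfs, ?_, ?_, ?_, ?_⟩⟩
  · intro α
    simp only [hf, Real.cos_add_two_pi]
  · intro α
    exact mul_nonneg (inv_nonneg.2 hI.le) (hfn α)
  · rw [intervalIntegral.integral_const_mul]
    exact inv_mul_cancel₀ hI.ne'
  · intro α hα
    have h1 : f α ≠ 0 := right_ne_zero_of_mul hα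
    have h2 : 0 < Real.cos α - c := by
      by_contra h
      push Not at h
      exact h1 (Real.smoothTransition.zero_of_nonpos h)
    rw [hc] at h2
    linarith

end MP3a4792
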