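import Pool.Agent.Lib.MP_3a4792_mp.Dyn
import Pool.Agent.Lib.MP_3a4792_mp.Ode

open MeasureTheory Set InnerProductSpace Filter Topology
open scoped ContDiff Laplacian InnerProductSpace

noncomputable section

namespace MP3a4792

variable {K : Type*} [NormedAddCommGroup K] [InnerProductSpace ℂ K] [CompleteSpace K]
variable {V : E2 → ℝ} {Λ : ℝ}

namespace Ker

variable (k : Ker V Λ K)

lemma C0_nonneg : 0 ≤ k.C0 := (norm_nonneg _).trans (k.κbd 0)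

lemma B1' {b : ℝ → ℝ} (hb : Cls b) {r : ℝ} (hr : 0 < r) : ‖k.U1 r b‖ ≤ k.C0 * (1 + 1 / r) * nS b := by
  have h1 := k.B1 b hb r hr
  have h0 := k.B0 b hb r hr
  have hn : 0 ≤ nS b := Real.sqrt_nonneg _
  have hC := k.C0_nonneg
  have h2 : ‖k.U1 r b‖ ≤ ‖k.U1 r b - (1 / (2 * r)) • U0 k.κ r b‖ + ‖(1 / (2 * r)) • U0 k.κ r b‖ := by
    have := norm_add_le (k.U1 r b - (1 / (2 * r)) • U0 k.κ r b) ((1 / (2 * r)) • U0 k.κ r b)
    simpa using this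
  have h3 : ‖(1 / (2 * r)) • U0 k.κ r b‖ ≤ (1 / r) * (k.C0 * nS b) := by
    rw [norm_smul, Real.norm_eq_abs, abs_of_pos (by positivity)]
    have : 1 / (2 * r) ≤ 1 / r := one_div_le_one_div_of_le hr (by linarith)
    gcongr
  calc ‖k.U1 r b‖ ≤ k.C0 * nS b + (1 / r) * (k.C0 * nS b) := h2.trans (add_le_add h1 h3)
    _ = k.C0 * (1 + 1 / r) * nS b := by ring

lemma B1one {b : ℝ → ℝ} (hb : Cls b) {r : ℝ} (hr : 1 ≤ r) : ‖k.U1 r b‖ ≤ 2 * k.C0 * nS b := by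
  have h1 := k.B1' hb (by linarith : 0 < r)
  have hn : 0 ≤ nS b := Real.sqrt_nonneg _
  have hC := k.C0_nonneg
  have : 1 / r ≤ 1 := by rw [div_le_one (by linarith)]; exact hr
  calc ‖k.U1 r b‖ ≤ k.C0 * (1 + 1 / r) * nS b := h1
    _ ≤ k.C0 * (1 + 1) * nS b := by gcongr
    _ = 2 * k.C0 * nS b := by ring

lemma dS0 {b : ℝ → ℝ → ℝ} (hb : S2 b) {r : ℝ} (hr : 0 < r) :
    HasDerivAt (fun r => U0 k.κ r (b r)) (U0 k.κ r (dr b r) + k.U1 r (b r)) r := by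
  apply dyn_hasDerivAt (fun r b => U0 k.κ r b) (fun r b => k.U1 r b) k.C0 k.C0_nonneg _ _ _ k.S0 hb hr
  · intro r b b' _ hb hb'
    exact U0_add k.κcont r hb.continuous hb'.continuous
  · intro r t b _ _
    exact U0_smul r t b
  · intro r b hr hb
    have h0 := k.B0 b hb r hr
    have hn : 0 ≤ nS b := Real.sqrt_nonneg _
    have hC := k.C0_nonneg
    have : 0 ≤ 1 / r := by positivity
    calc ‖U0 k.κ r b‖ ≤ k.C0 * 1 * nS b := by simpa using h0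
      _ ≤ k.C0 * (1 + 1 / r) * nS b := by gcongr; linarith

lemma dS1 {b : ℝ → ℝ → ℝ} (hb : S2 b) {r : ℝ} (hr : 0 < r) :
    HasDerivAt (fun r => k.U1 r (b r)) (k.U1 r (dr b r) +
      (- k.M (U0 k.κ r (b r)) + U0 k.κ r (fun θ => V (pol r θ) * b r θ)
      - (1 / r ^ 2) • U0 k.κ r (fun θ => iteratedDeriv 2 (b r) θ + b r θ / 4))) r := by
  apply dyn_hasDerivAt (fun r b => k.U1 r b) (fun r b => (- k.M (U0 k.κ r b)
      + U0 k.κ r (fun θ => V (pol r θ) * b θ)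
      - (1 / r ^ 2) • U0 k.κ r (fun θ => iteratedDeriv 2 b θ + b θ / 4))) k.C0 k.C0_nonneg _ _ _ k.S1 hb hr
  · intro r b b' hr hb hb'
    exact k.U1add r b b' hr hb hb'
  · intro r t b hr hb
    exact k.U1smul r t b hr hb
  · intro r b hr hb
    exact k.B1' hb hr

end Ker

/-- shell data -/
structure ShellData (V : E2 → ℝ) (r₁ r₂ : ℝ) where
  b1 : ℝ → ℝ → ℝ
  b2 : ℝ → ℝ → ℝ
  e1 : ℝ → ℝ → ℝ
  e2 : ℝ → ℝ → ℝ
  e0 : ℝ → ℝ → ℝ
  q : ℝ → ℝ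
  hb1 : S2 b1
  hb2 : S2 b2
  he1 : S2 e1
  he2 : S2 e2
  he0 : S2 e0
  hV : Continuous V
  H1 : ∀ r ∈ Icc r₁ r₂, ∀ θ, V (pol r θ) * b1 r θ - (1 / r ^ 2) * (dθ (dθ b1) r θ + b1 r θ / 4) =
    q r * b1 r θ + (1 / r ^ 2) * e1 r θ + e0 r θ
  H2 : ∀ r ∈ Icc r₁ r₂, ∀ θ, V (pol r θ) * b2 r θ - (1 / r ^ 2) * (dθ (dθ b2) r θ + b2 r θ / 4) =
    dr b1 r θ + (1 / r ^ 2) * e2 r θ
  Hq : ∀ r ∈ Icc r₁ r₂, q r = 0 ∨ (b2 r = 0 ∧ dr b2 r = 0)

namespace ShellData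

variable {r₁ r₂ : ℝ} (s : ShellData V r₁ r₂) (k : Ker V Λ K)

def X (r : ℝ) : K := U0 k.κ r (s.b1 r) - (2:ℝ) • k.U1 r (s.b2 r) + (2:ℝ) • U0 k.κ r (dr s.b2 r)

def X1 (r : ℝ) : K := k.U1 r (s.b1 r) - U0 k.κ r (dr s.b1 r) + (2:ℝ) • k.M (U0 k.κ r (s.b2 r))
  + (2:ℝ) • U0 k.κ r (dr (dr s.b2) r) - (2 / r ^ 2) • U0 k.κ r (s.e2 r)

def E (r : ℝ) : K := (4:ℝ) • k.M (U0 k.κ r (dr s.b2 r)) + U0 k.κ r (s.e0 r)
  + (1 / r ^ 2) • U0 k.κ r (s.e1 r) - U0 k.κ r (dr (dr s.b1) r)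
  + (2:ℝ) • U0 k.κ r (dr (dr (dr s.b2)) r) + (2:ℝ) • k.U1 r (dr (dr s.b2) r)
  + (4 / r ^ 3) • U0 k.κ r (s.e2 r) - (2 / r ^ 2) • (U0 k.κ r (dr s.e2 r) + k.U1 r (s.e2 r))

lemma pol_cont_r (r : ℝ) : Continuous fun θ => pol r θ :=
  pol_continuous.comp (by fun_prop : Continuous fun θ : ℝ => (r, θ))

include s in
lemma L_eq {b c : ℝ → ℝ → ℝ} (hb : S2 b) {r : ℝ}
    (h : ∀ θ, V (pol r θ) * b r θ - (1 / r ^ 2) * (dθ (dθ b) r θ + b r θ / 4) = c r θ) :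
    U0 k.κ r (fun θ => V (pol r θ) * b r θ)
      - (1 / r ^ 2) • U0 k.κ r (fun θ => iteratedDeriv 2 (b r) θ + b r θ / 4) = U0 k.κ r (c r) := by
  have hbc : Continuous (b r) := (hb.cls r).continuous
  have hb2c : Continuous (dθ (dθ b) r) := (hb.dθ.dθ.cls r).continuous
  have hVc : Continuous fun θ => V (pol r θ) := s.hV.comp (pol_cont_r r)
  have e1 : (fun θ => iteratedDeriv 2 (b r) θ + b r θ / 4) = fun θ => dθ (dθ b) r θ + b r θ / 4 := by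
    ext θ
    rw [S2.iteratedDeriv_two]
  rw [e1, ← U0_smul, ← U0_sub k.κcont]
  · congr 1
    ext θ
    exact h θ
  · exact hVc.mul hbc
  · exact continuous_const.mul (hb2c.add (hbc.div_const 4))

lemma X_hasDerivAt {r : ℝ} (hr : r ∈ Icc r₁ r₂) (hr0 : 0 < r) :
    HasDerivAt (s.X k) (s.X1 k r) r := by
  have h1 := k.dS0 s.hb1 hr0
  have h2 := k.dS1 s.hb2 hr0
  have h3 := k.dS0 s.hb2.dr hr0
  have h := (h1.sub (h2.const_smul (2:ℝ))).add (h3.const_smul (2:ℝ))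
  refine h.congr_deriv ?_
  have hL := s.L_eq k (c := fun r θ => dr s.b1 r θ + (1 / r ^ 2) * s.e2 r θ) s.hb2 (r := r) (s.H2 r hr)
  have hL2 : U0 k.κ r (fun θ => dr s.b1 r θ + (1 / r ^ 2) * s.e2 r θ) =
      U0 k.κ r (dr s.b1 r) + (1 / r ^ 2) • U0 k.κ r (s.e2 r) := by
    have e := U0_add k.κcont r (b := dr s.b1 r) (b' := fun θ => (1 / r ^ 2) * s.e2 r θ)
      (s.hb1.dr.cls r).continuous (continuous_const.mul (s.he2.cls r).continuous)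
    rw [e, U0_smul]
  have hL3 : U0 k.κ r (fun θ => V (pol r θ) * s.b2 r θ)
      = (U0 k.κ r (dr s.b1 r) + (1 / r ^ 2) • U0 k.κ r (s.e2 r))
        + (1 / r ^ 2) • U0 k.κ r (fun θ => iteratedDeriv 2 (s.b2 r) θ + s.b2 r θ / 4) := by
    rw [← hL2, ← hL]; abel
  rw [hL3]
  simp only [X1]
  have e : (2 / r ^ 2 : ℝ) = 2 * (1 / r ^ 2) := by ring
  rw [e]
  module

lemma X1_hasDerivAt {r : ℝ} (hr : r ∈ Icc r₁ r₂) (hr0 : 0 < r) :
    HasDerivAt (s.X1 k) (- k.M (s.X k r) + s.q r • s.X k r + s.E k r) r := by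
  have h1 := k.dS1 s.hb1 hr0
  have h2 := k.dS0 s.hb1.dr hr0
  have h3 := k.dS0 s.hb2 hr0
  have h3' : HasDerivAt (fun r => k.M (U0 k.κ r (s.b2 r)))
      (k.M (U0 k.κ r (dr s.b2 r) + k.U1 r (s.b2 r))) r :=
    (k.M.restrictScalars ℝ).hasFDerivAt.comp_hasDerivAt r h3
  have h4 := k.dS0 s.hb2.dr.dr hr0
  have h5 := k.dS0 s.he2 hr0
  have h6 : HasDerivAt (fun r : ℝ => 2 / r ^ 2) (-(4 / r ^ 3)) r := by
    have h := ((hasDerivAt_id r).pow 2).inv (by simpa using hr0.ne')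
    have h' := h.const_mul 2
    have e : (fun r : ℝ => 2 / r ^ 2) = fun y : ℝ => 2 * ((id ^ 2 : ℝ → ℝ)⁻¹ y) := by
      ext y; simp [div_eq_mul_inv]
    rw [e]
    refine h'.congr_deriv ?_
    simp
    field_simp
    ring
  have h7 := h6.smul h5
  have h := (((h1.sub h2).add (h3'.const_smul (2:ℝ))).add (h4.const_smul (2:ℝ))).sub h7
  have hfun : s.X1 k = ((((fun r => k.U1 r (s.b1 r)) - fun r => U0 k.κ r (dr s.b1 r)) +
      (2:ℝ) • fun r => k.M (U0 k.κ r (s.b2 r))) + (2:ℝ) • fun r => U0 k.κ r (dr (dr s.b2) r)) -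
      ((fun r : ℝ => 2 / r ^ 2) • fun r => U0 k.κ r (s.e2 r)) := by
    ext r
    simp [X1]
  rw [hfun]
  refine h.congr_deriv ?_
  -- use H1
  have hL := s.L_eq k (c := fun r θ => s.q r * s.b1 r θ + ((1 / r ^ 2) * s.e1 r θ + s.e0 r θ)) s.hb1
    (r := r) (fun θ => by rw [s.H1 r hr θ]; ring)
  have hL2 : U0 k.κ r (fun θ => s.q r * s.b1 r θ + ((1 / r ^ 2) * s.e1 r θ + s.e0 r θ)) =
      s.q r • U0 k.κ r (s.b1 r) + ((1 / r ^ 2) • U0 k.κ r (s.e1 r) + U0 k.κ r (s.e0 r)) := by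
    have e := U0_add k.κcont r (b := fun θ => s.q r * s.b1 r θ)
      (b' := fun θ => (1 / r ^ 2) * s.e1 r θ + s.e0 r θ)
      (continuous_const.mul (s.hb1.cls r).continuous)
      ((continuous_const.mul (s.he1.cls r).continuous).add (s.he0.cls r).continuous)
    have e' := U0_add k.κcont r (b := fun θ => (1 / r ^ 2) * s.e1 r θ)
      (b' := fun θ => s.e0 r θ)
      (continuous_const.mul (s.he1.cls r).continuous) (s.he0.cls r).continuous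
    rw [e, e', U0_smul, U0_smul]
  have hL3 : U0 k.κ r (fun θ => V (pol r θ) * s.b1 r θ)
      = (s.q r • U0 k.κ r (s.b1 r) + ((1 / r ^ 2) • U0 k.κ r (s.e1 r) + U0 k.κ r (s.e0 r)))
        + (1 / r ^ 2) • U0 k.κ r (fun θ => iteratedDeriv 2 (s.b1 r) θ + s.b1 r θ / 4) := by
    rw [← hL2, ← hL]; abel
  have hq : s.q r • U0 k.κ r (s.b1 r) = s.q r • s.X k r := by
    rcases s.Hq r hr with h0 | ⟨h01, h02⟩
    · rw [h0, zero_smul, zero_smul]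
    · simp only [X]
      rw [h01, h02]
      have z1 : U0 k.κ r (0 : ℝ → ℝ) = 0 := by
        simp [U0]
      have z2 : k.U1 r (0 : ℝ → ℝ) = 0 := by
        have hz : Cls (0 : ℝ → ℝ) := ⟨contDiff_const, fun _ => rfl⟩
        have := k.U1smul r 0 0 hr0 hz
        simp only [zero_mul, zero_smul] at this
        exact this
      rw [z1, z2]
      simp
  rw [hL3, hq]
  simp only [E, X, map_add, map_sub, map_smul]
  have e : (4 / r ^ 3 : ℝ) = - (-(4 / r ^ 3)) := by ring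
  have hM : ∀ (t : ℝ) (x : K), k.M (t • x) = t • k.M x := fun t x => by
    have : t • x = (t : ℂ) • x := rfl
    rw [this, map_smul]; rfl
  simp only [hM]
  module

end ShellData

end MP3a4792
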