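import Pool.Agent.Lib.MP_3a4792_mp.Main

open MeasureTheory Set InnerProductSpace Filter Topology
open scoped ContDiff Laplacian InnerProductSpace

noncomputable section

namespace MP3a4792

variable {K : Type*} [NormedAddCommGroup K] [InnerProductSpace ℂ K] [CompleteSpace K]
variable {V : E2 → ℝ} {Λ : ℝ}

namespace ShellData

variable {r₁ r₂ : ℝ} (s : ShellData V r₁ r₂) (k : Ker V Λ K)

/-- smallness of the pieces of a shell at radius `r` -/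
structure Bd (r m σ σ0 : ℝ) : Prop where
  b1 : nS (s.b1 r) ≤ m
  b2 : nS (s.b2 r) ≤ 1
  db1 : nS (dr s.b1 r) ≤ 1
  db2 : nS (dr s.b2 r) ≤ σ
  ddb2 : nS (dr (dr s.b2) r) ≤ σ
  dddb2 : nS (dr (dr (dr s.b2)) r) ≤ σ
  ddb1 : nS (dr (dr s.b1) r) ≤ σ
  e1 : nS (s.e1 r) ≤ σ * r ^ 2
  e2 : nS (s.e2 r) ≤ σ * r ^ 2
  de2 : nS (dr s.e2 r) ≤ σ * r ^ 2
  e0 : nS (s.e0 r) ≤ σ0

lemma nrm_M (x : K) {B : ℝ} (hx : ‖x‖ ≤ B) : ‖k.M x‖ ≤ Λ * B := by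
  have hΛ : 0 ≤ Λ := (norm_nonneg _).trans k.hM
  calc ‖k.M x‖ ≤ ‖k.M‖ * ‖x‖ := k.M.le_opNorm x
    _ ≤ Λ * B := mul_le_mul k.hM hx (norm_nonneg _) hΛ

lemma nrm_smul (t : ℝ) (ht : 0 ≤ t) {x : K} {B : ℝ} (hx : ‖x‖ ≤ B) : ‖t • x‖ ≤ t * B := by
  rw [norm_smul, Real.norm_eq_abs, abs_of_nonneg ht]
  exact mul_le_mul_of_nonneg_left hx ht

variable {r m σ σ0 : ℝ}

lemma X_le (h : s.Bd r m σ σ0) (hr : 1 ≤ r) (hσ1 : σ ≤ 1) : ‖s.X k r‖ ≤ k.C0 * (m + 6) := by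
  have hr0 : 0 < r := by linarith
  have hC := k.C0_nonneg
  have a1 : ‖U0 k.κ r (s.b1 r)‖ ≤ k.C0 * m :=
    (k.B0 _ (s.hb1.cls r) r hr0).trans (mul_le_mul_of_nonneg_left h.b1 hC)
  have a2 : ‖k.U1 r (s.b2 r)‖ ≤ 2 * k.C0 * 1 :=
    (k.B1one (s.hb2.cls r) hr).trans (mul_le_mul_of_nonneg_left h.b2 (by linarith))
  have a3 : ‖U0 k.κ r (dr s.b2 r)‖ ≤ k.C0 * 1 :=
    (k.B0 _ (s.hb2.dr.cls r) r hr0).trans (mul_le_mul_of_nonneg_left (h.db2.trans hσ1) hC)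
  have b2 := nrm_smul 2 (by norm_num) a2
  have b3 := nrm_smul 2 (by norm_num) a3
  calc ‖s.X k r‖ ≤ ‖U0 k.κ r (s.b1 r)‖ + ‖(2:ℝ) • k.U1 r (s.b2 r)‖
        + ‖(2:ℝ) • U0 k.κ r (dr s.b2 r)‖ := by
        unfold X
        refine (norm_add_le _ _).trans ?_
        gcongr
        exact norm_sub_le _ _
    _ ≤ k.C0 * (m + 6) := by linarith

lemma X1_le (h : s.Bd r m σ σ0) (hr : 1 ≤ r) (hσ0 : 0 ≤ σ) (hσ1 : σ ≤ 1) :
    ‖s.X1 k r‖ ≤ k.C0 * (2 * m + 6 + 2 * Λ) := by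
  have hr0 : 0 < r := by linarith
  have hC := k.C0_nonneg
  have a1 : ‖k.U1 r (s.b1 r)‖ ≤ 2 * k.C0 * m :=
    (k.B1one (s.hb1.cls r) hr).trans (mul_le_mul_of_nonneg_left h.b1 (by linarith))
  have a2 : ‖U0 k.κ r (dr s.b1 r)‖ ≤ k.C0 * 1 :=
    (k.B0 _ (s.hb1.dr.cls r) r hr0).trans (mul_le_mul_of_nonneg_left h.db1 hC)
  have a3 : ‖U0 k.κ r (s.b2 r)‖ ≤ k.C0 * 1 :=
    (k.B0 _ (s.hb2.cls r) r hr0).trans (mul_le_mul_of_nonneg_left h.b2 hC)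
  have a4 : ‖U0 k.κ r (dr (dr s.b2) r)‖ ≤ k.C0 * 1 :=
    (k.B0 _ (s.hb2.dr.dr.cls r) r hr0).trans (mul_le_mul_of_nonneg_left (h.ddb2.trans hσ1) hC)
  have a5 : ‖U0 k.κ r (s.e2 r)‖ ≤ k.C0 * (σ * r ^ 2) :=
    (k.B0 _ (s.he2.cls r) r hr0).trans (mul_le_mul_of_nonneg_left h.e2 hC)
  have b3 := nrm_smul 2 (by norm_num) (nrm_M k _ a3)
  have b4 := nrm_smul 2 (by norm_num) a4
  have b5 := nrm_smul (2 / r ^ 2) (by positivity) a5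
  have b5' : 2 / r ^ 2 * (k.C0 * (σ * r ^ 2)) ≤ 2 * k.C0 := by
    have : 2 / r ^ 2 * (k.C0 * (σ * r ^ 2)) = 2 * k.C0 * σ := by field_simp
    rw [this]
    nlinarith
  calc ‖s.X1 k r‖ ≤ ‖k.U1 r (s.b1 r)‖ + ‖U0 k.κ r (dr s.b1 r)‖
        + ‖(2:ℝ) • k.M (U0 k.κ r (s.b2 r))‖ + ‖(2:ℝ) • U0 k.κ r (dr (dr s.b2) r)‖
        + ‖(2 / r ^ 2) • U0 k.κ r (s.e2 r)‖ := by
        unfold X1
        refine (norm_sub_le _ _).trans ?_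
        gcongr
        refine (norm_add_le _ _).trans ?_
        gcongr
        refine (norm_add_le _ _).trans ?_
        gcongr
        exact norm_sub_le _ _
    _ ≤ k.C0 * (2 * m + 6 + 2 * Λ) := by linarith

lemma E_le (h : s.Bd r m σ σ0) (hr : 1 ≤ r) (hσ0 : 0 ≤ σ) :
    ‖s.E k r‖ ≤ k.C0 * (σ0 + (18 + 4 * Λ) * σ) := by
  have hr0 : 0 < r := by linarith
  have hC := k.C0_nonneg
  have hΛ : 0 ≤ Λ := (norm_nonneg _).trans k.hM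
  have a1 : ‖U0 k.κ r (dr s.b2 r)‖ ≤ k.C0 * σ :=
    (k.B0 _ (s.hb2.dr.cls r) r hr0).trans (mul_le_mul_of_nonneg_left h.db2 hC)
  have a2 : ‖U0 k.κ r (s.e0 r)‖ ≤ k.C0 * σ0 :=
    (k.B0 _ (s.he0.cls r) r hr0).trans (mul_le_mul_of_nonneg_left h.e0 hC)
  have a3 : ‖U0 k.κ r (s.e1 r)‖ ≤ k.C0 * (σ * r ^ 2) :=
    (k.B0 _ (s.he1.cls r) r hr0).trans (mul_le_mul_of_nonneg_left h.e1 hC)
  have a4 : ‖U0 k.κ r (dr (dr s.b1) r)‖ ≤ k.C0 * σ :=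
    (k.B0 _ (s.hb1.dr.dr.cls r) r hr0).trans (mul_le_mul_of_nonneg_left h.ddb1 hC)
  have a5 : ‖U0 k.κ r (dr (dr (dr s.b2)) r)‖ ≤ k.C0 * σ :=
    (k.B0 _ (s.hb2.dr.dr.dr.cls r) r hr0).trans (mul_le_mul_of_nonneg_left h.dddb2 hC)
  have a6 : ‖k.U1 r (dr (dr s.b2) r)‖ ≤ 2 * k.C0 * σ :=
    (k.B1one (s.hb2.dr.dr.cls r) hr).trans (mul_le_mul_of_nonneg_left h.ddb2 (by linarith))
  have a7 : ‖U0 k.κ r (s.e2 r)‖ ≤ k.C0 * (σ * r ^ 2) :=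
    (k.B0 _ (s.he2.cls r) r hr0).trans (mul_le_mul_of_nonneg_left h.e2 hC)
  have a8 : ‖U0 k.κ r (dr s.e2 r)‖ ≤ k.C0 * (σ * r ^ 2) :=
    (k.B0 _ (s.he2.dr.cls r) r hr0).trans (mul_le_mul_of_nonneg_left h.de2 hC)
  have a9 : ‖k.U1 r (s.e2 r)‖ ≤ 2 * k.C0 * (σ * r ^ 2) :=
    (k.B1one (s.he2.cls r) hr).trans (mul_le_mul_of_nonneg_left h.e2 (by linarith))
  have a10 : ‖U0 k.κ r (dr s.e2 r) + k.U1 r (s.e2 r)‖ ≤ 3 * k.C0 * (σ * r ^ 2) :=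
    (norm_add_le _ _).trans (by linarith)
  have b1 := nrm_smul 4 (by norm_num) (nrm_M k _ a1)
  have b3 := nrm_smul (1 / r ^ 2) (by positivity) a3
  have b5 := nrm_smul 2 (by norm_num) a5
  have b6 := nrm_smul 2 (by norm_num) a6
  have b7 := nrm_smul (4 / r ^ 3) (by positivity) a7
  have b8 := nrm_smul (2 / r ^ 2) (by positivity) a10
  have c3 : 1 / r ^ 2 * (k.C0 * (σ * r ^ 2)) = k.C0 * σ := by field_simp
  have c7 : 4 / r ^ 3 * (k.C0 * (σ * r ^ 2)) ≤ 4 * (k.C0 * σ) := by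
    have e : 4 / r ^ 3 * (k.C0 * (σ * r ^ 2)) = 4 * (k.C0 * σ) * (1 / r) := by field_simp
    rw [e]
    have h1 : 1 / r ≤ 1 := by rw [div_le_one hr0]; exact hr
    have h2 : 0 ≤ 4 * (k.C0 * σ) := by positivity
    nlinarith
  have c8 : 2 / r ^ 2 * (3 * k.C0 * (σ * r ^ 2)) = 6 * (k.C0 * σ) := by field_simp; ring
  calc ‖s.E k r‖ ≤ ‖(4:ℝ) • k.M (U0 k.κ r (dr s.b2 r))‖ + ‖U0 k.κ r (s.e0 r)‖
        + ‖(1 / r ^ 2) • U0 k.κ r (s.e1 r)‖ + ‖U0 k.κ r (dr (dr s.b1) r)‖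
        + ‖(2:ℝ) • U0 k.κ r (dr (dr (dr s.b2)) r)‖ + ‖(2:ℝ) • k.U1 r (dr (dr s.b2) r)‖
        + ‖(4 / r ^ 3) • U0 k.κ r (s.e2 r)‖
        + ‖(2 / r ^ 2) • (U0 k.κ r (dr s.e2 r) + k.U1 r (s.e2 r))‖ := by
        unfold E
        refine (norm_sub_le _ _).trans ?_
        gcongr
        refine (norm_add_le _ _).trans ?_
        gcongr
        refine (norm_add_le _ _).trans ?_
        gcongr
        refine (norm_add_le _ _).trans ?_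
        gcongr
        refine (norm_sub_le _ _).trans ?_
        gcongr
        refine (norm_add_le _ _).trans ?_
        gcongr
        exact norm_add_le _ _
    _ ≤ k.C0 * (σ0 + (18 + 4 * Λ) * σ) := by linarith

end ShellData

/-- the flux through the inner boundary of a shell is small -/
lemma shell_final {R R' a l m σ σ0 : ℝ} (s : ShellData V R (a + l)) (k : Ker V Λ K)
    (h1R : 1 ≤ R) (hRR' : R ≤ R') (hR'a : R' ≤ a) (hl : 0 < l)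
    (hσ : 0 ≤ σ) (hσ1 : σ ≤ 1) (hσ0 : 0 ≤ σ0) (hm : 0 ≤ m)
    (hbd1 : ∀ r ∈ Icc R R', s.Bd r m σ 0) (hbd2 : ∀ r ∈ Icc R' (a + l), s.Bd r m σ σ0)
    (hq : ∀ r ∈ Icc a (a + l), s.q r = Λ + 1) :
    (⟪s.X k R, k.P (s.X1 k R)⟫_ℂ).im ≤ k.C0 ^ 2 *
      ((2 * m + 6 + 2 * Λ) * ((18 + 4 * Λ) * σ) * (R' - R)
        + (2 * m + 6 + 2 * Λ) * (σ0 + (18 + 4 * Λ) * σ) * (a - R')
        + (2 * m + 6 + 2 * Λ) * (σ0 + (18 + 4 * Λ) * σ) * l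
        + (2 * m + 6 + 2 * Λ) * (8 * (2 * m + 6 + 2 * Λ) / l
          + 2 * Real.sqrt ((2 * m + 6 + 2 * Λ) * (σ0 + (18 + 4 * Λ) * σ)))) := by
  have hΛ : 0 ≤ Λ := (norm_nonneg _).trans k.hM
  have hC := k.C0_nonneg
  set A : ℝ := 2 * m + 6 + 2 * Λ with hA
  set ε1 : ℝ := (18 + 4 * Λ) * σ with hε1
  set ε2 : ℝ := σ0 + ε1 with hε2
  have hA0 : 0 ≤ A := by positivity
  have hε10 : 0 ≤ ε1 := by positivity
  have hε20 : 0 ≤ ε2 := by positivity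
  have hXle : ∀ r, 1 ≤ r → (∃ t, s.Bd r m σ t) → ‖s.X k r‖ ≤ k.C0 * A := by
    rintro r hr ⟨t, ht⟩
    refine (s.X_le k ht hr hσ1).trans ?_
    apply mul_le_mul_of_nonneg_left _ hC
    rw [hA]; linarith
  -- first piece
  have f1 := flux_le k.M k.P k.ev k.c k.hc.le k.hP k.Psa k.comm (X := s.X k) (X1 := s.X1 k)
    (q := s.q) (e := s.E k) (r₁ := R) (r₂ := R') (A := k.C0 * A) (ε := k.C0 * ε1) hRR'
    (fun r hr => s.X_hasDerivAt k ⟨hr.1, by linarith [hr.2]⟩ (by linarith [hr.1]))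
    (fun r hr => s.X1_hasDerivAt k ⟨hr.1, by linarith [hr.2]⟩ (by linarith [hr.1]))
    (fun r hr => hXle r (h1R.trans hr.1) ⟨_, hbd1 r hr⟩)
    (fun r hr => by
      have := s.E_le k (hbd1 r hr) (h1R.trans hr.1) hσ
      rwa [zero_add] at this)
  have f2 := flux_le k.M k.P k.ev k.c k.hc.le k.hP k.Psa k.comm (X := s.X k) (X1 := s.X1 k)
    (q := s.q) (e := s.E k) (r₁ := R') (r₂ := a) (A := k.C0 * A) (ε := k.C0 * ε2) hR'a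
    (fun r hr => s.X_hasDerivAt k ⟨hRR'.trans hr.1, by linarith [hr.2]⟩ (by linarith [hr.1]))
    (fun r hr => s.X1_hasDerivAt k ⟨hRR'.trans hr.1, by linarith [hr.2]⟩ (by linarith [hr.1]))
    (fun r hr => hXle r (by linarith [hr.1]) ⟨_, hbd2 r ⟨hr.1, by linarith [hr.2]⟩⟩)
    (fun r hr => s.E_le k (hbd2 r ⟨hr.1, by linarith [hr.2]⟩) (by linarith [hr.1]) hσ)
  have f3 := plug_flux k.M k.P k.ev k.c k.hc.le k.hM k.hP k.Psa k.comm (X := s.X k)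
    (X1 := s.X1 k) (e := s.E k) (a := a) (l := l) (A := k.C0 * A) (ε := k.C0 * ε2) hl
    (fun r hr => s.X_hasDerivAt k ⟨by linarith [hr.1], hr.2⟩ (by linarith [hr.1]))
    (fun r hr => by
      have := s.X1_hasDerivAt k (r := r) ⟨by linarith [hr.1], hr.2⟩ (by linarith [hr.1])
      rwa [hq r hr] at this)
    (fun r hr => hXle r (by linarith [hr.1]) ⟨_, hbd2 r ⟨by linarith [hr.1], hr.2⟩⟩)
    (fun r hr => s.X1_le k (hbd2 r ⟨by linarith [hr.1], hr.2⟩) (by linarith [hr.1]) hσ hσ1)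
    (fun r hr => s.E_le k (hbd2 r ⟨by linarith [hr.1], hr.2⟩) (by linarith [hr.1]) hσ)
  have e1 : Real.sqrt (k.C0 * A * (k.C0 * ε2)) = k.C0 * Real.sqrt (A * ε2) := by
    rw [show k.C0 * A * (k.C0 * ε2) = k.C0 ^ 2 * (A * ε2) by ring,
      Real.sqrt_mul (by positivity), Real.sqrt_sq hC]
  rw [e1] at f3
  have e2 : k.C0 * A * (8 * (k.C0 * A) / l + 2 * (k.C0 * Real.sqrt (A * ε2))) =
      k.C0 ^ 2 * (A * (8 * A / l + 2 * Real.sqrt (A * ε2))) := by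
    field_simp
  rw [e2] at f3
  calc (⟪s.X k R, k.P (s.X1 k R)⟫_ℂ).im ≤ k.C0 * A * (k.C0 * ε2) * l +
        k.C0 ^ 2 * (A * (8 * A / l + 2 * Real.sqrt (A * ε2)))
        + k.C0 * A * (k.C0 * ε2) * (a - R') + k.C0 * A * (k.C0 * ε1) * (R' - R) := by linarith
    _ = _ := by ring

end MP3a4792
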