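import Pool.Agent.Lib.MP_3a4792_mp.ShellBound
import Pool.Agent.Lib.MP_3a4792_mp.Profile

open MeasureTheory Set InnerProductSpace Filter Topology
open scoped ContDiff Laplacian InnerProductSpace

noncomputable section

namespace MP3a4792

/-- rescaled profile -/
def lf (T R : ℝ) (N : ℕ) (F : ℝ → ℝ → ℝ) : ℝ → ℝ → ℝ := fun r θ => F ((r - R) / T) (N * θ)

/-- angular cut-off of the plug as a function of `c = cos y` -/
def chi (w c : ℝ) : ℝ := Real.smoothTransition ((c - 1 + 2 * w) / w)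

/-- `vp` as a function of `c = cos y` -/
def vc (τf x c : ℝ) : ℝ :=
  3 / 4 * Real.sinh (tauP τf x) ^ 2 * (1 - c ^ 2) /
    (Real.cosh (tauP τf x) - Real.sinh (tauP τf x) * c) ^ 2
  - 1 / 2 * Real.sinh (tauP τf x) * c / (Real.cosh (tauP τf x) - Real.sinh (tauP τf x) * c)

/-- the shell potential in terms of `r` and `c = cos (N θ)` -/
def FF (h τf T R l w : ℝ) (N : ℕ) (r c : ℝ) : ℝ :=
  Real.smoothTransition (R + T + 1 + l + 1 - r) *
    ((N : ℝ) ^ 2 / r ^ 2 * vc τf ((r - R) / T) c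
      + h * Real.smoothTransition (r - (R + T)) * chi w c)

/-- the bound for the flux -/
def Phi (Λ m σ σ0 T l : ℝ) : ℝ :=
  (2 * m + 6 + 2 * Λ) * ((18 + 4 * Λ) * σ) * T
    + (2 * m + 6 + 2 * Λ) * (σ0 + (18 + 4 * Λ) * σ) * 1
    + (2 * m + 6 + 2 * Λ) * (σ0 + (18 + 4 * Λ) * σ) * l
    + (2 * m + 6 + 2 * Λ) * (8 * (2 * m + 6 + 2 * Λ) / l
      + 2 * Real.sqrt ((2 * m + 6 + 2 * Λ) * (σ0 + (18 + 4 * Λ) * σ)))

end MP3a4792
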